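import Pool.Agent.Lib.MP_cfca38_ag.Spec
import Pool.Agent.Lib.MP_4fcc12_ag.Lead

/-! MP_cfca38_ag, modules CZ (common zeros of forms) and TL (Tsen-Lang for quadratic forms in
five variables over `k(s, t)`). -/

set_option autoImplicit false

namespace MPcfca

open MvPolynomial

universe u

/-- CZ -/
theorem specCZ : SpecCZ.{u} := by
  intro K _ _ n r g d hr hg hd
  exact Pool.Agent.Lib.MP_4fcc12_ag.exists_common_zero (by simpa using hr) g d hd hg

namespace TLM

/-- the exponent `(a, b)` -/
noncomputable def ex (n : ℕ) (u : Fin (n + 1) × Fin (n + 1)) : Fin 2 →₀ ℕ :=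
  Finsupp.single 0 (u.1 : ℕ) + Finsupp.single 1 (u.2 : ℕ)

theorem ex_zero (n : ℕ) (u : Fin (n + 1) × Fin (n + 1)) : ex n u 0 = u.1 := by
  simp [ex]

theorem ex_one (n : ℕ) (u : Fin (n + 1) × Fin (n + 1)) : ex n u 1 = u.2 := by
  simp [ex]

theorem ex_inj (n : ℕ) : Function.Injective (ex n) := by
  intro u v h
  have h0 := congrArg (fun f => f 0) h
  have h1 := congrArg (fun f => f 1) h
  simp only [ex_zero, ex_one] at h0 h1
  exact Prod.ext (Fin.ext h0) (Fin.ext h1)

variable {k : Type u} [Field k]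

/-- the equations -/
noncomputable def eqn (n : ℕ) (A : Fin 5 → Fin 5 → MvPolynomial (Fin 2) k) (m : Fin 2 →₀ ℕ) :
    MvPolynomial (Fin 5 × (Fin (n + 1) × Fin (n + 1))) k :=
  ∑ i, ∑ j, ∑ u, ∑ v, C (coeff m (A i j * monomial (ex n u + ex n v) 1)) * (X (i, u) * X (j, v))

theorem eqn_hom (n : ℕ) (A : Fin 5 → Fin 5 → MvPolynomial (Fin 2) k) (m : Fin 2 →₀ ℕ) :
    (eqn n A m).IsHomogeneous 2 := by
  unfold eqn
  refine IsHomogeneous.sum _ _ _ fun i _ => IsHomogeneous.sum _ _ _ fun j _ =>
    IsHomogeneous.sum _ _ _ fun u _ => IsHomogeneous.sum _ _ _ fun v _ => ?_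
  have h1 := (isHomogeneous_X k (i, u)).mul (isHomogeneous_X k (j, v))
  have h2 := (isHomogeneous_C (Fin 5 × (Fin (n + 1) × Fin (n + 1)))
    (coeff m (A i j * monomial (ex n u + ex n v) 1))).mul h1
  simpa using h2

/-- the polynomials -/
noncomputable def zz (n : ℕ) (y : Fin 5 × (Fin (n + 1) × Fin (n + 1)) → k) (i : Fin 5) :
    MvPolynomial (Fin 2) k :=
  ∑ u, monomial (ex n u) (y (i, u))

theorem cf_sum (n : ℕ) (A : Fin 5 → Fin 5 → MvPolynomial (Fin 2) k) (m : Fin 2 →₀ ℕ)
    (y : Fin 5 × (Fin (n + 1) × Fin (n + 1)) → k) :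
    coeff m (∑ i, ∑ j, A i j * zz n y i * zz n y j) = eval y (eqn n A m) := by
  unfold eqn zz
  simp only [map_sum, MvPolynomial.coeff_sum, Finset.mul_sum, Finset.sum_mul]
  refine Finset.sum_congr rfl fun i _ => Finset.sum_congr rfl fun j _ => ?_
  rw [Finset.sum_comm]
  refine Finset.sum_congr rfl fun u _ => Finset.sum_congr rfl fun v _ => ?_
  rw [mul_assoc, monomial_mul]
  have h1 : (monomial (ex n u + ex n v) (y (i, u) * y (j, v)) : MvPolynomial (Fin 2) k)
      = C (y (i, u) * y (j, v)) * monomial (ex n u + ex n v) 1 := by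
    rw [C_mul_monomial, mul_one]
  rw [h1, mul_left_comm, coeff_C_mul]
  simp only [map_mul, eval_C, eval_X]
  ring

end TLM

open TLM in
/-- TL -/
theorem specTL : SpecTL.{u} := by
  intro k _ _ A
  -- a common degree bound
  obtain ⟨D, hD⟩ : ∃ D : ℕ, ∀ i j l, degreeOf l (A i j) ≤ D := by
    refine ⟨∑ i, ∑ j, ∑ l, degreeOf l (A i j), fun i j l => ?_⟩
    refine le_trans ?_ (Finset.single_le_sum (f := fun i => ∑ j, ∑ l, degreeOf l (A i j))
      (fun _ _ => Nat.zero_le _) (Finset.mem_univ i))
    refine le_trans ?_ (Finset.single_le_sum (f := fun j => ∑ l, degreeOf l (A i j))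
      (fun _ _ => Nat.zero_le _) (Finset.mem_univ j))
    exact Finset.single_le_sum (f := fun l => degreeOf l (A i j))
      (fun _ _ => Nat.zero_le _) (Finset.mem_univ l)
  set n := 5 * (D + 1) with hn
  obtain ⟨y, hy0, hy⟩ := Pool.Agent.Lib.MP_4fcc12_ag.exists_common_zero (K := k)
    (σ := Fin 5 × (Fin (n + 1) × Fin (n + 1))) (τ := Fin (2 * n + D + 1) × Fin (2 * n + D + 1))
    (by
      simp only [Nat.card_eq_fintype_card, Fintype.card_prod, Fintype.card_fin]
      rw [hn]
      nlinarith [Nat.zero_le D])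
    (fun t => eqn n A (ex (2 * n + D) t)) (fun _ => 2) (fun _ => by norm_num)
    (fun t => eqn_hom n A _)
  refine ⟨zz n y, ?_, ?_⟩
  · intro h
    apply hy0
    funext iu
    obtain ⟨i, u⟩ := iu
    have h1 := congrArg (coeff (ex n u)) (congrFun h i)
    unfold zz at h1
    rw [MvPolynomial.coeff_sum, Finset.sum_eq_single u] at h1
    · simpa using h1
    · intro v _ hv
      rw [coeff_monomial, if_neg]
      exact fun h => hv (ex_inj n h)
    · simp
  · ext m
    rw [cf_sum, coeff_zero]
    by_cases hm : m 0 ≤ 2 * n + D ∧ m 1 ≤ 2 * n + D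
    · have h1 : ex (2 * n + D) (⟨m 0, by omega⟩, ⟨m 1, by omega⟩) = m := by
        ext l
        fin_cases l
        · exact ex_zero _ _
        · exact ex_one _ _
      have := hy (⟨m 0, by omega⟩, ⟨m 1, by omega⟩)
      rwa [h1] at this
    · unfold eqn
      simp only [map_sum]
      refine Finset.sum_eq_zero fun i _ => Finset.sum_eq_zero fun j _ =>
        Finset.sum_eq_zero fun u _ => Finset.sum_eq_zero fun v _ => ?_
      have h1 : coeff m (A i j * monomial (ex n u + ex n v) 1) = 0 := by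
        rw [coeff_mul_monomial']
        split_ifs with h
        · rw [mul_one]
          by_contra hne
          have h2 : ∀ l, (m - (ex n u + ex n v)) l ≤ D := fun l =>
            (monomial_le_degreeOf l (mem_support_iff.2 hne)).trans (hD i j l)
          have h3 := h2 0
          have h4 := h2 1
          have h5 := u.1.2
          have h6 := u.2.2
          have h7 := v.1.2
          have h8 := v.2.2
          simp only [Finsupp.tsub_apply, Finsupp.add_apply, ex_zero, ex_one] at h3 h4
          omega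
        · rfl
      rw [h1]
      simp

end MPcfca
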