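import Pool.Agent.Lib.MP_cfca38_ag.Spec

section
/-! MP_cfca38_ag: lemmas for the modules PR and AL. -/
set_option autoImplicit false
set_option linter.unusedSimpArgs false
set_option linter.unusedSectionVars false

namespace MPcfca
namespace PrM

open MvPolynomial

universe u

/-! ### polynomials in one variable -/

section one
variable {R : Type u} [CommRing R] [IsDomain R]

theorem const_of_mul {P Q : Polynomial R} {a : R} (ha : a ≠ 0)
    (h : P * Q = Polynomial.C a) : P = Polynomial.C (P.eval 0) := by
  have hne : P * Q ≠ 0 := by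
    rw [h]
    exact Polynomial.C_ne_zero.mpr ha
  have hP : P ≠ 0 := left_ne_zero_of_mul hne
  have hQ : Q ≠ 0 := right_ne_zero_of_mul hne
  have h1 := congrArg Polynomial.natDegree h
  rw [Polynomial.natDegree_mul hP hQ, Polynomial.natDegree_C] at h1
  have h2 : P.natDegree = 0 := by omega
  have h3 := Polynomial.eq_C_of_natDegree_eq_zero h2
  rw [← Polynomial.coeff_zero_eq_eval_zero]
  exact h3

theorem mono_of_deg {P : Polynomial R} (h : P.natDegree ≤ P.natTrailingDegree) :
    P = Polynomial.C (P.eval 1) * Polynomial.X ^ P.natDegree := by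
  have h1 : P = Polynomial.C (P.coeff P.natDegree) * Polynomial.X ^ P.natDegree := by
    ext i
    rw [Polynomial.coeff_C_mul, Polynomial.coeff_X_pow]
    by_cases hi : i = P.natDegree
    · rw [if_pos hi, mul_one, hi]
    · rw [if_neg hi, mul_zero]
      rcases lt_or_gt_of_ne hi with h2 | h2
      · exact Polynomial.coeff_eq_zero_of_lt_natTrailingDegree (lt_of_lt_of_le h2 h)
      · exact Polynomial.coeff_eq_zero_of_natDegree_lt h2
  have h2 : P.eval 1 = P.coeff P.natDegree := by
    conv_lhs => rw [h1]
    simp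
  rw [h2]
  exact h1

theorem mono_of_mul {P Q : Polynomial R} {a : R} (ha : a ≠ 0) {n : ℕ}
    (h : P * Q = Polynomial.C a * Polynomial.X ^ n) :
    ∃ d e : ℕ, d + e = n ∧ P = Polynomial.C (P.eval 1) * Polynomial.X ^ d ∧
      Q = Polynomial.C (Q.eval 1) * Polynomial.X ^ e := by
  have hne : P * Q ≠ 0 := by
    rw [h]
    exact mul_ne_zero (Polynomial.C_ne_zero.mpr ha) (pow_ne_zero _ Polynomial.X_ne_zero)
  have hP : P ≠ 0 := left_ne_zero_of_mul hne
  have hQ : Q ≠ 0 := right_ne_zero_of_mul hne
  have h1 := congrArg Polynomial.natDegree h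
  rw [Polynomial.natDegree_mul hP hQ, Polynomial.natDegree_C_mul_X_pow n a ha] at h1
  have h2 := congrArg Polynomial.natTrailingDegree h
  rw [Polynomial.natTrailingDegree_mul hP hQ] at h2
  have h3 : (Polynomial.C a * Polynomial.X ^ n : Polynomial R).natTrailingDegree = n := by
    rw [Polynomial.C_mul_X_pow_eq_monomial]
    exact Polynomial.natTrailingDegree_monomial ha
  rw [h3] at h2
  have h4 := Polynomial.natTrailingDegree_le_natDegree P
  have h5 := Polynomial.natTrailingDegree_le_natDegree Q
  exact ⟨P.natDegree, Q.natDegree, h1, mono_of_deg (by omega), mono_of_deg (by omega)⟩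

end one

/-! ### points -/

section pts
variable {N : ℕ} {k : Type u} [Field k]

/-- the coordinate ring -/
abbrev RR (N : ℕ) (k : Type u) [Field k] : Type u := MvPolynomial (Idx N) k

noncomputable abbrev VV (N : ℕ) (k : Type u) [Field k] (j : Fin N) : RR N k :=
  X (Sum.inl (0, j))
noncomputable abbrev WW (N : ℕ) (k : Type u) [Field k] (j : Fin N) : RR N k :=
  X (Sum.inl (1, j))
noncomputable abbrev XX (N : ℕ) (k : Type u) [Field k] : RR N k := X (Sum.inr 0)
noncomputable abbrev YY (N : ℕ) (k : Type u) [Field k] : RR N k := X (Sum.inr 1)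

/-- a point -/
def pt {A : Type u} (v w : Fin N → A) (x y : A) : Idx N → A :=
  Sum.elim (fun ij : Fin 2 × Fin N => if ij.1 = 0 then v ij.2 else w ij.2)
    (fun l : Fin 2 => if l = 0 then x else y)

theorem pt_surj {A : Type u} (z : Idx N → A) : ∃ v w x y, z = pt v w x y := by
  refine ⟨fun j => z (Sum.inl (0, j)), fun j => z (Sum.inl (1, j)),
    z (Sum.inr 0), z (Sum.inr 1), ?_⟩
  funext i
  unfold pt
  rcases i with ⟨i, j⟩ | l
  · fin_cases i <;> simp
  · fin_cases l <;> simp

theorem ev_self (f : RR N k) : ev f (VV N k) (WW N k) (XX N k) (YY N k) = f := by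
  unfold ev
  conv_rhs => rw [← aeval_X_left_apply f]
  congr 2
  funext i
  rcases i with ⟨i, j⟩ | l
  · fin_cases i <;> simp
  · fin_cases l <;> simp

theorem ev_eq_eval (f : RR N k) (v w : Fin N → k) (x y : k) :
    ev f v w x y = eval (pt v w x y) f := by
  unfold ev
  rw [aeval_eq_eval]
  rfl

theorem ext_ev [Infinite k] {f g : RR N k} (h : ∀ (v w : Fin N → k) (x y : k), ev f v w x y = ev g v w x y) :
    f = g := by
  apply MvPolynomial.funext
  intro z
  obtain ⟨v, w, x, y, rfl⟩ := pt_surj z
  have := h v w x y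
  rwa [ev_eq_eval, ev_eq_eval] at this

/-- a polynomial which vanishes where `X` is not zero is zero -/
theorem ext_ev_X [Infinite k] {f g : RR N k}
    (h : ∀ (v w : Fin N → k) (x y : k), x ≠ 0 → ev f v w x y = ev g v w x y) : f = g := by
  have h1 : XX N k * (f - g) = 0 := by
    apply ext_ev
    intro v w x y
    by_cases hx : x = 0
    · unfold ev
      simp [hx]
    · have h2 := h v w x y hx
      unfold ev at h2 ⊢
      rw [map_mul, map_sub, h2, sub_self, mul_zero, map_zero]
  rcases mul_eq_zero.mp h1 with h2 | h2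
  · exact absurd h2 (X_ne_zero _)
  · exact sub_eq_zero.mp h2

theorem ev_mul {A : Type u} [CommRing A] [Algebra k A] (f g : RR N k) (v w : Fin N → A)
    (x y : A) : ev (f * g) v w x y = ev f v w x y * ev g v w x y := by
  unfold ev
  rw [map_mul]

theorem ev_C {A : Type u} [CommRing A] [Algebra k A] (c : k) (v w : Fin N → A)
    (x y : A) : ev (N := N) (C c) v w x y = algebraMap k A c := by
  unfold ev
  rw [aeval_C]

/-- the specialisation `R[c] → k` -/
noncomputable def sp (v w : Fin N → k) (x y c : k) : Polynomial (RR N k) →ₐ[k] k :=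
  (evA k c).comp (Polynomial.mapAlgHom (aeval (pt v w x y)))

variable (v w : Fin N → k) (x y c : k)

theorem sp_C (a : RR N k) : sp v w x y c (Polynomial.C a) = ev a v w x y := by
  unfold sp
  rw [AlgHom.comp_apply, Polynomial.coe_mapAlgHom, Polynomial.map_C, evA_C, ev_eq_eval]
  rw [← aeval_eq_eval]
  rfl

theorem sp_X : sp v w x y c (Polynomial.X : Polynomial (RR N k)) = c := by
  unfold sp
  rw [AlgHom.comp_apply, Polynomial.coe_mapAlgHom, Polynomial.map_X, evA_X]

theorem sp_V (j : Fin N) : sp v w x y c (Polynomial.C (VV N k j)) = v j := by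
  rw [sp_C]
  simp [ev]
theorem sp_W (j : Fin N) : sp v w x y c (Polynomial.C (WW N k j)) = w j := by
  rw [sp_C]
  simp [ev]
theorem sp_XX : sp v w x y c (Polynomial.C (XX N k)) = x := by
  rw [sp_C]
  simp [ev]
theorem sp_YY : sp v w x y c (Polynomial.C (YY N k)) = y := by
  rw [sp_C]
  simp [ev]

/-- constants -/
theorem ev_CC (f : RR N k) (a b : Fin N → RR N k) (x y : RR N k) :
    ev f (fun j => Polynomial.C (a j)) (fun j => Polynomial.C (b j)) (Polynomial.C x)
      (Polynomial.C y) = Polynomial.C (ev f a b x y) := by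
  have := ev_map f (Polynomial.CAlgHom (R := k) (A := RR N k)) a b x y
  simpa using this.symm

theorem ev_C10 (f : RR N k) (a b : Fin N → RR N k) :
    al f (fun j => Polynomial.C (a j)) (fun j => Polynomial.C (b j)) =
      Polynomial.C (al f a b) := by
  have := ev_CC f a b 1 0
  simpa [al] using this

/-! ### homogeneous polynomials from scaling -/

theorem eval_scale {n d : ℕ} (g : MvPolynomial (Fin n) k) (hg : g.IsHomogeneous d)
    (z : Fin n → k) (c : k) : eval (fun i => c * z i) g = c ^ d * eval z g := by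
  classical
  rw [eval_eq', eval_eq', Finset.mul_sum]
  apply Finset.sum_congr rfl
  intro s hs
  have h1 : Finsupp.weight 1 s = d := hg (mem_support_iff.mp hs)
  have h2 : Finsupp.degree s = Finsupp.weight 1 s := by
    rw [Finsupp.degree_eq_weight_one]
    rfl
  rw [← h2, Finsupp.degree_eq_sum] at h1
  simp only [mul_pow]
  rw [Finset.prod_mul_distrib, Finset.prod_pow_eq_pow_sum, h1]
  ring

theorem homog_of_scale [Infinite k] {n d : ℕ} (g : MvPolynomial (Fin n) k)
    (h : ∀ (z : Fin n → k) (c : k), eval (fun i => c * z i) g = c ^ d * eval z g) :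
    g.IsHomogeneous d := by
  classical
  have hsum := g.sum_homogeneousComponent
  have key : ∀ j, j ≠ d → homogeneousComponent j g = 0 := by
    intro j hj
    by_cases hjt : j < g.totalDegree + 1
    swap
    · exact homogeneousComponent_eq_zero _ _ (by omega)
    apply MvPolynomial.funext
    intro z
    rw [map_zero]
    let P : Polynomial k := ∑ i ∈ Finset.range (g.totalDegree + 1),
      Polynomial.C (eval z (homogeneousComponent i g)) * Polynomial.X ^ i
    let Q : Polynomial k := Polynomial.C (eval z g) * Polynomial.X ^ d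
    have hPQ : P = Q := by
      apply Polynomial.funext
      intro c
      have h1 := h z c
      have h2 : P.eval c = eval (fun i => c * z i) g := by
        conv_rhs => rw [← hsum]
        rw [map_sum, Polynomial.eval_finsetSum]
        apply Finset.sum_congr rfl
        intro i _
        rw [Polynomial.eval_mul, Polynomial.eval_C, Polynomial.eval_pow, Polynomial.eval_X]
        have h3 := (homogeneousComponent_isHomogeneous i g)
        have h5 : eval (fun i => c * z i) (homogeneousComponent i g)
            = c ^ i * eval z (homogeneousComponent i g) := by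
          exact eval_scale _ h3 z c
        rw [h5]
        ring
      rw [h2, h1, Polynomial.eval_mul, Polynomial.eval_C, Polynomial.eval_pow, Polynomial.eval_X]
      ring
    have h6 := congrArg (fun S : Polynomial k => S.coeff j) hPQ
    simp only [P, Q, Polynomial.finsetSum_coeff, Polynomial.coeff_C_mul, Polynomial.coeff_X_pow,
      if_neg hj, mul_zero, mul_ite, mul_one] at h6
    rw [Finset.sum_eq_single j] at h6
    · simpa using h6
    · intro b _ hb
      rw [if_neg (Ne.symm hb)]
    · intro hb
      exact absurd (Finset.mem_range.mpr hjt) hb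
  rw [← hsum]
  apply IsHomogeneous.sum
  intro j _
  by_cases hj : j = d
  · rw [hj]
    exact homogeneousComponent_isHomogeneous d g
  · rw [key j hj]
    exact isHomogeneous_zero _ _ _

end pts

end PrM
end MPcfca
end

section
/-! MP_cfca38_ag: module PR. The polynomial `f` is prime. -/
set_option autoImplicit false
set_option linter.unusedSimpArgs false
set_option linter.unusedSectionVars false

namespace MPcfca
namespace PrM

open MvPolynomial

universe u

section
variable {p m : ℕ} [hp : Fact p.Prime] {k : Type u} [Field k] [IsAlgClosed k] [CharP k p]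
  {f : MvPolynomial (Idx (p + 2)) k}

theorem indep {n : ℕ} (x : Fin (n + 1) → k) (j : Fin (n + 1)) (hx : x j ≠ 0) (w : Fin n → k)
    (hw : w ≠ 0) : LinearIndependent k ![x, j.insertNth (α := fun _ => k) 0 w] := by
  rw [LinearIndependent.pair_iff]
  intro s t h
  have h1 := congrFun h j
  simp only [Pi.add_apply, Pi.smul_apply, smul_eq_mul, Fin.insertNth_apply_same, mul_zero,
    add_zero, Pi.zero_apply] at h1
  have hs : s = 0 := by
    rcases mul_eq_zero.mp h1 with h2 | h2
    · exact h2
    · exact absurd h2 hx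
  refine ⟨hs, ?_⟩
  obtain ⟨i, hi⟩ : ∃ i, w i ≠ 0 := by
    by_contra hcon
    push Not at hcon
    exact hw (funext hcon)
  have h2 := congrFun h (j.succAbove i)
  simp only [Pi.add_apply, Pi.smul_apply, smul_eq_mul, Fin.insertNth_apply_succAbove, hs,
    zero_mul, zero_add, Pi.zero_apply] at h2
  rcases mul_eq_zero.mp h2 with h3 | h3
  · exact h3
  · exact absurd h3 hi

theorem two_forms (hCZ : SpecCZ.{u}) (x : Fin (p + 2) → k) (hx : x ≠ 0)
    (g1 g2 : RR (p + 2) k) (e1 e2 : ℕ) (he1 : 0 < e1) (he2 : 0 < e2)
    (h1 : ∀ (w : Fin (p + 2) → k) (c : k), al g1 x (fun j => c * w j) = c ^ e1 * al g1 x w)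
    (h2 : ∀ (w : Fin (p + 2) → k) (c : k), al g2 x (fun j => c * w j) = c ^ e2 * al g2 x w) :
    ∃ w : Fin (p + 2) → k, LinearIndependent k ![x, w] ∧ al g1 x w = 0 ∧ al g2 x w = 0 := by
  obtain ⟨j, hj⟩ : ∃ i, x i ≠ 0 := by
    by_contra hcon
    push Not at hcon
    exact hx (funext hcon)
  let G : RR (p + 2) k → MvPolynomial (Fin (p + 1)) k := fun g =>
    al g (A := MvPolynomial (Fin (p + 1)) k) (fun i => C (x i))
      (j.insertNth (α := fun _ => MvPolynomial (Fin (p + 1)) k) 0 X)
  have hG : ∀ (g : RR (p + 2) k) (z : Fin (p + 1) → k),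
      eval z (G g) = al g x (j.insertNth (α := fun _ => k) 0 z) := by
    intro g z
    have h3 := al_map g (aeval (R := k) z) (fun i => C (x i))
      (j.insertNth (α := fun _ => MvPolynomial (Fin (p + 1)) k) 0 X)
    rw [← aeval_eq_eval]
    rw [h3]
    congr 1
    · funext i
      rw [aeval_C]
      rfl
    · funext i
      rcases Fin.eq_self_or_eq_succAbove j i with hi | ⟨i', hi⟩
      · rw [hi, Fin.insertNth_apply_same, Fin.insertNth_apply_same, map_zero]
      · rw [hi, Fin.insertNth_apply_succAbove, Fin.insertNth_apply_succAbove, aeval_X]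
  have hins : ∀ (z : Fin (p + 1) → k) (c : k),
      (j.insertNth (α := fun _ => k) 0 (fun i => c * z i)) =
        fun i => c * (j.insertNth (α := fun _ => k) 0 z) i := by
    intro z c
    funext i
    rcases Fin.eq_self_or_eq_succAbove j i with hi | ⟨i', hi⟩
    · rw [hi, Fin.insertNth_apply_same, Fin.insertNth_apply_same, mul_zero]
    · rw [hi, Fin.insertNth_apply_succAbove, Fin.insertNth_apply_succAbove]
  have hG1 : (G g1).IsHomogeneous e1 := by
    apply homog_of_scale
    intro z c
    rw [hG, hG, hins, h1]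
  have hG2 : (G g2).IsHomogeneous e2 := by
    apply homog_of_scale
    intro z c
    rw [hG, hG, hins, h2]
  obtain ⟨z, hz, hz2⟩ := hCZ k (p + 1) 2 ![G g1, G g2] ![e1, e2]
    (by have := hp.out.two_le; omega)
    (by
      intro i
      fin_cases i
      · exact hG1
      · exact hG2)
    (by
      intro i
      fin_cases i
      · exact he1
      · exact he2)
  refine ⟨j.insertNth (α := fun _ => k) 0 z, indep x j hj z hz, ?_, ?_⟩
  · rw [← hG]
    exact hz2 0
  · rw [← hG]
    exact hz2 1

theorem sing (hg : Good p m f) (f1 f2 : RR (p + 2) k) (h : f = f1 * f2)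
    (x w : Fin (p + 2) → k) (hi : LinearIndependent k ![x, w]) (h1 : al f1 x w = 0)
    (h2 : al f2 x w = 0) : False := by
  have h3 : ev f x w 1 0 = 0 := by
    rw [h, ev_mul]
    unfold al at h1
    rw [h1, zero_mul]
  obtain ⟨i, hi2⟩ := hg.smooth x w 1 0 hi (Or.inl one_ne_zero) h3
  apply hi2
  rw [h, Derivation.leibniz]
  unfold al at h1 h2
  unfold ev at h1 h2 ⊢
  rw [map_add, smul_eq_mul, smul_eq_mul, map_mul, map_mul, h1, h2, zero_mul, zero_mul, add_zero]

theorem m_pos (hg : Good p m f) : 0 < m := by
  rcases hg.hm with h | h <;> omega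

theorem f_ne (hg : Good p m f) : f ≠ 0 := by
  intro h
  have hz : (fun _ : Fin (p + 1) => (1 : k)) ≠ 0 := by
    intro h2
    have := congrFun h2 0
    simp at this
  have hi := indep (k := k) (fun _ : Fin (p + 2) => (1 : k)) 0 one_ne_zero _ hz
  refine sing hg 0 0 (by rw [h, mul_zero]) _ _ hi ?_ ?_
  · unfold al ev
    rw [map_zero]
  · unfold al ev
    rw [map_zero]

theorem proot (a : k) : ∃ b : k, b ^ p = a :=
  IsAlgClosed.exists_pow_nat_eq a hp.out.pos

theorem al_pt_ne (hg : Good p m f) : ∃ x w : Fin (p + 2) → k, al f x w ≠ 0 := by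
  by_contra hcon
  push Not at hcon
  apply f_ne hg
  apply ext_ev_X
  intro v w x y hx
  obtain ⟨a, ha⟩ := proot (p := p) x
  obtain ⟨b, hb⟩ := proot (p := p) y
  have h1 := al_line hg.sec v w a b
  rw [hcon, ha, hb] at h1
  have ha0 : a ≠ 0 := by
    intro h0
    rw [h0, zero_pow hp.out.ne_zero] at ha
    exact hx ha.symm
  have h2 : ev f v w x y = 0 := by
    rcases mul_eq_zero.mp h1.symm with h3 | h3
    · exact absurd h3 (pow_ne_zero _ ha0)
    · exact h3
  rw [h2]
  unfold ev
  rw [map_zero]

theorem al_gen_ne (hg : Good p m f) : al f (VV (p + 2) k) (WW (p + 2) k) ≠ 0 := by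
  intro h
  obtain ⟨x, w, hxw⟩ := al_pt_ne hg
  apply hxw
  have h1 := al_map f (aeval (R := k) (pt x w 1 0)) (VV (p + 2) k) (WW (p + 2) k)
  rw [h, map_zero] at h1
  rw [h1]
  congr 1
  · funext j
    simp [pt]
  · funext j
    simp [pt]

/-- invariance of the factors, first form -/
theorem inv1 (hg : Good p m f) (f1 f2 : RR (p + 2) k) (h : f = f1 * f2)
    (v w : Fin (p + 2) → k) (x y c : k) :
    ev f1 v (fun j => w j + c * v j) (x - c ^ p * y) y = ev f1 v w x y := by
  let N := p + 2
  let Vc : Fin N → Polynomial (RR N k) := fun j => Polynomial.C (VV N k j)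
  let Wc : Fin N → Polynomial (RR N k) := fun j => Polynomial.C (WW N k j)
  let W' : Fin N → Polynomial (RR N k) := fun j => Wc j + Polynomial.X * Vc j
  let x' : Polynomial (RR N k) := Polynomial.C (XX N k)
    - Polynomial.X ^ p * Polynomial.C (YY N k)
  let P : RR N k → Polynomial (RR N k) := fun g => ev g Vc W' x' (Polynomial.C (YY N k))
  have hPf : P f = Polynomial.C f := by
    have h1 := ev_lin hg.sec Vc Wc Polynomial.X 1 x' (Polynomial.C (YY N k))
    have h2 : W' = fun j => Polynomial.X * Vc j + 1 * Wc j := by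
      funext j
      simp only [W']
      ring
    have h3 : x' + Polynomial.C (YY N k) * Polynomial.X ^ p = Polynomial.C (XX N k) := by
      simp only [x']
      ring
    simp only [P]
    rw [h2, h1, h3, one_pow, one_pow, one_mul, mul_one]
    simp only [Vc, Wc]
    rw [ev_CC, ev_self]
  have hPm : P f1 * P f2 = Polynomial.C f := by
    rw [← hPf, h]
    simp only [P]
    rw [ev_mul]
  have h4 := const_of_mul (f_ne hg) hPm
  have h5 : (P f1).eval 0 = f1 := by
    rw [← evA_eval (k := k)]
    simp only [P]
    rw [ev_map]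
    have e1 : (fun j => evA k (0 : RR N k) (Vc j)) = VV N k := by
      funext j
      simp only [Vc, evA_C]
    have e2 : (fun j => evA k (0 : RR N k) (W' j)) = WW N k := by
      funext j
      simp only [W', Wc, Vc, map_add, map_mul, evA_C, evA_X, zero_mul, add_zero]
    have e3 : evA k (0 : RR N k) x' = XX N k := by
      simp only [x', map_sub, map_mul, map_pow, evA_C, evA_X, zero_pow hp.out.ne_zero, zero_mul,
        sub_zero]
    rw [e1, e2, e3, evA_C, ev_self]
  rw [h5] at h4
  have h6 := congrArg (sp v w x y c) h4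
  rw [sp_C] at h6
  rw [← h6]
  simp only [P]
  rw [ev_map]
  have e1 : (fun j => sp v w x y c (Vc j)) = v := by
    funext j
    simp only [Vc]
    exact sp_V v w x y c j
  have e2 : (fun j => sp v w x y c (W' j)) = fun j => w j + c * v j := by
    funext j
    simp only [W', Wc, Vc]
    rw [map_add, map_mul, sp_W, sp_X, sp_V]
  have e3 : sp v w x y c x' = x - c ^ p * y := by
    simp only [x']
    rw [map_sub, map_mul, map_pow, sp_XX, sp_X, sp_YY]
  rw [e1, e2, e3, sp_YY]

/-- invariance of the factors, second form -/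
theorem inv2 (hg : Good p m f) (f1 f2 : RR (p + 2) k) (h : f = f1 * f2)
    (v w : Fin (p + 2) → k) (x y c : k) :
    ev f1 (fun j => v j + c * w j) w x (y - c ^ p * x) = ev f1 v w x y := by
  let N := p + 2
  let Vc : Fin N → Polynomial (RR N k) := fun j => Polynomial.C (VV N k j)
  let Wc : Fin N → Polynomial (RR N k) := fun j => Polynomial.C (WW N k j)
  let V' : Fin N → Polynomial (RR N k) := fun j => Vc j + Polynomial.X * Wc j
  let y' : Polynomial (RR N k) := Polynomial.C (YY N k)
    - Polynomial.X ^ p * Polynomial.C (XX N k)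
  let P : RR N k → Polynomial (RR N k) := fun g => ev g V' Wc (Polynomial.C (XX N k)) y'
  have hPf : P f = Polynomial.C f := by
    have h1 := ev_lin' hg.sec Vc Wc 1 Polynomial.X (Polynomial.C (XX N k)) y'
    have h2 : V' = fun j => 1 * Vc j + Polynomial.X * Wc j := by
      funext j
      simp only [V']
      ring
    have h3 : Polynomial.C (XX N k) * Polynomial.X ^ p + y' = Polynomial.C (YY N k) := by
      simp only [y']
      ring
    simp only [P]
    rw [h2, h1, h3, one_pow, one_pow, one_mul, mul_one]
    simp only [Vc, Wc]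
    rw [ev_CC, ev_self]
  have hPm : P f1 * P f2 = Polynomial.C f := by
    rw [← hPf, h]
    simp only [P]
    rw [ev_mul]
  have h4 := const_of_mul (f_ne hg) hPm
  have h5 : (P f1).eval 0 = f1 := by
    rw [← evA_eval (k := k)]
    simp only [P]
    rw [ev_map]
    have e1 : (fun j => evA k (0 : RR N k) (Wc j)) = WW N k := by
      funext j
      simp only [Wc, evA_C]
    have e2 : (fun j => evA k (0 : RR N k) (V' j)) = VV N k := by
      funext j
      simp only [V', Wc, Vc, map_add, map_mul, evA_C, evA_X, zero_mul, add_zero]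
    have e3 : evA k (0 : RR N k) y' = YY N k := by
      simp only [y', map_sub, map_mul, map_pow, evA_C, evA_X, zero_pow hp.out.ne_zero, zero_mul,
        sub_zero]
    rw [e1, e2, e3, evA_C, ev_self]
  rw [h5] at h4
  have h6 := congrArg (sp v w x y c) h4
  rw [sp_C] at h6
  rw [← h6]
  simp only [P]
  rw [ev_map]
  have e1 : (fun j => sp v w x y c (Wc j)) = w := by
    funext j
    simp only [Wc]
    exact sp_W v w x y c j
  have e2 : (fun j => sp v w x y c (V' j)) = fun j => v j + c * w j := by
    funext j
    simp only [V', Wc, Vc]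
    rw [map_add, map_mul, sp_W, sp_X, sp_V]
  have e3 : sp v w x y c y' = y - c ^ p * x := by
    simp only [y']
    rw [map_sub, map_mul, map_pow, sp_XX, sp_X, sp_YY]
  rw [e1, e2, e3, sp_XX]

/-- the factors are homogeneous in `(X, Y)` -/
theorem hom1 (hg : Good p m f) (f1 f2 : RR (p + 2) k) (h : f = f1 * f2) :
    ∃ d : ℕ, ∀ (v w : Fin (p + 2) → k) (x y c : k),
      ev f1 v w (c * x) (c * y) = c ^ d * ev f1 v w x y := by
  let N := p + 2
  let Vc : Fin N → Polynomial (RR N k) := fun j => Polynomial.C (VV N k j)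
  let Wc : Fin N → Polynomial (RR N k) := fun j => Polynomial.C (WW N k j)
  let P : RR N k → Polynomial (RR N k) := fun g => ev g Vc Wc
    (Polynomial.X * Polynomial.C (XX N k)) (Polynomial.X * Polynomial.C (YY N k))
  have hPf : P f = Polynomial.C f * Polynomial.X ^ m := by
    have h1 := hom_all hg.sec Vc Wc (Polynomial.C (XX N k)) (Polynomial.C (YY N k)) Polynomial.X
    simp only [P]
    rw [h1]
    simp only [Vc, Wc]
    rw [ev_CC, ev_self, mul_comm]
  have hPm : P f1 * P f2 = Polynomial.C f * Polynomial.X ^ m := by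
    rw [← hPf, h]
    simp only [P]
    rw [ev_mul]
  obtain ⟨d, e, _, h4, _⟩ := mono_of_mul (f_ne hg) hPm
  have h5 : (P f1).eval 1 = f1 := by
    rw [← evA_eval (k := k)]
    simp only [P]
    rw [ev_map]
    have e1 : (fun j => evA k (1 : RR N k) (Vc j)) = VV N k := by
      funext j
      simp only [Vc, evA_C]
    have e2 : (fun j => evA k (1 : RR N k) (Wc j)) = WW N k := by
      funext j
      simp only [Wc, evA_C]
    rw [e1, e2, map_mul, map_mul, evA_X, evA_C, evA_C, one_mul, one_mul, ev_self]
  rw [h5] at h4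
  refine ⟨d, ?_⟩
  intro v w x y c
  have h6 := congrArg (sp v w x y c) h4
  rw [map_mul, map_pow, sp_C, sp_X] at h6
  rw [mul_comm (c ^ d), ← h6]
  simp only [P]
  rw [ev_map]
  have e1 : (fun j => sp v w x y c (Vc j)) = v := by
    funext j
    simp only [Vc]
    exact sp_V v w x y c j
  have e2 : (fun j => sp v w x y c (Wc j)) = w := by
    funext j
    simp only [Wc]
    exact sp_W v w x y c j
  rw [e1, e2, map_mul, map_mul, sp_X, sp_XX, sp_YY]

/-- the factors of `al` are homogeneous in `w` -/
theorem scw (hg : Good p m f) (f1 f2 : RR (p + 2) k) (h : f = f1 * f2) :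
    ∃ d e : ℕ, d + e = m ∧ (∀ (x w : Fin (p + 2) → k) (c : k),
      al f1 x (fun j => c * w j) = c ^ d * al f1 x w) ∧
      (∀ (x w : Fin (p + 2) → k) (c : k),
      al f2 x (fun j => c * w j) = c ^ e * al f2 x w) := by
  let N := p + 2
  let Vc : Fin N → Polynomial (RR N k) := fun j => Polynomial.C (VV N k j)
  let Wc : Fin N → Polynomial (RR N k) := fun j => Polynomial.C (WW N k j)
  let P : RR N k → Polynomial (RR N k) := fun g => al g Vc (fun j => Polynomial.X * Wc j)
  have hPf : P f = Polynomial.C (al f (VV N k) (WW N k)) * Polynomial.X ^ m := by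
    have h1 := al_smul hg.sec Vc Wc Polynomial.X
    simp only [P]
    rw [h1]
    simp only [Vc, Wc]
    rw [ev_C10, mul_comm]
  have hPm : P f1 * P f2 = Polynomial.C (al f (VV N k) (WW N k)) * Polynomial.X ^ m := by
    rw [← hPf, h]
    simp only [P, al]
    rw [ev_mul]
  obtain ⟨d, e, hde, h4, h4'⟩ := mono_of_mul (al_gen_ne hg) hPm
  have h5 : ∀ g : RR N k, (P g).eval 1 = al g (VV N k) (WW N k) := by
    intro g
    rw [← evA_eval (k := k)]
    simp only [P]
    rw [al_map]
    have e1 : (fun j => evA k (1 : RR N k) (Vc j)) = VV N k := by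
      funext j
      simp only [Vc, evA_C]
    have e2 : (fun j => evA k (1 : RR N k) (Polynomial.X * Wc j)) = WW N k := by
      funext j
      simp only [Wc]
      rw [map_mul, evA_X, evA_C, one_mul]
    rw [e1, e2]
  have h7 : ∀ (g : RR N k) (d : ℕ), P g = Polynomial.C ((P g).eval 1) * Polynomial.X ^ d →
      ∀ (x w : Fin (p + 2) → k) (c : k), al g x (fun j => c * w j) = c ^ d * al g x w := by
    intro g d h8 x w c
    rw [h5] at h8
    have h6 := congrArg (sp x w 1 0 c) h8
    rw [map_mul, map_pow, sp_X] at h6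
    simp only [P] at h6
    rw [al_map] at h6
    have e1 : (fun j => sp x w 1 0 c (Vc j)) = x := by
      funext j
      simp only [Vc]
      exact sp_V x w 1 0 c j
    have e2 : (fun j => sp x w 1 0 c (Polynomial.X * Wc j)) = fun j => c * w j := by
      funext j
      simp only [Wc]
      rw [map_mul, sp_X, sp_W]
    have e3 : sp x w 1 0 c (Polynomial.C (al g (VV N k) (WW N k))) = al g x w := by
      have e4 : (fun j => sp x w 1 0 c (Polynomial.C (VV N k j))) = x :=
        funext fun j => sp_V x w 1 0 c j
      have e5 : (fun j => sp x w 1 0 c (Polynomial.C (WW N k j))) = w :=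
        funext fun j => sp_W x w 1 0 c j
      rw [← ev_C10, al_map, e4, e5]
    rw [e1, e2, e3] at h6
    rw [h6, mul_comm]
  exact ⟨d, e, hde, h7 f1 d h4, h7 f2 e h4'⟩

/-- the factors of `al` are homogeneous in `x` -/
theorem scx (hg : Good p m f) (f1 f2 : RR (p + 2) k) (h : f = f1 * f2) :
    ∃ d : ℕ, ∀ (x w : Fin (p + 2) → k) (c : k),
      al f1 (fun j => c * x j) w = c ^ d * al f1 x w := by
  let N := p + 2
  let Vc : Fin N → Polynomial (RR N k) := fun j => Polynomial.C (VV N k j)
  let Wc : Fin N → Polynomial (RR N k) := fun j => Polynomial.C (WW N k j)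
  let P : RR N k → Polynomial (RR N k) := fun g => al g (fun j => Polynomial.X * Vc j) Wc
  have hPf : P f = Polynomial.C (al f (VV N k) (WW N k)) * Polynomial.X ^ (m * (p + 1)) := by
    have h1 := al_smul_left hg.sec Vc Wc Polynomial.X
    simp only [P]
    rw [h1]
    simp only [Vc, Wc]
    rw [ev_C10, mul_comm]
  have hPm : P f1 * P f2 = Polynomial.C (al f (VV N k) (WW N k)) *
      Polynomial.X ^ (m * (p + 1)) := by
    rw [← hPf, h]
    simp only [P, al]
    rw [ev_mul]
  obtain ⟨d, e, hde, h4, h4'⟩ := mono_of_mul (al_gen_ne hg) hPm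
  have h5 : (P f1).eval 1 = al f1 (VV N k) (WW N k) := by
    rw [← evA_eval (k := k)]
    simp only [P]
    rw [al_map]
    have e1 : (fun j => evA k (1 : RR N k) (Polynomial.X * Vc j)) = VV N k := by
      funext j
      simp only [Vc]
      rw [map_mul, evA_X, evA_C, one_mul]
    have e2 : (fun j => evA k (1 : RR N k) (Wc j)) = WW N k := by
      funext j
      simp only [Wc, evA_C]
    rw [e1, e2]
  rw [h5] at h4
  refine ⟨d, ?_⟩
  intro x w c
  have h6 := congrArg (sp x w 1 0 c) h4
  rw [map_mul, map_pow, sp_X] at h6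
  simp only [P] at h6
  rw [al_map] at h6
  have e1 : (fun j => sp x w 1 0 c (Polynomial.X * Vc j)) = fun j => c * x j := by
    funext j
    simp only [Vc]
    rw [map_mul, sp_X, sp_V]
  have e2 : (fun j => sp x w 1 0 c (Wc j)) = w := by
    funext j
    simp only [Wc]
    exact sp_W x w 1 0 c j
  have e3 : sp x w 1 0 c (Polynomial.C (al f1 (VV N k) (WW N k))) = al f1 x w := by
    have e4 : (fun j => sp x w 1 0 c (Polynomial.C (VV N k j))) = x :=
      funext fun j => sp_V x w 1 0 c j
    have e5 : (fun j => sp x w 1 0 c (Polynomial.C (WW N k j))) = w :=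
      funext fun j => sp_W x w 1 0 c j
    rw [← ev_C10, al_map, e4, e5]
  rw [e1, e2, e3] at h6
  rw [h6, mul_comm]

/-- a factor of degree zero is a unit -/
theorem half (hCZ : SpecCZ.{u}) (hg : Good p m f) (f1 f2 : RR (p + 2) k) (h : f = f1 * f2)
    (h1 : ∀ (x w : Fin (p + 2) → k) (c : k), al f1 x (fun j => c * w j) = c ^ 0 * al f1 x w)
    (h2 : ∀ (x w : Fin (p + 2) → k) (c : k), al f2 x (fun j => c * w j) = c ^ m * al f2 x w) :
    IsUnit f1 := by
  have hm := m_pos hg
  have hA : ∀ x w : Fin (p + 2) → k, al f1 x w = al f1 x (fun _ => 0) := by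
    intro x w
    have h3 := h1 x w 0
    simp only [zero_mul, pow_zero, one_mul] at h3
    exact h3.symm
  obtain ⟨b, hb⟩ := scx hg f1 f2 h
  by_cases hb0 : b = 0
  · obtain ⟨c0, hc0⟩ : ∃ c0 : k, ∀ x w : Fin (p + 2) → k, al f1 x w = c0 := by
      refine ⟨al f1 (fun _ => 0) (fun _ => 0), ?_⟩
      intro x w
      have h3 := hb x (fun _ => 0) 0
      simp only [zero_mul, hb0, pow_zero, one_mul] at h3
      rw [hA, h3]
    have hc : c0 ≠ 0 := by
      intro hc
      obtain ⟨x, w, hxw⟩ := al_pt_ne hg
      apply hxw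
      have h3 : al f x w = al f1 x w * al f2 x w := by
        unfold al
        rw [h, ev_mul]
      rw [h3, hc0, hc, zero_mul]
    obtain ⟨d, hd⟩ := hom1 hg f1 f2 h
    have hform : ∀ (v w : Fin (p + 2) → k) (x y : k), x ≠ 0 → ev f1 v w x y = x ^ d * c0 := by
      intro v w x y hx
      obtain ⟨c, hc⟩ := proot (p := p) (y / x)
      have h3 := inv2 hg f1 f2 h v w x y c
      have h4 : y - c ^ p * x = 0 := by
        rw [hc, div_mul_cancel₀ _ hx, sub_self]
      rw [h4] at h3
      have h5 := hd (fun j => v j + c * w j) w 1 0 x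
      rw [mul_one, mul_zero] at h5
      have h6 := hc0 (fun j => v j + c * w j) w
      unfold al at h6
      rw [← h3, h5, h6]
    have hd0 : d = 0 := by
      by_contra hd0
      have h2ne : (2 : k) ≠ 0 := by
        intro h20
        have h3 : ((2 : ℕ) : k) = 0 := by exact_mod_cast h20
        rw [CharP.cast_eq_zero_iff k p] at h3
        have h4 := Nat.le_of_dvd (by norm_num) h3
        have h5 := hg.five
        omega
      obtain ⟨s, hs⟩ := IsAlgClosed.exists_pow_nat_eq (2 : k) (Nat.pos_of_ne_zero hd0)
      have hs0 : s ≠ 0 := by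
        intro h0
        rw [h0, zero_pow hd0] at hs
        exact h2ne hs.symm
      obtain ⟨c, hc'⟩ := proot (p := p) (1 - s)
      have h3 := inv1 hg f1 f2 h (fun _ => 0) (fun _ => 0) 1 1 c
      have h4 : 1 - c ^ p * 1 = s := by
        rw [hc']
        ring
      rw [h4, hform _ _ _ _ hs0, hform _ _ _ _ one_ne_zero, one_pow, one_mul, hs] at h3
      have h5 : c0 = 0 := by linear_combination h3
      exact hc h5
    have h6 : f1 = C c0 := by
      apply ext_ev_X
      intro v w x y hx
      rw [hform v w x y hx, hd0, pow_zero, one_mul, ev_C]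
      rfl
    rw [h6]
    exact (isUnit_iff_ne_zero.mpr hc).map C
  · exfalso
    let H : MvPolynomial (Fin (p + 2)) k :=
      al f1 (A := MvPolynomial (Fin (p + 2)) k) X (fun _ => 0)
    have hH : ∀ z : Fin (p + 2) → k, eval z H = al f1 z (fun _ => 0) := by
      intro z
      have h3 := al_map f1 (aeval (R := k) z) (X : Fin (p + 2) → MvPolynomial (Fin (p + 2)) k)
        (fun _ => 0)
      have e1 : (fun j => aeval (R := k) z ((X : Fin (p + 2) → MvPolynomial (Fin (p + 2)) k) j))
          = z := funext fun j => aeval_X z j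
      have e2 : (fun _ : Fin (p + 2) => aeval (R := k) z
          (0 : MvPolynomial (Fin (p + 2)) k)) = fun _ => (0 : k) :=
        funext fun _ => map_zero _
      rw [← aeval_eq_eval, h3, e1, e2]
    have hHh : H.IsHomogeneous b := by
      apply homog_of_scale
      intro z c
      rw [hH, hH, hb]
    obtain ⟨x, hx, hx2⟩ := hCZ k (p + 2) 1 (fun _ => H) (fun _ => b) (by omega)
      (fun _ => hHh) (fun _ => Nat.pos_of_ne_zero hb0)
    have hx3 := hx2 0
    rw [hH] at hx3
    obtain ⟨w, hw, hw1, _⟩ := two_forms hCZ x hx f2 f2 m m hm hm (h2 x) (h2 x)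
    exact sing hg f1 f2 h x w hw (by rw [hA, hx3]) hw1

end

end PrM

open MvPolynomial PrM

universe u

theorem specPr (hCZ : SpecCZ.{u}) : SpecPr.{u} := by
  intro p _ k _ _ _ m f hg
  have hm := m_pos hg
  have hirr : Irreducible f := by
    constructor
    · intro hu
      obtain ⟨g, hfg⟩ := hu.exists_right_inv
      have h1 := hg.sec.hom (fun _ => 0) (fun _ => 0) 0 0 0
      rw [mul_zero, zero_pow (by omega), zero_mul] at h1
      have h2 : ev (f * g) (fun _ : Fin (p + 2) => (0 : k)) (fun _ => 0) 0 0 = 0 := by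
        rw [ev_mul, h1, zero_mul]
      rw [hfg] at h2
      unfold ev at h2
      rw [map_one] at h2
      exact one_ne_zero h2
    · intro f1 f2 h
      obtain ⟨d, e, hde, h1, h2⟩ := scw hg f1 f2 h
      by_cases hd : d = 0
      · left
        subst hd
        have he : e = m := by omega
        subst he
        exact half hCZ hg f1 f2 h h1 h2
      · by_cases he : e = 0
        · right
          subst he
          have hd' : d = m := by omega
          subst hd'
          exact half hCZ hg f2 f1 (by rw [h, mul_comm]) h2 h1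
        · exfalso
          have hx : (fun _ : Fin (p + 2) => (1 : k)) ≠ 0 := by
            intro h2
            have := congrFun h2 0
            simp at this
          obtain ⟨w, hw, hw1, hw2⟩ := two_forms hCZ (fun _ => (1 : k)) hx f1 f2 d e
            (Nat.pos_of_ne_zero hd) (Nat.pos_of_ne_zero he) (h1 _) (h2 _)
          exact sing hg f1 f2 h _ w hw hw1 hw2
  exact hirr.prime

end MPcfca
end

section
/-! MP_cfca38_ag: module AL. The polynomial `al f` is prime. -/
set_option autoImplicit false
set_option linter.unusedSimpArgs false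
set_option linter.unusedSectionVars false

namespace MPcfca
namespace AlM

open MvPolynomial PrM

universe u

section
variable {N : ℕ} {k : Type u} [Field k]

/-- value of a polynomial in `(x, w)` -/
noncomputable def ea (g : MvPolynomial (Fin N ⊕ Fin N) k) (x w : Fin N → k) : k :=
  eval (Sum.elim x w) g

theorem ea_mul (g h : MvPolynomial (Fin N ⊕ Fin N) k) (x w : Fin N → k) :
    ea (g * h) x w = ea g x w * ea h x w := by
  unfold ea
  rw [map_mul]

theorem ea_pow (g : MvPolynomial (Fin N ⊕ Fin N) k) (n : ℕ) (x w : Fin N → k) :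
    ea (g ^ n) x w = ea g x w ^ n := by
  unfold ea
  rw [map_pow]

theorem ext_ea [Infinite k] {g h : MvPolynomial (Fin N ⊕ Fin N) k}
    (H : ∀ x w : Fin N → k, ea g x w = ea h x w) : g = h := by
  apply MvPolynomial.funext
  intro z
  have h1 : z = Sum.elim (fun j => z (Sum.inl j)) (fun j => z (Sum.inr j)) := by
    funext i
    rcases i with j | j <;> rfl
  have h2 := H (fun j => z (Sum.inl j)) (fun j => z (Sum.inr j))
  unfold ea at h2
  rwa [← h1] at h2

theorem ea_alP (f : MvPolynomial (Idx N) k) (x w : Fin N → k) : ea (alP f) x w = al f x w := by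
  unfold ea alP
  rw [← aeval_eq_eval, al_map]
  have e1 : (fun j => aeval (R := k) (Sum.elim x w)
      (X (Sum.inl j) : MvPolynomial (Fin N ⊕ Fin N) k)) = x := by
    funext j
    rw [aeval_X]
    rfl
  have e2 : (fun j => aeval (R := k) (Sum.elim x w)
      (X (Sum.inr j) : MvPolynomial (Fin N ⊕ Fin N) k)) = w := by
    funext j
    rw [aeval_X]
    rfl
  rw [e1, e2]

variable {p : ℕ} [hp : Fact p.Prime] [CharP k p]

theorem eval_frob {σ : Type} (g : MvPolynomial σ k) (z : σ → k) :
    eval (fun i => z i ^ p) (map (frobenius k p) g) = eval z g ^ p := by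
  rw [eval_map]
  have h1 := eval₂_comp_left (frobenius k p) (RingHom.id k) z g
  have h2 : eval z g ^ p = frobenius k p (eval₂ (RingHom.id k) z g) := rfl
  rw [h2, h1]
  rfl

/-- the polynomial `g^[p](X v^(p) + Y w^(p), w^(p))` -/
noncomputable def Fp (p : ℕ) [Fact p.Prime] [CharP k p] (g : MvPolynomial (Fin N ⊕ Fin N) k) :
    RR N k :=
  aeval (Sum.elim (fun j => XX N k * VV N k j ^ p + YY N k * WW N k j ^ p)
    (fun j => WW N k j ^ p)) (map (frobenius k p) g)

theorem ev_Fp (g : MvPolynomial (Fin N ⊕ Fin N) k) (v w : Fin N → k) (a b : k) :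
    ev (Fp p g) v w (a ^ p) (b ^ p) = ea g (fun j => a * v j + b * w j) w ^ p := by
  unfold ea
  rw [← eval_frob (p := p)]
  unfold Fp
  have h1 : ∀ h : RR N k, ev h v w (a ^ p) (b ^ p)
      = aeval (R := k) (pt v w (a ^ p) (b ^ p)) h := by
    intro h
    rw [ev_eq_eval, aeval_eq_eval]
  rw [h1, ← AlgHom.comp_apply, comp_aeval, aeval_eq_eval]
  congr 2
  funext i
  rcases i with j | j
  · simp only [Sum.elim_inl, map_add, map_mul, map_pow, aeval_X]
    have e1 : pt v w (a ^ p) (b ^ p) (Sum.inl (0, j)) = v j := by simp [pt]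
    have e2 : pt v w (a ^ p) (b ^ p) (Sum.inl (1, j)) = w j := by simp [pt]
    have e3 : pt v w (a ^ p) (b ^ p) (Sum.inr 0) = a ^ p := by simp [pt]
    have e4 : pt v w (a ^ p) (b ^ p) (Sum.inr 1) = b ^ p := by simp [pt]
    rw [e1, e2, e3, e4, add_pow_char, mul_pow, mul_pow]
  · simp only [Sum.elim_inr, map_pow, aeval_X]
    have e2 : pt v w (a ^ p) (b ^ p) (Sum.inl (1, j)) = w j := by simp [pt]
    rw [e2]

theorem unit_C {σ : Type} {a : MvPolynomial σ k} (h : IsUnit a) : ∃ c : k, c ≠ 0 ∧ a = C c := by
  rw [MvPolynomial.isUnit_iff_eq_C_of_isReduced] at h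
  obtain ⟨c, hc, h2⟩ := h
  exact ⟨c, hc.ne_zero, h2⟩

end

section
variable {p m : ℕ} [hp : Fact p.Prime] {k : Type u} [Field k] [IsAlgClosed k] [CharP k p]
  {f : MvPolynomial (Idx (p + 2)) k}

theorem ndvd (hg : Good p m f) : ¬ p ∣ m := by
  intro h
  have h1 := Nat.le_of_dvd (m_pos hg) h
  have h2 := hg.five
  rcases hg.hm with h3 | h3 <;> omega

theorem key (hg : Good p m f) (hf : Prime f) (g h : MvPolynomial (Fin (p + 2) ⊕ Fin (p + 2)) k)
    (hS : alP f = g * h) (hgi : Irreducible g) : IsUnit h := by
  have hprod : Fp p g * Fp p h = XX (p + 2) k ^ m * f ^ p := by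
    apply ext_ev
    intro v w x y
    obtain ⟨a, rfl⟩ := proot (p := p) x
    obtain ⟨b, rfl⟩ := proot (p := p) y
    rw [ev_mul, ev_Fp, ev_Fp, ← mul_pow, ← ea_mul, ← hS, ea_alP, al_line hg.sec]
    have h1 : ev (XX (p + 2) k ^ m * f ^ p) v w (a ^ p) (b ^ p)
        = (a ^ p) ^ m * ev f v w (a ^ p) (b ^ p) ^ p := by
      unfold ev
      rw [map_mul, map_pow, map_pow, aeval_X]
      simp
    rw [h1, mul_pow, ← pow_mul, ← pow_mul, mul_comm m p]
  obtain ⟨a1, a2, ha1, ha2, hP⟩ := exists_dvd_and_dvd_of_dvd_mul
    (Dvd.intro _ hprod)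
  have hXp : Prime (XX (p + 2) k) := MvPolynomial.X_prime
  obtain ⟨i, _, hi⟩ := (dvd_prime_pow hXp m).1 ha1
  obtain ⟨j, hjp, hj⟩ := (dvd_prime_pow hf p).1 ha2
  obtain ⟨u1, hu1⟩ := hi.symm
  obtain ⟨u2, hu2⟩ := hj.symm
  obtain ⟨c1, hc1, hc1'⟩ := unit_C u1.isUnit
  obtain ⟨c2, hc2, hc2'⟩ := unit_C u2.isUnit
  have hc : c1 * c2 ≠ 0 := mul_ne_zero hc1 hc2
  have hpt : ∀ x w : Fin (p + 2) → k, ea g x w ^ p = (c1 * c2) * al f x w ^ j := by
    intro x w
    have h1 := ev_Fp (p := p) g x w 1 0
    have h2 : (fun j => (1 : k) * x j + 0 * w j) = x := by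
      funext j
      ring
    rw [h2, one_pow, zero_pow hp.out.ne_zero] at h1
    rw [← h1, hP, ← hu1, ← hu2, hc1', hc2']
    rw [ev_mul, ev_mul, ev_mul, ev_C, ev_C]
    have h3 : ev (XX (p + 2) k ^ i) x w 1 0 = 1 := by
      unfold ev
      rw [map_pow, aeval_X]
      simp
    have h4 : ev (f ^ j) x w 1 0 = al f x w ^ j := by
      unfold al ev
      rw [map_pow]
    rw [h3, h4]
    change 1 * c1 * (al f x w ^ j * c2) = _
    ring
  have hg0 : g ≠ 0 := hgi.ne_zero
  obtain ⟨x, w, hxw⟩ : ∃ x w : Fin (p + 2) → k, ea g x w ≠ 0 := by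
    by_contra hcon
    push Not at hcon
    apply hg0
    apply ext_ea
    intro x w
    rw [hcon]
    unfold ea
    rw [map_zero]
  let q : Polynomial k := aeval (R := k)
    (Sum.elim (fun j => Polynomial.C (x j)) (fun j => Polynomial.X * Polynomial.C (w j))) g
  have hq : ∀ s : k, q.eval s = ea g x (fun j => s * w j) := by
    intro s
    have h1 : q.eval s = Polynomial.aeval s q := by
      rw [Polynomial.coe_aeval_eq_eval]
    rw [h1]
    simp only [q]
    rw [← AlgHom.comp_apply, comp_aeval]
    unfold ea
    rw [aeval_eq_eval]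
    congr 2
    funext i
    rcases i with j | j
    · simp
    · simp only [Sum.elim_inr, map_mul, Polynomial.aeval_X, Polynomial.aeval_C]
      rfl
  have hqp : q ^ p = Polynomial.C (ea g x w ^ p) * Polynomial.X ^ (m * j) := by
    apply Polynomial.funext
    intro s
    rw [Polynomial.eval_pow, hq, hpt, al_smul hg.sec, Polynomial.eval_mul, Polynomial.eval_C,
      Polynomial.eval_pow, Polynomial.eval_X, hpt, mul_pow, ← pow_mul]
    ring
  have hdeg := congrArg Polynomial.natDegree hqp
  rw [Polynomial.natDegree_pow, Polynomial.natDegree_C_mul_X_pow _ _ (pow_ne_zero _ hxw)] at hdeg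
  have hpj : p ∣ j := by
    have h1 : p ∣ m * j := Dvd.intro _ hdeg
    rcases (Nat.Prime.dvd_mul hp.out).1 h1 with h2 | h2
    · exact absurd h2 (ndvd hg)
    · exact h2
  rcases Nat.eq_zero_or_pos j with hj0 | hj0
  · exfalso
    have h1 : g ^ p = C (c1 * c2) := by
      apply ext_ea
      intro x w
      rw [ea_pow, hpt, hj0, pow_zero, mul_one]
      unfold ea
      rw [eval_C]
    have h2 : IsUnit (g ^ p) := by
      rw [h1]
      exact (isUnit_iff_ne_zero.mpr hc).map C
    exact hgi.not_isUnit ((isUnit_pow_iff hp.out.ne_zero).1 h2)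
  · have hjeq : j = p := le_antisymm hjp (Nat.le_of_dvd hj0 hpj)
    have h1 : g ^ p * 1 = g ^ p * (C (c1 * c2) * h ^ p) := by
      apply ext_ea
      intro x w
      rw [mul_one, ea_pow, hpt, hjeq, ← ea_alP, hS, ea_mul, ea_mul, ea_mul, ea_pow, ea_pow]
      have h2 : ea (C (c1 * c2) : MvPolynomial (Fin (p + 2) ⊕ Fin (p + 2)) k) x w = c1 * c2 := by
        unfold ea
        rw [eval_C]
      rw [h2]
      ring
    have h2 := mul_left_cancel₀ (pow_ne_zero p hg0) h1
    have h3 : IsUnit (h ^ p) := by
      apply IsUnit.of_mul_eq_one (C (c1 * c2))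
      rw [mul_comm]
      exact h2.symm
    exact (isUnit_pow_iff hp.out.ne_zero).1 h3

end

end AlM

open MvPolynomial PrM AlM

universe u

theorem specAl (hPr : SpecPr.{u}) : SpecAl.{u} := by
  intro p _ k _ _ _ m f hg
  have hf := hPr p k m f hg
  have hne : alP f ≠ 0 := by
    intro h
    obtain ⟨x, w, hxw⟩ := al_pt_ne hg
    apply hxw
    rw [← ea_alP, h]
    unfold ea
    rw [map_zero]
  have hnu : ¬ IsUnit (alP f) := by
    intro h
    obtain ⟨t, ht⟩ := h.exists_right_inv
    have h1 : ea (alP f * t) (fun _ => 0) (fun _ => 0) = 1 := by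
      rw [ht]
      unfold ea
      rw [map_one]
    have h2 := al_smul hg.sec (fun _ : Fin (p + 2) => (0 : k)) (fun _ => 0) 0
    rw [zero_pow (m_pos hg).ne', zero_mul] at h2
    simp only [zero_mul] at h2
    rw [ea_mul, ea_alP, h2, zero_mul] at h1
    exact zero_ne_one h1
  obtain ⟨g, hgi, h, hS⟩ := WfDvdMonoid.exists_irreducible_factor hnu hne
  have hu := key hg hf g h hS hgi
  obtain ⟨u, rfl⟩ := hu
  have h1 : Associated g (alP f) := ⟨u, hS.symm⟩
  exact h1.prime hgi.prime

end MPcfca
end

section
/-! MP_cfca38_ag: the module CH: the chart equation is prime (from PR). -/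
set_option autoImplicit false
set_option linter.unusedSimpArgs false
set_option linter.unusedSectionVars false

namespace MPcfca

open MvPolynomial

universe u

namespace ChM

section
variable (p : ℕ) (k : Type u) [Field k]

/-- the ring of `f` -/
abbrev R : Type u := MvPolynomial (Idx (p + 2)) k
/-- the ring of the chart -/
abbrev Cr : Type u := MvPolynomial (Ch p) k
/-- the fraction field of `R` -/
abbrev Fr : Type u := FractionRing (R p k)

noncomputable def vv (j : Fin (p + 2)) : R p k := X (Sum.inl (0, j))
noncomputable def ww (j : Fin (p + 2)) : R p k := X (Sum.inl (1, j))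
noncomputable def xx : R p k := X (Sum.inr 0)
noncomputable def yy : R p k := X (Sum.inr 1)

theorem self_ev (f : R p k) : ev f (vv p k) (ww p k) (xx p k) (yy p k) = f := by
  unfold ev
  conv_rhs => rw [← aeval_X_left_apply f]
  congr 2
  funext i
  rcases i with ⟨i, j⟩ | l
  · fin_cases i <;> simp [vv, ww]
  · fin_cases l <;> simp [xx, yy]

noncomputable def p12 : R p k := vv p k 0 * ww p k 1 - vv p k 1 * ww p k 0
noncomputable def l0 : R p k := xx p k * vv p k 0 ^ p + yy p k * ww p k 0 ^ p
noncomputable def l1 : R p k := xx p k * vv p k 1 ^ p + yy p k * ww p k 1 ^ p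

/-- the first vector of the chart -/
noncomputable def cv : Fin (p + 2) → Cr p k :=
  Fin.cons 1 (Fin.cons 0 (fun j : Fin p => X (Sum.inl (Sum.inl j))))
/-- the second vector of the chart -/
noncomputable def cw : Fin (p + 2) → Cr p k :=
  Fin.cons 0 (Fin.cons 1 (fun j : Fin p => X (Sum.inl (Sum.inr j))))

/-- restriction to the chart -/
noncomputable def psi : R p k →ₐ[k] Cr p k :=
  aeval (Sum.elim (fun ij : Fin 2 × Fin (p + 2) => if ij.1 = 0 then cv p k ij.2 else cw p k ij.2)
    (fun l : Fin 2 => if l = 0 then 1 else X (Sum.inr ())))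

theorem psi_f (f : R p k) : psi p k f = chart f := rfl

theorem psi_vv (j : Fin (p + 2)) : psi p k (vv p k j) = cv p k j := by
  simp [psi, vv]
theorem psi_ww (j : Fin (p + 2)) : psi p k (ww p k j) = cw p k j := by
  simp [psi, ww]
theorem psi_xx : psi p k (xx p k) = 1 := by
  simp [psi, xx]
theorem psi_yy : psi p k (yy p k) = X (Sum.inr ()) := by
  simp [psi, yy]

theorem cv0 : cv p k 0 = 1 := rfl
theorem cv1 : cv p k 1 = 0 := rfl
theorem cw0 : cw p k 0 = 0 := rfl
theorem cw1 : cw p k 1 = 1 := rfl

theorem psi_p12 : psi p k (p12 p k) = 1 := by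
  simp [p12, psi_vv, psi_ww, cv0, cv1, cw0, cw1]

theorem psi_l0 (hp : p ≠ 0) : psi p k (l0 p k) = 1 := by
  simp [l0, psi_vv, psi_ww, cv0, cv1, cw0, cw1, psi_xx, psi_yy, hp]

theorem psi_l1 (hp : p ≠ 0) : psi p k (l1 p k) = X (Sum.inr ()) := by
  simp [l1, psi_vv, psi_ww, cv0, cv1, cw0, cw1, psi_xx, psi_yy, hp]

theorem p12_ne : p12 p k ≠ 0 := by
  intro h
  have := congrArg (psi p k) h
  rw [psi_p12, map_zero] at this
  exact one_ne_zero this

theorem l0_ne (hp : p ≠ 0) : l0 p k ≠ 0 := by
  intro h
  have := congrArg (psi p k) h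
  rw [psi_l0 p k hp, map_zero] at this
  exact one_ne_zero this

/-- the embedding in the fraction field -/
noncomputable def io : R p k →ₐ[k] Fr p k := IsScalarTower.toAlgHom k (R p k) (Fr p k)

theorem io_inj : Function.Injective (io p k) := by
  intro a b h
  exact IsFractionRing.injective (R p k) (Fr p k) h

theorem io_ne {a : R p k} (h : a ≠ 0) : io p k a ≠ 0 := by
  intro h2
  apply h
  apply io_inj p k
  rw [h2, map_zero]

noncomputable def aa (j : Fin p) : Fr p k :=
  io p k (ww p k 1 * vv p k j.succ.succ - vv p k 1 * ww p k j.succ.succ) / io p k (p12 p k)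
noncomputable def bb (j : Fin p) : Fr p k :=
  io p k (vv p k 0 * ww p k j.succ.succ - ww p k 0 * vv p k j.succ.succ) / io p k (p12 p k)
noncomputable def cc : Fr p k := io p k (l1 p k) / io p k (l0 p k)

noncomputable def theta : Cr p k →ₐ[k] Fr p k :=
  aeval (Sum.elim (Sum.elim (aa p k) (bb p k)) (fun _ => cc p k))

noncomputable def fv : Fin (p + 2) → Fr p k := Fin.cons 1 (Fin.cons 0 (aa p k))
noncomputable def fw : Fin (p + 2) → Fr p k := Fin.cons 0 (Fin.cons 1 (bb p k))

theorem theta_cv (j : Fin (p + 2)) : theta p k (cv p k j) = fv p k j := by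
  refine Fin.cases ?_ (fun j => ?_) j
  · simp [cv, fv]
  · refine Fin.cases ?_ (fun j => ?_) j
    · simp [cv, fv]
    · simp [cv, fv, theta]

theorem theta_cw (j : Fin (p + 2)) : theta p k (cw p k j) = fw p k j := by
  refine Fin.cases ?_ (fun j => ?_) j
  · simp [cw, fw]
  · refine Fin.cases ?_ (fun j => ?_) j
    · simp [cw, fw]
    · simp [cw, fw, theta]

theorem theta_c : theta p k (X (Sum.inr ())) = cc p k := by
  simp [theta]

theorem frame_v (j : Fin (p + 2)) :
    io p k (vv p k 0) * fv p k j + io p k (vv p k 1) * fw p k j = io p k (vv p k j) := by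
  have hne := io_ne p k (p12_ne p k)
  refine Fin.cases ?_ (fun j => ?_) j
  · simp [fv, fw]
  · refine Fin.cases ?_ (fun j => ?_) j
    · simp [fv, fw]
    · simp only [fv, fw, Fin.cons_succ, aa, bb]
      rw [← mul_div_assoc, ← mul_div_assoc, ← add_div, div_eq_iff hne]
      rw [← map_mul, ← map_mul, ← map_add, ← map_mul]
      congr 1
      unfold p12
      ring

theorem frame_w (j : Fin (p + 2)) :
    io p k (ww p k 0) * fv p k j + io p k (ww p k 1) * fw p k j = io p k (ww p k j) := by
  have hne := io_ne p k (p12_ne p k)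
  refine Fin.cases ?_ (fun j => ?_) j
  · simp [fv, fw]
  · refine Fin.cases ?_ (fun j => ?_) j
    · simp [fv, fw]
    · simp only [fv, fw, Fin.cons_succ, aa, bb]
      rw [← mul_div_assoc, ← mul_div_assoc, ← add_div, div_eq_iff hne]
      rw [← map_mul, ← map_mul, ← map_add, ← map_mul]
      congr 1
      unfold p12
      ring

theorem main_eq [Infinite k] (hp : p ≠ 0) {m : ℕ} {f : R p k} (h : IsSec p m f) :
    io p k f = (io p k (p12 p k) * io p k (l0 p k)) ^ m * theta p k (chart f) := by
  have h1 : theta p k (chart f) = ev f (fv p k) (fw p k) 1 (cc p k) := by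
    unfold chart
    rw [ev_map, map_one, theta_c]
    congr 1
    · funext j
      exact theta_cv p k j
    · funext j
      exact theta_cw p k j
  have h2 : io p k f = ev f (fun j => io p k (vv p k j)) (fun j => io p k (ww p k j))
      (io p k (xx p k)) (io p k (yy p k)) := by
    conv_lhs => rw [← self_ev p k f]
    rw [ev_map]
  have h3 := equi_all h (fv p k) (fw p k) (io p k (xx p k)) (io p k (yy p k))
    (io p k (vv p k 0)) (io p k (vv p k 1)) (io p k (ww p k 0)) (io p k (ww p k 1))
  have e1 : (fun j => io p k (vv p k 0) * fv p k j + io p k (vv p k 1) * fw p k j)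
      = fun j => io p k (vv p k j) := funext (frame_v p k)
  have e2 : (fun j => io p k (ww p k 0) * fv p k j + io p k (ww p k 1) * fw p k j)
      = fun j => io p k (ww p k j) := funext (frame_w p k)
  rw [e1, e2, ← h2] at h3
  have e3 : io p k (vv p k 0) * io p k (ww p k 1) - io p k (vv p k 1) * io p k (ww p k 0)
      = io p k (p12 p k) := by
    unfold p12
    simp
  have e4 : io p k (xx p k) * io p k (vv p k 0) ^ p + io p k (yy p k) * io p k (ww p k 0) ^ p
      = io p k (l0 p k) * 1 := by
    unfold l0
    simp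
  have hl := io_ne p k (l0_ne p k hp)
  have e5 : io p k (xx p k) * io p k (vv p k 1) ^ p + io p k (yy p k) * io p k (ww p k 1) ^ p
      = io p k (l0 p k) * cc p k := by
    unfold cc
    rw [mul_div_cancel₀ _ hl]
    unfold l1
    simp
  rw [e3, e4, e5, hom_all h] at h3
  rw [h3, h1, mul_pow, mul_assoc]

/-- every element of the chart ring is the restriction of a homogenization -/
theorem lift_exists (hp : p ≠ 0) (A : Cr p k) : ∃ (r : ℕ) (B : R p k),
    io p k B = (io p k (p12 p k) * io p k (l0 p k)) ^ r * theta p k A ∧ psi p k B = A := by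
  have hP := io_ne p k (p12_ne p k)
  have hL := io_ne p k (l0_ne p k hp)
  have hP' := psi_p12 p k
  have hL' := psi_l0 p k hp
  induction A using MvPolynomial.induction_on with
  | C a =>
    refine ⟨0, C a, ?_, ?_⟩
    · rw [pow_zero, one_mul, ← MvPolynomial.algebraMap_eq, ← MvPolynomial.algebraMap_eq,
        AlgHom.commutes, AlgHom.commutes]
    · rw [← MvPolynomial.algebraMap_eq, ← MvPolynomial.algebraMap_eq, AlgHom.commutes]
  | add A B hA hB =>
    obtain ⟨r, P, hP1, hP2⟩ := hA
    obtain ⟨s, Q, hQ1, hQ2⟩ := hB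
    refine ⟨r + s, (p12 p k * l0 p k) ^ s * P + (p12 p k * l0 p k) ^ r * Q, ?_, ?_⟩
    · simp only [map_add, map_mul, map_pow, hP1, hQ1]
      ring
    · simp only [map_add, map_mul, map_pow, hP2, hQ2, hP', hL']
      ring
  | mul_X A i hA =>
    obtain ⟨r, P, hP1, hP2⟩ := hA
    have key : ∃ Q : R p k, io p k Q = (io p k (p12 p k) * io p k (l0 p k)) * theta p k (X i) ∧
        psi p k Q = X i := by
      rcases i with (j | j) | j
      · refine ⟨(ww p k 1 * vv p k j.succ.succ - vv p k 1 * ww p k j.succ.succ) * l0 p k, ?_, ?_⟩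
        · have : theta p k (X (Sum.inl (Sum.inl j))) = aa p k j := by simp [theta]
          rw [this]
          unfold aa
          rw [map_mul]
          field_simp
        · simp only [map_mul, map_sub, psi_ww, psi_vv, hL', cw1, cv1]
          simp [cv]
      · refine ⟨(vv p k 0 * ww p k j.succ.succ - ww p k 0 * vv p k j.succ.succ) * l0 p k, ?_, ?_⟩
        · have : theta p k (X (Sum.inl (Sum.inr j))) = bb p k j := by simp [theta]
          rw [this]
          unfold bb
          rw [map_mul]
          field_simp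
        · simp only [map_mul, map_sub, psi_ww, psi_vv, hL', cw0, cv0]
          simp [cw]
      · refine ⟨l1 p k * p12 p k, ?_, ?_⟩
        · have : theta p k (X (Sum.inr j)) = cc p k := by simp [theta]
          rw [this]
          unfold cc
          rw [map_mul]
          field_simp
        · rw [map_mul, psi_l1 p k hp, hP', mul_one]
    obtain ⟨Q, hQ1, hQ2⟩ := key
    refine ⟨r + 1, P * Q, ?_, ?_⟩
    · rw [map_mul, map_mul, hP1, hQ1]
      ring
    · rw [map_mul, hP2, hQ2]

theorem p12_not_unit : ¬ IsUnit (p12 p k) := by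
  intro h
  have h2 := h.map (aeval (0 : Idx (p + 2) → k) : R p k →ₐ[k] k)
  have h3 : (aeval (0 : Idx (p + 2) → k) : R p k →ₐ[k] k) (p12 p k) = 0 := by
    simp [p12, vv, ww]
  rw [h3] at h2
  exact not_isUnit_zero h2

end

end ChM

theorem specCh (hPr : SpecPr.{u}) : SpecCh.{u} := by
  intro p hp k _ _ _ m f hf
  have hp0 : p ≠ 0 := hp.out.ne_zero
  have hpr := hPr p k m f hf
  have hsec := hf.sec
  have : Infinite k := IsAlgClosed.instInfinite
  have hmain := ChM.main_eq p k hp0 hsec
  have hPP := ChM.io_ne p k (ChM.p12_ne p k)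
  have hLL := ChM.io_ne p k (ChM.l0_ne p k hp0)
  have hm2 : ∃ n, m = n + 2 := by
    rcases hf.hm with h | h
    · exact ⟨0, by omega⟩
    · exact ⟨2, by omega⟩
  have hne : chart f ≠ 0 := by
    intro h
    rw [h, map_zero, mul_zero] at hmain
    apply hpr.ne_zero
    apply ChM.io_inj p k
    rw [hmain, map_zero]
  have hnu : ¬ IsUnit (chart f) := by
    intro h
    obtain ⟨c, hc, hc2⟩ := (MvPolynomial.isUnit_iff_eq_C_of_isReduced).mp h
    obtain ⟨n, rfl⟩ := hm2
    have h1 : ChM.theta p k (chart f) = ChM.io p k (C c) := by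
      rw [hc2, ← MvPolynomial.algebraMap_eq, ← MvPolynomial.algebraMap_eq, AlgHom.commutes,
        AlgHom.commutes]
    rw [h1, ← map_mul, ← map_pow, ← map_mul] at hmain
    have h2 := ChM.io_inj p k hmain
    have hir := hpr.irreducible
    have h3 : f = ChM.p12 p k * (ChM.p12 p k * ((ChM.p12 p k) ^ n * (ChM.l0 p k) ^ (n + 2) * C c)) := by
      rw [h2]
      ring
    rcases hir.isUnit_or_isUnit h3 with h4 | h4
    · exact ChM.p12_not_unit p k h4
    · exact ChM.p12_not_unit p k (isUnit_of_mul_isUnit_left h4)
  refine ⟨hne, hnu, ?_⟩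
  intro A A' hdvd
  obtain ⟨E, hE⟩ := hdvd
  obtain ⟨r, B, hB1, hB2⟩ := ChM.lift_exists p k hp0 A
  obtain ⟨r', B', hB1', hB2'⟩ := ChM.lift_exists p k hp0 A'
  obtain ⟨s, D, hD1, hD2⟩ := ChM.lift_exists p k hp0 E
  have h1 : B * B' * (ChM.p12 p k * ChM.l0 p k) ^ (m + s)
      = f * D * (ChM.p12 p k * ChM.l0 p k) ^ (r + r') := by
    apply ChM.io_inj p k
    rw [map_mul, map_mul, map_mul, map_mul, hmain, hB1, hB1', hD1]
    have h2 := congrArg (ChM.theta p k) hE
    rw [map_mul, map_mul] at h2
    simp only [map_pow, map_mul]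
    linear_combination (ChM.io p k (ChM.p12 p k) * ChM.io p k (ChM.l0 p k)) ^ (r + r' + m + s) * h2
  have h2 : f ∣ B * B' * (ChM.p12 p k * ChM.l0 p k) ^ (m + s) := by
    rw [h1]
    exact Dvd.dvd.mul_right (dvd_mul_right f D) _
  rcases hpr.dvd_or_dvd h2 with h3 | h3
  · rcases hpr.dvd_or_dvd h3 with h4 | h4
    · left
      have := map_dvd (ChM.psi p k) h4
      rwa [ChM.psi_f, hB2] at this
    · right
      have := map_dvd (ChM.psi p k) h4
      rwa [ChM.psi_f, hB2'] at this
  · exfalso
    have h4 := hpr.dvd_of_dvd_pow h3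
    have := map_dvd (ChM.psi p k) h4
    rw [ChM.psi_f, map_mul, ChM.psi_p12, ChM.psi_l0 p k hp0, mul_one] at this
    exact hnu (isUnit_of_dvd_one this)

end MPcfca
end

section
/-! MP_cfca38_ag: the module CR: for generic `x` the vertex of `al f x` has dimension at
most 2 (from SM). -/
set_option autoImplicit false
set_option linter.unusedSimpArgs false
set_option linter.unusedSectionVars false

namespace MPcfca

open MvPolynomial

universe u

namespace CrM

section chain
variable {k : Type u} [Field k] {A : Type u} [CommRing A] [Algebra k A]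

/-- the chain rule -/
theorem chain {σ : Type} [Fintype σ] (D : Derivation k A A) (g : σ → A) (f : MvPolynomial σ k) :
    D (aeval g f) = ∑ i, aeval g (pderiv i f) * D (g i) := by
  classical
  induction f using MvPolynomial.induction_on with
  | C a =>
    simp [← MvPolynomial.algebraMap_eq]
  | add P Q hP hQ =>
    simp only [map_add, hP, hQ, add_mul, Finset.sum_add_distrib]
  | mul_X P i hP =>
    rw [map_mul, Derivation.leibniz, hP, aeval_X]
    have h1 : ∀ j, aeval g (pderiv j (P * X i)) * D (g j)
        = g i * (aeval g (pderiv j P) * D (g j)) + (if j = i then aeval g P * D (g i) else 0) := by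
      intro j
      rw [Derivation.leibniz, pderiv_X]
      by_cases hj : j = i
      · subst hj
        simp [smul_eq_mul]
        ring
      · simp [smul_eq_mul, hj, Pi.single_apply]
        ring
    rw [Finset.sum_congr rfl (fun j _ => h1 j), Finset.sum_add_distrib, ← Finset.mul_sum]
    simp [smul_eq_mul]
    ring

theorem chain_ev {N : ℕ} (D : Derivation k A A) (f : MvPolynomial (Idx N) k) (v w : Fin N → A)
    (x y : A) :
    D (ev f v w x y) = ∑ j, ev (pderiv (Sum.inl (0, j)) f) v w x y * D (v j)
      + ∑ j, ev (pderiv (Sum.inl (1, j)) f) v w x y * D (w j)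
      + ev (pderiv (Sum.inr 0) f) v w x y * D x + ev (pderiv (Sum.inr 1) f) v w x y * D y := by
  unfold ev
  rw [chain D, Fintype.sum_sum_type, Fintype.sum_prod_type]
  simp only [Fin.sum_univ_two, Sum.elim_inl, Sum.elim_inr]
  simp
  ring

end chain

section vertex
variable {N : ℕ} {k : Type u} [Field k] [Infinite k] {A : Type u} [CommRing A] [Algebra k A]
variable {p m : ℕ} [hp : Fact p.Prime] {f : MvPolynomial (Idx N) k}

/-- the partial derivatives of `Qx f x` -/
theorem pd_Qx (x : Fin N → A) (l : Fin N) :
    pderiv l (Qx f x) = ev (A := MvPolynomial (Fin N) A) (pderiv (Sum.inl (1, l)) f)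
      (fun j => C (x j)) X 1 0 := by
  classical
  have h := chain_ev ((pderiv l : Derivation A (MvPolynomial (Fin N) A) _).restrictScalars k) f
    (fun j => C (x j)) X 1 0
  have h2 : ((pderiv l : Derivation A (MvPolynomial (Fin N) A) _).restrictScalars k)
      (ev f (A := MvPolynomial (Fin N) A) (fun j => C (x j)) X 1 0) = pderiv l (Qx f x) := rfl
  rw [h2] at h
  rw [h]
  have h3 : ∀ a : MvPolynomial (Fin N) A,
    ((pderiv l : Derivation A (MvPolynomial (Fin N) A) _).restrictScalars k) a = pderiv l a :=
    fun a => rfl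
  simp only [h3, pderiv_C, pderiv_X, mul_zero, Finset.sum_const_zero, zero_add, map_zero,
    add_zero, Derivation.map_one_eq_zero]
  rw [Finset.sum_eq_single l]
  · simp
  · intro j _ hj
    simp [Pi.single_apply, hj, Ne.symm hj]
  · intro h
    exact absurd (Finset.mem_univ l) h

theorem ev_pd_w (x u : Fin N → A) (l : Fin N) :
    ev (pderiv (Sum.inl (1, l)) f) x u 1 0 = eval u (pderiv l (Qx f x)) := by
  rw [pd_Qx]
  have h := ev_map (pderiv (Sum.inl (1, l)) f) ((aeval (R := A) u).restrictScalars k)
    (fun j => (C (x j) : MvPolynomial (Fin N) A)) X 1 0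
  simp only [AlgHom.coe_restrictScalars', aeval_X, aeval_C, map_one, map_zero] at h
  exact h.symm

theorem pd_comm {R : Type u} [CommRing R] {σ : Type} (i l : σ) (P : MvPolynomial σ R) :
    pderiv l (pderiv i P) = pderiv i (pderiv l P) := by
  classical
  have h : (⁅(pderiv l : Derivation R (MvPolynomial σ R) _), pderiv i⁆ :
      Derivation R (MvPolynomial σ R) (MvPolynomial σ R)) = 0 := by
    apply derivation_ext
    intro j
    rw [Derivation.commutator_apply, pderiv_X, pderiv_X]
    simp only [Pi.single_apply]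
    split_ifs <;> simp
  have h3 := congrArg (fun D : Derivation R (MvPolynomial σ R) (MvPolynomial σ R) => D P) h
  simp only [Derivation.commutator_apply, Derivation.zero_apply] at h3
  exact sub_eq_zero.mp h3

/-- Euler: a vector in the radical is a singular zero -/
theorem vertex_zero (h : IsSec p m f) (hm0 : (m : k) ≠ 0) (hm1 : ((m - 1 : ℕ) : k) ≠ 0)
    (x u : Fin N → A) (hD : ∑ l, C (u l) * pderiv l (Qx f x) = 0) :
    al f x u = 0 ∧ ∀ l, eval u (pderiv l (Qx f x)) = 0 := by
  have hq := Qx_hom h x
  have hunit : ∀ n : ℕ, (n : k) ≠ 0 → ∀ a : A, (n : A) * a = 0 → a = 0 := by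
    intro n hn a ha
    have h1 : (n : A) = algebraMap k A (n : k) := by simp
    rw [h1] at ha
    have h2 : algebraMap k A ((n : k)⁻¹) * (algebraMap k A (n : k) * a) = 0 := by
      rw [ha, mul_zero]
    rw [← mul_assoc, ← map_mul, inv_mul_cancel₀ hn, map_one, one_mul] at h2
    exact h2
  constructor
  · have h1 := hq.sum_X_mul_pderiv
    have h2 := congrArg (eval u) h1
    rw [map_sum] at h2
    simp only [map_mul, eval_X, map_nsmul] at h2
    have h3 := congrArg (eval u) hD
    rw [map_sum, map_zero] at h3
    simp only [map_mul, eval_C] at h3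
    rw [h3] at h2
    have h4 : eval u (Qx f x) = al f x u := by
      have := aeval_Qx (f := f) (B := A) x u
      simpa [aeval_eq_eval] using this
    rw [h4, nsmul_eq_mul] at h2
    exact hunit m hm0 _ h2.symm
  · intro l
    have hq2 := hq.pderiv (i := l)
    have h1 := hq2.sum_X_mul_pderiv
    have h2 := congrArg (eval u) h1
    rw [map_sum] at h2
    simp only [map_mul, eval_X, map_nsmul] at h2
    have h3 := congrArg (fun P => eval u (pderiv l P)) hD
    simp only [map_sum, map_zero, pderiv_C_mul, map_mul, eval_C] at h3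
    have h5 : ∀ i, pderiv l (pderiv i (Qx f x)) = pderiv i (pderiv l (Qx f x)) := by
      intro i
      exact pd_comm _ _ _
    simp only [h5] at h3
    rw [h3, nsmul_eq_mul] at h2
    exact hunit (m - 1) hm1 _ h2.symm

theorem Qx_map {B : Type u} [CommRing B] [Algebra k B] (φ : A →ₐ[k] B) (x : Fin N → A) :
    MvPolynomial.map (φ : A →+* B) (Qx f x) = Qx f (fun j => φ (x j)) := by
  have h := al_map f (MvPolynomial.mapAlgHom (σ := Fin N) φ)
    (fun j => (C (x j) : MvPolynomial (Fin N) A)) X
  simp only [MvPolynomial.mapAlgHom_apply, MvPolynomial.map_C, MvPolynomial.map_X] at h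
  have h2 : MvPolynomial.mapAlgHom (σ := Fin N) φ (Qx f x) = MvPolynomial.map (φ : A →+* B) (Qx f x) := by
    rfl
  rw [← h2]
  unfold Qx
  rw [al_map]
  simp only [MvPolynomial.mapAlgHom_apply]
  congr 1
  · funext j
    simp
  · funext j
    simp

end vertex

section rational

/-- solutions of linear systems with coefficients in a subring are combinations of solutions in the
subring -/
theorem rational {N : ℕ} {S : Type} {P Om : Type u} [CommRing P] [IsDomain P] [Field Om]
    (φ : P →+* Om) (hφ : Function.Injective φ) (a : S → Fin N → P) (u : Fin N → Om)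
    (hu : ∀ s, ∑ l, u l * φ (a s l) = 0) :
    ∃ (n : ℕ) (c : Fin n → Om) (y : Fin n → Fin N → P),
      (∀ l, u l = ∑ i, c i * φ (y i l)) ∧ ∀ i s, ∑ l, y i l * a s l = 0 := by
  classical
  let K0 := FractionRing P
  let ψ : K0 →+* Om := IsFractionRing.lift hφ
  let : Algebra K0 Om := ψ.toAlgebra
  have hψ : ∀ z : P, algebraMap K0 Om (algebraMap P K0 z) = φ z := by
    intro z
    exact IsFractionRing.lift_algebraMap hφ z
  let b := Module.Basis.ofVectorSpace K0 Om
  let I := Finset.univ.biUnion fun l : Fin N => (b.repr (u l)).support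
  obtain ⟨d, hd⟩ := IsLocalization.exist_integer_multiples_of_finset (nonZeroDivisors P)
    ((I ×ˢ (Finset.univ : Finset (Fin N))).image (fun t => b.repr (u t.2) t.1) : Finset K0)
  have hd0 : (d : P) ≠ 0 := nonZeroDivisors.ne_zero d.2
  have hy : ∀ (i : I) (l : Fin N), ∃ y : P, algebraMap P K0 y = (d : P) • b.repr (u l) i.1 := by
    intro i l
    obtain ⟨y, hy⟩ := hd (b.repr (u l) i.1) (by
      rw [Finset.mem_image]
      exact ⟨(i.1, l), Finset.mem_product.mpr ⟨i.2, Finset.mem_univ l⟩, rfl⟩)
    exact ⟨y, hy⟩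
  choose y hy using hy
  let e := Fintype.equivFin I
  refine ⟨Fintype.card I, fun i => b (e.symm i).1 / φ d, fun i l => y (e.symm i) l, ?_, ?_⟩
  · intro l
    have h1 : u l = ∑ i : I, b.repr (u l) i.1 • b i.1 := by
      conv_lhs => rw [← b.linearCombination_repr (u l)]
      rw [Finsupp.linearCombination_apply, Finsupp.sum]
      rw [Finset.sum_coe_sort I (fun i => b.repr (u l) i • b i)]
      apply Finset.sum_subset
      · intro i hi
        exact Finset.mem_biUnion.mpr ⟨l, Finset.mem_univ l, hi⟩
      · intro i _ hi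
        rw [Finsupp.notMem_support_iff.mp hi, zero_smul]
    rw [← e.symm.sum_comp] at h1
    rw [h1]
    apply Finset.sum_congr rfl
    intro i _
    have h2 := congrArg (algebraMap K0 Om) (hy (e.symm i) l)
    rw [hψ] at h2
    rw [h2, Algebra.smul_def, Algebra.smul_def, map_mul, hψ]
    have h3 : φ d ≠ 0 := by
      intro h
      exact hd0 (hφ (by rw [h, map_zero]))
    field_simp
  · intro i s
    apply IsFractionRing.injective P K0
    rw [map_sum, map_zero]
    simp only [map_mul, hy]
    have h1 : ∀ l, (d : P) • b.repr (u l) (e.symm i).1 * algebraMap P K0 (a s l)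
        = (d : P) • b.repr (u l * φ (a s l)) (e.symm i).1 := by
      intro l
      have h2 : u l * φ (a s l) = (algebraMap P K0 (a s l)) • u l := by
        rw [Algebra.smul_def, hψ, mul_comm]
      rw [h2, map_smul, Finsupp.smul_apply, smul_eq_mul, smul_mul_assoc, mul_comm]
    rw [Finset.sum_congr rfl (fun l _ => h1 l), ← Finset.smul_sum, ← Finsupp.finsetSum_apply,
      ← map_sum, hu s]
    simp

end rational

section generic
variable {N : ℕ} {k : Type u} [Field k] [Infinite k] {Om : Type u} [Field Om] [Algebra k Om]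
variable {p m : ℕ} [hp : Fact p.Prime] {f : MvPolynomial (Idx N) k}

/-- the derivatives in the direction of `x` vanish at the vertex -/
theorem pd_x (h : IsSec p m f) (hm0 : (m : k) ≠ 0) (hm1 : ((m - 1 : ℕ) : k) ≠ 0)
    (x u : Fin N → Om) (hx : AlgebraicIndependent k x)
    (hD : ∑ l, C (u l) * pderiv l (Qx f x) = 0) (j : Fin N) :
    ev (pderiv (Sum.inl (0, j)) f) x u 1 0 = 0 := by
  classical
  let P := MvPolynomial (Fin N) k
  let φ : P →ₐ[k] Om := aeval x
  have hφ : Function.Injective φ := hx
  let q : MvPolynomial (Fin N) P := Qx f (X : Fin N → P)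
  have hq : MvPolynomial.map (φ : P →+* Om) q = Qx f x := by
    have := Qx_map (f := f) φ (X : Fin N → P)
    rw [this]
    congr 1
    funext j
    exact aeval_X x j
  obtain ⟨n, c, y, hc, hy⟩ := rational (S := Fin N →₀ ℕ) (φ : P →+* Om) hφ
    (fun s l => coeff s (pderiv l q)) u (by
      intro s
      have h1 := congrArg (coeff s) hD
      rw [coeff_sum, coeff_zero] at h1
      rw [← h1]
      apply Finset.sum_congr rfl
      intro l _
      rw [coeff_C_mul, ← hq, pderiv_map, coeff_map])
  let T := MvPolynomial (Fin N ⊕ Fin n) k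
  let io : P →ₐ[k] T := rename Sum.inl
  let uT : Fin N → T := fun l => ∑ i, X (Sum.inr i) * io (y i l)
  let xT : Fin N → T := fun l => X (Sum.inl l)
  have hqT : MvPolynomial.map (io : P →+* T) q = Qx f xT := by
    have := Qx_map (f := f) io (X : Fin N → P)
    rw [this]
    congr 1
    funext j
    exact rename_X _ _
  have hDT : ∑ l, C (uT l) * pderiv l (Qx f xT) = 0 := by
    have h1 : ∀ i, ∑ l, C (y i l) * pderiv l q = 0 := by
      intro i
      ext s
      rw [coeff_sum, coeff_zero]
      simp only [coeff_C_mul]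
      exact congrArg _ (hy i s)
    have h2 : ∀ l, C (uT l) * pderiv l (Qx f xT)
        = ∑ i, C (X (Sum.inr i)) * MvPolynomial.map (io : P →+* T) (C (y i l) * pderiv l q) := by
      intro l
      rw [← hqT, pderiv_map]
      simp only [uT, map_sum, map_mul, Finset.sum_mul, MvPolynomial.map_C]
      apply Finset.sum_congr rfl
      intro i _
      simp [mul_assoc]
    rw [Finset.sum_congr rfl (fun l _ => h2 l), Finset.sum_comm]
    apply Finset.sum_eq_zero
    intro i _
    rw [← Finset.mul_sum, ← map_sum, h1 i, map_zero, mul_zero]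
  obtain ⟨h0, h1⟩ := vertex_zero h hm0 hm1 xT uT hDT
  have h3 := chain_ev (pderiv (Sum.inl j) : Derivation k T T) f xT uT 1 0
  have h4 : ev f xT uT 1 0 = 0 := h0
  rw [h4, map_zero] at h3
  have h5 : ∀ l, ev (pderiv (Sum.inl (1, l)) f) xT uT 1 0 = 0 := by
    intro l
    rw [ev_pd_w]
    exact h1 l
  simp only [h5, zero_mul, Finset.sum_const_zero, add_zero, map_zero, mul_zero,
    Derivation.map_one_eq_zero] at h3
  rw [Finset.sum_eq_single j] at h3
  · simp only [xT, pderiv_X_self, mul_one] at h3
    have h6 := congrArg (aeval (Sum.elim x c) : T →ₐ[k] Om) h3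
    rw [map_zero, ev_map, map_one, map_zero] at h6
    refine Eq.trans ?_ h6.symm
    congr 1
    · funext l
      simp [xT]
    · funext l
      rw [hc l]
      simp only [uT, map_sum, map_mul, aeval_X, Sum.elim_inr]
      apply Finset.sum_congr rfl
      intro i _
      congr 1
      simp only [io, φ]
      rw [aeval_rename]
      rfl
  · intro l _ hl
    simp only [xT]
    rw [pderiv_X_of_ne (by simpa using hl), mul_zero]
  · intro h
    exact absurd (Finset.mem_univ j) h

/-- invariance under a line of translations -/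
theorem rad_of_shift [Infinite Om] (x u : Fin N → Om)
    (h : ∀ (t : Om) (w : Fin N → Om), al f x (fun j => w j + t * u j) = al f x w) :
    ∑ l, C (u l) * pderiv l (Qx f x) = 0 := by
  classical
  apply MvPolynomial.funext
  intro w
  rw [map_zero, map_sum]
  simp only [map_mul, eval_C, ← ev_pd_w]
  have h1 := chain_ev ((Polynomial.derivative' : Derivation Om (Polynomial Om) _).restrictScalars k)
    f (fun j => Polynomial.C (x j)) (fun j => Polynomial.C (w j) + Polynomial.X * Polynomial.C (u j))
    1 0
  have h2 : ev f (A := Polynomial Om) (fun j => Polynomial.C (x j))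
      (fun j => Polynomial.C (w j) + Polynomial.X * Polynomial.C (u j)) 1 0
      = Polynomial.C (al f x w) := by
    apply Polynomial.funext
    intro t
    rw [← evA_eval (k := k), ev_map, Polynomial.eval_C, ← h t w]
    unfold al
    congr 1
    · funext j
      exact evA_C t _
    · funext j
      rw [map_add, map_mul, evA_C, evA_C, evA_X]
    · exact map_one _
    · exact map_zero _
  have hder : ∀ a : Polynomial Om,
    ((Polynomial.derivative' : Derivation Om (Polynomial Om) _).restrictScalars k) a
      = Polynomial.derivative a := fun a => rfl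
  rw [h2] at h1
  simp only [hder, Polynomial.derivative_C, mul_zero, Finset.sum_const_zero, zero_add,
    Polynomial.derivative_add, Polynomial.derivative_mul, Polynomial.derivative_X, one_mul,
    add_zero, Polynomial.derivative_one, map_zero] at h1
  have h3 := congrArg (evA k (0 : Om)) h1
  rw [map_zero, map_sum] at h3
  refine Eq.trans ?_ h3.symm
  apply Finset.sum_congr rfl
  intro l _
  rw [map_mul, evA_C, ev_map, map_one, map_zero, mul_comm]
  congr 2
  · funext j
    rw [evA_C]
  · funext j
    rw [map_add, map_mul, evA_C, evA_C, evA_X, zero_mul, add_zero]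

end generic

end CrM


theorem specCR (hSm : SpecSm.{u}) : SpecCR.{u} := by
  classical
  intro p hp k _ _ _ m f hf Om _ _ _ x hx U hU
  have : Infinite k := IsAlgClosed.instInfinite
  have : Infinite Om := IsAlgClosed.instInfinite
  have hsec := hf.sec
  have hcast : ∀ n : ℕ, 0 < n → n < p → (n : k) ≠ 0 := by
    intro n hn0 hn h
    have h2 := (CharP.cast_eq_zero_iff k p n).mp h
    exact absurd (Nat.le_of_dvd hn0 h2) (by omega)
  have h5 := hf.five
  have hm24 : 2 ≤ m ∧ m ≤ 4 := by
    rcases hf.hm with h | h <;> omega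
  have hm0 : (m : k) ≠ 0 := hcast m (by omega) (by omega)
  have hm1 : ((m - 1 : ℕ) : k) ≠ 0 := hcast (m - 1) (by omega) (by omega)
  by_contra hcon
  push Not at hcon
  -- two vectors of `U` independent of `x`
  have hspan : ∀ (W : Submodule Om (Fin (p + 2) → Om)), Module.finrank Om W ≤ 2 →
      ∃ u ∈ U, u ∉ W := by
    intro W hW
    by_contra h
    push Not at h
    have h1 : U ≤ W := h
    have h2 := Submodule.finrank_mono h1
    omega
  obtain ⟨u2, hu2, hu2'⟩ := hspan (Submodule.span Om {x}) (by
    refine le_trans (finrank_span_le_card (R := Om) ({x} : Set (Fin (p + 2) → Om))) ?_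
    simp)
  obtain ⟨u3, hu3, hu3'⟩ := hspan (Submodule.span Om {x, u2}) (by
    refine le_trans (finrank_span_le_card (R := Om) ({x, u2} : Set (Fin (p + 2) → Om))) ?_
    rw [Set.toFinset_insert, Set.toFinset_singleton]
    exact Finset.card_le_two)
  have hx0 : x ≠ 0 := by
    intro h
    have := hx.ne_zero 0
    rw [h] at this
    exact this rfl
  -- a zero of `cf 1` on the span
  have hroot : ∃ s t : Om, (s ≠ 0 ∨ t ≠ 0) ∧
      cf f x (fun j => s * u2 j + t * u3 j) 1 = 0 := by
    let g : Polynomial Om := cf f (A := Polynomial Om) (fun j => Polynomial.C (x j))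
      (fun j => Polynomial.C (u2 j) + Polynomial.X * Polynomial.C (u3 j)) 1
    have hg : ∀ t : Om, g.eval t = cf f x (fun j => u2 j + t * u3 j) 1 := by
      intro t
      simp only [g]
      rw [← evA_eval (k := k), cf_map]
      congr 1
      · funext j
        rw [evA_C]
      · funext j
        rw [map_add, map_mul, evA_C, evA_C, evA_X]
    by_cases hdeg : g.degree = 0
    · -- constant
      have hc := Polynomial.eq_C_of_degree_eq_zero hdeg
      refine ⟨0, 1, Or.inr one_ne_zero, ?_⟩
      let g' : Polynomial Om := cf f (A := Polynomial Om) (fun j => Polynomial.C (x j))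
        (fun j => Polynomial.C (u3 j) + Polynomial.X * Polynomial.C (u2 j)) 1
      have hg' : ∀ t : Om, g'.eval t = cf f x (fun j => u3 j + t * u2 j) 1 := by
        intro t
        simp only [g']
        rw [← evA_eval (k := k), cf_map]
        congr 1
        · funext j
          rw [evA_C]
        · funext j
          rw [map_add, map_mul, evA_C, evA_C, evA_X]
      have heq : g' * Polynomial.X = Polynomial.C (g.coeff 0) * Polynomial.X ^ (m + p * 1 + 1) := by
        apply Polynomial.funext
        intro t
        rw [Polynomial.eval_mul, Polynomial.eval_mul, Polynomial.eval_X, Polynomial.eval_pow,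
          Polynomial.eval_X, Polynomial.eval_C]
        by_cases ht : t = 0
        · rw [ht]
          simp
        · have h1 : (fun j => u3 j + t * u2 j) = fun j => t * (u2 j + t⁻¹ * u3 j) := by
            funext j
            field_simp
            ring
          rw [hg', h1, cf_smul_right hsec x (fun j => u2 j + t⁻¹ * u3 j) t 1 (by omega), ← hg, hc,
            Polynomial.eval_C, Polynomial.coeff_C_zero]
          ring
      have h0 : g'.eval 0 = 0 := by
        have h2 : g' = Polynomial.C (g.coeff 0) * Polynomial.X ^ (m + p * 1) := by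
          have h3 : g' * Polynomial.X = (Polynomial.C (g.coeff 0) * Polynomial.X ^ (m + p * 1)) *
              Polynomial.X := by
            rw [heq]
            ring
          exact mul_right_cancel₀ Polynomial.X_ne_zero h3
        rw [h2]
        have h3 : m + p * 1 ≠ 0 := by omega
        rw [Polynomial.eval_mul, Polynomial.eval_pow, Polynomial.eval_X, zero_pow h3, mul_zero]
      rw [hg'] at h0
      refine Eq.trans ?_ h0
      congr 1
      funext j
      ring
    · obtain ⟨t, ht⟩ := IsAlgClosed.exists_root g hdeg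
      refine ⟨1, t, Or.inl one_ne_zero, ?_⟩
      have h1 := hg t
      rw [Polynomial.IsRoot.def.mp ht] at h1
      rw [h1]
      congr 1
      funext j
      ring
  obtain ⟨s, t, hst, hcf⟩ := hroot
  let u : Fin (p + 2) → Om := fun j => s * u2 j + t * u3 j
  have hu_def : u = s • u2 + t • u3 := rfl
  have huU : u ∈ U := by
    rw [hu_def]
    exact U.add_mem (U.smul_mem _ hu2) (U.smul_mem _ hu3)
  have hli : LinearIndependent Om ![x, u] := by
    rw [LinearIndependent.pair_iff]
    intro a b hab
    by_cases hb : b = 0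
    · rw [hb, zero_smul, add_zero] at hab
      exact ⟨(smul_eq_zero.mp hab).resolve_right hx0, hb⟩
    · exfalso
      by_cases ht : t = 0
      · -- `u = s u2`
        have hs : s ≠ 0 := hst.resolve_right (not_not_intro ht)
        apply hu2'
        rw [Submodule.mem_span_singleton]
        refine ⟨-(b * s)⁻¹ * a, ?_⟩
        have h1 : (b * s) • u2 = - (a • x) := by
          rw [hu_def, ht, zero_smul, add_zero, smul_smul] at hab
          exact eq_neg_of_add_eq_zero_right hab
        have hbs : b * s ≠ 0 := mul_ne_zero hb hs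
        have h2 : u2 = (b * s)⁻¹ • ((b * s) • u2) := by
          rw [smul_smul, inv_mul_cancel₀ hbs, one_smul]
        rw [h2, h1, smul_neg, smul_smul, neg_mul, neg_smul]
      · apply hu3'
        rw [Submodule.mem_span_pair]
        refine ⟨-(b * t)⁻¹ * a, -(b * t)⁻¹ * (b * s), ?_⟩
        have h1 : (b * t) • u3 = - (a • x + (b * s) • u2) := by
          rw [hu_def, smul_add, smul_smul, smul_smul] at hab
          apply eq_neg_of_add_eq_zero_right
          rw [← hab]
          abel
        have hbt : b * t ≠ 0 := mul_ne_zero hb ht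
        have h2 : u3 = (b * t)⁻¹ • ((b * t) • u3) := by
          rw [smul_smul, inv_mul_cancel₀ hbt, one_smul]
        rw [h2, h1, smul_neg, smul_add, smul_smul, smul_smul, neg_mul, neg_mul, neg_smul, neg_smul,
          neg_add]
  have hD : ∑ l, C (u l) * pderiv l (Qx f x) = 0 := by
    apply CrM.rad_of_shift
    intro t w
    have := hU (t • u) (U.smul_mem _ huU) w
    exact this
  obtain ⟨h0, h1⟩ := CrM.vertex_zero hsec hm0 hm1 x u hD
  have h2 := CrM.pd_x hsec hm0 hm1 x u hx hD
  obtain ⟨i, hi⟩ := hSm p k m f hf Om x u 1 0 hli (Or.inl one_ne_zero) h0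
  apply hi
  have hder : ∀ a : Polynomial Om,
    ((Polynomial.derivative' : Derivation Om (Polynomial Om) _).restrictScalars k) a
      = Polynomial.derivative a := fun a => rfl
  rcases i with ⟨i, j⟩ | l
  · fin_cases i
    · exact h2 j
    · have := CrM.ev_pd_w (f := f) x u j
      rw [h1 j] at this
      exact this
  · fin_cases l
    · -- derivative in the direction of `X`
      have h3 := CrM.chain_ev
        ((Polynomial.derivative' : Derivation Om (Polynomial Om) _).restrictScalars k) f
        (fun j => Polynomial.C (x j)) (fun j => Polynomial.C (u j)) Polynomial.X 0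
      have h4 : ev f (A := Polynomial Om) (fun j => Polynomial.C (x j))
          (fun j => Polynomial.C (u j)) Polynomial.X 0 = 0 := by
        have h6 := hom_all hsec (A := Polynomial Om) (fun j => Polynomial.C (x j))
          (fun j => Polynomial.C (u j)) 1 0 Polynomial.X
        rw [mul_one, mul_zero] at h6
        rw [h6]
        have h7 := al_map f (Polynomial.CAlgHom (R := k) (A := Om)) x u
        have h8 : al f (A := Polynomial Om) (fun j => Polynomial.C (x j))
            (fun j => Polynomial.C (u j)) = 0 := by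
          have h9 : al f (A := Polynomial Om) (fun j => Polynomial.C (x j))
            (fun j => Polynomial.C (u j)) = Polynomial.CAlgHom (R := k) (A := Om) (al f x u) := h7.symm
          rw [h9, h0, map_zero]
        unfold al at h8
        rw [h8, mul_zero]
      rw [h4] at h3
      simp only [hder, Polynomial.derivative_C, mul_zero, Finset.sum_const_zero, zero_add,
        Polynomial.derivative_X, mul_one, map_zero, add_zero] at h3
      have h5 := congrArg (evA k (1 : Om)) h3
      rw [map_zero, ev_map, map_zero, evA_X] at h5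
      simp only [evA_C] at h5
      exact h5.symm
    · have h3 := CrM.chain_ev
        ((Polynomial.derivative' : Derivation Om (Polynomial Om) _).restrictScalars k) f
        (fun j => Polynomial.C (x j)) (fun j => Polynomial.C (u j)) 1 Polynomial.X
      simp only [hder, Polynomial.derivative_C, mul_zero, Finset.sum_const_zero, zero_add,
        Polynomial.derivative_X, mul_one, map_zero, add_zero, Polynomial.derivative_one] at h3
      have h5 := congrArg (evA k (0 : Om)) h3
      rw [ev_map, map_one, evA_X, evA_eval, ← Polynomial.coeff_zero_eq_eval_zero,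
        Polynomial.coeff_derivative] at h5
      simp only [evA_C] at h5
      have h6 : cf f x u 1 = 0 := hcf
      unfold cf at h6
      rw [zero_add, h6, zero_mul] at h5
      exact h5.symm

end MPcfca
end

section
/-! MP_cfca38_ag: module RK. -/
set_option autoImplicit false

namespace MPcfca

open MvPolynomial

universe u

namespace RkM

/-- a form of degree two is given by a matrix -/
theorem quad_form {n : ℕ} {F : Type u} [Field F] (Q : MvPolynomial (Fin n) F)
    (hQ : Q.IsHomogeneous 2) :
    ∃ M : Matrix (Fin n) (Fin n) F, ∀ w : Fin n → F,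
      eval w Q = ∑ i, ∑ j, M i j * w i * w j := by
  have key : ∀ (c : (Fin n →₀ ℕ) → F) (S : Finset (Fin n →₀ ℕ)),
      (∀ s ∈ S, s.degree = 2) →
      ∃ M : Matrix (Fin n) (Fin n) F, ∀ w : Fin n → F,
      eval w (∑ s ∈ S, monomial s (c s)) = ∑ i, ∑ j, M i j * w i * w j := by
    classical
    intro c S
    induction S using Finset.induction_on with
    | empty => intro _; exact ⟨0, fun w => by simp⟩
    | insert s S hs ih =>
      intro h
      obtain ⟨M, hM⟩ := ih fun t ht => h t (Finset.mem_insert_of_mem ht)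
      have hd := h s (Finset.mem_insert_self _ _)
      have hne : s ≠ 0 := by rintro rfl; simp at hd
      obtain ⟨i, hi⟩ := Finsupp.ne_iff.mp hne
      obtain ⟨s', hs'⟩ : ∃ s', s = Finsupp.single i 1 + s' :=
        ⟨s - Finsupp.single i 1, by
          rw [add_tsub_cancel_of_le]
          rw [Finsupp.single_le_iff]
          exact Nat.one_le_iff_ne_zero.mpr hi⟩
      rw [hs', map_add, Finsupp.degree_single] at hd
      have hne' : s' ≠ 0 := by rintro rfl; simp at hd
      obtain ⟨j, hj⟩ := Finsupp.ne_iff.mp hne'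
      obtain ⟨s'', hs''⟩ : ∃ s'', s' = Finsupp.single j 1 + s'' :=
        ⟨s' - Finsupp.single j 1, by
          rw [add_tsub_cancel_of_le]
          rw [Finsupp.single_le_iff]
          exact Nat.one_le_iff_ne_zero.mpr hj⟩
      rw [hs'', map_add, Finsupp.degree_single] at hd
      have h0 : s'' = 0 := by
        rw [← Finsupp.degree_eq_zero_iff]
        omega
      refine ⟨M + Matrix.single i j (c s), fun w => ?_⟩
      rw [Finset.sum_insert hs, map_add, hM w, hs', hs'', h0, add_zero]
      have e1 : eval w (monomial (Finsupp.single i 1 + Finsupp.single j 1)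
          (c (Finsupp.single i 1 + Finsupp.single j 1))) =
          c (Finsupp.single i 1 + Finsupp.single j 1) * w i * w j := by
        rw [eval_monomial, Finsupp.prod_add_index']
        · simp [mul_assoc]
        · intro a; simp
        · intro a b1 b2; rw [pow_add]
      rw [e1]
      simp only [Matrix.add_apply, add_mul, Finset.sum_add_distrib, Matrix.single_apply]
      rw [add_comm]
      congr 1
      rw [Finset.sum_eq_single i, Finset.sum_eq_single j]
      · simp
      · intro b _ hb; simp [hb.symm]
      · simp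
      · intro b _ hb
        apply Finset.sum_eq_zero
        intro a _
        simp [hb.symm]
      · simp
  have h := key (fun s => coeff s Q) Q.support (fun s hs => by
    have := hQ (mem_support_iff.mp hs)
    rwa [Finsupp.degree_eq_weight_one])
  rw [← Q.as_sum] at h
  exact h

/-- a symmetric bilinear form of rank at least five has a nondegenerate subspace of dimension
five -/
theorem exists_five {n : ℕ} {F : Type u} [Field F] (h2 : (2 : F) ≠ 0)
    (B : LinearMap.BilinForm F (Fin n → F)) (hB : ∀ u w, B u w = B w u)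
    (hrad : ∀ U : Submodule F (Fin n → F), (∀ u ∈ U, ∀ w, B u w = 0) →
      Module.finrank F U + 5 ≤ n) :
    ∃ E : Fin 5 → Fin n → F, (Matrix.of fun i j : Fin 5 => B (E i) (E j)).det ≠ 0 := by
  classical
  let _ : Invertible (2 : F) := invertibleOfNonzero h2
  obtain ⟨v, hv⟩ := LinearMap.BilinForm.exists_orthogonal_basis
    (B := B) ⟨fun u w => by simpa using hB u w⟩
  have hfr : Module.finrank F (Fin n → F) = n := by simp
  set Z : Finset (Fin (Module.finrank F (Fin n → F))) :=
    Finset.univ.filter fun i => B (v i) (v i) = 0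
  have h1 := hrad (Submodule.span F (v '' (Z : Set _))) (by
    intro u hu w
    have : ∀ w, B u w = 0 := by
      refine Submodule.span_induction (p := fun u _ => ∀ w, B u w = 0) ?_ ?_ ?_ ?_ hu
      · rintro _ ⟨i, hi, rfl⟩ w
        have hi' : B (v i) (v i) = 0 := (Finset.mem_filter.mp hi).2
        rw [← v.sum_repr w, map_sum]
        apply Finset.sum_eq_zero
        intro j _
        rw [map_smul]
        by_cases hij : i = j
        · rw [← hij, hi', smul_zero]
        · have := hv hij
          rw [Function.onFun] at this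
          have h3 : B (v i) (v j) = 0 := this
          rw [h3, smul_zero]
      · intro w; simp
      · intro a b _ _ ha hb w; simp [ha w, hb w]
      · intro c a _ ha w; simp [ha w]
    exact this w)
  have h3 : Module.finrank F (Submodule.span F (v '' (Z : Set _))) = Z.card := by
    have hli : LinearIndependent F (fun i : Z => v i) :=
      v.linearIndependent.comp _ Subtype.val_injective
    have h4 := finrank_span_eq_card hli
    have h5 : Set.range (fun i : Z => v i) = v '' (Z : Set _) := by
      ext a; constructor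
      · rintro ⟨i, rfl⟩; exact ⟨i, i.2, rfl⟩
      · rintro ⟨i, hi, rfl⟩; exact ⟨⟨i, hi⟩, rfl⟩
    rw [h5] at h4
    rw [h4, Fintype.card_coe]
  rw [h3] at h1
  have h6 : 5 ≤ Zᶜ.card := by
    rw [Finset.card_compl, Fintype.card_fin]
    omega
  obtain ⟨W, hW, hWc⟩ := Finset.exists_subset_card_eq h6
  let σ : Fin 5 → Fin (Module.finrank F (Fin n → F)) := fun i => (W.orderEmbOfFin hWc i)
  have hσi : Function.Injective σ := (W.orderEmbOfFin hWc).injective
  have hσ : ∀ i, B (v (σ i)) (v (σ i)) ≠ 0 := by
    intro i h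
    have := hW (W.orderEmbOfFin_mem hWc i)
    rw [Finset.mem_compl] at this
    exact this (Finset.mem_filter.mpr ⟨Finset.mem_univ _, h⟩)
  refine ⟨fun i => v (σ i), ?_⟩
  have : (Matrix.of fun i j : Fin 5 => B (v (σ i)) (v (σ j)))
      = Matrix.diagonal fun i => B (v (σ i)) (v (σ i)) := by
    ext i j
    rw [Matrix.of_apply, Matrix.diagonal_apply]
    split_ifs with hij
    · rw [hij]
    · exact hv fun h => hij (hσi h)
  rw [this, Matrix.det_diagonal]
  exact Finset.prod_ne_zero_iff.mpr fun i _ => hσ i

/-- the vectors can be taken over an infinite subfield -/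
theorem exists_five_sub {n : ℕ} {k F : Type u} [Field k] [Infinite k] [Field F] [Algebra k F]
    (B : LinearMap.BilinForm F (Fin n → F)) (E : Fin 5 → Fin n → F)
    (hE : (Matrix.of fun i j : Fin 5 => B (E i) (E j)).det ≠ 0) :
    ∃ E : Fin 5 → Fin n → k, (Matrix.of fun i j : Fin 5 =>
      B (fun l => algebraMap k F (E i l)) (fun l => algebraMap k F (E j l))).det ≠ 0 := by
  classical
  by_contra hc
  push Not at hc
  let D : MvPolynomial (Fin 5 × Fin n) F := (Matrix.of fun i j : Fin 5 =>
    ∑ a, ∑ b, X (i, a) * C (B (Pi.single a 1) (Pi.single b 1)) * X (j, b)).det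
  have hB : ∀ u w : Fin n → F, B u w = ∑ a, ∑ b, u a * B (Pi.single a 1) (Pi.single b 1) * w b := by
    intro u w
    have h1 := Matrix.toBilin'_apply (LinearMap.BilinForm.toMatrix' B) u w
    rw [Matrix.toBilin'_toMatrix'] at h1
    rw [h1]
    rfl
  have hD : ∀ e : Fin 5 × Fin n → F, eval e D = (Matrix.of fun i j : Fin 5 =>
      B (fun l => e (i, l)) (fun l => e (j, l))).det := by
    intro e
    rw [← RingHom.coe_coe (eval e), RingHom.map_det]
    congr 1
    ext i j
    simp only [RingHom.mapMatrix_apply, Matrix.map_apply, Matrix.of_apply]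
    rw [hB]
    simp
  have hD0 : D = 0 := by
    apply funext_set (fun _ => Set.range (algebraMap k F))
      (fun _ => Set.infinite_range_of_injective (algebraMap k F).injective)
    intro e he
    have : ∀ il, ∃ c : k, algebraMap k F c = e il := fun il => he il (Set.mem_univ _)
    choose c hc' using this
    rw [hD, map_zero]
    have := hc fun i l => c (i, l)
    simp only [hc'] at this
    exact this
  have := hD fun il => E il.1 il.2
  rw [hD0, map_zero] at this
  exact hE this.symm

/-- the polar form of `al f x` is bilinear -/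
theorem pol_bilin {N : ℕ} {k : Type u} [Field k] [Infinite k] {p : ℕ} [Fact p.Prime]
    {f : MvPolynomial (Idx N) k} (h : IsSec p 2 f) {F : Type u} [Field F] [Algebra k F]
    (x : Fin N → F) : ∃ B : LinearMap.BilinForm F (Fin N → F), (∀ u w, B u w = B w u) ∧
      (∀ u w, pol f x u w = B u w) ∧ ∀ u, B u u = 2 * al f x u := by
  obtain ⟨M, hM⟩ := quad_form (Qx f x) (Qx_hom h x)
  have hal : ∀ w, al f x w = ∑ i, ∑ j, M i j * w i * w j := by
    intro w
    rw [← hM w]
    have := aeval_Qx (f := f) (A := F) (B := F) x w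
    simp only [Algebra.algebraMap_self, RingHom.id_apply] at this
    rw [← this, aeval_eq_eval]
  have hB : ∀ u w, Matrix.toBilin' (M + M.transpose) u w
      = ∑ i, ∑ j, (M i j * u i * w j + M i j * w i * u j) := by
    intro u w
    rw [Matrix.toBilin'_apply]
    simp only [Matrix.add_apply, Matrix.transpose_apply, mul_add, add_mul,
      Finset.sum_add_distrib]
    congr 1
    · apply Finset.sum_congr rfl; intro i _; apply Finset.sum_congr rfl; intro j _; ring
    · rw [Finset.sum_comm]
      apply Finset.sum_congr rfl; intro i _; apply Finset.sum_congr rfl; intro j _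
      ring
  refine ⟨Matrix.toBilin' (M + M.transpose), fun u w => ?_, fun u w => ?_, fun u => ?_⟩
  · rw [hB, hB]
    apply Finset.sum_congr rfl; intro i _; apply Finset.sum_congr rfl; intro j _; ring
  · rw [hB]
    unfold pol
    rw [hal, hal, hal, ← Finset.sum_sub_distrib, ← Finset.sum_sub_distrib]
    apply Finset.sum_congr rfl; intro i _
    rw [← Finset.sum_sub_distrib, ← Finset.sum_sub_distrib]
    apply Finset.sum_congr rfl; intro j _; ring
  · rw [hB, hal, Finset.mul_sum]
    apply Finset.sum_congr rfl; intro i _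
    rw [Finset.mul_sum]
    apply Finset.sum_congr rfl; intro j _; ring

/-- scaling by a new variable makes `(1, x)` generic -/
theorem indep_scale {n : ℕ} {k : Type u} [Field k] [Infinite k] {F L : Type u} [Field F]
    [Algebra k F] [Field L] [Algebra k L] [Algebra F L] [IsScalarTower k F L]
    (x : Fin (n + 1) → F) (h0 : x 0 = 1)
    (hx : AlgebraicIndependent k fun j : Fin n => x j.succ) (l : L) (hl : Transcendental F l) :
    AlgebraicIndependent k fun j => l * algebraMap F L (x j) := by
  rw [algebraicIndependent_iff]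
  intro G hG
  -- the polynomial `G(T, T x)` over `F`
  let P : Polynomial F := aeval (fun j => Polynomial.X * Polynomial.C (x j)) G
  have hP : P = 0 := by
    have h1 : Polynomial.aeval l P = 0 := by
      rw [← hG]
      have : ((Polynomial.aeval (R := F) l).restrictScalars k).comp
          (aeval (fun j => Polynomial.X * Polynomial.C (x j)) :
            MvPolynomial (Fin (n + 1)) k →ₐ[k] Polynomial F) =
          aeval fun j => l * algebraMap F L (x j) := by
        apply MvPolynomial.algHom_ext
        intro j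
        simp only [AlgHom.comp_apply, aeval_X, AlgHom.restrictScalars_apply, map_mul,
          Polynomial.aeval_X, Polynomial.aeval_C]
      rw [← this]
      rfl
    by_contra hne
    exact hl ⟨P, hne, h1⟩
  have h2 : ∀ c : k, (aeval (fun j : Fin (n + 1) => Fin.cases (C c) (fun i => C c * X i) j) G :
      MvPolynomial (Fin n) k) = 0 := by
    intro c
    have h3 : aeval (fun j : Fin n => x j.succ) (aeval (fun j : Fin (n + 1) =>
        Fin.cases (C c) (fun i => C c * X i) j) G : MvPolynomial (Fin n) k) = 0 := by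
      have h4 : Polynomial.aeval (algebraMap k F c) P = 0 := by rw [hP, map_zero]
      rw [← h4]
      have : ((aeval (fun j : Fin n => x j.succ) : MvPolynomial (Fin n) k →ₐ[k] F)).comp
          (aeval (fun j : Fin (n + 1) => Fin.cases (C c) (fun i => C c * X i) j) :
            MvPolynomial (Fin (n + 1)) k →ₐ[k] MvPolynomial (Fin n) k) =
          ((Polynomial.aeval (R := F) (algebraMap k F c)).restrictScalars k).comp
          (aeval (fun j => Polynomial.X * Polynomial.C (x j)) :
            MvPolynomial (Fin (n + 1)) k →ₐ[k] Polynomial F) := by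
        apply MvPolynomial.algHom_ext
        intro j
        refine Fin.cases ?_ (fun i => ?_) j
        · simp [h0]
        · have e1 : (aeval (fun j : Fin (n + 1) => (Fin.cases (C c) (fun i => C c * X i) j :
              MvPolynomial (Fin n) k))) (X i.succ : MvPolynomial (Fin (n + 1)) k)
              = C c * X i := by rw [aeval_X]; rfl
          rw [AlgHom.comp_apply, e1, AlgHom.comp_apply, aeval_X, map_mul, aeval_C, aeval_X,
            map_mul]
          simp
      exact DFunLike.congr_fun this G
    exact (algebraicIndependent_iff.mp hx) _ h3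
  have h5 : G * X 0 = 0 := by
    apply MvPolynomial.funext
    intro z
    rw [map_mul, map_zero, eval_X]
    by_cases hz : z 0 = 0
    · rw [hz, mul_zero]
    · have h6 := congrArg (eval fun i : Fin n => z i.succ / z 0) (h2 (z 0))
      rw [map_zero] at h6
      have h7 : eval (fun i : Fin n => z i.succ / z 0) (aeval (fun j : Fin (n + 1) =>
        Fin.cases (C (z 0)) (fun i => C (z 0) * X i) j) G : MvPolynomial (Fin n) k) = eval z G := by
        have : ((aeval (fun i : Fin n => z i.succ / z 0) : MvPolynomial (Fin n) k →ₐ[k] k)).comp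
          (aeval (fun j : Fin (n + 1) => Fin.cases (C (z 0)) (fun i => C (z 0) * X i) j) :
            MvPolynomial (Fin (n + 1)) k →ₐ[k] MvPolynomial (Fin n) k) = aeval z := by
          apply MvPolynomial.algHom_ext
          intro j
          refine Fin.cases ?_ (fun i => ?_) j
          · simp
          · simp; field_simp
        exact DFunLike.congr_fun this G
      rw [h7] at h6
      rw [h6, zero_mul]
  exact (mul_eq_zero.mp h5).resolve_right (X_ne_zero 0)

end RkM

theorem specRk (hCR : SpecCR.{u}) : SpecRk.{u} := by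
  intro p _ k _ _ _ f hg Ω _ _ x h0 hx
  have hinf : Infinite k := IsAlgClosed.instInfinite
  let Ω' := AlgebraicClosure (FractionRing (Polynomial Ω))
  let l : Ω' := algebraMap (Polynomial Ω) Ω' Polynomial.X
  have hl : Transcendental Ω l := by
    have h1 : Transcendental Ω (Polynomial.X : Polynomial Ω) := Polynomial.transcendental_X Ω
    have hinj : Function.Injective (algebraMap (Polynomial Ω) Ω') := by
      rw [IsScalarTower.algebraMap_eq (Polynomial Ω) (FractionRing (Polynomial Ω)) Ω']
      exact (algebraMap (FractionRing (Polynomial Ω)) Ω').injective.comp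
        (IsFractionRing.injective _ _)
    exact (transcendental_algebraMap_iff hinj).mpr h1
  have hx' := RkM.indep_scale (L := Ω') x h0 hx l hl
  set x' : Fin (p + 2) → Ω' := fun j => l * algebraMap Ω Ω' (x j) with hx'def
  have h2 : (2 : Ω') ≠ 0 := by
    have : CharP Ω' p := charP_of_injective_algebraMap (algebraMap k Ω').injective p
    intro h
    have h3 : ((2 : ℕ) : Ω') = 0 := by exact_mod_cast h
    rw [CharP.cast_eq_zero_iff Ω' p 2] at h3
    have := Nat.le_of_dvd (by norm_num) h3
    have := hg.five
    omega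
  obtain ⟨B, hBs, hB, hB2⟩ := RkM.pol_bilin hg.sec x'
  obtain ⟨E, hE⟩ := RkM.exists_five h2 B hBs (by
    intro U hU
    have h3 := hCR p k 2 f hg Ω' x' hx' U (by
      intro u hu w
      have h4 := hB w u
      have h5 : B w u = 0 := by rw [hBs]; exact hU u hu w
      have h6 : 2 * al f x' u = 0 := by rw [← hB2 u]; exact hU u hu u
      have h7 : al f x' u = 0 := (mul_eq_zero.mp h6).resolve_left h2
      rw [h5] at h4
      unfold pol at h4
      rw [h7] at h4
      linear_combination h4)
    have := hg.five
    omega)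
  obtain ⟨E', hE'⟩ := RkM.exists_five_sub (k := k) B E hE
  refine ⟨E', fun hdet => hE' ?_⟩
  have h8 : ∀ e e' : Fin (p + 2) → k, B (fun l => algebraMap k Ω' (e l))
      (fun l => algebraMap k Ω' (e' l)) = l ^ (2 * (p + 1)) * algebraMap Ω Ω'
        (pol f x (fun l => algebraMap k Ω (e l)) (fun l => algebraMap k Ω (e' l))) := by
    intro e e'
    have h9 : ∀ w : Fin (p + 2) → Ω, al f x' (fun j => algebraMap Ω Ω' (w j))
        = l ^ (2 * (p + 1)) * algebraMap Ω Ω' (al f x w) := by
      intro w
      have h10 := al_map f (IsScalarTower.toAlgHom k Ω Ω') x w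
      simp only [IsScalarTower.coe_toAlgHom'] at h10
      rw [hx'def, al_smul_left hg.sec, h10]
    rw [← hB]
    unfold pol
    have e1 : ∀ c : k, algebraMap k Ω' c = algebraMap Ω Ω' (algebraMap k Ω c) :=
      fun c => IsScalarTower.algebraMap_apply k Ω Ω' c
    have h11 := h9 fun j => algebraMap k Ω (e j) + algebraMap k Ω (e' j)
    have h12 := h9 fun j => algebraMap k Ω (e j)
    have h13 := h9 fun j => algebraMap k Ω (e' j)
    simp only [map_add, ← e1] at h11 h12 h13
    rw [h11, h12, h13]
    simp only [map_sub]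
    ring
  have h14 : (Matrix.of fun i j : Fin 5 => B (fun l => algebraMap k Ω' (E' i l))
      (fun l => algebraMap k Ω' (E' j l))) = l ^ (2 * (p + 1)) • (algebraMap Ω Ω').mapMatrix
      (Matrix.of fun i j : Fin 5 => pol f x (fun l => algebraMap k Ω (E' i l))
        (fun l => algebraMap k Ω (E' j l))) := by
    ext i j
    simp only [Matrix.of_apply, Matrix.smul_apply, RingHom.mapMatrix_apply, Matrix.map_apply,
      smul_eq_mul]
    exact h8 _ _
  rw [h14, Matrix.det_smul, ← RingHom.map_det, hdet, map_zero, mul_zero]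

end MPcfca
end

section
/-! MP_cfca38_ag: modules V3 and V4 (two V-moves from a general point of `k^N`). -/
set_option autoImplicit false
set_option linter.unusedSimpArgs false
set_option linter.unusedSectionVars false
set_option linter.unusedVariables false

namespace MPcfca

open MvPolynomial

universe u

namespace V34M

/-! ### algebraic independence -/

section ai
variable {k : Type u} [Field k] {Ω : Type u} [Field Ω] [Algebra k Ω]

theorem swap_ai {ι τ : Type} {a : ι → Ω} {b : τ → Ω}
    (h : AlgebraicIndependent k (Sum.elim a b)) : AlgebraicIndependent k (Sum.elim b a) := by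
  have h1 := h.comp (Sum.swap : τ ⊕ ι → ι ⊕ τ) (Equiv.sumComm τ ι).injective
  convert h1 using 1
  funext i
  cases i <;> rfl

theorem left_ai {ι τ : Type} {a : ι → Ω} {b : τ → Ω}
    (h : AlgebraicIndependent k (Sum.elim a b)) : AlgebraicIndependent k a :=
  h.comp Sum.inl Sum.inl_injective

theorem right_ai {ι τ : Type} {a : ι → Ω} {b : τ → Ω}
    (h : AlgebraicIndependent k (Sum.elim a b)) : AlgebraicIndependent k b :=
  h.comp Sum.inr Sum.inr_injective

/-- replacing a part of an algebraically independent family by algebraically independent elements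
which are algebraic over that part -/
theorem replace_alg {ι κ τ : Type} {a : ι → Ω} {b : τ → Ω} {c : κ → Ω}
    (h : AlgebraicIndependent k (Sum.elim a b)) (hc : AlgebraicIndependent k c)
    (halg : ∀ i, IsAlgebraic (Algebra.adjoin k (Set.range a)) (c i)) :
    AlgebraicIndependent k (Sum.elim c b) := by
  have h2 := (AlgebraicIndependent.sumElim_iff.mp (swap_ai h)).2
  have h3 := h2.subalgebraAlgebraicClosure
  apply swap_ai
  refine hc.sumElim_of_tower ?_ h3
  rintro _ ⟨i, rfl⟩
  exact ⟨⟨c i, halg i⟩, rfl⟩

/-- powers -/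
theorem pow_ai {ι : Type} {a : ι → Ω} (h : AlgebraicIndependent k a) (n : ι → ℕ)
    (hn : ∀ i, n i ≠ 0) : AlgebraicIndependent k (fun i => a i ^ n i) := by
  have h1 := h.polynomial_aeval_of_transcendental
    (f := fun i => (Polynomial.X : Polynomial k) ^ n i) (by
      intro i
      exact (Polynomial.transcendental_X k).pow (Nat.pos_of_ne_zero (hn i)))
  simpa using h1

end ai

/-! ### a nonzero coefficient -/

theorem coef_open {k : Type u} [Field k] {ι τ : Type} (R : MvPolynomial (ι ⊕ τ) k) (hR : R ≠ 0) :
    ∃ B : MvPolynomial ι k, B ≠ 0 ∧ ∀ z : ι → k, eval z B ≠ 0 →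
      ∀ (Ω : Type u) [Field Ω] [Algebra k Ω] (w : τ → Ω), AlgebraicIndependent k w →
        aeval (Sum.elim (fun i => algebraMap k Ω (z i)) w) R ≠ 0 := by
  classical
  let R1 := sumAlgEquiv k τ ι (rename Sum.swap R)
  have hR1 : R1 ≠ 0 := by
    intro h
    apply hR
    have h2 : rename (Sum.swap : ι ⊕ τ → τ ⊕ ι) R = 0 :=
      (sumAlgEquiv k τ ι).injective (by rw [map_zero]; exact h)
    exact rename_injective _ (Equiv.sumComm ι τ).injective (by rw [map_zero]; exact h2)
  obtain ⟨s, hs⟩ := MvPolynomial.ne_zero_iff.mp hR1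
  refine ⟨coeff s R1, hs, ?_⟩
  intro z hz Ω _ _ w hw h0
  let Rz : MvPolynomial τ k := map (eval z) R1
  have hRz : Rz = 0 := by
    apply hw.eq_zero_of_aeval_eq_zero
    have hcomp : ((aeval w : MvPolynomial τ k →ₐ[k] Ω).comp
        ((mapAlgHom (aeval z) : MvPolynomial τ (MvPolynomial ι k) →ₐ[k] MvPolynomial τ k).comp
          ((sumAlgEquiv k τ ι).toAlgHom.comp (rename Sum.swap)))) =
        aeval (Sum.elim (fun i => algebraMap k Ω (z i)) w) := by
      apply MvPolynomial.algHom_ext
      intro i
      cases i <;> simp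
    have h2 := AlgHom.congr_fun hcomp R
    rw [h0] at h2
    rw [← h2]
    simp only [AlgHom.comp_apply]
    rfl
  have h3 := congrArg (coeff s) hRz
  rw [coeff_map, coeff_zero] at h3
  exact hz h3

/-! ### Frobenius -/

section frob
variable {k : Type u} [Field k] {p : ℕ} [hp : Fact p.Prime] [CharP k p]
variable {A : Type u} [CommRing A] [Algebra k A] [CharP A p]

theorem aeval_pow {σ : Type} (P : MvPolynomial σ k) (z : σ → A) :
    aeval z P ^ p = aeval (fun i => z i ^ p) (map (frobenius k p) P) := by
  have h1 : (frobenius A p).comp (aeval z : MvPolynomial σ k →ₐ[k] A).toRingHom =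
      ((aeval (fun i => z i ^ p) : MvPolynomial σ k →ₐ[k] A).toRingHom).comp
        (map (frobenius k p)) := by
    apply MvPolynomial.ringHom_ext
    · intro r
      simp [frobenius_def]
    · intro i
      simp [frobenius_def]
  have h2 := RingHom.congr_fun h1 P
  exact h2

variable {N : ℕ} (f : MvPolynomial (Idx N) k)

theorem ev_pow (v w : Fin N → A) (x y : A) :
    ev f v w x y ^ p = ev (map (frobenius k p) f) (fun j => v j ^ p) (fun j => w j ^ p)
      (x ^ p) (y ^ p) := by
  unfold ev
  rw [aeval_pow]
  congr 2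
  funext i
  rcases i with ij | l
  · simp only [Sum.elim_inl]
    split_ifs <;> rfl
  · simp only [Sum.elim_inr]
    split_ifs <;> rfl

theorem mo_pow (v w : Fin N → A) (s : Idx N →₀ ℕ) :
    mo v w s ^ p = mo (fun j => v j ^ p) (fun j => w j ^ p) s := by
  unfold mo
  rw [← Finset.prod_pow]
  apply Finset.prod_congr rfl
  intro ij _
  split_ifs
  · rw [← pow_mul, ← pow_mul, mul_comm]
  · rw [← pow_mul, ← pow_mul, mul_comm]

theorem cf_pow (v w : Fin N → A) (i : ℕ) :
    cf f v w i ^ p = cf (map (frobenius k p) f) (fun j => v j ^ p) (fun j => w j ^ p) i := by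
  classical
  have hinj : Function.Injective (frobenius k p) := frobenius_inj k p
  rw [cf_expand, cf_expand, support_map_of_injective f hinj]
  rw [← frobenius_def, map_sum]
  apply Finset.sum_congr rfl
  intro s _
  split_ifs
  · rw [frobenius_def, mul_pow, mo_pow, coeff_map, frobenius_def, map_pow]
  · rw [map_zero]

theorem vm_pow (x w : Fin N → A) (j : Fin N) :
    vm f p x w j ^ p = vm (map (frobenius k p) f) p (fun j => x j ^ p) (fun j => w j ^ p) j := by
  have h1 : DD (cf f x w) ^ p = DD (cf (map (frobenius k p) f) (fun j => x j ^ p)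
      (fun j => w j ^ p)) := by
    rw [← frobenius_def, DD_map]
    congr 1
    funext i
    rw [frobenius_def, cf_pow]
  have h2 : TT (cf f x w) ^ p = TT (cf (map (frobenius k p) f) (fun j => x j ^ p)
      (fun j => w j ^ p)) := by
    rw [← frobenius_def, TT_map]
    congr 1
    funext i
    rw [frobenius_def, cf_pow]
  have h3 : (8 : A) ^ p = 8 := by
    rw [← frobenius_def, map_ofNat]
  unfold vm
  rw [add_pow_char, mul_pow, mul_pow, mul_pow, mul_pow, h1, h2, h3, cf_pow]

end frob


/-! ### the generic point -/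

section gen
variable (k : Type u) [Field k] (σ : Type)

/-- a generic point in an algebraically closed field -/
theorem exists_generic : ∃ (Ω : Type u) (_ : Field Ω) (_ : IsAlgClosed Ω) (_ : Algebra k Ω)
    (z : σ → Ω), AlgebraicIndependent k z := by
  refine ⟨AlgebraicClosure (FractionRing (MvPolynomial σ k)), inferInstance, inferInstance,
    inferInstance, fun i => algebraMap _ _ (algebraMap (MvPolynomial σ k) (FractionRing (MvPolynomial σ k))
      (X i)),
    ?_⟩
  have h1 := (MvPolynomial.algebraicIndependent_X σ k).map' (f := IsScalarTower.toAlgHom k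
    (MvPolynomial σ k) (FractionRing (MvPolynomial σ k)))
    (IsFractionRing.injective (MvPolynomial σ k) (FractionRing (MvPolynomial σ k)))
  exact h1.map' (f := IsScalarTower.toAlgHom k (FractionRing (MvPolynomial σ k))
    (AlgebraicClosure (FractionRing (MvPolynomial σ k))))
    (algebraMap (FractionRing (MvPolynomial σ k))
      (AlgebraicClosure (FractionRing (MvPolynomial σ k)))).injective

end gen

section main
variable {k : Type u} [Field k] {p : ℕ} [hp : Fact p.Prime] [CharP k p]

theorem of_pow {Ω : Type u} [Field Ω] [Algebra k Ω] [CharP Ω p] {ι : Type} {a : ι → Ω}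
    (h : AlgebraicIndependent k (fun i => a i ^ p)) : AlgebraicIndependent k a := by
  rw [algebraicIndependent_iff]
  intro P hP
  have h1 := aeval_pow (p := p) P a
  rw [hP, zero_pow hp.out.ne_zero] at h1
  have h2 := h.eq_zero_of_aeval_eq_zero _ h1.symm
  exact MvPolynomial.map_injective _ (frobenius_inj k p) (by rw [h2, map_zero])

variable {N : ℕ} (f : MvPolynomial (Idx N) k)

theorem x2_pow {A : Type u} [CommRing A] [Algebra k A] [CharP A p] (x w w' x1 x2 : Fin N → A)
    (h1 : ∀ j, x1 j ^ p = vm f p x w j) (h2 : ∀ j, x2 j ^ p = vm f p x1 w' j) (j : Fin N) :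
    (x2 j ^ p) ^ p = vm (map (frobenius k p) f) p (vm f p x w) (fun j => w' j ^ p) j := by
  rw [h2, vm_pow]
  congr 1
  funext i
  exact h1 i

/-- coordinates of the universal `x, w, w'` -/
abbrev RR (N : ℕ) (k : Type u) [Field k] : Type u := MvPolynomial (Fin N ⊕ (Fin N ⊕ Fin N)) k

noncomputable def Phi (p : ℕ) [Fact p.Prime] [CharP k p] (f : MvPolynomial (Idx N) k)
    (j : Fin N) : RR N k :=
  vm (map (frobenius k p) f) p
    (vm f p (A := RR N k) (fun j => X (Sum.inl j)) (fun j => X (Sum.inr (Sum.inl j))))
    (fun j => X (Sum.inr (Sum.inr j)) ^ p) j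

theorem aeval_Phi {A : Type u} [CommRing A] [Algebra k A] (x w w' : Fin N → A) (j : Fin N) :
    aeval (Sum.elim x (Sum.elim w w')) (Phi p f j) =
      vm (map (frobenius k p) f) p (vm f p x w) (fun j => w' j ^ p) j := by
  unfold Phi
  rw [vm_map]
  simp only [vm_map, map_pow, aeval_X, Sum.elim_inl, Sum.elim_inr]

end main

end V34M

open V34M

theorem specV3 (hV : SpecV2.{u}) (hS : SpecSD.{u}) : SpecV3.{u} := by
  intro p _ k _ _ _ f hg
  let N := p + 2
  have hPhi : AlgebraicIndependent k
      (Sum.elim (fun i : Fin N => (X (Sum.inl i) : RR N k)) (Phi p f)) := by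
    obtain ⟨Ω, _, _, _, z, hz⟩ := exists_generic k (Fin N ⊕ (Fin N ⊕ Fin N))
    have : CharP Ω p := charP_of_injective_algebraMap (algebraMap k Ω).injective p
    have hp0 : 0 < p := (Fact.out : p.Prime).pos
    let x : Fin N → Ω := fun j => z (Sum.inl j)
    let w : Fin N → Ω := fun j => z (Sum.inr (Sum.inl j))
    let w' : Fin N → Ω := fun j => z (Sum.inr (Sum.inr j))
    have hzz : z = Sum.elim x (Sum.elim w w') := by
      funext i
      rcases i with i | i | i <;> rfl
    choose x1 hx1 using fun j => IsAlgClosed.exists_pow_nat_eq (vm f p x w j) hp0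
    choose x2 hx2 using fun j => IsAlgClosed.exists_pow_nat_eq (vm f p x1 w' j) hp0
    rw [hzz] at hz
    have h1 := hV p k f hg Ω x w w' x1 x2 hz hx1 hx2
    have h2 := pow_ai h1 (Sum.elim (fun _ => 1) (fun _ => p * p)) (by
      rintro (i | i)
      · exact one_ne_zero
      · exact Nat.mul_ne_zero hp0.ne' hp0.ne')
    apply AlgebraicIndependent.of_comp (aeval (R := k) (Sum.elim x (Sum.elim w w')) :
      RR N k →ₐ[k] Ω)
    convert h2 using 1
    funext i
    rcases i with i | i
    · simp
    · simp only [Function.comp_apply, Sum.elim_inr]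
      rw [aeval_Phi, ← x2_pow f x w w' x1 x2 hx1 hx2 i, ← pow_mul]
  obtain ⟨B, hB, hBB⟩ := hS k (Fin N) (Fin N ⊕ Fin N) (Fin N) (Phi p f) hPhi
  refine ⟨B, hB, ?_⟩
  intro x hx Ω _ _ w w' x1 x2 hw hx1 hx2
  have : CharP Ω p := charP_of_injective_algebraMap (algebraMap k Ω).injective p
  have h1 := hBB k x hx
  have h2 := h1.map' (f := (aeval (Sum.elim w w') : MvPolynomial (Fin N ⊕ Fin N) k →ₐ[k] Ω)) hw
  have h3 : ∀ j, (aeval (Sum.elim w w') : MvPolynomial (Fin N ⊕ Fin N) k →ₐ[k] Ω)
      (aeval (R := k) (Sum.elim (fun i : Fin N => C (x i)) (fun j : Fin N ⊕ Fin N => X j))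
        (Phi p f j) : MvPolynomial (Fin N ⊕ Fin N) k) = (x2 j ^ p) ^ p := by
    intro j
    rw [x2_pow f (fun i => algebraMap k Ω (x i)) w w' x1 x2 hx1 hx2 j, ← aeval_Phi]
    rw [← AlgHom.comp_apply, comp_aeval]
    congr 2
    funext i
    rcases i with i | i | i <;> simp
  apply of_pow (p := p)
  apply of_pow (p := p)
  convert h2 using 1
  funext j
  exact (h3 j).symm

theorem specV4 (hV : SpecV1.{u}) : SpecV4.{u} := by
  intro p _ k _ _ _ f hg G hG
  let N := p + 2
  have hp0 : 0 < p := (Fact.out : p.Prime).pos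
  let R1 : RR N k := aeval (Sum.elim
    (vm f p (A := RR N k) (fun j => X (Sum.inl j)) (fun j => X (Sum.inr (Sum.inl j))))
    (fun j : Fin N => X (Sum.inr (Sum.inl j)) ^ p)) (map (frobenius k p) G)
  let R2 : RR N k := aeval (Sum.elim (Phi p f)
    (fun j : Fin N => (X (Sum.inr (Sum.inr j)) ^ p) ^ p))
      (map (frobenius k p) (map (frobenius k p) G))
  have hR1 : ∀ (Ω : Type u) [Field Ω] [Algebra k Ω] (x w w' x1 : Fin N → Ω),
      (∀ j, x1 j ^ p = vm f p x w j) →
      aeval (Sum.elim x1 w) G ^ p = aeval (Sum.elim x (Sum.elim w w')) R1 := by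
    intro Ω _ _ x w w' x1 hx1
    have : CharP Ω p := charP_of_injective_algebraMap (algebraMap k Ω).injective p
    rw [aeval_pow, ← AlgHom.comp_apply, comp_aeval]
    congr 2
    funext i
    rcases i with i | i
    · simp only [Sum.elim_inl, vm_map, aeval_X, Sum.elim_inr]
      exact hx1 i
    · simp
  have hR2 : ∀ (Ω : Type u) [Field Ω] [Algebra k Ω] (x w w' x1 x2 : Fin N → Ω),
      (∀ j, x1 j ^ p = vm f p x w j) → (∀ j, x2 j ^ p = vm f p x1 w' j) →
      (aeval (Sum.elim x2 w') G ^ p) ^ p = aeval (Sum.elim x (Sum.elim w w')) R2 := by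
    intro Ω _ _ x w w' x1 x2 hx1 hx2
    have : CharP Ω p := charP_of_injective_algebraMap (algebraMap k Ω).injective p
    rw [aeval_pow, aeval_pow, ← AlgHom.comp_apply, comp_aeval]
    congr 2
    funext i
    rcases i with i | i
    · simp only [Sum.elim_inl]
      rw [aeval_Phi]
      exact x2_pow f x w w' x1 x2 hx1 hx2 i
    · simp
  have hne : R1 ≠ 0 ∧ R2 ≠ 0 := by
    obtain ⟨Ω, _, _, _, z, hz⟩ := exists_generic k (Fin N ⊕ (Fin N ⊕ Fin N))
    have : CharP Ω p := charP_of_injective_algebraMap (algebraMap k Ω).injective p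
    let x : Fin N → Ω := fun j => z (Sum.inl j)
    let w : Fin N → Ω := fun j => z (Sum.inr (Sum.inl j))
    let w' : Fin N → Ω := fun j => z (Sum.inr (Sum.inr j))
    have hzz : z = Sum.elim x (Sum.elim w w') := by
      funext i
      rcases i with i | i | i <;> rfl
    choose x1 hx1 using fun j => IsAlgClosed.exists_pow_nat_eq (vm f p x w j) hp0
    choose x2 hx2 using fun j => IsAlgClosed.exists_pow_nat_eq (vm f p x1 w' j) hp0
    rw [hzz] at hz
    have hxw : AlgebraicIndependent k (Sum.elim x w) := by
      have := hz.comp (Sum.elim (fun i => Sum.inl i) (fun i => Sum.inr (Sum.inl i)) :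
        Fin N ⊕ Fin N → Fin N ⊕ (Fin N ⊕ Fin N)) (by
          rintro (a | a) (b | b) hab <;> simp_all)
      convert this using 1
      funext i
      rcases i with i | i <;> rfl
    have hzz2 : AlgebraicIndependent k (Sum.elim (Sum.elim x w) w') := by
      have := hz.comp (Sum.elim (Sum.elim (fun i => Sum.inl i) (fun i => Sum.inr (Sum.inl i)))
        (fun i => Sum.inr (Sum.inr i)) :
        (Fin N ⊕ Fin N) ⊕ Fin N → Fin N ⊕ (Fin N ⊕ Fin N)) (by
          rintro ((a | a) | a) ((b | b) | b) hab <;> simp_all)
      convert this using 1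
      funext i
      rcases i with (i | i) | i <;> rfl
    have h1 : AlgebraicIndependent k (Sum.elim x1 w) := hV p k f hg Ω x w x1 hxw hx1
    have h2 : AlgebraicIndependent k (Sum.elim x1 w') := by
      refine replace_alg hzz2 (left_ai h1) ?_
      intro i
      have hmem : vm f p x w i ∈ Algebra.adjoin k (Set.range (Sum.elim x w)) := by
        rw [Algebra.adjoin_range_eq_range_aeval]
        refine ⟨vm f p (A := MvPolynomial (Fin N ⊕ Fin N) k) (fun j => X (Sum.inl j))
          (fun j => X (Sum.inr j)) i, ?_⟩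
        have := vm_map (f := f) (p := p) (aeval (R := k) (Sum.elim x w))
          (fun j => X (Sum.inl j)) (fun j => X (Sum.inr j)) i
        simpa using this
      have hint : IsIntegral (Algebra.adjoin k (Set.range (Sum.elim x w))) (x1 i ^ p) := by
        rw [hx1 i]
        exact isIntegral_algebraMap (R := Algebra.adjoin k (Set.range (Sum.elim x w)))
          (A := Ω) (x := ⟨_, hmem⟩)
      exact (hint.of_pow hp0).isAlgebraic
    have h3 : AlgebraicIndependent k (Sum.elim x2 w') := hV p k f hg Ω x1 w' x2 h2 hx2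
    have h4 : aeval (Sum.elim x1 w) G ≠ 0 := fun h => hG (h1.eq_zero_of_aeval_eq_zero _ h)
    have h5 : aeval (Sum.elim x2 w') G ≠ 0 := fun h => hG (h3.eq_zero_of_aeval_eq_zero _ h)
    constructor
    · intro h
      have := hR1 Ω x w w' x1 hx1
      rw [h, map_zero] at this
      exact h4 (pow_eq_zero_iff hp0.ne' |>.mp this)
    · intro h
      have := hR2 Ω x w w' x1 x2 hx1 hx2
      rw [h, map_zero] at this
      exact h5 (pow_eq_zero_iff hp0.ne' |>.mp (pow_eq_zero_iff hp0.ne' |>.mp this))
  obtain ⟨B, hB, hBB⟩ := coef_open (R1 * R2) (mul_ne_zero hne.1 hne.2)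
  refine ⟨B, hB, ?_⟩
  intro x hx Ω _ _ w w' x1 x2 hw hx1 hx2
  have h1 := hBB x hx Ω (Sum.elim w w') hw
  rw [map_mul] at h1
  have h2 := left_ne_zero_of_mul h1
  have h3 := right_ne_zero_of_mul h1
  rw [← hR1 Ω (fun i => algebraMap k Ω (x i)) w w' x1 hx1] at h2
  rw [← hR2 Ω (fun i => algebraMap k Ω (x i)) w w' x1 x2 hx1 hx2] at h3
  exact ⟨fun h => h2 (by rw [h, zero_pow hp0.ne']), fun h => h3 (by rw [h, zero_pow hp0.ne', zero_pow hp0.ne'])⟩

end MPcfca
end

section
/-! MP_cfca38_ag: module SPA (specialisation of the second root). -/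
set_option autoImplicit false
set_option linter.unusedSimpArgs false
set_option linter.unusedSectionVars false
set_option linter.unusedVariables false

namespace MPcfca

open MvPolynomial

universe u

namespace SpaM

/-- a homomorphism to an algebraically closed field extends to integral extensions -/
theorem extend_int {S A K : Type u} [CommRing S] [CommRing A] [Algebra S A]
    [Algebra.IsIntegral S A] (hinj : Function.Injective (algebraMap S A)) [Field K]
    [IsAlgClosed K] (φ0 : S →+* K) (hsurj : Function.Surjective φ0) :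
    ∃ φ1 : A →+* K, ∀ s, φ1 (algebraMap S A s) = φ0 s := by
  have hmax : (RingHom.ker φ0).IsMaximal := RingHom.ker_isMaximal_of_surjective φ0 hsurj
  obtain ⟨Q, hQ, hQP⟩ := Ideal.exists_ideal_over_maximal_of_isIntegral (S := A) (RingHom.ker φ0)
    (by rw [(RingHom.injective_iff_ker_eq_bot _).mp hinj]; exact bot_le)
  let e := RingHom.quotientKerEquivOfSurjective hsurj
  let g : K →+* A ⧸ Q := (Ideal.quotientMap Q (algebraMap S A) (by rw [hQP])).comp
    (e.symm : K →+* S ⧸ RingHom.ker φ0)
  have hg : ∀ s, g (φ0 s) = Ideal.Quotient.mk Q (algebraMap S A s) := by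
    intro s
    have h1 : e.symm (φ0 s) = Ideal.Quotient.mk _ s := by
      rw [RingEquiv.symm_apply_eq]
      rfl
    show (Ideal.quotientMap Q (algebraMap S A) (by rw [hQP])) (e.symm (φ0 s)) = _
    rw [h1]
    rfl
  have hcomp : g.comp φ0 = (Ideal.Quotient.mk Q).comp (algebraMap S A) := by
    ext s
    exact hg s
  have hint : (g.comp φ0).IsIntegral := by
    rw [hcomp]
    refine RingHom.IsIntegral.trans _ _ ?_ ?_
    · intro a
      exact Algebra.IsIntegral.isIntegral a
    · exact RingHom.isIntegral_of_surjective _ Ideal.Quotient.mk_surjective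
  have hint2 : g.IsIntegral := RingHom.IsIntegral.tower_top _ _ hint
  have hbij := IsAlgClosed.ringHom_bijective_of_isIntegral g hint2
  let e2 := RingEquiv.ofBijective g hbij
  refine ⟨(e2.symm : A ⧸ Q →+* K).comp (Ideal.Quotient.mk Q), ?_⟩
  intro s
  show e2.symm (Ideal.Quotient.mk Q (algebraMap S A s)) = φ0 s
  rw [← hg s, RingEquiv.symm_apply_eq]
  rfl

/-- specialisation of a point to one whose coordinates in `J` are in a small infinite field -/
theorem spec_point {k K Ω : Type u} [Field k] [Infinite k] [Field K] [IsAlgClosed K]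
    [Algebra k K] [Field Ω] [Algebra K Ω] {ι : Type} (u : ι → Ω) [Finite ι]
    (J : Finset ι) (hJ : AlgebraicIndependent K (fun j : J => u j))
    (halg : ∀ a : Ω, IsAlgebraic (Algebra.adjoin K (Set.range (fun j : J => u j))) a)
    (h : MvPolynomial ι K) (hh : aeval u h ≠ 0) :
    ∃ z : ι → K, (∀ j ∈ J, ∃ c : k, z j = algebraMap k K c) ∧
      (∀ P : MvPolynomial ι K, aeval u P = 0 → eval z P = 0) ∧ eval z h ≠ 0 := by
  classical
  let _ := Fintype.ofFinite ι
  let S := Algebra.adjoin K (Set.range (fun j : J => u j))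
  have : Algebra.IsAlgebraic S Ω := ⟨halg⟩
  obtain ⟨s, hs0, hint⟩ := Algebra.IsAlgebraic.exists_integral_multiples S
    (insert (aeval u h)⁻¹ (Finset.univ.image u))
  let q := hJ.repr s
  have hq : q ≠ 0 := by
    intro hq
    apply hs0
    apply Subtype.val_injective
    rw [← hJ.aeval_repr s]
    show aeval _ q = _
    rw [hq, map_zero]
    rfl
  obtain ⟨c, hc⟩ : ∃ c : J → k, eval (fun j => algebraMap k K (c j)) q ≠ 0 := by
    by_contra hcon
    push Not at hcon
    apply hq
    apply MvPolynomial.funext_set (fun _ : J => Set.range (algebraMap k K))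
      (fun _ => Set.infinite_range_of_injective (algebraMap k K).injective)
    intro x hx
    choose c hc using fun j => hx j (Set.mem_univ j)
    rw [map_zero]
    have := hcon c
    rwa [show (fun j => algebraMap k K (c j)) = x from funext hc] at this
  let φ0 : S →ₐ[K] K := (aeval (fun j => algebraMap k K (c j))).comp hJ.repr
  have hφs : φ0 s ≠ 0 := hc
  have hsurj : Function.Surjective φ0 := fun a => ⟨algebraMap K S a, φ0.commutes a⟩
  let A1 := integralClosure S Ω
  obtain ⟨φ1, hφ1⟩ := extend_int (S := S) (A := A1) (fun a b hab =>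
    Subtype.val_injective (congrArg (Subtype.val : A1 → Ω) hab))
    (φ0 : S →+* K) hsurj
  have hui : ∀ i, IsIntegral S (s • u i) := fun i => hint _ (by simp)
  have huh : IsIntegral S (s • (aeval u h)⁻¹) := hint _ (by simp)
  let y : ι → A1 := fun i => ⟨s • u i, hui i⟩
  let z : ι → K := fun i => φ1 (y i) / φ0 s
  have hgen : ∀ P : MvPolynomial ι K, ∃ (n : ℕ) (a : A1), (a : Ω) = (s : Ω) ^ n * aeval u P ∧
      φ1 a = φ0 s ^ n * eval z P := by
    intro P
    induction P using MvPolynomial.induction_on with
    | C c =>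
      refine ⟨0, algebraMap S A1 (algebraMap K S c), ?_, ?_⟩
      · simp only [pow_zero, one_mul, aeval_C]
        rfl
      · rw [hφ1]
        simp only [pow_zero, one_mul, eval_C]
        exact φ0.commutes c
    | add P Q hP hQ =>
      obtain ⟨n, a, ha1, ha2⟩ := hP
      obtain ⟨m, b, hb1, hb2⟩ := hQ
      refine ⟨n + m, algebraMap S A1 (s ^ m) * a + algebraMap S A1 (s ^ n) * b, ?_, ?_⟩
      · have h1 : ((algebraMap S A1 (s ^ m) * a + algebraMap S A1 (s ^ n) * b : A1) : Ω) =
            (s : Ω) ^ m * (a : Ω) + (s : Ω) ^ n * (b : Ω) := rfl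
        rw [h1, ha1, hb1, map_add]
        ring
      · rw [map_add, map_mul, map_mul, hφ1, hφ1, ha2, hb2, map_add]
        simp only [map_pow, RingHom.coe_coe]
        ring
    | mul_X P i hP =>
      obtain ⟨n, a, ha1, ha2⟩ := hP
      refine ⟨n + 1, a * y i, ?_, ?_⟩
      · have h1 : ((a * y i : A1) : Ω) = (a : Ω) * ((s : Ω) * u i) := rfl
        rw [h1, ha1, map_mul, aeval_X]
        ring
      · rw [map_mul, ha2, map_mul, eval_X]
        have : z i = φ1 (y i) / φ0 s := rfl
        rw [this]
        field_simp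
        ring
  refine ⟨z, ?_, ?_, ?_⟩
  · intro j hj
    refine ⟨c ⟨j, hj⟩, ?_⟩
    have hmem : u j ∈ S := Algebra.subset_adjoin ⟨⟨j, hj⟩, rfl⟩
    have h1 : y j = algebraMap S A1 (s * ⟨u j, hmem⟩) := by
      apply Subtype.val_injective
      rfl
    have h2 : φ0 (⟨u j, hmem⟩ : S) = algebraMap k K (c ⟨j, hj⟩) := by
      have h3 : hJ.repr ⟨u j, hmem⟩ = X ⟨j, hj⟩ := by
        apply hJ
        rw [hJ.aeval_repr, aeval_X]
      show aeval _ (hJ.repr ⟨u j, hmem⟩) = _
      rw [h3, aeval_X]
    show φ1 (y j) / φ0 s = _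
    rw [h1, hφ1, RingHom.coe_coe, map_mul, h2]
    field_simp
  · intro P hP
    obtain ⟨n, a, ha1, ha2⟩ := hgen P
    rw [hP, mul_zero] at ha1
    have : a = 0 := Subtype.val_injective ha1
    rw [this, map_zero] at ha2
    rcases mul_eq_zero.mp ha2.symm with h1 | h1
    · exact absurd h1 (pow_ne_zero n hφs)
    · exact h1
  · obtain ⟨n, a, ha1, ha2⟩ := hgen h
    intro h0
    rw [h0, mul_zero] at ha2
    have h1 : a * (⟨s • (aeval u h)⁻¹, huh⟩ : A1) = algebraMap S A1 (s ^ (n + 1)) := by
      apply Subtype.val_injective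
      have h2 : ((a * (⟨s • (aeval u h)⁻¹, huh⟩ : A1) : A1) : Ω) =
        (a : Ω) * ((s : Ω) * (aeval u h)⁻¹) := rfl
      have h3 : ((algebraMap S A1 (s ^ (n + 1)) : A1) : Ω) = (s : Ω) ^ (n + 1) := rfl
      rw [h2, h3, ha1]
      field_simp
      ring
    have h2 := congrArg φ1 h1
    rw [map_mul, ha2, zero_mul, hφ1] at h2
    simp only [map_pow, RingHom.coe_coe] at h2
    exact pow_ne_zero _ hφs h2.symm

theorem pol_map {k A B : Type u} [Field k] [CommRing A] [Algebra k A] [CommRing B] [Algebra k B]
    {N : ℕ} (f : MvPolynomial (Idx N) k) (φ : A →ₐ[k] B) (x e e' : Fin N → A) :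
    φ (pol f x e e') = pol f (fun j => φ (x j)) (fun j => φ (e j)) (fun j => φ (e' j)) := by
  unfold pol
  rw [map_sub, map_sub, al_map, al_map, al_map]
  simp only [map_add]

end SpaM

open SpaM V34M

theorem specSpA (hP : SpecPair.{u}) (hR : SpecRk.{u}) : SpecSpA.{u} := by
  classical
  intro p _ k _ _ _ f hg
  obtain ⟨Ω, _, _, _, x, u, hx0, hu0, hx, hu, hxu, hux, hcf, ⟨e, he⟩, ⟨e', he'⟩, J, hJc, hJ, hJa⟩ :=
    hP p k f hg
  obtain ⟨E, hE⟩ := hR p k f hg Ω u hu0 hu
  let xs : Fin (p + 1) → Ω := fun j => x j.succ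
  let us : Fin (p + 1) → Ω := fun j => u j.succ
  let F := IntermediateField.adjoin k (Set.range xs)
  let K := algebraicClosure F Ω
  have : IsAlgClosed K := (inferInstance : IsAlgClosure F K).isAlgClosed
  have hinj : Function.Injective (algebraMap K Ω) := (algebraMap K Ω).injective
  have htow : IsScalarTower k K Ω := IsScalarTower.of_algebraMap_eq fun c => rfl
  -- `u_J` is algebraically independent over `K`
  have hJ1 : AlgebraicIndependent (Algebra.adjoin k (Set.range xs)) (fun j : J => us j) :=
    (AlgebraicIndependent.sumElim_iff.mp (swap_ai hJ)).2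
  have hJ2 : AlgebraicIndependent F (fun j : J => us j) :=
    IntermediateField.algebraicIndependent_adjoin_iff.mpr hJ1
  have hJ3 : AlgebraicIndependent K (fun j : J => us j) := hJ2.algebraicClosure
  have hmemF : ∀ j, xs j ∈ F := fun j => IntermediateField.subset_adjoin _ _ ⟨j, rfl⟩
  -- `Ω` is algebraic over `K(u_J)`
  have halg : ∀ a : Ω, IsAlgebraic (Algebra.adjoin K (Set.range (fun j : J => us j))) a := by
    intro a
    have h1 := IntermediateField.isAlgebraic_adjoin_iff.mp (hJa a)
    have h2 : Algebra.adjoin k (Set.range (Sum.elim (fun j : Fin (p + 1) => x j.succ)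
        (fun j : J => u (Fin.succ j.1)))) ≤
        (Algebra.adjoin K (Set.range (fun j : J => us j))).restrictScalars k := by
      rw [Algebra.adjoin_le_iff]
      rintro _ ⟨j | j, rfl⟩
      · have h3 : x j.succ ∈ K := by
          have : algebraMap F Ω ⟨xs j, hmemF j⟩ ∈ K := IntermediateField.algebraMap_mem K _
          exact this
        exact Subalgebra.algebraMap_mem (Algebra.adjoin K (Set.range (fun j : J => us j)))
          (⟨x j.succ, h3⟩ : K)
      · exact Algebra.subset_adjoin ⟨j, rfl⟩
    exact h1.tower_top_of_subalgebra_le h2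
  -- coordinates of `x` in `K`
  have hxK : ∀ j, ∃ a : K, algebraMap K Ω a = x j := by
    intro j
    refine Fin.cases ?_ (fun i => ?_) j
    · exact ⟨1, by rw [map_one, hx0]⟩
    · exact ⟨algebraMap F K ⟨xs i, hmemF i⟩, rfl⟩
  choose xK hxK using hxK
  let R := MvPolynomial (Fin (p + 1)) K
  let U : Fin (p + 2) → R := Fin.cons 1 X
  let xR : Fin (p + 2) → R := fun j => C (xK j)
  let κ : k → R := fun c => C (algebraMap k K c)
  let Eh : R := (Matrix.of fun i j : Fin 5 => pol f U (fun l => κ (E i l))
    (fun l => κ (E j l))).det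
  let h : R := (cf f xR U 1 * pol f xR U (fun l => κ (e l))) *
    (pol f U xR (fun l => κ (e' l)) * Eh)
  let φ : R →ₐ[k] Ω := (aeval us : R →ₐ[K] Ω).restrictScalars k
  have hφU : ∀ j, φ (U j) = u j := by
    intro j
    refine Fin.cases ?_ (fun i => ?_) j
    · show aeval us (1 : R) = u 0
      rw [map_one, hu0]
    · show aeval us (X i : R) = _
      rw [aeval_X]
  have hφx : ∀ j, φ (xR j) = x j := by
    intro j
    show aeval us (C (xK j) : R) = _
    rw [aeval_C, hxK]
  have hφk : ∀ c, φ (κ c) = algebraMap k Ω c := by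
    intro c
    show aeval us (C (algebraMap k K c) : R) = _
    rw [aeval_C, ← IsScalarTower.algebraMap_apply]
  have hφh : aeval us h ≠ 0 := by
    show φ h ≠ 0
    have hdet : φ Eh = (Matrix.of fun i j : Fin 5 => pol f u (fun l => algebraMap k Ω (E i l))
        (fun l => algebraMap k Ω (E j l))).det := by
      show φ (Matrix.det _) = _
      rw [AlgHom.map_det]
      congr 1
      ext i j
      simp only [AlgHom.mapMatrix_apply, Matrix.map_apply, Matrix.of_apply]
      rw [pol_map]
      simp only [hφU, hφk]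
    simp only [h, map_mul, hdet, cf_map, pol_map, hφU, hφx, hφk]
    exact mul_ne_zero (mul_ne_zero hcf he) (mul_ne_zero he' hE)
  obtain ⟨z0, hz1, hz2, hz3⟩ := spec_point (k := k) us J hJ3 halg h hφh
  let z : Fin (p + 2) → K := Fin.cons 1 z0
  let ψ : R →ₐ[k] K := (aeval z0 : R →ₐ[K] K).restrictScalars k
  have hψ : ∀ P : R, ψ P = eval z0 P := fun P => rfl
  have hψU : ∀ j, ψ (U j) = z j := by
    intro j
    refine Fin.cases ?_ (fun i => ?_) j
    · show aeval z0 (1 : R) = 1
      rw [map_one]
    · show aeval z0 (X i : R) = _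
      rw [aeval_X]
      rfl
  have hψx : ∀ j, ψ (xR j) = xK j := by
    intro j
    show aeval z0 (C (xK j) : R) = _
    rw [aeval_C]
    rfl
  have hψk : ∀ c, ψ (κ c) = algebraMap k K c := by
    intro c
    show aeval z0 (C (algebraMap k K c) : R) = _
    rw [aeval_C]
    rfl
  have hψh : ψ h ≠ 0 := by rw [hψ]; exact hz3
  have hdet : ψ Eh = (Matrix.of fun i j : Fin 5 => pol f z (fun l => algebraMap k K (E i l))
      (fun l => algebraMap k K (E j l))).det := by
    show ψ (Matrix.det _) = _
    rw [AlgHom.map_det]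
    congr 1
    ext i j
    simp only [AlgHom.mapMatrix_apply, Matrix.map_apply, Matrix.of_apply]
    rw [pol_map]
    simp only [hψU, hψk]
  simp only [h, map_mul, hdet, cf_map, pol_map, hψU, hψx, hψk] at hψh
  have hz4 := left_ne_zero_of_mul hψh
  have hz5 := right_ne_zero_of_mul hψh
  refine ⟨K, inferInstance, inferInstance, inferInstance, xK, z, ?_, rfl, ?_, ?_, ?_, ?_,
    left_ne_zero_of_mul hz4, ⟨e, right_ne_zero_of_mul hz4⟩, ⟨e', left_ne_zero_of_mul hz5⟩,
    ⟨E, right_ne_zero_of_mul hz5⟩, J, hJc, ?_⟩
  · apply hinj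
    rw [hxK, hx0, map_one]
  · apply AlgebraicIndependent.of_comp (IsScalarTower.toAlgHom k K Ω)
    convert hx using 1
    funext j
    exact hxK _
  · intro a
    let F' := IntermediateField.adjoin k (Set.range (fun j : Fin (p + 1) => xK j.succ))
    have hmap : F'.map (IsScalarTower.toAlgHom k K Ω) = F := by
      rw [IntermediateField.adjoin_map, ← Set.range_comp]
      congr 2
      funext j
      exact hxK _
    have hmem : ∀ b : F', algebraMap K Ω b ∈ F := by
      intro b
      have h1 : algebraMap K Ω b ∈ F'.map (IsScalarTower.toAlgHom k K Ω) := ⟨b, b.2, rfl⟩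
      rw [hmap] at h1
      exact h1
    let g : F' →+* F := (((algebraMap K Ω).comp (algebraMap F' K)).codRestrict F hmem)
    have hgs : Function.Surjective g := by
      rintro ⟨b, hb⟩
      have hb' : b ∈ F'.map (IsScalarTower.toAlgHom k K Ω) := by
        rw [hmap]
        exact hb
      obtain ⟨c, hc, hcb⟩ := hb'
      exact ⟨⟨c, hc⟩, Subtype.ext hcb⟩
    have ha : IsAlgebraic F (algebraMap K Ω a) := mem_algebraicClosure_iff.mp a.2
    exact ha.of_ringHom_of_comp_eq g (algebraMap K Ω) hgs hinj (by ext b; rfl)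
  · have h1 := hz2 (al f xR U) (by
      show φ _ = 0
      rw [al_map]
      simp only [hφU, hφx]
      exact hxu)
    rw [← hψ, al_map] at h1
    simpa only [hψU, hψx] using h1
  · have h1 := hz2 (al f U xR) (by
      show φ _ = 0
      rw [al_map]
      simp only [hφU, hφx]
      exact hux)
    rw [← hψ, al_map] at h1
    simpa only [hψU, hψx] using h1
  · intro j hj
    obtain ⟨c, hc⟩ := hz1 j hj
    exact ⟨c, hc⟩

end MPcfca
end

section
/-! MP_cfca38_ag: module FA (type (A) with any number of parameters). -/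
set_option autoImplicit false
set_option linter.unusedSimpArgs false
set_option linter.unusedSectionVars false
set_option linter.unusedVariables false

namespace MPcfca

open MvPolynomial

universe u

namespace FaM

section lin
variable {L : Type u} [Field L] {n : ℕ}
variable (B : LinearMap.BilinForm L (Fin (n + 2) → L)) (q : (Fin (n + 2) → L) → L)

/-- a form which is a product of two linear forms on `{e 0 = 0}` has rank at most two -/
theorem rank_two (hsym : ∀ u w, B u w = B w u) (x : Fin (n + 2) → L) (hx0 : x 0 = 1)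
    (hBx : ∀ u, B u x = 0) (l m : (Fin (n + 2) → L) →ₗ[L] L)
    (hB : ∀ e e', e 0 = 0 → e' 0 = 0 → B e e' = l e * m e' + l e' * m e)
    (E : Fin 5 → Fin (n + 2) → L)
    (hE : (Matrix.of fun i j : Fin 5 => B (E i) (E j)).det ≠ 0) : False := by
  classical
  let E' : Fin 5 → Fin (n + 2) → L := fun i => E i - E i 0 • x
  have hE'0 : ∀ i, E' i 0 = 0 := by
    intro i
    simp [E', hx0]
  have hEE : ∀ i j, B (E i) (E j) = B (E' i) (E' j) := by
    intro i j
    simp only [E', map_sub, map_smul, LinearMap.sub_apply, LinearMap.smul_apply, hBx, smul_zero,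
      sub_zero, hsym x]
  let T : (Fin 5 → L) →ₗ[L] (Fin 2 → L) :=
    LinearMap.pi ![∑ i, (l (E' i)) • LinearMap.proj i, ∑ i, (m (E' i)) • LinearMap.proj i]
  have hT : ∃ c : Fin 5 → L, c ≠ 0 ∧ T c = 0 := by
    have h1 := LinearMap.ker_ne_bot_of_finrank_lt (f := T) (by simp)
    obtain ⟨c, hc, hc0⟩ := (Submodule.ne_bot_iff _).mp h1
    exact ⟨c, hc0, hc⟩
  obtain ⟨c, hc0, hc⟩ := hT
  have hl : ∑ i, l (E' i) * c i = 0 := by
    have := congrFun hc 0
    simpa [T] using this
  have hm : ∑ i, m (E' i) * c i = 0 := by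
    have := congrFun hc 1
    simpa [T] using this
  apply hE
  rw [← Matrix.exists_mulVec_eq_zero_iff]
  refine ⟨c, hc0, ?_⟩
  funext i
  simp only [Matrix.mulVec, dotProduct, Matrix.of_apply, Pi.zero_apply]
  have h1 : ∀ j, B (E i) (E j) * c j = l (E' i) * (m (E' j) * c j) + m (E' i) * (l (E' j) * c j) := by
    intro j
    rw [hEE, hB _ _ (hE'0 i) (hE'0 j)]
    ring
  simp only [h1, Finset.sum_add_distrib, ← Finset.mul_sum, hl, hm]
  ring

theorem quad3 (h6 : (6 : L) ≠ 0) {a b c : L} (h1 : a + b + c = 0) (h2 : a - b + c = 0)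
    (h3 : a + 2 * b + 4 * c = 0) : a = 0 := by
  have : 6 * a = 0 := by linear_combination 6 * h1 + 2 * h2 - 2 * h3 - 0 * h1
  exact (mul_eq_zero.mp this).resolve_left h6

/-- a vector in general position -/
theorem step1 (h6 : (6 : L) ≠ 0) (hsym : ∀ u w, B u w = B w u) (hq : ∀ u, B u u = 2 * q u)
    (x : Fin (n + 2) → L) (hx0 : x 0 = 1) (hBx : ∀ u, B u x = 0)
    (y : Fin (n + 2) → L) (hy0 : y 0 = 0) (hqy : q y = 0) (hBy : ∃ e, B y e ≠ 0)
    (E : Fin 5 → Fin (n + 2) → L)
    (hE : (Matrix.of fun i j : Fin 5 => B (E i) (E j)).det ≠ 0) :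
    ∃ e : Fin (n + 2) → L, e 0 = 0 ∧ B y e ≠ 0 ∧ q e * y 1 - B y e * e 1 ≠ 0 := by
  classical
  have h2 : (2 : L) ≠ 0 := by
    intro h
    apply h6
    linear_combination 3 * h
  obtain ⟨e1, he10, he1⟩ : ∃ e : Fin (n + 2) → L, e 0 = 0 ∧ B y e ≠ 0 := by
    obtain ⟨e, he⟩ := hBy
    refine ⟨e - e 0 • x, by simp [hx0], ?_⟩
    rw [map_sub, map_smul, hBx, smul_zero, sub_zero]
    exact he
  by_contra hcon
  push Not at hcon
  have hqadd : ∀ u w : Fin (n + 2) → L, q (u + w) = q u + B u w + q w := by
    intro u w
    have h3 := hq (u + w)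
    rw [(B (u + w)).map_add, B.map_add u w, LinearMap.add_apply, LinearMap.add_apply, hq, hq,
      hsym w u] at h3
    have h4 : 2 * (q (u + w) - (q u + B u w + q w)) = 0 := by linear_combination - h3
    have := (mul_eq_zero.mp h4).resolve_left h2
    linear_combination this
  have hqsmul : ∀ (c : L) (u : Fin (n + 2) → L), q (c • u) = c ^ 2 * q u := by
    intro c u
    have h3 := hq (c • u)
    rw [(B (c • u)).map_smul, B.map_smul c u, LinearMap.smul_apply, hq, smul_eq_mul,
      smul_eq_mul] at h3
    have h4 : 2 * (q (c • u) - c ^ 2 * q u) = 0 := by linear_combination - h3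
    have := (mul_eq_zero.mp h4).resolve_left h2
    linear_combination this
  have hall : ∀ e : Fin (n + 2) → L, e 0 = 0 → q e * y 1 = B y e * e 1 := by
    intro e he
    by_cases hB0 : B y e = 0
    · have key : ∀ c : L, c ≠ 0 → q e * y 1 - B y e * e 1
          + (B e e1 * y 1 - B y e * e1 1 - B y e1 * e 1) * c
          + (q e1 * y 1 - B y e1 * e1 1) * c ^ 2 = 0 := by
        intro c hc
        have h3 := hcon (e + c • e1) (by simp [he, he10]) (by
          rw [map_add, map_smul, hB0, zero_add, smul_eq_mul]
          exact mul_ne_zero hc he1)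
        rw [hqadd, hqsmul, map_smul, map_add, map_smul, smul_eq_mul, smul_eq_mul, Pi.add_apply,
          Pi.smul_apply, smul_eq_mul] at h3
        linear_combination h3
      have h3 := key 1 one_ne_zero
      have h4 := key (-1) (neg_ne_zero.mpr one_ne_zero)
      have h5 := key 2 h2
      have h6' := quad3 (L := L) h6 (a := q e * y 1 - B y e * e 1)
        (b := B e e1 * y 1 - B y e * e1 1 - B y e1 * e 1)
        (c := q e1 * y 1 - B y e1 * e1 1) (by linear_combination h3) (by linear_combination h4)
        (by linear_combination h5)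
      linear_combination h6'
    · have := hcon e he hB0
      linear_combination this
  by_cases hy1 : y 1 = 0
  · have h3 : ∀ e : Fin (n + 2) → L, e 0 = 0 → B y e * e 1 = 0 := by
      intro e he
      rw [← hall e he, hy1, mul_zero]
    have h4 : e1 1 = 0 := (mul_eq_zero.mp (h3 e1 he10)).resolve_left he1
    let d : Fin (n + 2) → L := Pi.single 1 1
    have hd0 : d 0 = 0 := by simp [d]
    have hd1 : d 1 = 1 := by simp [d]
    have h5 := h3 (e1 + d) (by simp [he10, hd0])
    have h6' := h3 (e1 - d) (by simp [he10, hd0])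
    rw [map_add, Pi.add_apply, h4, hd1] at h5
    rw [map_sub, Pi.sub_apply, h4, hd1] at h6'
    have h7 : 2 * B y e1 = 0 := by linear_combination h5 - h6'
    exact he1 ((mul_eq_zero.mp h7).resolve_left h2)
  · refine rank_two B hsym x hx0 hBx ((y 1)⁻¹ • B y) (LinearMap.proj 1) ?_ E hE
    intro e e' he he'
    have h3 := hall (e + e') (by simp [he, he'])
    rw [hqadd, map_add, Pi.add_apply] at h3
    have h4 := hall e he
    have h5 := hall e' he'
    simp only [LinearMap.smul_apply, LinearMap.proj_apply, smul_eq_mul]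
    field_simp
    linear_combination h3 - h4 - h5

end lin


/-- a family of elements of `L(b)` which is algebraically independent gives an algebraically
independent subfamily of `b` of the same size -/
theorem indep_subfamily {L L' : Type u} [Field L] [Field L'] [Algebra L L'] {n p : ℕ}
    (t : Fin n → L') (ht : AlgebraicIndependent L t) (b : Fin p → L')
    (hb : ∀ i, t i ∈ IntermediateField.adjoin L (Set.range b)) :
    ∃ s : Fin n → Fin p, AlgebraicIndependent L (fun i => b (s i)) := by
  classical
  let M := AlgebraicIndependent.matroid L L'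
  have hI : M.Indep (Set.range t) := by
    rw [AlgebraicIndependent.matroid_indep_iff]
    exact ht.to_subtype_range
  have hsub : Set.range t ⊆ M.closure (Set.range b) := by
    rw [AlgebraicIndependent.matroid_closure_eq]
    rintro _ ⟨i, rfl⟩
    have h1 : IsAlgebraic (IntermediateField.adjoin L (Set.range b)) (t i) :=
      isAlgebraic_algebraMap (⟨t i, hb i⟩ : IntermediateField.adjoin L (Set.range b))
    exact IntermediateField.isAlgebraic_adjoin_iff.mp h1
  obtain ⟨I, hI'⟩ := M.exists_isBasis' (Set.range b)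
  have hle : (Set.range t).encard ≤ I.encard := by
    rw [hI'.encard_eq_eRk, ← M.eRk_closure_eq]
    exact hI.encard_le_eRk_of_subset hsub
  have hcard : (Set.range t).encard = n := by
    rw [← Set.image_univ, ht.injective.encard_image, Set.encard_univ]
    simp
  have hIb : I ⊆ Set.range b := hI'.subset
  have hfin : I.Finite := (Set.finite_range b).subset hIb
  have hn : n ≤ I.ncard := by
    rw [hcard, ← hfin.cast_ncard_eq] at hle
    exact_mod_cast hle
  obtain ⟨J, hJI, hJ⟩ := Set.exists_subset_card_eq hn
  have hJfin : J.Finite := hfin.subset hJI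
  let _ := hJfin.fintype
  have hJc : Fintype.card J = n := by
    rw [← hJ, Set.ncard_eq_toFinset_card' J, Set.toFinset_card]
  let e : Fin n ≃ J := (Fintype.equivFinOfCardEq hJc).symm
  choose s hs using fun i => hIb (hJI (e i).2)
  refine ⟨s, ?_⟩
  have h1 : AlgebraicIndepOn L id I := by
    rw [← AlgebraicIndependent.matroid_indep_iff]
    exact hI'.indep
  have h2 : AlgebraicIndepOn L id J := h1.mono hJI
  have h3 := h2.comp e e.injective
  convert h3 using 1
  funext i
  exact hs i

theorem fld1 {F : Type u} [Field F] {W q yi yj b ej : F} (hW : W ≠ 0) :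
    (q * yi - b * 0) / W * yj - (q * yj - b * ej) / W * yi = b * yi / W * ej := by
  field_simp
  ring

theorem fld2 {F : Type u} [Field F] {W v : F} (hW : W ≠ 0) : W * (v / W) = v := by
  field_simp

/-- a vector with coordinates `0` at `0` and `i`, `1` at `l`, and variables elsewhere -/
def eF {N n : ℕ} [NeZero N] (i l : Fin N) (σ : {j : Fin N // j ≠ l ∧ j ≠ 0 ∧ j ≠ i} ≃ Fin n)
    {A : Type u} [Zero A] [One A] (v : Fin n → A) : Fin N → A := fun j =>
  if j = l then 1 else if h : j ≠ l ∧ j ≠ 0 ∧ j ≠ i then v (σ ⟨j, h⟩) else 0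

end FaM

open FaM SpaM V34M

theorem specFA (hLA : SpecLA.{u}) (hRk : SpecRk.{u}) (hCh : SpecCh.{u}) (hGen : SpecGen.{u})
    (hPT : SpecPT1.{u}) : SpecFA.{u} := by
  classical
  intro p hp k _ _ _ f hg
  have h5 := hg.five
  have hsec := hg.sec
  obtain ⟨M, x, z, hx0, hx, hxz, e0, he0⟩ := hLA p k f hg
  let L := FractionRing (MvPolynomial (Fin M) k)
  have hchL : CharP L p := charP_of_injective_algebraMap (algebraMap k L).injective p
  have h6 : (6 : L) ≠ 0 := by
    intro h
    have h7 : ((6 : ℕ) : L) = 0 := by exact_mod_cast h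
    have h8 := (CharP.cast_eq_zero_iff L p 6).mp h7
    have h9 : p ≤ 6 := Nat.le_of_dvd (by norm_num) h8
    have h10 : p = 5 ∨ p = 6 := by omega
    rcases h10 with h10 | h10
    · rw [h10] at h8
      norm_num at h8
    · rw [h10] at hp
      have := hp.out
      norm_num at this
  have h2 : (2 : L) ≠ 0 := by
    intro h
    apply h6
    linear_combination 3 * h
  obtain ⟨B, hsym, hpol, hBq⟩ := RkM.pol_bilin hsec x
  -- the vector `y = z - z_0 x`
  let y : Fin (p + 2) → L := fun j => z j + (- z 0) * x j
  have hy0 : y 0 = 0 := by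
    show z 0 + (- z 0) * x 0 = 0
    rw [hx0]
    ring
  have hqy : al f x y = 0 := by
    rw [← hxz]
    exact al_add hsec x z (- z 0)
  have hxx : ∀ u, B u x = 0 := by
    intro u
    rw [← hpol]
    unfold pol
    have h3 := al_add hsec x u 1
    have h4 := al_lin hsec x x 1 0
    simp only [one_mul, zero_mul, add_zero] at h3 h4
    rw [h3]
    have h5 : al f x x = 0 := by
      have : (fun j => x j) = x := rfl
      rw [this] at h4
      rw [h4]
      ring
    rw [h5]
    ring
  have hBy : B y e0 ≠ 0 := by
    have h3 : y = z + (- z 0) • x := by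
      funext j
      simp [y]
    rw [h3, B.map_add, B.map_smul, LinearMap.add_apply, LinearMap.smul_apply, hsym x, hxx,
      smul_zero, add_zero, ← hpol]
    exact he0
  obtain ⟨E, hE⟩ := hRk p k f hg L x hx0 hx
  have hE' : (Matrix.of fun i j : Fin 5 => B (fun l => algebraMap k L (E i l))
      (fun l => algebraMap k L (E j l))).det ≠ 0 := by
    simp only [← hpol]
    exact hE
  obtain ⟨e1, he10, he1B, he1w⟩ := step1 B (al f x) h6 hsym hBq x hx0 hxx y hy0 hqy ⟨e0, hBy⟩
    (fun i l => algebraMap k L (E i l)) hE'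
  -- the polynomial function
  let Fp : (Fin (p + 2) → L) → L := fun e => al f x e * y 1 - B y e * e 1
  have hqadd : ∀ u w : Fin (p + 2) → L, al f x (u + w) = al f x u + B u w + al f x w := by
    intro u w
    have h3 := hBq (u + w)
    rw [(B (u + w)).map_add, B.map_add u w, LinearMap.add_apply, LinearMap.add_apply, hBq, hBq,
      hsym w u] at h3
    have h4 : 2 * (al f x (u + w) - (al f x u + B u w + al f x w)) = 0 := by
      linear_combination - h3
    have := (mul_eq_zero.mp h4).resolve_left h2
    linear_combination this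
  have hqsmul : ∀ (c : L) (u : Fin (p + 2) → L), al f x (c • u) = c ^ 2 * al f x u := by
    intro c u
    exact al_smul hsec x u c
  have hByy : B y y = 0 := by rw [hBq, hqy, mul_zero]
  obtain ⟨i, hi⟩ : ∃ i, y i ≠ 0 := by
    by_contra hcon
    push Not at hcon
    apply hBy
    have : y = 0 := funext hcon
    rw [this, B.map_zero, LinearMap.zero_apply]
  have hi0 : i ≠ 0 := fun h => hi (by rw [h, hy0])
  let e2 : Fin (p + 2) → L := e1 + (- (e1 i / y i)) • y
  have he20 : e2 0 = 0 := by simp [e2, he10, hy0]
  have he2i : e2 i = 0 := by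
    simp only [e2, Pi.add_apply, Pi.smul_apply, smul_eq_mul]
    field_simp
    ring
  have he2B : B y e2 = B y e1 := by
    simp only [e2]
    rw [(B y).map_add, (B y).map_smul, hByy, smul_zero, add_zero]
  have he2w : Fp e2 ≠ 0 := by
    have : Fp e2 = Fp e1 := by
      show al f x e2 * y 1 - B y e2 * e2 1 = al f x e1 * y 1 - B y e1 * e1 1
      rw [he2B]
      simp only [e2]
      rw [hqadd, hqsmul, hqy, (B e1).map_smul, hsym e1 y, Pi.add_apply, Pi.smul_apply, smul_eq_mul,
        smul_eq_mul]
      ring
    rw [this]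
    exact he1w
  obtain ⟨l, hl⟩ : ∃ l, e2 l ≠ 0 := by
    by_contra hcon
    push Not at hcon
    apply he1B
    rw [← he2B]
    have : e2 = 0 := funext hcon
    rw [this, (B y).map_zero]
  have hl0 : l ≠ 0 := fun h => hl (by rw [h, he20])
  have hli : l ≠ i := fun h => hl (by rw [h, he2i])
  let e3 : Fin (p + 2) → L := (e2 l)⁻¹ • e2
  have he30 : e3 0 = 0 := by simp [e3, he20]
  have he3i : e3 i = 0 := by simp [e3, he2i]
  have he3l : e3 l = 1 := by
    show (e2 l)⁻¹ * e2 l = 1
    exact inv_mul_cancel₀ hl
  have he3B : B y e3 ≠ 0 := by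
    simp only [e3]
    rw [(B y).map_smul, he2B, smul_eq_mul]
    exact mul_ne_zero (inv_ne_zero hl) he1B
  have he3w : Fp e3 ≠ 0 := by
    have : Fp e3 = ((e2 l)⁻¹) ^ 2 * Fp e2 := by
      show al f x e3 * y 1 - B y e3 * e3 1 = ((e2 l)⁻¹) ^ 2 * (al f x e2 * y 1 - B y e2 * e2 1)
      simp only [e3]
      rw [hqsmul, (B y).map_smul, smul_eq_mul, Pi.smul_apply, smul_eq_mul]
      ring
    rw [this]
    exact mul_ne_zero (pow_ne_zero _ (inv_ne_zero hl)) he2w
  -- new variables
  have hcardS : Fintype.card {j : Fin (p + 2) // j ≠ l ∧ j ≠ 0 ∧ j ≠ i} = p - 1 := by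
    rw [Fintype.card_subtype]
    have h3 : (Finset.univ.filter fun j : Fin (p + 2) => j ≠ l ∧ j ≠ 0 ∧ j ≠ i) =
        ({l, 0, i} : Finset (Fin (p + 2)))ᶜ := by
      ext j
      simp
    rw [h3, Finset.card_compl, Fintype.card_fin, Finset.card_insert_of_notMem (by simp [hl0, hli]),
      Finset.card_insert_of_notMem (by simp [Ne.symm hi0]), Finset.card_singleton]
    omega
  let σ : {j : Fin (p + 2) // j ≠ l ∧ j ≠ 0 ∧ j ≠ i} ≃ Fin (p - 1) :=
    Fintype.equivFinOfCardEq hcardS
  obtain ⟨j0, t, ht⟩ := hPT k M (p - 1)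
  let L' := FractionRing (MvPolynomial (Fin (M + (p - 1))) k)
  let algLL : Algebra L L' := j0.toRingHom.toAlgebra
  have htow : IsScalarTower k L L' := IsScalarTower.of_algebraMap_eq fun c => (j0.commutes c).symm
  have ht' : AlgebraicIndependent L t := ht
  have hinj : Function.Injective (algebraMap L L') := (algebraMap L L').injective
  let x' : Fin (p + 2) → L' := fun j => algebraMap L L' (x j)
  let y' : Fin (p + 2) → L' := fun j => algebraMap L L' (y j)
  let e : Fin (p + 2) → L' := eF i l σ t
  -- transfer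
  let R := MvPolynomial (Fin (p - 1)) L
  let eR : Fin (p + 2) → R := eF i l σ X
  have heF : ∀ {A : Type u} [CommRing A] [Algebra k A] (ψ : R →ₐ[k] A) (j : Fin (p + 2)),
      ψ (eR j) = eF i l σ (fun m => ψ (X m)) j := by
    intro A _ _ ψ j
    simp only [eR, eF]
    split_ifs <;> simp
  let xR : Fin (p + 2) → R := fun j => C (x j)
  let yR : Fin (p + 2) → R := fun j => C (y j)
  let P : R := (al f xR eR * yR 1 - pol f xR yR eR * eR 1) * pol f xR yR eR
  let φ : R →ₐ[k] L' := (aeval t : R →ₐ[L] L').restrictScalars k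
  let τ : Fin (p - 1) → L := fun m => e3 (σ.symm m)
  let ψ : R →ₐ[k] L := (aeval τ : R →ₐ[L] L).restrictScalars k
  have hφx : ∀ j, φ (xR j) = x' j := fun j => by
    show aeval t (C (x j)) = _
    rw [aeval_C]
  have hφy : ∀ j, φ (yR j) = y' j := fun j => by
    show aeval t (C (y j)) = _
    rw [aeval_C]
  have hφe : ∀ j, φ (eR j) = e j := by
    intro j
    rw [heF φ j]
    have : (fun m => φ (X m)) = t := by
      funext m
      show aeval t (X m) = _
      rw [aeval_X]
    rw [this]
  have hψx : ∀ j, ψ (xR j) = x j := fun j => by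
    show aeval τ (C (x j)) = _
    rw [aeval_C]
    rfl
  have hψy : ∀ j, ψ (yR j) = y j := fun j => by
    show aeval τ (C (y j)) = _
    rw [aeval_C]
    rfl
  have hψe : ∀ j, ψ (eR j) = e3 j := by
    intro j
    rw [heF ψ j]
    have : (fun m => ψ (X m)) = τ := by
      funext m
      show aeval τ (X m) = _
      rw [aeval_X]
    rw [this]
    simp only [eF]
    split_ifs with h3 h4
    · rw [h3, he3l]
    · show e3 (σ.symm (σ ⟨j, h4⟩)) = e3 j
      rw [Equiv.symm_apply_apply]
    · have h5 : j = 0 ∨ j = i := by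
        by_contra hcon
        push Not at hcon
        exact h4 ⟨h3, hcon.1, hcon.2⟩
      rcases h5 with h5 | h5
      · rw [h5, he30]
      · rw [h5, he3i]
  have hP : P ≠ 0 := by
    intro h
    have h3 : ψ P = Fp e3 * B y e3 := by
      simp only [P, map_mul, map_sub, al_map, pol_map, hψx, hψy, hψe]
      rw [← hpol]
      show _ = (al f x e3 * y 1 - B y e3 * e3 1) * pol f x y e3
      rw [← hpol]
    rw [h, map_zero] at h3
    exact mul_ne_zero he3w he3B h3.symm
  have hP' : φ P ≠ 0 := by
    intro h
    exact hP (ht'.eq_zero_of_aeval_eq_zero _ h)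
  simp only [P, map_mul, map_sub, al_map, pol_map, hφx, hφy, hφe] at hP'
  have hD1 := left_ne_zero_of_mul hP'
  have hD2 := right_ne_zero_of_mul hP'
  -- the vector `w`
  obtain ⟨B', hsym', hpol', hBq'⟩ := RkM.pol_bilin hsec x'
  have h2' : (2 : L') ≠ 0 := by
    have h3 : (2 : L') = algebraMap L L' 2 := by rw [map_ofNat]
    rw [h3]
    intro h4
    exact h2 (hinj (by rw [h4, map_zero]))
  have hx'0 : x' 0 = 1 := by
    show algebraMap L L' (x 0) = 1
    rw [hx0, map_one]
  have hy'0 : y' 0 = 0 := by
    show algebraMap L L' (y 0) = 0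
    rw [hy0, map_zero]
  have hqy' : al f x' y' = 0 := by
    have h3 := al_map f (IsScalarTower.toAlgHom k L L') x y
    rw [hqy, map_zero] at h3
    exact h3.symm
  have he_0 : e 0 = 0 := by
    simp [e, eF, Ne.symm hl0]
  have he_i : e i = 0 := by
    simp [e, eF, Ne.symm hli]
  have he_l : e l = 1 := by
    simp [e, eF]
  set q := al f x' e with hqdef
  set b0 := pol f x' y' e with hb0def
  let w : Fin (p + 2) → L' := fun j => q * y' j - b0 * e j
  have hw0 : w 0 = 0 := by
    show q * y' 0 - b0 * e 0 = 0
    rw [hy'0, he_0]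
    ring
  have hw1 : w 1 ≠ 0 := hD1
  have hqw : al f x' w = 0 := by
    have h3 : w = q • y' - b0 • e := by
      funext j
      rfl
    have h4 := hBq' w
    have h5 : B' w w = 0 := by
      rw [h3, B'.map_sub, B'.map_smul, B'.map_smul, LinearMap.sub_apply, LinearMap.smul_apply,
        LinearMap.smul_apply, (B' y').map_sub, (B' e).map_sub, (B' y').map_smul,
        (B' y').map_smul, (B' e).map_smul, (B' e).map_smul, hsym' e y', hBq' y', hBq' e, hqy',
        ← hpol' y' e, ← hqdef, ← hb0def]
      simp only [smul_eq_mul]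
      ring
    rw [h5] at h4
    exact (mul_eq_zero.mp h4.symm).resolve_left h2'
  let b : Fin p → L' := fun j => w j.succ.succ / w 1
  let c : L' := x' 1 ^ p
  let a : Fin p → L' := fun j => x' j.succ.succ - x' 1 * b j
  let zpt : Ch p → L' := Sum.elim (Sum.elim a b) (fun _ => c)
  let v1 : Fin (p + 2) → L' := Fin.cons 1 (Fin.cons 0 a)
  let w1 : Fin (p + 2) → L' := Fin.cons 0 (Fin.cons 1 b)
  have hx'e : (fun j => 1 * v1 j + x' 1 * w1 j) = x' := by
    funext j
    refine Fin.cases ?_ (fun j => Fin.cases ?_ (fun j => ?_) j) j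
    · show 1 * 1 + x' 1 * 0 = x' 0
      rw [hx'0]
      ring
    · show 1 * 0 + x' 1 * 1 = x' 1
      ring
    · show 1 * (x' j.succ.succ - x' 1 * b j) + x' 1 * b j = x' j.succ.succ
      ring
  have hwe : (fun j => w 1 * w1 j) = w := by
    funext j
    refine Fin.cases ?_ (fun j => Fin.cases ?_ (fun j => ?_) j) j
    · show w 1 * 0 = w 0
      rw [hw0]
      ring
    · show w 1 * 1 = w 1
      ring
    · show w 1 * (w j.succ.succ / w 1) = w j.succ.succ
      exact fld2 hw1
  have hchart : aeval zpt (chart f) = 0 := by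
    have h3 := al_line hsec v1 w1 1 (x' 1)
    rw [hx'e] at h3
    have h4 := al_smul hsec x' w1 (w 1)
    rw [hwe, hqw] at h4
    have h5 : al f x' w1 = 0 := (mul_eq_zero.mp h4.symm).resolve_left (pow_ne_zero _ hw1)
    rw [h5] at h3
    simp only [one_pow, one_mul] at h3
    unfold chart
    rw [ev_map, map_one, aeval_X]
    have h6 : (fun j => aeval zpt ((Fin.cons 1 (Fin.cons 0 (fun j : Fin p =>
        X (Sum.inl (Sum.inl j)))) : Fin (p + 2) → MvPolynomial (Ch p) k) j)) = v1 := by
      funext j
      refine Fin.cases ?_ (fun j => Fin.cases ?_ (fun j => ?_) j) j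
      · simp [v1]
      · simp [v1]
      · simp [v1, zpt]
    have h7 : (fun j => aeval zpt ((Fin.cons 0 (Fin.cons 1 (fun j : Fin p =>
        X (Sum.inl (Sum.inr j)))) : Fin (p + 2) → MvPolynomial (Ch p) k) j)) = w1 := by
      funext j
      refine Fin.cases ?_ (fun j => Fin.cases ?_ (fun j => ?_) j) j
      · simp [w1]
      · simp [w1]
      · simp [w1, zpt]
    rw [h6, h7]
    exact h3.symm
  -- the variables are in `L(b)`
  have hmem : ∀ m, t m ∈ IntermediateField.adjoin L (Set.range b) := by
    intro m
    let F0 := IntermediateField.adjoin L (Set.range b)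
    have hβ : ∀ j, w j / w 1 ∈ F0 := by
      intro j
      refine Fin.cases ?_ (fun j => Fin.cases ?_ (fun j => ?_) j) j
      · rw [hw0, zero_div]
        exact F0.zero_mem
      · have : w (Fin.succ 0) / w 1 = 1 := div_self hw1
        rw [this]
        exact F0.one_mem
      · exact IntermediateField.subset_adjoin _ _ ⟨j, rfl⟩
    have hyF : ∀ j, y' j ∈ F0 := fun j => F0.algebraMap_mem (y j)
    have htm : t m = e (σ.symm m) := by
      have h3 := (σ.symm m).2
      simp only [e, eF]
      rw [if_neg h3.1, dif_pos h3]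
      congr 1
      exact (σ.apply_symm_apply m).symm
    have hyi : y' i ≠ 0 := by
      intro h
      exact hi (hinj (by rw [map_zero]; exact h))
    set jm := (σ.symm m).1 with hjm
    have hden : w i / w 1 * y' l - w l / w 1 * y' i = b0 * y' i / w 1 := by
      show (q * y' i - b0 * e i) / w 1 * y' l - (q * y' l - b0 * e l) / w 1 * y' i = _
      rw [he_i, he_l, fld1 hw1, mul_one]
    have hnum : w i / w 1 * y' jm - w jm / w 1 * y' i = b0 * y' i / w 1 * e jm := by
      show (q * y' i - b0 * e i) / w 1 * y' jm - (q * y' jm - b0 * e jm) / w 1 * y' i = _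
      rw [he_i, fld1 hw1]
    have hne : b0 * y' i / w 1 ≠ 0 := div_ne_zero (mul_ne_zero hD2 hyi) hw1
    have hquot : t m = (w i / w 1 * y' jm - w jm / w 1 * y' i) /
        (w i / w 1 * y' l - w l / w 1 * y' i) := by
      rw [hden, hnum, htm, mul_div_assoc]
      exact (fld2 hne).symm
    rw [hquot]
    exact F0.div_mem (F0.sub_mem (F0.mul_mem (hβ i) (hyF jm)) (F0.mul_mem (hβ jm) (hyF i)))
      (F0.sub_mem (F0.mul_mem (hβ i) (hyF l)) (F0.mul_mem (hβ l) (hyF i)))
  obtain ⟨s, hs⟩ := indep_subfamily t ht' b hmem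
  have hsum := hx.sumElim_comp hs
  let yy : Fin ((p - 1) + (p + 1)) → L' := (Sum.elim (fun i => b (s i))
    (algebraMap L L' ∘ (fun j : Fin (p + 1) => x j.succ))) ∘ finSumFinEquiv.symm
  have hyy : AlgebraicIndependent k yy := hsum.comp _ (Equiv.injective _)
  have hcard : (p - 1) + (p + 1) + 1 = Fintype.card (Ch p) := by
    simp [Ch, Fintype.card_sum]
    omega
  let G := IntermediateField.adjoin k (Set.range zpt)
  have hbG : ∀ j, b j ∈ G := fun j => IntermediateField.subset_adjoin _ _ ⟨Sum.inl (Sum.inr j), rfl⟩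
  have haG : ∀ j, a j ∈ G := fun j => IntermediateField.subset_adjoin _ _ ⟨Sum.inl (Sum.inl j), rfl⟩
  have hcG : c ∈ G := IntermediateField.subset_adjoin _ _ ⟨Sum.inr (), rfl⟩
  have halgG : ∀ g : L', g ∈ G → IsAlgebraic G g := fun g hg' => isAlgebraic_algebraMap (⟨g, hg'⟩ : G)
  have hx1 : IsAlgebraic G (x' 1) := by
    have h3 : IsIntegral G (x' 1 ^ p) := (halgG _ hcG).isIntegral
    exact (h3.of_pow hp.out.pos).isAlgebraic
  have halg : ∀ i, IsAlgebraic (IntermediateField.adjoin k (Set.range zpt)) (yy i) := by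
    intro i
    show IsAlgebraic G (Sum.elim (fun i => b (s i))
      (algebraMap L L' ∘ (fun j : Fin (p + 1) => x j.succ)) (finSumFinEquiv.symm i))
    rcases finSumFinEquiv.symm i with j | j
    · exact halgG _ (hbG (s j))
    · refine Fin.cases ?_ (fun j => ?_) j
      · exact hx1
      · have h3 : x' j.succ.succ = a j + x' 1 * b j := by
          show x' j.succ.succ = x' j.succ.succ - x' 1 * b j + x' 1 * b j
          ring
        show IsAlgebraic G (x' j.succ.succ)
        rw [h3]
        exact (halgG _ (haG j)).add (hx1.mul (halgG _ (hbG j)))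
  exact ⟨M + (p - 1), aeval zpt, hGen k (Ch p) L' (chart f) zpt (hCh p k 2 f hg) hchart _ yy hcard
    hyy halg⟩

end MPcfca
end

section
/-! MP_cfca38_ag: module PT1. -/
set_option autoImplicit false

namespace MPcfca

open MvPolynomial

universe u

namespace PT1M

/-- algebraic independence over `k(x)` of the second half of an independent family -/
theorem main {k : Type u} [Field k] {ι κ : Type} {A : Type u} [Field A] [Algebra k A]
    (x : ι → A) (y : κ → A) (h : AlgebraicIndependent k (Sum.elim y x)) :
    ∃ j : FractionRing (MvPolynomial ι k) →ₐ[k] A,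
      (∀ i, j (algebraMap (MvPolynomial ι k) _ (X i)) = x i) ∧
      @AlgebraicIndependent κ (FractionRing (MvPolynomial ι k)) A y _ _ j.toRingHom.toAlgebra := by
  obtain ⟨hx, hy⟩ := AlgebraicIndependent.sumElim_iff.mp h
  have hinj : Function.Injective (aeval x : MvPolynomial ι k →ₐ[k] A) := hx
  refine ⟨IsFractionRing.liftAlgHom hinj, fun i => ?_, ?_⟩
  · rw [IsFractionRing.liftAlgHom_apply, IsFractionRing.lift_algebraMap]
    simp
  · let : Algebra (FractionRing (MvPolynomial ι k)) A :=
      (IsFractionRing.liftAlgHom hinj : FractionRing (MvPolynomial ι k) →ₐ[k] A).toRingHom.toAlgebra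
    let : Algebra (MvPolynomial ι k) A := (aeval x : MvPolynomial ι k →ₐ[k] A).toRingHom.toAlgebra
    have : IsScalarTower (MvPolynomial ι k) (FractionRing (MvPolynomial ι k)) A :=
      IsScalarTower.of_algebraMap_eq fun s => by
        change aeval x s = IsFractionRing.liftAlgHom hinj (algebraMap _ _ s)
        rw [IsFractionRing.liftAlgHom_apply, IsFractionRing.lift_algebraMap]
        rfl
    have h1 : AlgebraicIndependent (MvPolynomial ι k) y := by
      let : Algebra (MvPolynomial ι k) (Algebra.adjoin k (Set.range x)) :=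
        hx.aevalEquiv.toRingEquiv.toRingHom.toAlgebra
      have : IsScalarTower (MvPolynomial ι k) (Algebra.adjoin k (Set.range x)) A :=
        IsScalarTower.of_algebraMap_eq fun s => by
          change aeval x s = (hx.aevalEquiv s : A)
          simp
      exact hy.restrictScalars hx.aevalEquiv.injective
    have : Algebra.IsAlgebraic (MvPolynomial ι k) (FractionRing (MvPolynomial ι k)) :=
      IsLocalization.isAlgebraic _ (nonZeroDivisors (MvPolynomial ι k))
    exact h1.extendScalars (FractionRing (MvPolynomial ι k))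

end PT1M

theorem specPT1 : SpecPT1.{u} := by
  intro k _ M n
  set A := FractionRing (MvPolynomial (Fin (M + n)) k)
  have hX : AlgebraicIndependent k (fun i : Fin (M + n) => algebraMap (MvPolynomial (Fin (M + n)) k)
      A (X i)) := by
    have := (MvPolynomial.algebraicIndependent_X (Fin (M + n)) k).map'
      (f := IsScalarTower.toAlgHom k (MvPolynomial (Fin (M + n)) k) A)
      (IsFractionRing.injective (MvPolynomial (Fin (M + n)) k) A)
    exact this
  have h : AlgebraicIndependent k (Sum.elim
      (fun i : Fin n => algebraMap (MvPolynomial (Fin (M + n)) k) A (X (Fin.natAdd M i)))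
      (fun i : Fin M => algebraMap (MvPolynomial (Fin (M + n)) k) A (X (Fin.castAdd n i)))) := by
    have h1 := hX.comp (Sum.elim (Fin.natAdd M) (Fin.castAdd n)) (by
      rintro (a | a) (b | b) hab
      · simp only [Sum.elim_inl] at hab
        rw [(Fin.natAdd_inj M).mp hab]
      · simp only [Sum.elim_inl, Sum.elim_inr] at hab
        have := congrArg Fin.val hab
        simp at this
        omega
      · simp only [Sum.elim_inl, Sum.elim_inr] at hab
        have := congrArg Fin.val hab
        simp at this
        omega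
      · simp only [Sum.elim_inr] at hab
        rw [(Fin.castAdd_inj).mp hab])
    convert h1 using 1
    funext i
    rcases i with i | i <;> rfl
  obtain ⟨j, -, hj⟩ := PT1M.main _ _ h
  exact ⟨j, _, hj⟩

end MPcfca
end
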