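import Pool.Agent.Lib.MP_cfca38_ag.Spec
import Pool.Agent.Lib.MP_cfca38_ag.PT1

/-! MP_cfca38_ag: module FB (type (B) with any number of parameters). -/

set_option autoImplicit false
set_option linter.unusedSimpArgs false

namespace MPcfca

open MvPolynomial

universe u

namespace FbM

section coords
variable {p : ℕ} {k : Type u} [Field k] {L : Type u} [Field L] [Algebra k L]
variable (x w : Fin (p + 2) → L)

/-- the determinant of the first two coordinates -/
def dl {A : Type u} [CommRing A] (x w : Fin (p + 2) → A) : A := x 0 * w 1 - w 0 * x 1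

noncomputable def aa (j : Fin p) : L := (w 1 * x j.succ.succ - x 1 * w j.succ.succ) / dl x w
noncomputable def bb (j : Fin p) : L := (x 0 * w j.succ.succ - w 0 * x j.succ.succ) / dl x w
noncomputable def cc : L := x 1 ^ p / x 0 ^ p

/-- the coordinates of the flag -/
noncomputable def Th : MvPolynomial (Ch p) k →ₐ[k] L :=
  aeval (Sum.elim (Sum.elim (aa x w) (bb x w)) (fun _ => cc x))

/-- the universal coordinates -/
noncomputable def ux (j : Fin (p + 2)) : MvPolynomial (Fin (p + 2) ⊕ Fin (p + 2)) k :=
  X (Sum.inl j)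
noncomputable def uw (j : Fin (p + 2)) : MvPolynomial (Fin (p + 2) ⊕ Fin (p + 2)) k :=
  X (Sum.inr j)

/-- the special flag -/
noncomputable def sx : Fin (p + 2) → MvPolynomial (Ch p) k :=
  Fin.cons 1 (Fin.cons (X (Sum.inr ())) (fun j : Fin p =>
    X (Sum.inl (Sum.inl j)) + X (Sum.inr ()) * X (Sum.inl (Sum.inr j))))
noncomputable def sw : Fin (p + 2) → MvPolynomial (Ch p) k :=
  Fin.cons 0 (Fin.cons 1 (fun j : Fin p => X (Sum.inl (Sum.inr j))))

noncomputable def sp : MvPolynomial (Fin (p + 2) ⊕ Fin (p + 2)) k →ₐ[k] MvPolynomial (Ch p) k :=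
  aeval (Sum.elim sx sw)

noncomputable def rho : MvPolynomial (Ch p) k →ₐ[k] MvPolynomial (Ch p) k :=
  aeval (fun i : Ch p => X i ^ (Sum.elim (fun _ => 1) (fun _ => p) i : ℕ))

theorem sp_ux (j : Fin (p + 2)) : sp (ux j : MvPolynomial _ k) = sx j := by simp [sp, ux]
theorem sp_uw (j : Fin (p + 2)) : sp (uw j : MvPolynomial _ k) = sw j := by simp [sp, uw]

theorem sx0 : (sx 0 : MvPolynomial (Ch p) k) = 1 := rfl
theorem sx1 : (sx 1 : MvPolynomial (Ch p) k) = X (Sum.inr ()) := rfl
theorem sw0 : (sw 0 : MvPolynomial (Ch p) k) = 0 := rfl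
theorem sw1 : (sw 1 : MvPolynomial (Ch p) k) = 1 := rfl

theorem sp_dl : sp (dl (ux : Fin (p + 2) → MvPolynomial (Fin (p + 2) ⊕ Fin (p + 2)) k) uw) =
    1 := by
  unfold dl
  simp [sp_ux, sp_uw, sx0, sx1, sw0, sw1]

theorem ev_ux (j : Fin (p + 2)) : aeval (Sum.elim x w) (ux j : MvPolynomial _ k) = x j := by
  simp [ux]
theorem ev_uw (j : Fin (p + 2)) : aeval (Sum.elim x w) (uw j : MvPolynomial _ k) = w j := by
  simp [uw]
theorem ev_dl : aeval (Sum.elim x w)
    (dl (ux : Fin (p + 2) → MvPolynomial (Fin (p + 2) ⊕ Fin (p + 2)) k) uw) = dl x w := by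
  unfold dl
  simp [ev_ux, ev_uw]

variable {x w}

theorem lift_exists (hx : x 0 ≠ 0) (hd : dl x w ≠ 0) (A : MvPolynomial (Ch p) k) :
    ∃ (r : ℕ) (B : MvPolynomial (Fin (p + 2) ⊕ Fin (p + 2)) k),
      aeval (Sum.elim x w) B = (x 0 * dl x w) ^ r * Th x w A ∧ sp B = rho A := by
  induction A using MvPolynomial.induction_on with
  | C a =>
    refine ⟨0, C a, ?_, ?_⟩
    · rw [pow_zero, one_mul, ← MvPolynomial.algebraMap_eq, ← MvPolynomial.algebraMap_eq,
        AlgHom.commutes, AlgHom.commutes]
    · rw [← MvPolynomial.algebraMap_eq, ← MvPolynomial.algebraMap_eq, AlgHom.commutes,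
        AlgHom.commutes]
  | add A B hA hB =>
    obtain ⟨r, P, hP1, hP2⟩ := hA
    obtain ⟨s, Q, hQ1, hQ2⟩ := hB
    refine ⟨r + s, (ux 0 * dl ux uw) ^ s * P + (ux 0 * dl ux uw) ^ r * Q, ?_, ?_⟩
    · simp only [map_add, map_mul, map_pow, hP1, hQ1, ev_ux, ev_dl]
      ring
    · simp only [map_add, map_mul, map_pow, hP2, hQ2, sp_ux, sp_dl, sx0]
      ring
  | mul_X A i hA =>
    obtain ⟨r, P, hP1, hP2⟩ := hA
    have key : ∃ (s : ℕ) (Q : MvPolynomial (Fin (p + 2) ⊕ Fin (p + 2)) k),
        aeval (Sum.elim x w) Q = (x 0 * dl x w) ^ s * Th x w (X i : MvPolynomial (Ch p) k) ∧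
          sp Q = rho (X i : MvPolynomial (Ch p) k) := by
      rcases i with (j | j) | j
      · refine ⟨1, (uw 1 * ux j.succ.succ - ux 1 * uw j.succ.succ) * ux 0, ?_, ?_⟩
        · have : Th x w (X (Sum.inl (Sum.inl j)) : MvPolynomial (Ch p) k) = aa x w j := by
            simp [Th]
          rw [this]
          unfold aa
          simp only [map_mul, map_sub, ev_ux, ev_uw]
          field_simp
        · simp only [map_mul, map_sub, sp_ux, sp_uw, sx0, sx1, sw1]
          simp [sx, sw, rho]
      · refine ⟨1, (ux 0 * uw j.succ.succ - uw 0 * ux j.succ.succ) * ux 0, ?_, ?_⟩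
        · have : Th x w (X (Sum.inl (Sum.inr j)) : MvPolynomial (Ch p) k) = bb x w j := by
            simp [Th]
          rw [this]
          unfold bb
          simp only [map_mul, map_sub, ev_ux, ev_uw]
          field_simp
        · simp only [map_mul, map_sub, sp_ux, sp_uw, sx0, sw0]
          simp [sx, sw, rho]
      · refine ⟨p, ux 1 ^ p * dl ux uw ^ p, ?_, ?_⟩
        · have : Th x w (X (Sum.inr j) : MvPolynomial (Ch p) k) = cc x := by simp [Th]
          rw [this]
          unfold cc
          simp only [map_mul, map_pow, ev_ux, ev_dl]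
          have := pow_ne_zero p hx
          rw [mul_pow]
          field_simp
        · simp only [map_mul, map_pow, sp_ux, sp_dl, sx1]
          simp [rho]
    obtain ⟨s, Q, hQ1, hQ2⟩ := key
    refine ⟨r + s, P * Q, ?_, ?_⟩
    · rw [map_mul, map_mul, hP1, hQ1]
      ring
    · rw [map_mul, map_mul, hP2, hQ2]

theorem rho_inj (hp : p ≠ 0) : Function.Injective (rho : MvPolynomial (Ch p) k →ₐ[k] _) := by
  let F := FractionRing (MvPolynomial (Ch p) k)
  have h1 : AlgebraicIndependent k (fun i : Ch p => algebraMap (MvPolynomial (Ch p) k) F (X i)) := by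
    have h2 : (aeval (fun i : Ch p => algebraMap (MvPolynomial (Ch p) k) F (X i)) :
        MvPolynomial (Ch p) k →ₐ[k] F) = IsScalarTower.toAlgHom k (MvPolynomial (Ch p) k) F := by
      apply MvPolynomial.algHom_ext
      intro i
      rw [aeval_X]
      rfl
    show Function.Injective (aeval (fun i : Ch p => algebraMap (MvPolynomial (Ch p) k) F (X i)) :
        MvPolynomial (Ch p) k →ₐ[k] F)
    rw [h2]
    exact IsFractionRing.injective (MvPolynomial (Ch p) k) F
  have h3 := V34M.pow_ai h1 (Sum.elim (fun _ => 1) (fun _ => p)) (by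
    intro i
    rcases i with i | i
    · simp
    · simpa using hp)
  have h4 : (aeval (fun i : Ch p => algebraMap (MvPolynomial (Ch p) k) F (X i) ^
      (Sum.elim (fun _ => 1) (fun _ => p) i : ℕ)) : MvPolynomial (Ch p) k →ₐ[k] F) =
      (IsScalarTower.toAlgHom k (MvPolynomial (Ch p) k) F).comp rho := by
    apply MvPolynomial.algHom_ext
    intro i
    rw [aeval_X, AlgHom.comp_apply]
    unfold rho
    rw [aeval_X, map_pow]
    rfl
  have h5 : Function.Injective (aeval (fun i : Ch p => algebraMap (MvPolynomial (Ch p) k) F (X i) ^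
      (Sum.elim (fun _ => 1) (fun _ => p) i : ℕ)) : MvPolynomial (Ch p) k →ₐ[k] F) := h3
  rw [h4, AlgHom.coe_comp] at h5
  exact Function.Injective.of_comp h5

theorem Th_inj (hp : p ≠ 0) (h : AlgebraicIndependent k (Sum.elim x w)) (hx : x 0 ≠ 0)
    (hd : dl x w ≠ 0) : Function.Injective (Th x w : MvPolynomial (Ch p) k →ₐ[k] L) := by
  rw [injective_iff_map_eq_zero]
  intro A hA
  obtain ⟨r, B, hB1, hB2⟩ := lift_exists (k := k) hx hd A
  rw [hA, mul_zero] at hB1
  have h1 : B = 0 := (injective_iff_map_eq_zero _).mp h B hB1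
  rw [h1, map_zero] at hB2
  exact (injective_iff_map_eq_zero _).mp (rho_inj hp) A hB2.symm

/-- the equation of the chart is a square -/
theorem Th_chart [hpf : Fact p.Prime] [Infinite k] {f : MvPolynomial (Idx (p + 2)) k}
    (hs : IsSec p 4 f) (hx : x 0 ≠ 0) (hd : dl x w ≠ 0) (s : L) (hsq : al f x w = s ^ 2) :
    Th x w (chart f) = ((x 0 / dl x w) ^ 2 * (x 0)⁻¹ ^ (2 * (p + 1)) * s) ^ 2 := by
  let v : Fin (p + 2) → L := Fin.cons 1 (Fin.cons 0 (aa x w))
  let wh : Fin (p + 2) → L := Fin.cons 0 (Fin.cons 1 (bb x w))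
  have h1 : Th x w (chart f) = ev f v wh 1 (cc x) := by
    unfold chart
    rw [ev_map, map_one]
    congr 1
    · funext j
      refine Fin.cases ?_ (fun j => ?_) j
      · simp [v]
      · refine Fin.cases ?_ (fun j => ?_) j
        · simp [v]
        · simp [v, Th]
    · funext j
      refine Fin.cases ?_ (fun j => ?_) j
      · simp [wh]
      · refine Fin.cases ?_ (fun j => ?_) j
        · simp [wh]
        · simp [wh, Th]
    · simp [Th]
  have h2 := al_line hs v wh 1 (x 1 / x 0)
  have h3 : (fun j => 1 * v j + x 1 / x 0 * wh j) = fun j => (x 0)⁻¹ * x j := by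
    funext j
    refine Fin.cases ?_ (fun j => ?_) j
    · simp [v, wh, hx]
    · refine Fin.cases ?_ (fun j => ?_) j
      · simp [v, wh]
        field_simp
      · simp only [v, wh, Fin.cons_succ, aa, bb]
        field_simp
        unfold dl
        ring
  have h4 : wh = fun j => (-(w 0 * x 0) / dl x w) * ((x 0)⁻¹ * x j) + (x 0 / dl x w) * w j := by
    funext j
    refine Fin.cases ?_ (fun j => ?_) j
    · simp only [wh, Fin.cons_zero]
      field_simp
      ring
    · refine Fin.cases ?_ (fun j => ?_) j
      · simp only [wh, Fin.cons_succ, Fin.cons_zero]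
        field_simp
        unfold dl
        simp only [Fin.succ_zero_eq_one]
        ring
      · simp only [wh, Fin.cons_succ, bb]
        field_simp
        ring
  rw [h3, one_pow, one_pow, one_mul, div_pow] at h2
  have h5 : ev f v wh 1 (cc x) = al f (fun j => (x 0)⁻¹ * x j) wh := h2.symm
  rw [h1, h5, h4, al_lin hs, al_smul_left hs, hsq]
  ring

end coords

/-- the kernel of the extension to the double cover -/
theorem double {σ : Type} {k L : Type u} [Field k] [Field L] [Algebra k L]
    (Θ : MvPolynomial σ k →ₐ[k] L) (hΘ : Function.Injective Θ) (F : MvPolynomial σ k)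
    (hF : Prime F) (S : L) (hS : Θ F = S ^ 2) (φ : MvPolynomial (Option σ) k →ₐ[k] L)
    (h0 : φ (X none) = S) (h1 : ∀ A, φ (rename some A) = Θ A) (h : MvPolynomial (Option σ) k) :
    φ h = 0 ↔ (X none ^ 2 - rename some F) ∣ h := by
  have hroot : φ (X none ^ 2 - rename some F) = 0 := by
    rw [map_sub, map_pow, h0, h1, hS, sub_self]
  constructor
  · intro hh
    let E := optionEquivLeft k σ
    let m : Polynomial (MvPolynomial σ k) := Polynomial.X ^ 2 - Polynomial.C F
    have hm : m.Monic := Polynomial.monic_X_pow_sub_C F (by norm_num)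
    have hE : E (X none ^ 2 - rename some F) = m := by
      have e1 : E (rename some F) = Polynomial.C F := by
        have e2 : (E : MvPolynomial (Option σ) k →ₐ[k] Polynomial (MvPolynomial σ k)).comp
            (rename some) = Polynomial.CAlgHom := by
          apply MvPolynomial.algHom_ext
          intro i
          simp [E]
        have e3 := congrArg (fun ψ : MvPolynomial σ k →ₐ[k] Polynomial (MvPolynomial σ k) => ψ F)
          e2
        simpa using e3
      rw [map_sub, map_pow, e1]
      simp [E, m]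
    let r := E h %ₘ m
    let q := E h /ₘ m
    have hdiv : r + m * q = E h := Polynomial.modByMonic_add_div (E h) m
    have hrdeg : r.natDegree < 2 := by
      have h2 := Polynomial.natDegree_modByMonic_lt (E h) hm (by
        intro h3
        have h4 := congrArg Polynomial.natDegree h3
        rw [Polynomial.natDegree_X_pow_sub_C, Polynomial.natDegree_one] at h4
        omega)
      rwa [Polynomial.natDegree_X_pow_sub_C] at h2
    have hr : r = Polynomial.C (r.coeff 1) * Polynomial.X + Polynomial.C (r.coeff 0) :=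
      Polynomial.eq_X_add_C_of_natDegree_le_one (by omega)
    let B := r.coeff 1
    let A := r.coeff 0
    have hh2 : h = (rename some B * X none + rename some A) +
        (X none ^ 2 - rename some F) * E.symm q := by
      apply E.injective
      have e1 : ∀ P : MvPolynomial σ k, E (rename some P) = Polynomial.C P := by
        intro P
        have e2 : (E : MvPolynomial (Option σ) k →ₐ[k] Polynomial (MvPolynomial σ k)).comp
            (rename some) = Polynomial.CAlgHom := by
          apply MvPolynomial.algHom_ext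
          intro i
          simp [E]
        have e3 := congrArg (fun ψ : MvPolynomial σ k →ₐ[k] Polynomial (MvPolynomial σ k) => ψ P)
          e2
        simpa using e3
      rw [map_add, map_mul E (X none ^ 2 - rename some F), hE, AlgEquiv.apply_symm_apply, map_add,
        map_mul, e1, e1]
      have e4 : E (X none) = Polynomial.X := by simp [E]
      rw [e4, ← hr]
      exact hdiv.symm
    have h3 : Θ B * S + Θ A = 0 := by
      have h4 := hh
      rw [hh2, map_add, map_mul φ (X none ^ 2 - rename some F), hroot, zero_mul, add_zero,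
        map_add, map_mul, h1, h1, h0] at h4
      exact h4
    have h4 : A ^ 2 = B ^ 2 * F := by
      apply hΘ
      rw [map_mul, map_pow, map_pow, hS]
      linear_combination (Θ A - Θ B * S) * h3
    have hB : B = 0 := by
      by_contra hB
      have h5 : B ^ 2 ∣ A ^ 2 := ⟨F, h4⟩
      rw [IsIntegrallyClosed.pow_dvd_pow_iff (by norm_num)] at h5
      obtain ⟨c, hc⟩ := h5
      rw [hc, mul_pow] at h4
      have h6 := mul_left_cancel₀ (pow_ne_zero 2 hB) h4
      have h7 : F ∣ c ^ 2 := ⟨1, by rw [h6, mul_one]⟩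
      obtain ⟨e, he⟩ := hF.dvd_of_dvd_pow h7
      rw [he] at h6
      have h8 : F * (F * e ^ 2) = F * 1 := by
        linear_combination h6
      have h9 := mul_left_cancel₀ hF.ne_zero h8
      exact hF.not_isUnit (IsUnit.of_mul_eq_one _ h9)
    have hA : A = 0 := by
      rw [hB, zero_pow (by norm_num), zero_mul] at h4
      exact eq_zero_of_pow_eq_zero h4
    rw [hh2, hB, hA, map_zero, zero_mul, add_zero, zero_add]
    exact Dvd.intro _ rfl
  · rintro ⟨c, rfl⟩
    rw [map_mul, hroot, zero_mul]

theorem double_ne {σ : Type} {k : Type u} [Field k] (F : MvPolynomial σ k) :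
    (X none ^ 2 - rename some F : MvPolynomial (Option σ) k) ≠ 0 := by
  intro h
  have h2 := congrArg (aeval (fun o : Option σ => (Option.elim o Polynomial.X
    (fun _ => 0) : Polynomial k))) h
  rw [map_sub, map_pow, map_zero, aeval_X, aeval_rename] at h2
  have h3 : (aeval ((fun o : Option σ => (Option.elim o Polynomial.X
    (fun _ => 0) : Polynomial k)) ∘ some) F : Polynomial k) = Polynomial.C (eval 0 F) := by
    have h4 : (aeval ((fun o : Option σ => (Option.elim o Polynomial.X
      (fun _ => 0) : Polynomial k)) ∘ some) : MvPolynomial σ k →ₐ[k] Polynomial k) =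
        (Polynomial.CAlgHom).comp (aeval (0 : σ → k)) := by
      apply MvPolynomial.algHom_ext
      intro i
      simp
    have h5 := congrArg (fun ψ : MvPolynomial σ k →ₐ[k] Polynomial k => ψ F) h4
    simp only [AlgHom.comp_apply, aeval_eq_eval] at h5
    exact h5
  rw [h3] at h2
  have h6 := congrArg Polynomial.natDegree h2
  simp only [Option.elim_none] at h6
  rw [Polynomial.natDegree_X_pow_sub_C, Polynomial.natDegree_zero] at h6
  omega

end FbM

open FbM

theorem specFB (hFl : SpecFlB.{u}) (hCh : SpecCh.{u}) : SpecFB.{u} := by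
  intro p hp k _ _ _ f hg
  have hinf : Infinite k := IsAlgClosed.instInfinite
  obtain ⟨M, x, w, s, hxw, hs0, hsq⟩ := hFl p k f hg
  have hp0 : p ≠ 0 := hp.out.ne_zero
  have hx0 : x 0 ≠ 0 := hxw.ne_zero (Sum.inl 0)
  have hd : dl x w ≠ 0 := by
    intro h
    have h1 : aeval (Sum.elim x w) (dl (ux : Fin (p + 2) →
        MvPolynomial (Fin (p + 2) ⊕ Fin (p + 2)) k) uw) = 0 := by
      rw [ev_dl, h]
    have h2 := (injective_iff_map_eq_zero _).mp hxw _ h1
    have h3 := sp_dl (p := p) (k := k)
    rw [h2, map_zero] at h3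
    exact zero_ne_one h3
  have hinj := Th_inj (k := k) hp0 hxw hx0 hd
  have hF : Prime (chart f) := hCh p k 4 f hg
  let S := (x 0 / dl x w) ^ 2 * (x 0)⁻¹ ^ (2 * (p + 1)) * s
  have hS : Th x w (chart f) = S ^ 2 := Th_chart hg.sec hx0 hd s hsq
  let φ : MvPolynomial (Option (Ch p)) k →ₐ[k] FractionRing (MvPolynomial (Fin M) k) :=
    aeval (fun o => Option.elim o S (fun i => Th x w (X i : MvPolynomial (Ch p) k)))
  have h0 : φ (X none) = S := by simp [φ]
  have h1 : ∀ A, φ (rename some A) = Th x w A := by
    intro A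
    have h2 : φ.comp (rename some) = Th x w := by
      apply MvPolynomial.algHom_ext
      intro i
      simp [φ]
    exact congrArg (fun ψ : MvPolynomial (Ch p) k →ₐ[k] _ => ψ A) h2
  have hker : ∀ h, φ h = 0 ↔ dbl f ∣ h := fun h =>
    double (Th x w) hinj (chart f) hF S hS φ h0 h1 h
  refine ⟨?_, M, φ, hker⟩
  have hne : dbl f ≠ 0 := double_ne (chart f)
  rw [← Ideal.span_singleton_prime hne]
  have h3 : Ideal.span {dbl f} = RingHom.ker φ.toRingHom := by
    ext h
    rw [Ideal.mem_span_singleton, RingHom.mem_ker]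
    exact (hker h).symm
  rw [h3]
  exact RingHom.ker_isPrime _

end MPcfca
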