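import Pool.Agent.Lib.MP_cfca38_ag.PT1

/-! MP_cfca38_ag: module FLB. A generic flag `(x, w)` over a purely transcendental field, on which
`al f` is a square. -/

set_option autoImplicit false
set_option linter.unusedSimpArgs false
set_option linter.unusedSectionVars false
set_option linter.unusedVariables false

namespace MPcfca

open MvPolynomial

universe u

namespace FlBM

open V34M

/-- purely transcendental fields -/
abbrev FF (k : Type u) [Field k] (M : ℕ) : Type u := FractionRing (MvPolynomial (Fin M) k)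

section via
variable {k : Type u} [Field k] {L Ω : Type u} [Field L] [Algebra k L] [Field Ω] [Algebra k Ω]

/-- algebraic independence over `L` of elements of `Ω`, where `L` maps to `Ω` by `j` -/
def Via {ι : Type} (j : L →ₐ[k] Ω) (y : ι → Ω) : Prop :=
  @AlgebraicIndependent ι L Ω y _ _ j.toRingHom.toAlgebra

theorem via_comp {ι κ : Type} (j : L →ₐ[k] Ω) (x : ι → L) (y : κ → Ω) (hy : Via j y)
    (hx : AlgebraicIndependent k x) :
    AlgebraicIndependent k (Sum.elim (fun i => j (x i)) y) := by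
  let : Algebra L Ω := j.toRingHom.toAlgebra
  have : IsScalarTower k L Ω := IsScalarTower.of_algebraMap_eq fun r => (j.commutes r).symm
  have h : AlgebraicIndependent L y := hy
  have h2 := AlgebraicIndependent.sumElim_comp hx h
  exact swap_ai h2

theorem via_self {κ : Type} (j : L →ₐ[k] Ω) (y : κ → Ω) (hy : Via j y) :
    AlgebraicIndependent k y := by
  let : Algebra L Ω := j.toRingHom.toAlgebra
  have : IsScalarTower k L Ω := IsScalarTower.of_algebraMap_eq fun r => (j.commutes r).symm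
  have h : AlgebraicIndependent L y := hy
  exact h.restrictScalars (algebraMap k L).injective

theorem map_ai {ι : Type} (j : L →ₐ[k] Ω) (x : ι → L) (hx : AlgebraicIndependent k x) :
    AlgebraicIndependent k (fun i => j (x i)) :=
  hx.map' (f := j) j.toRingHom.injective

end via

variable {p : ℕ} [hp : Fact p.Prime] {k : Type u} [Field k] [IsAlgClosed k] [CharP k p]
variable {f : MvPolynomial (Idx (p + 2)) k}

/-- the property of `B` in HB -/
def PHB (f : MvPolynomial (Idx (p + 2)) k) (B : MvPolynomial (Fin (p + 2) ⊕ Fin (p + 2)) k) :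
    Prop :=
  ∀ (L : Type u) [Field L] [Algebra k L] (x w : Fin (p + 2) → L),
      aeval (Sum.elim x w) B ≠ 0 →
    ∀ (Ω : Type u) [Field Ω] [Algebra k Ω] [Algebra L Ω] [IsScalarTower k L Ω]
      (d d' : Fin (p + 2) → Ω) (nu : Ω),
      AlgebraicIndependent L (Sum.elim (Sum.elim d d') (fun _ : Unit => nu)) →
      AlgebraicIndependent L (fun j => hm f (fun i => algebraMap L Ω (x i))
        (hm f (fun i => algebraMap L Ω (x i)) (fun i => algebraMap L Ω (w i)) d) d' j
          + nu * algebraMap L Ω (x j))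

theorem stepH (hg : Good p 4 f) (hPT1 : SpecPT1.{u})
    {B : MvPolynomial (Fin (p + 2) ⊕ Fin (p + 2)) k} (hB : PHB f B) (M : ℕ)
    (x w : Fin (p + 2) → FF k M) (hxw : aeval (Sum.elim x w) B ≠ 0) :
    ∃ (M' : ℕ) (j : FF k M →ₐ[k] FF k M') (y : Fin (p + 2) → FF k M') (s : FF k M'),
      Via j y ∧ al f (fun i => j (x i)) y = j (al f x w) * s ^ 2 := by
  obtain ⟨j, t, ht⟩ := hPT1 k M ((p + 2) + (p + 2) + 1)
  let : Algebra (FF k M) (FF k (M + ((p + 2) + (p + 2) + 1))) := j.toRingHom.toAlgebra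
  have : IsScalarTower k (FF k M) (FF k (M + ((p + 2) + (p + 2) + 1))) :=
    IsScalarTower.of_algebraMap_eq fun r => (j.commutes r).symm
  have ht' : AlgebraicIndependent (FF k M) t := ht
  let e : ((Fin (p + 2) ⊕ Fin (p + 2)) ⊕ Unit) ≃ Fin ((p + 2) + (p + 2) + 1) :=
    ((Equiv.sumCongr finSumFinEquiv (finOneEquiv.symm)).trans finSumFinEquiv)
  let d : Fin (p + 2) → FF k (M + ((p + 2) + (p + 2) + 1)) := fun i => t (e (Sum.inl (Sum.inl i)))
  let d' : Fin (p + 2) → FF k (M + ((p + 2) + (p + 2) + 1)) := fun i => t (e (Sum.inl (Sum.inr i)))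
  let nu : FF k (M + ((p + 2) + (p + 2) + 1)) := t (e (Sum.inr ()))
  have hind : AlgebraicIndependent (FF k M)
      (Sum.elim (Sum.elim d d') (fun _ : Unit => nu)) := by
    have h1 := ht'.comp e e.injective
    convert h1 using 1
    funext i
    rcases i with (i | i) | i <;> rfl
  have h2 := hB (FF k M) x w hxw (FF k (M + ((p + 2) + (p + 2) + 1))) d d' nu hind
  have hal : ∀ a, algebraMap (FF k M) (FF k (M + ((p + 2) + (p + 2) + 1))) a = j a := fun _ => rfl
  simp only [hal] at h2
  refine ⟨_, j, _, SS (hc f (fun i => j (x i)) (fun i => j (w i)) d) *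
    SS (hc f (fun i => j (x i)) (hm f (fun i => j (x i)) (fun i => j (w i)) d) d'), h2, ?_⟩
  have h3 := al_add hg.sec (fun i => j (x i))
    (hm f (fun i => j (x i)) (hm f (fun i => j (x i)) (fun i => j (w i)) d) d') nu
  have h4 := al_hm hg.sec (fun i => j (x i)) (hm f (fun i => j (x i)) (fun i => j (w i)) d) d'
  have h5 := al_hm hg.sec (fun i => j (x i)) (fun i => j (w i)) d
  have h6 := al_map f j x w
  rw [h3, h4, h5, h6]
  ring

theorem charp (L : Type u) [Field L] [Algebra k L] : CharP L p :=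
  charP_of_injective_algebraMap (algebraMap k L).injective p

/-- a V-move over the field of `p`-th roots -/
theorem stepV (hg : Good p 4 f) (hPT2 : SpecPT2.{u}) (M : ℕ) (x w : Fin (p + 2) → FF k M) :
    ∃ (j : FF k M →ₐ[k] FF k M) (x1 : Fin (p + 2) → FF k M) (s : FF k M),
      (∀ i, x1 i ^ p = vm f p (fun i => j (x i)) (fun i => j (w i)) i) ∧
      al f x1 (fun i => j (w i)) = j (al f x w) * s ^ 2 := by
  have : CharP (FF k M) p := charp (k := k) (p := p) (FF k M)
  obtain ⟨j, hj⟩ := hPT2 p k M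
  obtain ⟨c, hc⟩ := hj (DD (cf f x w))
  obtain ⟨l, hl⟩ := hj (8 * cf f x w 0 * TT (cf f x w))
  have hcf : (fun i => j (cf f x w i)) = cf f (fun i => j (x i)) (fun i => j (w i)) := by
    funext i
    exact cf_map f j x w i
  have hc' : c ^ p = DD (cf f (fun i => j (x i)) (fun i => j (w i))) := by
    rw [hc, ← hcf]
    exact DD_map (j : FF k M →+* FF k M) _
  have hT : j (TT (cf f x w)) = TT (cf f (fun i => j (x i)) (fun i => j (w i))) := by
    rw [← hcf]
    exact TT_map (j : FF k M →+* FF k M) _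
  have hl' : l ^ p = 8 * cf f (fun i => j (x i)) (fun i => j (w i)) 0 *
      TT (cf f (fun i => j (x i)) (fun i => j (w i))) := by
    rw [hl, map_mul, map_mul, hT, cf_map, map_ofNat]
  refine ⟨j, fun i => c * j (x i) + l * j (w i),
    c ^ 2 * SS (cf f (fun i => j (x i)) (fun i => j (w i))), ?_, ?_⟩
  · intro i
    rw [add_pow_char, mul_pow, mul_pow, hc', hl']
    rfl
  · rw [al_vm hg.sec _ _ c l hc' hl', al_map]

/-- V4 with only one new vector -/
theorem v4' {B : MvPolynomial (Fin (p + 2) ⊕ Fin (p + 2)) k} {x : Fin (p + 2) → k}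
    (h4 : ∀ (Ω : Type u) [Field Ω] [Algebra k Ω] (w w' x1 x2 : Fin (p + 2) → Ω),
      AlgebraicIndependent k (Sum.elim w w') →
      (∀ j, x1 j ^ p = vm f p (fun i => algebraMap k Ω (x i)) w j) →
      (∀ j, x2 j ^ p = vm f p x1 w' j) →
      aeval (Sum.elim x1 w) B ≠ 0 ∧ aeval (Sum.elim x2 w') B ≠ 0)
    (L : Type u) [Field L] [Algebra k L] (w x1 : Fin (p + 2) → L)
    (hw : AlgebraicIndependent k w)
    (hx1 : ∀ j, x1 j ^ p = vm f p (fun i => algebraMap k L (x i)) w j) :
    aeval (Sum.elim x1 w) B ≠ 0 := by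
  obtain ⟨Ω, _, _, _, z, hz⟩ := exists_generic L (Fin (p + 2))
  let _ : Algebra k Ω := ((algebraMap L Ω).comp (algebraMap k L)).toAlgebra
  have : IsScalarTower k L Ω := IsScalarTower.of_algebraMap_eq fun _ => rfl
  have hp0 : 0 < p := (Fact.out : p.Prime).pos
  let g : L →ₐ[k] Ω := IsScalarTower.toAlgHom k L Ω
  choose x2 hx2 using fun j => IsAlgClosed.exists_pow_nat_eq
    (vm f p (fun i => g (x1 i)) z j) hp0
  have h1 : AlgebraicIndependent k (Sum.elim (fun i => g (w i)) z) :=
    swap_ai (AlgebraicIndependent.sumElim_comp hw hz)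
  have h2 := (h4 Ω (fun i => g (w i)) z (fun i => g (x1 i)) x2 h1 (by
    intro j
    rw [← map_pow, hx1 j, vm_map]
    congr 1) hx2).1
  intro h0
  apply h2
  have h3 : g (aeval (Sum.elim x1 w) B) = aeval (Sum.elim (fun i => g (x1 i))
      (fun i => g (w i))) B := by
    rw [← AlgHom.comp_apply, comp_aeval]
    congr 2
    funext i
    rcases i with i | i <;> rfl
  rw [← h3, h0, map_zero]

theorem ne_alP (hg : Good p 4 f) : alP f ≠ 0 := by
  obtain ⟨x, w, h⟩ := PrM.al_pt_ne hg
  intro h0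
  apply h
  have h1 := al_map f (aeval (R := k) (Sum.elim x w)) (fun j : Fin (p + 2) => X (Sum.inl j))
    (fun j : Fin (p + 2) => X (Sum.inr j))
  simp only [aeval_X, Sum.elim_inl, Sum.elim_inr] at h1
  rw [← h1]
  have h2 : al f (fun j : Fin (p + 2) => (X (Sum.inl j) : MvPolynomial (Fin (p + 2) ⊕ Fin (p + 2)) k))
    (fun j : Fin (p + 2) => X (Sum.inr j)) = alP f := rfl
  rw [h2, h0, map_zero]

theorem aeval_alP {A : Type u} [CommRing A] [Algebra k A] (x w : Fin (p + 2) → A) :
    aeval (Sum.elim x w) (alP f) = al f x w := by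
  have h1 := al_map f (aeval (R := k) (Sum.elim x w)) (fun j : Fin (p + 2) => X (Sum.inl j))
    (fun j : Fin (p + 2) => X (Sum.inr j))
  simp only [aeval_X, Sum.elim_inl, Sum.elim_inr] at h1
  exact h1

end FlBM

open FlBM V34M

theorem specFlB (hHB : SpecHB.{u}) (hV3 : SpecV3.{u}) (hV4 : SpecV4.{u}) (hPT1 : SpecPT1.{u})
    (hPT2 : SpecPT2.{u}) : SpecFlB.{u} := by
  intro p _ k _ _ _ f hg
  obtain ⟨B, hB0, hB⟩ := hHB p k f hg
  have hPB : PHB f B := hB
  obtain ⟨B3, hB30, hB3⟩ := hV3 p k f hg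
  obtain ⟨B4, hB40, hB4⟩ := hV4 p k f hg B hB0
  -- the starting point
  have hne : B * (rename Sum.inl B3 * rename Sum.inl B4) ≠ 0 := by
    refine mul_ne_zero hB0 (mul_ne_zero ?_ ?_)
    · intro h
      exact hB30 (rename_injective _ Sum.inl_injective (by rw [map_zero]; exact h))
    · intro h
      exact hB40 (rename_injective _ Sum.inl_injective (by rw [map_zero]; exact h))
  obtain ⟨z, hz⟩ : ∃ z, eval z (B * (rename Sum.inl B3 * rename Sum.inl B4)) ≠ 0 := by
    by_contra hcon
    push Not at hcon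
    exact hne (MvPolynomial.funext fun z => by rw [hcon z, map_zero])
  rw [map_mul, map_mul, eval_rename, eval_rename] at hz
  let x0 : Fin (p + 2) → k := fun i => z (Sum.inl i)
  let w0 : Fin (p + 2) → k := fun i => z (Sum.inr i)
  have hzz : z = Sum.elim x0 w0 := by
    funext i
    rcases i with i | i <;> rfl
  have h3 := hB3 x0 (left_ne_zero_of_mul (right_ne_zero_of_mul hz))
  have h4 := hB4 x0 (right_ne_zero_of_mul (right_ne_zero_of_mul hz))
  have hBz : eval z B ≠ 0 := left_ne_zero_of_mul hz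
  -- first H-moves
  have hstart : aeval (Sum.elim (fun i => algebraMap k (FF k 0) (x0 i))
      (fun i => algebraMap k (FF k 0) (w0 i))) B ≠ 0 := by
    intro h0
    apply hBz
    apply (algebraMap k (FF k 0)).injective
    rw [map_zero, ← h0, hzz]
    have h1 := MvPolynomial.aeval_algebraMap_apply (FF k 0) (Sum.elim x0 w0) B
    rw [← MvPolynomial.aeval_eq_eval, ← h1]
    congr 2
    funext i
    rcases i with i | i <;> rfl
  obtain ⟨M1, j1, w2, s1, hw2, hs1⟩ := stepH hg hPT1 hPB 0 _ _ hstart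
  have hw2k : AlgebraicIndependent k w2 := via_self j1 w2 hw2
  have hc1 : (fun i => j1 (algebraMap k (FF k 0) (x0 i))) =
      fun i => algebraMap k (FF k M1) (x0 i) := by
    funext i
    exact j1.commutes _
  rw [hc1] at hs1
  -- first V-move
  obtain ⟨j2, x1, s2, hx1, hs2⟩ := stepV hg hPT2 M1 (fun i => algebraMap k (FF k M1) (x0 i)) w2
  have hc2 : (fun i => j2 (algebraMap k (FF k M1) (x0 i))) =
      fun i => algebraMap k (FF k M1) (x0 i) := by
    funext i
    exact j2.commutes _
  rw [hc2] at hx1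
  have hw2' : AlgebraicIndependent k (fun i => j2 (w2 i)) := map_ai j2 w2 hw2k
  have hB1 := v4' h4 (FF k M1) (fun i => j2 (w2 i)) x1 hw2' hx1
  -- second H-moves
  obtain ⟨M2, j3, w4, s3, hw4, hs3⟩ := stepH hg hPT1 hPB M1 _ _ hB1
  have hi4 := via_comp j3 (fun i => j2 (w2 i)) w4 hw4 hw2'
  -- second V-move
  obtain ⟨j4, x2, s4, hx2, hs4⟩ := stepV hg hPT2 M2 (fun i => j3 (x1 i)) w4
  have hi4' : AlgebraicIndependent k (Sum.elim (fun i => j4 (j3 (j2 (w2 i))))
      (fun i => j4 (w4 i))) := by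
    have h := map_ai j4 _ hi4
    have he : (fun i => j4 (Sum.elim (fun i => j3 (j2 (w2 i))) w4 i)) =
        Sum.elim (fun i => j4 (j3 (j2 (w2 i)))) (fun i => j4 (w4 i)) := by
      funext i
      rcases i with i | i <;> rfl
    rw [he] at h
    exact h
  have hx1' : ∀ i, (fun i => j4 (j3 (x1 i))) i ^ p = vm f p
      (fun i => algebraMap k (FF k M2) (x0 i)) (fun i => j4 (j3 (j2 (w2 i)))) i := by
    intro i
    simp only []
    rw [← map_pow, ← map_pow, hx1 i, vm_map, vm_map]
    congr 1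
    funext i
    rw [j3.commutes, j4.commutes]
  have hx2k := h3 (FF k M2) _ _ _ _ hi4' hx1' hx2
  have hB2 := (h4 (FF k M2) _ _ _ _ hi4' hx1' hx2).2
  -- third H-moves
  obtain ⟨M3, j5, w6, s5, hw6, hs5⟩ := stepH hg hPT1 hPB M2 _ _ hB2
  have hfin := via_comp j5 x2 w6 hw6 hx2k
  -- the square root
  obtain ⟨b, hb⟩ := IsAlgClosed.exists_pow_nat_eq (al f x0 w0) (n := 2) (by norm_num)
  have hal0 : al f (fun i => algebraMap k (FF k 0) (x0 i)) (fun i => algebraMap k (FF k 0) (w0 i)) =
      algebraMap k (FF k 0) b ^ 2 := by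
    rw [← map_pow, hb]
    exact (al_map f (Algebra.ofId k (FF k 0)) x0 w0).symm
  have hsq : al f (fun i => j5 (x2 i)) w6 = (j5 (j4 (j3 (j2 (j1 (algebraMap k (FF k 0) b) * s1)
      * s2) * s3) * s4) * s5) ^ 2 := by
    rw [hs5, hs4, hs3, hs2, hs1, hal0]
    simp only [map_mul, map_pow]
    ring
  refine ⟨M3, fun i => j5 (x2 i), w6, _, hfin, ?_, hsq⟩
  intro h0
  rw [h0, zero_pow two_ne_zero, ← aeval_alP] at hsq
  exact ne_alP hg (hfin.eq_zero_of_aeval_eq_zero _ hsq)

end MPcfca
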