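import Pool.Agent.Lib.MP_cfca38_ag.Spec
import Pool.Agent.Lib.MP_cfca38_ag.PT1

section
/-! MP_cfca38_ag, module GEN: the generic point of a hypersurface. -/
set_option autoImplicit false

namespace MPcfca

open MvPolynomial

universe u v

namespace GenM

/-- an irreducible polynomial of positive degree over a UFD `R` divides every polynomial with
which it has a common root in a field containing `R` -/
theorem dvd_of_root {R : Type*} [CommRing R] [IsDomain R] [UniqueFactorizationMonoid R]
    {L : Type*} [Field L] (ι : R →+* L) (hι : Function.Injective ι) (x : L)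
    (F h : Polynomial R) (hF : Irreducible F) (hd : F.natDegree ≠ 0)
    (h0 : F.eval₂ ι x = 0) (h1 : h.eval₂ ι x = 0) : F ∣ h := by
  classical
  let _ : NormalizationMonoid R := UniqueFactorizationMonoid.strongNormalizationMonoid.toNormalizationMonoid
  let _ : NormalizedGCDMonoid R := UniqueFactorizationMonoid.toNormalizedGCDMonoid R
  have hprim : F.IsPrimitive := hF.isPrimitive hd
  have hirr : Irreducible (F.map (algebraMap R (FractionRing R))) :=
    (hprim.irreducible_iff_irreducible_map_fraction_map (K := FractionRing R)).1 hF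
  apply hprim.dvd_of_fraction_map_dvd_fraction_map (K := FractionRing R)
  rcases EuclideanDomain.dvd_or_coprime _ (h.map (algebraMap R (FractionRing R))) hirr with h2 | h2
  · exact h2
  · exfalso
    obtain ⟨a, b, hab⟩ := h2
    let ι' : FractionRing R →+* L := IsFractionRing.lift (g := ι) hι
    have hcomp : ι'.comp (algebraMap R (FractionRing R)) = ι := by
      ext r
      exact IsFractionRing.lift_algebraMap hι r
    have h3 := congrArg (Polynomial.eval₂ ι' x) hab
    rw [Polynomial.eval₂_add, Polynomial.eval₂_mul, Polynomial.eval₂_mul, Polynomial.eval₂_map,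
      Polynomial.eval₂_map, hcomp, h0, h1, Polynomial.eval₂_one] at h3
    simp at h3

section
variable {K : Type u} [Field K] {σ : Type v} [DecidableEq σ] (i0 : σ)

/-- polynomials in one variable `i0` over the polynomials in the other variables -/
noncomputable def eqv :
    MvPolynomial σ K ≃ₐ[K] Polynomial (MvPolynomial {i // i ≠ i0} K) :=
  (renameEquiv K (Equiv.optionSubtypeNe i0).symm).trans (optionEquivLeft K _)

theorem eval_eqv {L : Type*} [Field L] [Algebra K L] (z : σ → L) (f : MvPolynomial σ K) :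
    (eqv (K := K) i0 f).eval₂ (aeval (R := K) (fun i : {i // i ≠ i0} => z i)).toRingHom (z i0)
      = aeval z f := by
  have h : (((Polynomial.eval₂RingHom (aeval (R := K) (fun i : {i // i ≠ i0} => z i)).toRingHom
      (z i0)).comp (eqv (K := K) i0).toRingEquiv.toRingHom)) = (aeval z).toRingHom := by
    apply MvPolynomial.ringHom_ext
    · intro r
      simp [eqv, MvPolynomial.optionEquivLeft_C]
    · intro i
      by_cases hi : i = i0
      · subst hi
        simp [eqv, MvPolynomial.optionEquivLeft_X_none]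
      · simp [eqv, MvPolynomial.optionEquivLeft_X_some, Equiv.optionSubtypeNe_symm_of_ne hi]
  exact congrArg (fun g : MvPolynomial σ K →+* L => g f) h

/-- a prime `F` vanishing at `z`, where the coordinates other than `z i0` are algebraically
independent, divides every polynomial vanishing at `z` -/
theorem dvd_of_aeval {L : Type*} [Field L] [Algebra K L] (z : σ → L) (F h : MvPolynomial σ K)
    (hF : Prime F) (h0 : aeval z F = 0) (hz : AlgebraicIndependent K fun i : {i // i ≠ i0} => z i)
    (h1 : aeval z h = 0) : F ∣ h := by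
  have hinj : Function.Injective
      (aeval (R := K) (fun i : {i // i ≠ i0} => z i)).toRingHom := hz
  have hp : Prime (eqv (K := K) i0 F) := (MulEquiv.prime_iff (eqv (K := K) i0).toMulEquiv).2 hF
  have h2 := dvd_of_root (aeval (R := K) (fun i : {i // i ≠ i0} => z i)).toRingHom hinj (z i0)
    (eqv (K := K) i0 F) (eqv (K := K) i0 h) hp.irreducible ?_
    (by rw [eval_eqv, h0]) (by rw [eval_eqv, h1])
  · obtain ⟨c, hc⟩ := h2
    refine ⟨(eqv (K := K) i0).symm c, ?_⟩
    apply (eqv (K := K) i0).injective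
    rw [hc, map_mul, AlgEquiv.apply_symm_apply]
  · intro hd
    rw [Polynomial.natDegree_eq_zero] at hd
    obtain ⟨r, hr⟩ := hd
    have h3 := eval_eqv (K := K) i0 z F
    rw [← hr, Polynomial.eval₂_C, h0] at h3
    have h4 : r = 0 := hinj (by rw [h3, map_zero])
    rw [h4, Polynomial.C_0] at hr
    exact hp.ne_zero hr.symm

end

/-- a subset of `s` of at least `n` independent elements, if there are `n` independent elements
algebraic over `s` -/
theorem exists_indep {K : Type u} {L : Type v} [Field K] [Field L] [Algebra K L] {n : ℕ}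
    (y : Fin n → L) (hy : AlgebraicIndependent K y) (s : Set L)
    (h : ∀ i, IsAlgebraic (Algebra.adjoin K s) (y i)) :
    ∃ t ⊆ s, AlgebraicIndepOn K id t ∧ (n : ℕ∞) ≤ t.encard := by
  let M := AlgebraicIndependent.matroid K L
  obtain ⟨I, hI⟩ := M.exists_isBasis s
  refine ⟨I, hI.subset, AlgebraicIndependent.matroid_indep_iff.1 hI.indep, ?_⟩
  have h1 : M.Indep (Set.range y) := AlgebraicIndependent.matroid_indep_iff.2 hy.to_subtype_range
  have h2 : Set.range y ⊆ M.closure s := by
    rintro _ ⟨i, rfl⟩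
    rw [AlgebraicIndependent.matroid_closure_eq]
    exact h i
  have h3 : (Set.range y).encard = n := by
    rw [← Set.image_univ, hy.injective.injOn.encard_image, Set.encard_univ]
    simp
  rw [← h3, ← h1.eRk_eq_encard, hI.encard_eq_eRk]
  calc M.eRk (Set.range y) ≤ M.eRk (M.closure s) := M.eRk_mono h2
    _ = M.eRk s := M.eRk_closure_eq s

/-- all coordinates of `z` except one are independent -/
theorem exists_coord {K : Type u} {L : Type v} [Field K] [Field L] [Algebra K L] {n : ℕ}
    {σ : Type*} [Fintype σ] (z : σ → L) (hn : n + 1 = Fintype.card σ)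
    (hz : ¬ AlgebraicIndependent K z)
    (y : Fin n → L) (hy : AlgebraicIndependent K y)
    (h : ∀ i, IsAlgebraic (Algebra.adjoin K (Set.range z)) (y i)) :
    ∃ i0 : σ, AlgebraicIndependent K (fun i : {i // i ≠ i0} => z i) := by
  classical
  obtain ⟨t, hts, hti, htn⟩ := exists_indep y hy _ h
  choose g hg using fun a : t => hts a.2
  have hginj : Function.Injective g := by
    intro a b hab
    apply Subtype.ext
    rw [← hg a, ← hg b, hab]
  have hfin : Finite t := Finite.of_injective g hginj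
  have hcard : n ≤ Nat.card t := by
    have h1 : t.encard = Nat.card t := by
      rw [Set.encard, ENat.card_eq_coe_natCard]
    rw [h1] at htn
    exact_mod_cast htn
  have hns : ¬ Function.Surjective g := by
    intro hs
    apply hz
    have e := Equiv.ofBijective g ⟨hginj, hs⟩
    have h2 : z = (fun a : t => (a : L)) ∘ (Equiv.ofBijective g ⟨hginj, hs⟩).symm := by
      funext i
      obtain ⟨a, rfl⟩ := hs i
      have h3 : (Equiv.ofBijective g ⟨hginj, hs⟩).symm (g a) = a := by
        rw [Equiv.symm_apply_eq]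
        rfl
      simp only [Function.comp, h3, hg]
    rw [h2]
    exact hti.comp _ (Equiv.injective _)
  simp only [Function.Surjective, not_forall, not_exists] at hns
  obtain ⟨i0, hi0⟩ := hns
  refine ⟨i0, ?_⟩
  let g' : t → {i // i ≠ i0} := fun a => ⟨g a, hi0 a⟩
  have hg' : Function.Injective g' := fun a b hab => hginj (congrArg Subtype.val hab)
  have hc2 : Nat.card {i // i ≠ i0} = n := by
    rw [Nat.card_eq_fintype_card, Fintype.card_subtype_compl, Fintype.card_subtype_eq]
    omega
  have hb : Function.Bijective g' := hg'.bijective_of_nat_card_le (by omega)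
  have h2 : (fun i : {i // i ≠ i0} => z i) = (fun a : t => (a : L)) ∘
      (Equiv.ofBijective g' hb).symm := by
    funext i
    obtain ⟨a, rfl⟩ := hb.2 i
    have h3 : (Equiv.ofBijective g' hb).symm (g' a) = a := by
      rw [Equiv.symm_apply_eq]
      rfl
    simp only [Function.comp, h3]
    exact hg a
  rw [h2]
  exact hti.comp _ (Equiv.injective _)

end GenM

open GenM in
/-- GEN -/
theorem specGen : SpecGen.{u} := by
  classical
  intro K _ σ _ L _ _ F z hF h0 n y hn hy halg h
  constructor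
  · intro h1
    have hz : ¬ AlgebraicIndependent K z := fun hz => hF.ne_zero (hz.eq_zero_of_aeval_eq_zero F h0)
    obtain ⟨i0, hi0⟩ := exists_coord z hn hz y hy fun i =>
      IntermediateField.isAlgebraic_adjoin_iff.1 (halg i)
    exact dvd_of_aeval i0 z F h hF h0 hi0 h1
  · rintro ⟨c, rfl⟩
    rw [map_mul, h0, zero_mul]

end MPcfca
end

section
/-! MP_cfca38_ag: module HB (from HD, NL, SD). -/
set_option autoImplicit false
set_option linter.unusedSimpArgs false

namespace MPcfca

namespace HBM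

open MvPolynomial

universe u

theorem ai_lin {K A : Type u} [CommRing K] [CommRing A] [Algebra K A] {τ κ : Type} (z : τ → A)
    (hz : AlgebraicIndependent K z) (y : κ → A) (Y : κ → MvPolynomial τ K)
    (hy : ∀ i, aeval z (Y i) = y i) (W : τ → MvPolynomial κ K)
    (hW : ∀ i, aeval W (Y i) = X i) : AlgebraicIndependent K y := by
  rw [algebraicIndependent_iff]
  intro P hP
  have h1 : aeval z (aeval Y P) = 0 := by
    rw [← hP, ← AlgHom.comp_apply, comp_aeval]
    congr 2
    funext i
    exact hy i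
  have h2 := (algebraicIndependent_iff.mp hz) _ h1
  have h3 : aeval W (aeval Y P) = P := by
    rw [← AlgHom.comp_apply, comp_aeval]
    simp only [hW]
    exact aeval_X_left_apply P
  rw [← h3, h2, map_zero]

section add
variable {N : ℕ} {k : Type u} [Field k] [Infinite k] {f : MvPolynomial (Idx N) k}
variable {A : Type u} [CommRing A] [Algebra k A] {p m : ℕ} [hp : Fact p.Prime]

theorem hc_add (h : IsSec p m f) (x w d : Fin N → A) (c e : A) (i : ℕ) :
    hc f x (fun j => w j + c * x j) (fun j => d j + e * x j) i = hc f x w d i := by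
  unfold hc
  have h1 := al_add h (A := Polynomial A) (fun j => Polynomial.C (x j))
    (fun j => Polynomial.C (w j) + Polynomial.X * Polynomial.C (d j))
    (Polynomial.C c + Polynomial.X * Polynomial.C e)
  have h2 : (fun j => (Polynomial.C (w j) + Polynomial.X * Polynomial.C (d j)) +
      (Polynomial.C c + Polynomial.X * Polynomial.C e) * Polynomial.C (x j)) =
      fun j => (Polynomial.C (w j + c * x j) + Polynomial.X * Polynomial.C (d j + e * x j) :
        Polynomial A) := by
    funext j
    simp only [map_add, map_mul]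
    ring
  rw [h2] at h1
  rw [h1]

theorem hm_add (h : IsSec p m f) (x w d : Fin N → A) (c : A) (j : Fin N) :
    hm f x (fun j => w j + c * x j) d j =
      hm f x w d j + DD (hc f x w d) * c * x j := by
  have h1 : ∀ i, hc f x (fun j => w j + c * x j) d i = hc f x w d i := by
    intro i
    have h2 := hc_add h x w d c 0 i
    simp only [zero_mul, add_zero] at h2
    exact h2
  have h2 : hc f x (fun j => w j + c * x j) d = hc f x w d := by
    funext i
    exact h1 i
  unfold hm
  rw [h2]
  ring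

end add

section qw
variable {p : ℕ} {k : Type u} [Field k] {f : MvPolynomial (Idx (p + 2)) k}
variable {K : Type u} [Field K] [Algebra k K] {A : Type u} [CommRing A] [Algebra k A]
  [Algebra K A] [IsScalarTower k K A]

theorem aeval_QW (x : Fin (p + 2) → K) (w : Fin (p + 1) → A) :
    aeval w (QW f x) = al f (fun j => algebraMap K A (x j)) (Fin.cons 0 w) := by
  unfold QW
  have h := al_map f ((aeval (R := K) w).restrictScalars k) (fun j => C (x j)) (Fin.cons 0 X)
  simp only [AlgHom.coe_restrictScalars', aeval_C] at h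
  rw [h]
  congr 1
  funext j
  refine Fin.cases ?_ (fun i => ?_) j
  · simp
  · simp

theorem Qc_QW (x : Fin (p + 2) → K) (w d : Fin (p + 1) → A) (i : ℕ) :
    Qc (QW f x) w d i = hc f (fun j => algebraMap K A (x j)) (Fin.cons 0 w) (Fin.cons 0 d) i := by
  unfold Qc hc
  rw [aeval_QW]
  congr 2
  funext j
  refine Fin.cases ?_ (fun i => ?_) j
  · simp
  · simp

theorem mv_QW (x : Fin (p + 2) → K) (w d : Fin (p + 1) → A) :
    (Fin.cons 0 (mv (QW f x) w d) : Fin (p + 2) → A) =
      hm f (fun j => algebraMap K A (x j)) (Fin.cons 0 w) (Fin.cons 0 d) := by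
  have h1 : (Qc (QW f x) w d) =
      hc f (fun j => algebraMap K A (x j)) (Fin.cons 0 w) (Fin.cons 0 d) := by
    funext i
    exact Qc_QW x w d i
  funext j
  unfold mv hm
  rw [h1]
  refine Fin.cases ?_ (fun i => ?_) j
  · simp
  · simp

theorem QW_hom [Infinite k] [hp : Fact p.Prime] {m : ℕ} (h : IsSec p m f)
    (x : Fin (p + 2) → K) : (QW f x).IsHomogeneous m := by
  apply isHomogeneous_of
  rw [aeval_QW]
  have h1 : (Fin.cons 0 (fun j => Polynomial.X * Polynomial.C (X j)) :
      Fin (p + 2) → Polynomial (MvPolynomial (Fin (p + 1)) K)) =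
      fun j => Polynomial.X * Polynomial.C ((Fin.cons 0 X :
        Fin (p + 2) → MvPolynomial (Fin (p + 1)) K) j) := by
    funext j
    refine Fin.cases ?_ (fun i => ?_) j
    · simp
    · simp
  rw [h1, al_smul h]
  congr 1
  have h3 := al_map f (Polynomial.CAlgHom (R := k) (A := MvPolynomial (Fin (p + 1)) K))
    (fun j => C (x j)) (Fin.cons 0 X)
  exact h3.symm

end qw

section main
variable (p : ℕ) (k : Type u) [Field k]

abbrev Io (p : ℕ) : Type := Fin (p + 2) ⊕ Fin (p + 2)
abbrev Ta (p : ℕ) : Type := (Fin (p + 2) ⊕ Fin (p + 2)) ⊕ Unit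

abbrev RR (p : ℕ) (k : Type u) [Field k] : Type u := MvPolynomial (Io p ⊕ Ta p) k

noncomputable def rx (j : Fin (p + 2)) : RR p k := X (Sum.inl (Sum.inl j))
noncomputable def rw' (j : Fin (p + 2)) : RR p k := X (Sum.inl (Sum.inr j))
noncomputable def rd (j : Fin (p + 2)) : RR p k := X (Sum.inr (Sum.inl (Sum.inl j)))
noncomputable def re (j : Fin (p + 2)) : RR p k := X (Sum.inr (Sum.inl (Sum.inr j)))
noncomputable def rn : RR p k := X (Sum.inr (Sum.inr ()))

noncomputable def Ph (f : MvPolynomial (Idx (p + 2)) k) (j : Fin (p + 2)) : RR p k :=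
  hm f (rx p k) (hm f (rx p k) (rw' p k) (rd p k)) (re p k) j + rn p k * rx p k j

variable {p k}

theorem Ph_map (f : MvPolynomial (Idx (p + 2)) k) {A : Type u} [CommRing A] [Algebra k A]
    (φ : RR p k →ₐ[k] A) (j : Fin (p + 2)) :
    φ (Ph p k f j) = hm f (fun j => φ (rx p k j)) (hm f (fun j => φ (rx p k j))
      (fun j => φ (rw' p k j)) (fun j => φ (rd p k j))) (fun j => φ (re p k j)) j +
      φ (rn p k) * φ (rx p k j) := by
  unfold Ph
  rw [map_add, map_mul, hm_map]
  congr 2
  funext i
  rw [hm_map]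

theorem step [hp : Fact p.Prime] [Infinite k] {f : MvPolynomial (Idx (p + 2)) k}
    (hs : IsSec p 4 f) {K : Type u} [Field K] [Algebra k K] {A : Type u} [CommRing A]
    [Algebra k A] [Algebra K A] [IsScalarTower k K A] (x : Fin (p + 2) → K)
    (a d : Fin (p + 1) → A) (t : A) (j : Fin (p + 2)) :
    hm f (fun j => algebraMap K A (x j)) (fun j => (Fin.cons 0 a : Fin (p + 2) → A) j +
      t * algebraMap K A (x j)) (Fin.cons 0 d) j =
      (Fin.cons 0 (mv (QW f x) a d) : Fin (p + 2) → A) j +
        DD (hc f (fun j => algebraMap K A (x j)) (Fin.cons 0 a) (Fin.cons 0 d)) * t *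
          algebraMap K A (x j) := by
  rw [hm_add hs, mv_QW]

theorem exists_c [hp : Fact p.Prime] [Infinite k] {f : MvPolynomial (Idx (p + 2)) k}
    (hs : IsSec p 4 f) {K : Type u} [Field K] [Algebra k K] (x : Fin (p + 2) → K)
    {F0 : Type u} [Field F0] [Algebra k F0] [Algebra K F0] [IsScalarTower k K F0]
    (a d e : Fin (p + 1) → F0) {S : Type u} [CommRing S] [Algebra k S] [Algebra K S]
    [IsScalarTower k K S] (ι : F0 →ₐ[K] S) :
    ∃ c : F0, ∀ t : S, ∀ j, hm f (fun j => algebraMap K S (x j))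
      (hm f (fun j => algebraMap K S (x j))
        (fun j => (Fin.cons 0 (fun i => ι (a i)) : Fin (p + 2) → S) j + t * algebraMap K S (x j))
        (Fin.cons 0 (fun i => ι (d i)))) (Fin.cons 0 (fun i => ι (e i))) j =
      (Fin.cons 0 (fun i => ι (mv (QW f x) (mv (QW f x) a d) e i)) : Fin (p + 2) → S) j +
        (ι c * t) * algebraMap K S (x j) := by
  have hDD : ∀ w d : Fin (p + 1) → F0, DD (hc f (fun j => algebraMap K S (x j))
      (Fin.cons 0 (fun i => ι (w i))) (Fin.cons 0 (fun i => ι (d i)))) =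
      ι (DD (hc f (fun j => algebraMap K F0 (x j)) (Fin.cons 0 w) (Fin.cons 0 d))) := by
    intro w d
    have h3 := DD_map (ι : F0 →+* S) (hc f (fun j => algebraMap K F0 (x j))
      (Fin.cons 0 w) (Fin.cons 0 d))
    have h5 : ∀ w : Fin (p + 1) → F0, (fun j => ι ((Fin.cons 0 w : Fin (p + 2) → F0) j)) =
        Fin.cons 0 (fun i => ι (w i)) := by
      intro w
      funext j
      refine Fin.cases ?_ (fun i => ?_) j
      · simp
      · simp
    have h4 : (fun i => (ι : F0 →+* S) (hc f (fun j => algebraMap K F0 (x j))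
      (Fin.cons 0 w) (Fin.cons 0 d) i)) = hc f (fun j => algebraMap K S (x j))
      (Fin.cons 0 (fun i => ι (w i))) (Fin.cons 0 (fun i => ι (d i))) := by
      funext i
      have h6 := hc_map f (ι.restrictScalars k) (fun j => algebraMap K F0 (x j))
        (Fin.cons 0 w) (Fin.cons 0 d) i
      simp only [AlgHom.coe_restrictScalars', AlgHom.commutes] at h6
      rw [h5, h5] at h6
      exact h6
    rw [h4] at h3
    exact h3.symm
  have hmv : ∀ w d : Fin (p + 1) → F0, mv (QW f x) (fun i => ι (w i)) (fun i => ι (d i)) =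
      fun i => ι (mv (QW f x) w d i) := by
    intro w d
    funext i
    exact (mv_map ι (QW f x) w d i).symm
  refine ⟨DD (hc f (fun j => algebraMap K F0 (x j)) (Fin.cons 0 (mv (QW f x) a d))
    (Fin.cons 0 e)) * DD (hc f (fun j => algebraMap K F0 (x j)) (Fin.cons 0 a)
    (Fin.cons 0 d)), fun t j => ?_⟩
  have h1 : hm f (fun j => algebraMap K S (x j))
        (fun j => (Fin.cons 0 (fun i => ι (a i)) : Fin (p + 2) → S) j + t * algebraMap K S (x j))
        (Fin.cons 0 (fun i => ι (d i))) = fun j =>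
      (Fin.cons 0 (fun i => ι (mv (QW f x) a d i)) : Fin (p + 2) → S) j +
        (ι (DD (hc f (fun j => algebraMap K F0 (x j)) (Fin.cons 0 a)
    (Fin.cons 0 d))) * t) * algebraMap K S (x j) := by
    funext j
    rw [step hs, hDD, hmv]
  rw [h1, step hs, hDD, hmv, map_mul]
  ring

theorem core1 {K : Type u} [Field K] (x : Fin (p + 2) → K) (hx0 : x 0 ≠ 0)
    {F0 : Type u} [Field F0] [Algebra K F0] (c : F0) (a a2 : Fin (p + 1) → F0)
    (h2 : AlgebraicIndependent K (Sum.elim a a2)) :
    AlgebraicIndependent K (Sum.elim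
      (fun j => (Fin.cons 0 (fun i => C (a i)) : Fin (p + 2) → MvPolynomial (Fin 2) F0) j +
        X 0 * C (algebraMap K F0 (x j)))
      (fun j => (Fin.cons 0 (fun i => C (a2 i)) : Fin (p + 2) → MvPolynomial (Fin 2) F0) j +
        (X 1 + C c * X 0) * C (algebraMap K F0 (x j)))) := by
  have h3 : AlgebraicIndependent F0 (![X 0, X 1 + C c * X 0] :
      Fin 2 → MvPolynomial (Fin 2) F0) := by
    apply ai_lin (fun i => (X i : MvPolynomial (Fin 2) F0)) (algebraicIndependent_X _ _) _
      ![X 0, X 1 + C c * X 0] (fun i => aeval_X_left_apply _) ![X 0, X 1 - C c * X 0]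
    intro i
    fin_cases i
    · simp
    · show aeval (![X 0, X 1 - C c * X 0] : Fin 2 → MvPolynomial (Fin 2) F0)
        (X 1 + C c * X 0) = X 1
      rw [map_add, map_mul, aeval_C, aeval_X, aeval_X, algebraMap_eq]
      simp
  have h4 := h2.sumElim_comp h3
  apply ai_lin _ h4 _ (Sum.elim
      (fun j => (Fin.cons 0 (fun i => X (Sum.inr (Sum.inl i))) : Fin (p + 2) → _) j +
        X (Sum.inl 0) * C (x j))
      (fun j => (Fin.cons 0 (fun i => X (Sum.inr (Sum.inr i))) : Fin (p + 2) → _) j +
        X (Sum.inl 1) * C (x j))) ?_ (Sum.elim ![C (x 0)⁻¹ * X (Sum.inl 0),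
          C (x 0)⁻¹ * X (Sum.inr 0)]
      (Sum.elim (fun i => X (Sum.inl i.succ) - C (x 0)⁻¹ * X (Sum.inl 0) * C (x i.succ))
        (fun i => X (Sum.inr i.succ) - C (x 0)⁻¹ * X (Sum.inr 0) * C (x i.succ))))
  · intro i
    have e1 : (C (x 0)⁻¹ * C (x 0) : MvPolynomial (Fin (p + 2) ⊕ Fin (p + 2)) K) = 1 := by
      rw [← C_mul, inv_mul_cancel₀ hx0, C_1]
    rcases i with i | i
    · refine Fin.cases ?_ (fun i => ?_) i
      · simp
        linear_combination X (Sum.inl 0) * e1
      · simp
    · refine Fin.cases ?_ (fun i => ?_) i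
      · simp
        linear_combination X (Sum.inr 0) * e1
      · simp
  · intro i
    rcases i with i | i
    · refine Fin.cases ?_ (fun i => ?_) i
      · simp
      · simp
    · refine Fin.cases ?_ (fun i => ?_) i
      · simp
      · simp

theorem core [hp : Fact p.Prime] [Infinite k] (f : MvPolynomial (Idx (p + 2)) k)
    (hs : IsSec p 4 f) (K : Type u) [Field K] [Algebra k K] (x : Fin (p + 2) → K)
    (hx : AlgebraicIndependent k x) (F0 : Type u) [Field F0] [Algebra k F0] [Algebra K F0]
    [IsScalarTower k K F0] (a d e : Fin (p + 1) → F0)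
    (h2 : AlgebraicIndependent K (Sum.elim a (mv (QW f x) (mv (QW f x) a d) e))) :
    AlgebraicIndependent k (Sum.elim (fun i : Io p => (X (Sum.inl i) : RR p k)) (Ph p k f)) := by
  obtain ⟨c, hc⟩ := exists_c hs x a d e
    (IsScalarTower.toAlgHom K F0 (MvPolynomial (Fin 2) F0))
  have h5 := core1 x (hx.ne_zero 0) c a _ h2
  have h6 := hx.sumElim_comp h5
  let S := MvPolynomial (Fin 2) F0
  let xS : Fin (p + 2) → S := fun j => algebraMap K S (x j)
  let wS : Fin (p + 2) → S := fun j => (Fin.cons 0 (fun i => C (a i)) : Fin (p + 2) → S) j +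
        X 0 * C (algebraMap K F0 (x j))
  let θ : RR p k →ₐ[k] S := aeval (Sum.elim (Sum.elim xS wS) (Sum.elim (Sum.elim
    (Fin.cons 0 (fun i => C (d i))) (Fin.cons 0 (fun i => C (e i)))) (fun _ => X 1)))
  apply AlgebraicIndependent.of_comp θ
  let g : Io p ⊕ Fin (p + 2) → Io p ⊕ Fin (p + 2) :=
    Sum.elim (Sum.elim Sum.inr (fun j => Sum.inl (Sum.inl j))) (fun j => Sum.inl (Sum.inr j))
  have hg : Function.Injective g := by
    intro i j
    rcases i with (i | i) | i <;> rcases j with (j | j) | j <;> simp [g]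
  have h7 := h6.comp g hg
  convert h7 using 1
  funext i
  rcases i with (i | i) | i
  · show θ (X (Sum.inl (Sum.inl i))) = algebraMap K S (x i)
    exact aeval_X _ _
  · show θ (X (Sum.inl (Sum.inr i))) = wS i
    exact aeval_X _ _
  · show θ (Ph p k f i) = (Fin.cons 0 (fun i => C (mv (QW f x) (mv (QW f x) a d) e i)) :
      Fin (p + 2) → S) i + (X 1 + C c * X 0) * C (algebraMap K F0 (x i))
    have e1 : (fun j => θ (rx p k j)) = xS := by
      funext j
      exact aeval_X _ _
    have e2 : (fun j => θ (rw' p k j)) = wS := by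
      funext j
      exact aeval_X _ _
    have e3 : (fun j => θ (rd p k j)) = Fin.cons 0 (fun i => C (d i)) := by
      funext j
      exact aeval_X _ _
    have e4 : (fun j => θ (re p k j)) = Fin.cons 0 (fun i => C (e i)) := by
      funext j
      exact aeval_X _ _
    have e5 : θ (rn p k) = X 1 := aeval_X _ _
    have e6 : θ (rx p k i) = xS i := aeval_X _ _
    rw [Ph_map, e1, e2, e3, e4, e5, e6]
    have h8 := hc (X 0) i
    have h9 : hm f xS (hm f xS wS (Fin.cons 0 (fun i => C (d i))))
        (Fin.cons 0 (fun i => C (e i))) i =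
        (Fin.cons 0 (fun i => C (mv (QW f x) (mv (QW f x) a d) e i)) : Fin (p + 2) → S) i +
        (C c * X 0) * xS i := h8
    rw [h9]
    have e7 : xS i = C (algebraMap K F0 (x i)) := rfl
    rw [e7]
    ring

/-- the generic statement -/
theorem main [hp : Fact p.Prime] [IsAlgClosed k] [CharP k p] (hHD : SpecHD.{u})
    (hNL : SpecNL.{u}) (f : MvPolynomial (Idx (p + 2)) k) (hg : Good p 4 f) :
    AlgebraicIndependent k (Sum.elim (fun i : Io p => (X (Sum.inl i) : RR p k)) (Ph p k f)) := by
  have hinf : Infinite k := IsAlgClosed.instInfinite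
  let PX := MvPolynomial (Fin (p + 2)) k
  let K := AlgebraicClosure (FractionRing PX)
  let x : Fin (p + 2) → K := fun j => algebraMap (FractionRing PX) K
    (algebraMap PX (FractionRing PX) (X j))
  have hinjX : Function.Injective (aeval x : PX →ₐ[k] K) := by
    have h1 : (aeval x : PX →ₐ[k] K) =
        (IsScalarTower.toAlgHom k (FractionRing PX) K).comp
          (IsScalarTower.toAlgHom k PX (FractionRing PX)) := by
      apply MvPolynomial.algHom_ext
      intro i
      rw [aeval_X]
      rfl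
    rw [h1]
    exact (algebraMap (FractionRing PX) K).injective.comp
      (IsFractionRing.injective PX (FractionRing PX))
  have hx : AlgebraicIndependent k x := hinjX
  have hch : CharP K p := charP_of_injective_algebraMap (algebraMap k K).injective p
  obtain ⟨Q1, Q2, j, hfac, hirr, hh, hj, hnd⟩ := hNL p k f hg K x hx
  have hQ : (QW f x).IsHomogeneous 4 := QW_hom hg.sec x
  let PA := MvPolynomial (Fin (p + 1) ⊕ (Fin (p + 1) ⊕ Fin (p + 1))) K
  let F0 := FractionRing PA
  let a : Fin (p + 1) → F0 := fun i => algebraMap PA F0 (X (Sum.inl i))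
  let d : Fin (p + 1) → F0 := fun i => algebraMap PA F0 (X (Sum.inr (Sum.inl i)))
  let e : Fin (p + 1) → F0 := fun i => algebraMap PA F0 (X (Sum.inr (Sum.inr i)))
  have hade : AlgebraicIndependent K (Sum.elim a (Sum.elim d e)) := by
    have h1 : (aeval (Sum.elim a (Sum.elim d e)) : PA →ₐ[K] F0) =
        IsScalarTower.toAlgHom K PA F0 := by
      apply MvPolynomial.algHom_ext
      intro i
      rw [aeval_X]
      rcases i with i | i | i <;> rfl
    show Function.Injective (aeval (Sum.elim a (Sum.elim d e)) : PA →ₐ[K] F0)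
    rw [h1]
    exact IsFractionRing.injective PA F0
  have h2 := hHD p K (p + 1) (QW f x) Q1 Q2 j hg.five hQ hfac hirr hh hj hnd F0 a d e hade
  exact core f hg.sec K x hx F0 a d e h2

end main

end HBM

open MvPolynomial

universe u

theorem specHB (hHD : SpecHD.{u}) (hNL : SpecNL.{u}) (hSD : SpecSD.{u}) : SpecHB.{u} := by
  intro p _ k _ _ _ f hg
  obtain ⟨B, hB0, hB⟩ := hSD k (HBM.Io p) (HBM.Ta p) (Fin (p + 2)) (HBM.Ph p k f)
    (HBM.main hHD hNL f hg)
  refine ⟨B, hB0, ?_⟩
  intro L _ _ x w hxw Ω _ _ _ _ d d' nu hind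
  have h1 := hB L (Sum.elim x w) hxw
  have h2 := h1.map' (f := aeval (Sum.elim (Sum.elim d d') (fun _ : Unit => nu))) hind
  convert h2 using 1
  funext j
  let φ : HBM.RR p k →ₐ[k] Ω := ((aeval (R := L) (Sum.elim (Sum.elim d d')
    (fun _ : Unit => nu))).restrictScalars k).comp
      (aeval (R := k) (Sum.elim (fun i => C (Sum.elim x w i)) (fun j => X j)))
  show _ = φ (HBM.Ph p k f j)
  have e1 : (fun j => φ (HBM.rx p k j)) = fun j => algebraMap L Ω (x j) := by
    funext j
    simp [φ, HBM.rx]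
  have e2 : (fun j => φ (HBM.rw' p k j)) = fun j => algebraMap L Ω (w j) := by
    funext j
    simp [φ, HBM.rw']
  have e3 : (fun j => φ (HBM.rd p k j)) = d := by
    funext j
    simp [φ, HBM.rd]
  have e4 : (fun j => φ (HBM.re p k j)) = d' := by
    funext j
    simp [φ, HBM.re]
  have e5 : φ (HBM.rn p k) = nu := by
    simp [φ, HBM.rn]
  have e6 : φ (HBM.rx p k j) = algebraMap L Ω (x j) := by
    simp [φ, HBM.rx]
  rw [HBM.Ph_map, e1, e2, e3, e4, e5, e6]

end MPcfca
end

section
/-! MP_cfca38_ag: general lemmas for HD and V2. -/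
set_option autoImplicit false
set_option linter.unusedSimpArgs false

namespace MPcfca

open MvPolynomial

universe u v

/-- Nullstellensatz for a prime polynomial -/
theorem ns {K : Type u} [Field K] [IsAlgClosed K] {σ : Type v} [Finite σ]
    (P R : MvPolynomial σ K) (hP : Prime P) (h : ¬ P ∣ R) :
    ∃ z : σ → K, eval z P = 0 ∧ eval z R ≠ 0 := by
  by_contra hcon
  push Not at hcon
  have hI : (Ideal.span {P}).IsPrime := (Ideal.span_singleton_prime hP.ne_zero).mpr hP
  have h1 := IsPrime.vanishingIdeal_zeroLocus (k := K) (K := K) (Ideal.span {P})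
  have h2 : R ∈ vanishingIdeal K (zeroLocus K (Ideal.span {P})) := by
    rw [mem_vanishingIdeal_iff]
    intro z hz
    rw [mem_zeroLocus_iff] at hz
    have h3 := hz P (Ideal.mem_span_singleton_self P)
    rw [aeval_eq_eval] at h3 ⊢
    exact hcon z h3
  rw [h1, Ideal.mem_span_singleton] at h2
  exact h h2

/-- a prime ideal of a UFD which contains `x ≠ 0` contains a prime factor of `x` -/
theorem exists_factor {R : Type u} [CommRing R] [IsDomain R] [UniqueFactorizationMonoid R]
    (I : Ideal R) (hI : I.IsPrime) (x : R) (hx : x ∈ I) (h0 : x ≠ 0) :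
    ∃ g, Prime g ∧ g ∣ x ∧ g ∈ I := by
  obtain ⟨f, hf, hfx⟩ := UniqueFactorizationMonoid.exists_prime_factors x h0
  have h1 : f.prod ∈ I := by
    obtain ⟨u, hu⟩ := hfx.symm
    rw [← hu]
    exact I.mul_mem_right _ hx
  rw [hI.multiset_prod_mem_iff_exists_mem] at h1
  obtain ⟨g, hg, hgI⟩ := h1
  exact ⟨g, hf g hg, (Multiset.dvd_prod hg).trans hfx.dvd, hgI⟩

section qc
variable {σ : Type} [Fintype σ] {K : Type u} [CommRing K]
variable {A : Type v} [CommRing A] [Algebra K A]

omit [Fintype σ] in
theorem Qc_zero' (Q : MvPolynomial σ K) (w d : σ → A) : Qc Q w d 0 = aeval w Q := by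
  have h := Qc_hasPoly Q w d 0
  simp only [zero_mul, add_zero] at h
  have h2 : aeval w Q = aeval (fun j => w j) Q := rfl
  rw [h2, h, ← Polynomial.coeff_zero_eq_eval_zero]
  rfl

/-- the linear coefficient is the differential -/
theorem Qc_one (Q : MvPolynomial σ K) (w d : σ → A) :
    Qc Q w d 1 = ∑ j, aeval w (pderiv j Q) * d j := by
  classical
  induction Q using MvPolynomial.induction_on with
  | C a =>
    unfold Qc
    simp [Polynomial.algebraMap_apply, Polynomial.coeff_C]
  | add P Q hP hQ =>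
    have h1 : Qc (P + Q) w d 1 = Qc P w d 1 + Qc Q w d 1 := by
      unfold Qc
      rw [map_add, Polynomial.coeff_add]
    rw [h1, hP, hQ, ← Finset.sum_add_distrib]
    apply Finset.sum_congr rfl
    intro j _
    rw [map_add, map_add]
    ring
  | mul_X P i hP =>
    have h1 : Qc (P * X i) w d 1 = Qc P w d 0 * d i + Qc P w d 1 * w i := by
      unfold Qc
      rw [map_mul, aeval_X, Polynomial.coeff_mul]
      simp only [Finset.Nat.antidiagonal_succ, Finset.Nat.antidiagonal_zero, zero_add,
        Finset.map_singleton, Function.Embedding.prodMap, Finset.cons_eq_insert,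
        Finset.sum_insert, Finset.mem_singleton]
      simp [Polynomial.coeff_C]
    rw [h1, hP, Qc_zero']
    have h2 : ∀ j, aeval w (pderiv j (P * X i)) * d j =
        aeval w (pderiv j P) * d j * w i + (if j = i then aeval w P * d i else 0) := by
      intro j
      rw [pderiv_mul, map_add, map_mul, map_mul, aeval_X, pderiv_X]
      split_ifs with hj
      · subst hj
        simp
        ring
      · simp [Pi.single_apply, Ne.symm hj]
        ring
    simp only [h2]
    rw [Finset.sum_add_distrib, Finset.sum_ite_eq' Finset.univ i, if_pos (Finset.mem_univ i),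
      ← Finset.sum_mul]
    ring

end qc

/-! ### the kernel of a homogeneous substitution -/

/-- if scaling of parameters scales the point then homogeneous components of relations are
relations -/
theorem homc {σ : Type} [Fintype σ] {K : Type u} [Field K] {A : Type u} [CommRing A] [Algebra K A]
    (z : σ → A) (r : ℕ) (hr : 0 < r) (Φ : A →ₐ[K] Polynomial A)
    (hΦ : ∀ i, Φ (z i) = Polynomial.X ^ r * Polynomial.C (z i)) (B : MvPolynomial σ K)
    (hB : aeval z B = 0) (i : ℕ) : aeval z (homogeneousComponent i B) = 0 := by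
  by_cases hi : i < B.totalDegree + 1
  swap
  · rw [homogeneousComponent_eq_zero, map_zero]
    omega
  have h1 : Φ (aeval z B) = ∑ j ∈ Finset.range (B.totalDegree + 1),
      (Polynomial.X ^ r) ^ j * Polynomial.C (aeval z (homogeneousComponent j B)) := by
    conv_lhs => rw [← sum_homogeneousComponent B]
    rw [map_sum, map_sum]
    apply Finset.sum_congr rfl
    intro j _
    have h2 : Φ (aeval z (homogeneousComponent j B)) =
        aeval (fun i => Polynomial.X ^ r * Polynomial.C (z i)) (homogeneousComponent j B) := by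
      rw [← AlgHom.comp_apply, comp_aeval]
      simp only [hΦ]
    rw [h2, hom_smul (homogeneousComponent_isHomogeneous j B), aeval_C']
  rw [hB, map_zero] at h1
  have h3 := congrArg (fun P : Polynomial A => P.coeff (r * i)) h1
  simp only [Polynomial.coeff_zero, Polynomial.finsetSum_coeff, Polynomial.coeff_mul_C,
    ← pow_mul, Polynomial.coeff_X_pow] at h3
  rw [Finset.sum_eq_single i] at h3
  · rw [if_pos rfl, one_mul] at h3
    exact h3.symm
  · intro j _ hji
    rw [if_neg, zero_mul]
    intro h4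
    exact hji (Nat.eq_of_mul_eq_mul_left hr h4).symm
  · intro hn
    exact absurd (Finset.mem_range.mpr hi) hn

/-! ### linear disjointness -/

/-- LD: relations over `L` of a point with coordinates in `F[t]` are generated by the relations
over `F` -/
theorem ld {F L : Type u} [Field F] [Field L] [Algebra F L] {τ κ : Type} [Fintype τ]
    (z : τ → MvPolynomial κ F) (g : MvPolynomial τ F)
    (hg : ∀ B : MvPolynomial τ F, aeval z B = 0 → g ∣ B) (B : MvPolynomial τ L)
    (hB : aeval (fun i => map (algebraMap F L) (z i)) B = 0) :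
    map (algebraMap F L) g ∣ B := by
  classical
  let b := Module.Basis.ofVectorSpace F L
  let I : Finset (Module.Basis.ofVectorSpaceIndex F L) :=
    B.support.biUnion (fun s => (b.repr (coeff s B)).support)
  let Bi : Module.Basis.ofVectorSpaceIndex F L → MvPolynomial τ F := fun i =>
    ∑ s ∈ B.support, monomial s (b.repr (coeff s B) i)
  have h1 : B = ∑ i ∈ I, C (b i) * map (algebraMap F L) (Bi i) := by
    conv_lhs => rw [B.as_sum]
    simp only [Bi, map_sum, Finset.mul_sum, map_monomial]
    rw [Finset.sum_comm]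
    apply Finset.sum_congr rfl
    intro s hs
    simp only [C_mul_monomial]
    rw [← map_sum]
    congr 1
    have h2 := b.linearCombination_repr (coeff s B)
    rw [Finsupp.linearCombination_apply, Finsupp.sum] at h2
    conv_lhs => rw [← h2]
    rw [Finset.sum_subset (Finset.subset_biUnion_of_mem
      (fun s => (b.repr (coeff s B)).support) hs)]
    · apply Finset.sum_congr rfl
      intro i _
      rw [Algebra.smul_def, mul_comm]
    · intro i _ hi
      rw [Finsupp.notMem_support_iff] at hi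
      rw [hi, zero_smul]
  have h3 : ∀ P : MvPolynomial τ F, aeval (fun i => map (algebraMap F L) (z i))
      (map (algebraMap F L) P) = map (algebraMap F L) (aeval z P) := by
    intro P
    induction P using MvPolynomial.induction_on with
    | C a => simp [algebraMap_eq]
    | add P Q hP hQ => simp only [map_add, hP, hQ]
    | mul_X P i hP => simp only [map_mul, hP, map_X, aeval_X]
  have h4 : ∑ i ∈ I, C (b i) * map (algebraMap F L) (aeval z (Bi i)) = 0 := by
    rw [← hB]
    conv_rhs => rw [h1]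
    rw [map_sum]
    apply Finset.sum_congr rfl
    intro i _
    rw [map_mul, h3, aeval_C, algebraMap_eq]
  have h5 : ∀ i ∈ I, aeval z (Bi i) = 0 := by
    intro i hi
    ext t
    rw [coeff_zero]
    have h6 := congrArg (fun P : MvPolynomial κ L => P.coeff t) h4
    simp only [coeff_zero] at h6
    rw [MvPolynomial.coeff_sum] at h6
    simp only [coeff_C_mul, coeff_map] at h6
    have h7 : ∑ i ∈ I, (coeff t (aeval z (Bi i))) • b i = 0 := by
      rw [← h6]
      apply Finset.sum_congr rfl
      intro i _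
      rw [Algebra.smul_def, mul_comm]
    exact (linearIndependent_iff'.mp b.linearIndependent) I _ h7 i hi
  rw [h1]
  apply Finset.dvd_sum
  intro i hi
  obtain ⟨c, hc⟩ := hg _ (h5 i hi)
  rw [hc, map_mul]
  exact Dvd.intro (C (b i) * map (algebraMap F L) c) (by ring)

/-- divisibility descends along field extensions -/
theorem dvd_descend {F L : Type u} [Field F] [Field L] [Algebra F L] {τ : Type} [Fintype τ]
    (A B : MvPolynomial τ F)
    (h : map (algebraMap F L) A ∣ map (algebraMap F L) B) : A ∣ B := by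
  classical
  obtain ⟨π, hπ⟩ := LinearMap.exists_leftInverse_of_injective (Algebra.linearMap F L)
    (LinearMap.ker_eq_bot.mpr (algebraMap F L).injective)
  obtain ⟨c, hc⟩ := h
  let prj : MvPolynomial τ L → MvPolynomial τ F := fun P =>
    ∑ s ∈ P.support, monomial s (π (coeff s P))
  have hcoef : ∀ P s, coeff s (prj P) = π (coeff s P) := by
    intro P s
    simp only [prj]
    rw [MvPolynomial.coeff_sum]
    simp only [coeff_monomial]
    rw [Finset.sum_ite_eq' P.support s]
    split_ifs with hs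
    · rfl
    · rw [notMem_support_iff] at hs
      rw [hs, map_zero]
  have h1 : B = prj (map (algebraMap F L) B) := by
    ext s
    rw [hcoef, coeff_map]
    have := LinearMap.congr_fun hπ (coeff s B)
    simpa using this.symm
  have h2 : prj (map (algebraMap F L) A * c) = A * prj c := by
    ext s
    rw [hcoef, coeff_mul, coeff_mul, map_sum]
    apply Finset.sum_congr rfl
    intro x _
    rw [coeff_map, hcoef, ← Algebra.smul_def, map_smul, smul_eq_mul]
  exact ⟨prj c, by rw [h1, hc, h2]⟩

end MPcfca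
end

section
/-! MP_cfca38_ag: HD, part 1: smooth points, the first move is generic, the equation g. -/
set_option autoImplicit false
set_option linter.unusedSimpArgs false

namespace MPcfca

namespace HDM

open MvPolynomial

universe u v

variable {K : Type u} [Field K] {n : ℕ}

abbrev P1 (n : ℕ) (K : Type u) [Field K] : Type u := MvPolynomial (Fin n) K
abbrev P2 (n : ℕ) (K : Type u) [Field K] : Type u := MvPolynomial (Fin n ⊕ Fin n) K

noncomputable def xa (j : Fin n) : P2 n K := X (Sum.inl j)
noncomputable def xu (j : Fin n) : P2 n K := X (Sum.inr j)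

section pts
variable (Q : P1 n K) {A : Type v} [CommRing A] [Algebra K A] (a u : Fin n → A)

noncomputable def Dp : P2 n K := DD (Qc Q xa xu)
noncomputable def Tp : P2 n K := TT (Qc Q xa xu)
noncomputable def Sp : P2 n K := SS (Qc Q xa xu)
noncomputable def Qa : P2 n K := aeval xa Q
noncomputable def am (j : Fin n) : P2 n K := mv Q xa xu j

theorem pt_xa (j : Fin n) : aeval (Sum.elim a u) (xa j : P2 n K) = a j := by
  simp [xa]
theorem pt_xu (j : Fin n) : aeval (Sum.elim a u) (xu j : P2 n K) = u j := by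
  simp [xu]
end pts

section pts2
variable (Q : P1 n K) {A : Type u} [CommRing A] [Algebra K A] (a u : Fin n → A)

theorem pt_Qc (i : ℕ) : aeval (Sum.elim a u) (Qc Q xa xu i : P2 n K) = Qc Q a u i := by
  rw [Qc_map]
  simp only [pt_xa, pt_xu]

theorem pt_Dp : aeval (Sum.elim a u) (Dp Q) = DD (Qc Q a u) := by
  unfold Dp
  have h := DD_map ((aeval (Sum.elim a u) : P2 n K →ₐ[K] A) : P2 n K →+* A) (Qc Q xa xu)
  have h2 := h
  simp only [RingHom.coe_coe, pt_Qc] at h2
  exact h2

theorem pt_Tp : aeval (Sum.elim a u) (Tp Q) = TT (Qc Q a u) := by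
  unfold Tp
  have h := TT_map ((aeval (Sum.elim a u) : P2 n K →ₐ[K] A) : P2 n K →+* A) (Qc Q xa xu)
  simp only [RingHom.coe_coe, pt_Qc] at h
  exact h

theorem pt_Sp : aeval (Sum.elim a u) (Sp Q) = SS (Qc Q a u) := by
  unfold Sp
  have h := SS_map ((aeval (Sum.elim a u) : P2 n K →ₐ[K] A) : P2 n K →+* A) (Qc Q xa xu)
  simp only [RingHom.coe_coe, pt_Qc] at h
  exact h

theorem pt_Qa : aeval (Sum.elim a u) (Qa Q) = aeval a Q := by
  unfold Qa
  have h : ((aeval (Sum.elim a u)).comp (aeval xa) : P1 n K →ₐ[K] A) = aeval a := by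
    apply MvPolynomial.algHom_ext
    intro i
    simp [xa]
  rw [← h]
  rfl

theorem pt_am (j : Fin n) : aeval (Sum.elim a u) (am Q j) = mv Q a u j := by
  unfold am
  rw [mv_map]
  simp only [pt_xa, pt_xu]

end pts2

/-- the hypotheses on the quartic -/
structure HQ (p : ℕ) (Q Q1 Q2 : P1 n K) (j : ℕ) : Prop where
  five : 5 ≤ p
  chr : CharP K p
  hQ : Q.IsHomogeneous 4
  fac : Q = Q1 * Q2
  irr : Irreducible Q1
  h1 : Q1.IsHomogeneous j
  hj : 2 ≤ j
  ndv : ¬ Q1 ∣ Q2

section hq
variable {p j : ℕ} {Q Q1 Q2 : P1 n K} (H : HQ p Q Q1 Q2 j)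
include H

theorem Q_ne : Q ≠ 0 := by
  intro h
  have h2 := H.fac
  rw [h] at h2
  rcases mul_eq_zero.mp h2.symm with h3 | h3
  · exact H.irr.ne_zero h3
  · exact H.ndv (h3 ▸ dvd_zero Q1)

theorem Q2_ne : Q2 ≠ 0 := by
  intro h
  exact H.ndv (h ▸ dvd_zero Q1)

theorem j_le : j ≤ 4 := by
  have h1 := H.h1.totalDegree H.irr.ne_zero
  have h2 := H.hQ.totalDegree (Q_ne H)
  rw [H.fac, totalDegree_mul_of_isDomain H.irr.ne_zero (Q2_ne H)] at h2
  omega

theorem cast_ne (m : ℕ) (hm : 0 < m) (hm5 : m < 5) : (m : K) ≠ 0 := by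
  have := H.chr
  intro h
  have h2 := (CharP.cast_eq_zero_iff K p m).mp h
  have h3 := Nat.le_of_dvd hm h2
  have := H.five
  omega

theorem prime1 : Prime Q1 := H.irr.prime

theorem pd_zero_of_dvd (i : Fin n) (h : Q1 ∣ pderiv i Q1) : pderiv i Q1 = 0 := by
  by_contra hne
  obtain ⟨c, hc⟩ := h
  have hc0 : c ≠ 0 := by
    rintro rfl
    exact hne (by rw [hc, mul_zero])
  have h1 : (pderiv i Q1).totalDegree = Q1.totalDegree + c.totalDegree := by
    rw [hc, totalDegree_mul_of_isDomain H.irr.ne_zero hc0]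
  have h2 : (pderiv i Q1).IsHomogeneous (j - 1) := H.h1.pderiv
  have h3 := h2.totalDegree hne
  have h4 := H.h1.totalDegree H.irr.ne_zero
  have := H.hj
  omega

/-- linear combinations of partial derivatives -/
theorem lin_zero_of_dvd (y : Fin n → K) (h : Q1 ∣ ∑ i, C (y i) * pderiv i Q1) :
    ∑ i, C (y i) * pderiv i Q1 = 0 := by
  by_contra hne
  obtain ⟨c, hc⟩ := h
  have hc0 : c ≠ 0 := by
    rintro rfl
    exact hne (by rw [hc, mul_zero])
  have h1 : (∑ i, C (y i) * pderiv i Q1).totalDegree = Q1.totalDegree + c.totalDegree := by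
    rw [hc, totalDegree_mul_of_isDomain H.irr.ne_zero hc0]
  have h2 : (∑ i, C (y i) * pderiv i Q1).IsHomogeneous (j - 1) := by
    apply IsHomogeneous.sum
    intro i _
    exact H.h1.pderiv.C_mul _
  have h3 := h2.totalDegree hne
  have h4 := H.h1.totalDegree H.irr.ne_zero
  have := H.hj
  omega

theorem dvd_of_dvd_pd (y : Fin n → K) (h : Q1 ∣ ∑ i, C (y i) * pderiv i Q) :
    Q1 ∣ ∑ i, C (y i) * pderiv i Q1 := by
  have h1 : ∑ i, C (y i) * pderiv i Q = (∑ i, C (y i) * pderiv i Q1) * Q2 +
      Q1 * ∑ i, C (y i) * pderiv i Q2 := by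
    rw [H.fac, Finset.sum_mul, Finset.mul_sum, ← Finset.sum_add_distrib]
    apply Finset.sum_congr rfl
    intro i _
    rw [pderiv_mul]
    ring
  rw [h1] at h
  have h2 : Q1 ∣ (∑ i, C (y i) * pderiv i Q1) * Q2 :=
    (dvd_add_left (Dvd.intro _ rfl)).mp h
  exact ((prime1 H).dvd_or_dvd h2).resolve_right H.ndv

/-- some partial derivative of `Q` is not divisible by `Q1` -/
theorem exists_pd : ∃ i, ¬ Q1 ∣ pderiv i Q := by
  by_contra hcon
  push Not at hcon
  have h1 : ∀ i, pderiv i Q1 = 0 := by
    intro i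
    have h2 : Q1 ∣ ∑ l, C ((Pi.single i 1 : Fin n → K) l) * pderiv l Q := by
      rw [Finset.sum_eq_single i]
      · simpa using hcon i
      · intro l _ hl
        simp [Pi.single_apply, hl]
      · intro h
        exact absurd (Finset.mem_univ i) h
    have h3 := lin_zero_of_dvd H _ (dvd_of_dvd_pd H _ h2)
    rw [Finset.sum_eq_single i] at h3
    · simpa using h3
    · intro l _ hl
      simp [Pi.single_apply, hl]
    · intro h
      exact absurd (Finset.mem_univ i) h
  have h2 := H.h1.sum_X_mul_pderiv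
  simp only [h1, mul_zero, Finset.sum_const_zero] at h2
  have h3 := cast_ne H j (by have := H.hj; omega) (by have := j_le H; omega)
  rw [eq_comm, nsmul_eq_mul] at h2
  rcases mul_eq_zero.mp h2 with h4 | h4
  · apply h3
    have h5 : (C (j : K) : P1 n K) = 0 := by
      rw [← h4]
      simp
    exact C_injective _ _ (by rw [h5, C_0])
  · exact H.irr.ne_zero h4

end hq

section root
variable (Q : P1 n K) (b u : Fin n → K)

/-- the differential of `Q` at `b` in the direction `u` -/
noncomputable def hb : K := ∑ i, eval b (pderiv i Q) * u i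

theorem Qc_one_K : Qc Q b u 1 = hb Q b u := by
  rw [Qc_one]
  unfold hb
  apply Finset.sum_congr rfl
  intro i _
  rw [aeval_eq_eval]

variable {Q b}

theorem c0_root (hQ : eval b Q = 0) : Qc Q b u 0 = 0 := by
  rw [Qc_zero', aeval_eq_eval, hQ]

theorem DD_b (hQ : eval b Q = 0) : DD (Qc Q b u) = hb Q b u ^ 4 := by
  rw [DD_root _ (c0_root u hQ), Qc_one_K]

theorem TT_b (hQ : eval b Q = 0) : TT (Qc Q b u) = hb Q b u ^ 3 := by
  rw [TT_root _ (c0_root u hQ), Qc_one_K]

theorem SS_b (hQ : eval b Q = 0) : SS (Qc Q b u) = - 3 * hb Q b u ^ 8 := by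
  rw [SS_root _ (c0_root u hQ), Qc_one_K]

theorem mv_b (hQ4 : Q.IsHomogeneous 4) (hQ : eval b Q = 0) (j : Fin n) :
    mv Q b u j = hb Q b u ^ 4 * b j := by
  rw [mv_root hQ4 b u (by rw [aeval_eq_eval, hQ]), Qc_one_K]

theorem hb_single [DecidableEq (Fin n)] (i : Fin n) :
    hb Q b (Pi.single i 1) = eval b (pderiv i Q) := by
  unfold hb
  rw [Finset.sum_eq_single i]
  · simp
  · intro l _ hl
    simp [Pi.single_apply, hl]
  · intro h
    exact absurd (Finset.mem_univ i) h

end root

section hq2
variable {p j : ℕ} {Q Q1 Q2 : P1 n K} [IsAlgClosed K] (H : HQ p Q Q1 Q2 j)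
include H

omit [IsAlgClosed K] in
theorem Q_of_Q1 (b : Fin n → K) (h : eval b Q1 = 0) : eval b Q = 0 := by
  rw [H.fac, map_mul, h, zero_mul]

theorem exists_smooth (R : P1 n K) (hR : ¬ Q1 ∣ R) :
    ∃ (b : Fin n → K) (i : Fin n), eval b Q1 = 0 ∧ eval b (pderiv i Q) ≠ 0 ∧ eval b R ≠ 0 := by
  obtain ⟨i, hi⟩ := exists_pd H
  have h : ¬ Q1 ∣ pderiv i Q * R := fun h => ((prime1 H).dvd_or_dvd h).elim hi hR
  obtain ⟨b, hb1, hb2⟩ := ns _ _ (prime1 H) h
  rw [map_mul] at hb2
  exact ⟨b, i, hb1, left_ne_zero_of_mul hb2, right_ne_zero_of_mul hb2⟩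

theorem exists_smooth' : ∃ (b u : Fin n → K), eval b Q = 0 ∧ hb Q b u ≠ 0 := by
  obtain ⟨b, i, h1, h2, _⟩ := exists_smooth H 1 (fun h => H.irr.not_isUnit (isUnit_of_dvd_one h))
  refine ⟨b, Pi.single i 1, Q_of_Q1 H b h1, ?_⟩
  rw [hb_single]
  exact h2

theorem Tp_ne : Tp Q ≠ 0 := by
  intro h
  obtain ⟨b, u, h1, h2⟩ := exists_smooth' H
  have h3 := pt_Tp Q b u
  rw [h, map_zero, TT_b u h1] at h3
  exact h2 (eq_zero_of_pow_eq_zero h3.symm)

theorem Dp_ne : Dp Q ≠ 0 := by
  intro h
  obtain ⟨b, u, h1, h2⟩ := exists_smooth' H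
  have h3 := pt_Dp Q b u
  rw [h, map_zero, DD_b u h1] at h3
  exact h2 (eq_zero_of_pow_eq_zero h3.symm)

theorem Sp_ne : Sp Q ≠ 0 := by
  intro h
  obtain ⟨b, u, h1, h2⟩ := exists_smooth' H
  have h3 := pt_Sp Q b u
  rw [h, map_zero, SS_b u h1] at h3
  have h4 := cast_ne H 3 (by norm_num) (by norm_num)
  rcases mul_eq_zero.mp h3.symm with h5 | h5
  · apply h4
    rw [neg_eq_zero] at h5
    exact_mod_cast h5
  · exact h2 (eq_zero_of_pow_eq_zero h5)

omit [IsAlgClosed K] in
theorem Qa_ne : Qa Q ≠ 0 := by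
  intro h
  have h1 : Qa Q = rename Sum.inl Q := by
    unfold Qa
    have h2 : (aeval xa : P1 n K →ₐ[K] P2 n K) = rename Sum.inl := by
      apply MvPolynomial.algHom_ext
      intro i
      simp [xa]
    rw [h2]
  rw [h1] at h
  exact Q_ne H ((rename_injective Sum.inl Sum.inl_injective) (by rw [h, map_zero]))

/-- the scaling of the second vector -/
noncomputable def scU : P2 n K →ₐ[K] Polynomial (P2 n K) :=
  aeval (Sum.elim (fun i => Polynomial.C (xa i)) (fun i => Polynomial.X * Polynomial.C (xu i)))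

omit [IsAlgClosed K] in
theorem scU_am (i : Fin n) : scU (am Q i) = Polynomial.X ^ 4 * Polynomial.C (am Q i) := by
  unfold scU
  rw [pt_am]
  have h1 := mv_dir H.hQ (fun i => (Polynomial.C (xa i) : Polynomial (P2 n K)))
    (fun i => Polynomial.C (xu i)) Polynomial.X 0 i
  have h2 : (fun j => Polynomial.X * Polynomial.C (xu j) + 0 * Polynomial.C (xa j)) =
      fun i => (Polynomial.X * Polynomial.C (xu i) : Polynomial (P2 n K)) := by
    funext j
    ring
  rw [h2] at h1
  have h3 : (Polynomial.C (am Q i) : Polynomial (P2 n K)) =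
      mv Q (fun i => Polynomial.C (xa i)) (fun i => Polynomial.C (xu i)) i :=
    mv_map (Polynomial.CAlgHom (R := K) (A := P2 n K)) Q xa xu i
  rw [h1, h3]

/-- (b): the first move is generic -/
theorem psi_hom (d : ℕ) : ∀ B : P1 n K, B.IsHomogeneous d → aeval (am Q) B = 0 → B = 0 := by
  induction d using Nat.strong_induction_on with
  | _ d ih =>
  intro B hB hker
  by_contra hB0
  have hdvd : Q1 ∣ B := by
    by_contra hn
    obtain ⟨b, i, h1, h2, h3⟩ := exists_smooth H B hn
    have hbQ := Q_of_Q1 H b h1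
    have h4 := congrArg (aeval (Sum.elim b (Pi.single i 1 : Fin n → K))) hker
    rw [map_zero, ← AlgHom.comp_apply, comp_aeval] at h4
    simp only [pt_am] at h4
    have h5 : (fun l => mv Q b (Pi.single i 1 : Fin n → K) l) =
        fun l => (eval b (pderiv i Q)) ^ 4 * b l := by
      funext l
      rw [mv_b _ H.hQ hbQ, hb_single]
    rw [h5, hom_smul hB, aeval_eq_eval] at h4
    exact (mul_ne_zero (pow_ne_zero _ (pow_ne_zero _ h2)) h3) h4
  obtain ⟨B', hB'⟩ := hdvd
  have hB'0 : B' ≠ 0 := by
    rintro rfl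
    exact hB0 (by rw [hB', mul_zero])
  have hQ1 : aeval (am Q) Q1 ≠ 0 := by
    intro h
    have h1 : aeval (am Q) Q = 0 := by
      have h0 : aeval (am Q) Q = aeval (am Q) Q1 * aeval (am Q) Q2 := by
        rw [← map_mul]
        exact congrArg _ H.fac
      rw [h0, h, zero_mul]
    have h2 : aeval (am Q) Q = Qa Q * Sp Q ^ 2 := by
      have := Q_mv H.hQ (xa : Fin n → P2 n K) xu
      exact this
    rw [h2] at h1
    rcases mul_eq_zero.mp h1 with h3 | h3
    · exact Qa_ne H h3
    · exact Sp_ne H (eq_zero_of_pow_eq_zero h3)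
  have hker' : aeval (am Q) B' = 0 := by
    rw [hB', map_mul] at hker
    exact (mul_eq_zero.mp hker).resolve_left hQ1
  have hdeg : B.totalDegree = Q1.totalDegree + B'.totalDegree := by
    rw [hB', totalDegree_mul_of_isDomain H.irr.ne_zero hB'0]
  have hd1 := hB.totalDegree hB0
  have hd2 := H.h1.totalDegree H.irr.ne_zero
  have hj := H.hj
  have hall : ∀ i, homogeneousComponent i B' = 0 := by
    intro i
    by_cases hi : i < d
    · exact ih i hi _ (homogeneousComponent_isHomogeneous i B')
        (homc (am Q) 4 (by norm_num) scU (scU_am H) B' hker' i)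
    · apply homogeneousComponent_eq_zero
      omega
  apply hB'0
  rw [← sum_homogeneousComponent B']
  exact Finset.sum_eq_zero (fun i _ => hall i)

theorem psi_inj : Function.Injective (aeval (am Q) : P1 n K →ₐ[K] P2 n K) := by
  rw [injective_iff_map_eq_zero]
  intro B hB
  have h1 : ∀ i, homogeneousComponent i B = 0 := fun i =>
    psi_hom H i _ (homogeneousComponent_isHomogeneous i B)
      (homc (am Q) 4 (by norm_num) scU (scU_am H) B hB i)
  rw [← sum_homogeneousComponent B]
  exact Finset.sum_eq_zero (fun i _ => h1 i)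

end hq2

end HDM

end MPcfca
end

section
/-! MP_cfca38_ag: HD, part 2: the equation g of the first move. -/
set_option autoImplicit false
set_option linter.unusedSimpArgs false

namespace MPcfca

namespace HDM

open MvPolynomial

universe u v

variable {K : Type u} [Field K] {n : ℕ} (Q : P1 n K)

/-- `(a, u) ↦ (a, M(a, u))` -/
noncomputable def th : P2 n K →ₐ[K] P2 n K := aeval (Sum.elim xa (am Q))

/-- `(a, u) ↦ (a, T M(a, u))` -/
noncomputable def TH : P2 n K →ₐ[K] Polynomial (P2 n K) :=
  aeval (Sum.elim (fun i => Polynomial.C (xa i)) (fun i => Polynomial.X * Polynomial.C (am Q i)))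

/-- `(a, u) ↦ (a, u + T a)` -/
noncomputable def ta : P2 n K →ₐ[K] Polynomial (P2 n K) :=
  aeval (Sum.elim (fun i => Polynomial.C (xa i))
    (fun i => Polynomial.C (xu i) + Polynomial.X * Polynomial.C (xa i)))

/-- the extension of an algebra homomorphism to polynomials, `T ↦ c` -/
noncomputable def ex {R : Type u} [CommRing R] [Algebra K R] {A : Type u} [CommRing A]
    [Algebra K A] (π : R →ₐ[K] A) (c : A) : Polynomial R →ₐ[K] A :=
  { Polynomial.eval₂RingHom (π : R →+* A) c with
    commutes' := fun r => by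
      show Polynomial.eval₂ (π : R →+* A) c (algebraMap K (Polynomial R) r) = _
      rw [Polynomial.algebraMap_apply, Polynomial.eval₂_C]
      exact π.commutes r }

section
variable {R : Type u} [CommRing R] [Algebra K R] {A : Type u} [CommRing A]
    [Algebra K A] (π : R →ₐ[K] A) (c : A)

theorem ex_C (r : R) : ex π c (Polynomial.C r) = π r :=
  Polynomial.eval₂_C (π : R →+* A) c

theorem ex_X : ex π c Polynomial.X = c :=
  Polynomial.eval₂_X (π : R →+* A) c

end

theorem am_eq (i : Fin n) : am Q i = Dp Q * xa i + 8 * Qa Q * Tp Q * xu i := by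
  unfold am mv Dp Tp Qa
  rw [Qc_zero']

theorem th_xa (i : Fin n) : th Q (xa i) = xa i := by
  unfold th
  rw [pt_xa]

theorem th_xu (i : Fin n) : th Q (xu i) = am Q i := by
  unfold th
  rw [pt_xu]

theorem th_Qa : th Q (Qa Q) = Qa Q := by
  unfold th
  rw [pt_Qa]
  rfl

section
variable {Q}
variable {p j : ℕ} {Q1 Q2 : P1 n K} (H : HQ p Q Q1 Q2 j)
include H

theorem th_Dp : th Q (Dp Q) = 0 := by
  unfold th
  rw [pt_Dp]
  exact DD_mv H.hQ xa xu

theorem th_Tp : th Q (Tp Q) = (8 * Qa Q * Tp Q) ^ 3 * Tp Q := by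
  unfold th
  rw [pt_Tp]
  have h := TT_mv H.hQ (xa : Fin n → P2 n K) xu
  rw [Qc_zero'] at h
  exact h

theorem th_imp_TH (B : P2 n K) (hB : th Q B = 0) : TH Q B = 0 := by
  have h1 : ((scU : P2 n K →ₐ[K] Polynomial (P2 n K)).comp (th Q)) =
      ((Polynomial.expand (P2 n K) 4).restrictScalars K).comp (TH Q) := by
    apply MvPolynomial.algHom_ext
    intro i
    rcases i with i | i
    · have e : (X (Sum.inl i) : P2 n K) = xa i := rfl
      rw [AlgHom.comp_apply, AlgHom.comp_apply, e, th_xa]
      unfold scU TH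
      rw [pt_xa, pt_xa]
      simp
    · have e : (X (Sum.inr i) : P2 n K) = xu i := rfl
      rw [AlgHom.comp_apply, AlgHom.comp_apply, e, th_xu, scU_am H]
      unfold TH
      rw [pt_xu]
      simp
  have h2 := congrArg (fun φ : P2 n K →ₐ[K] Polynomial (P2 n K) => φ B) h1
  simp only [AlgHom.comp_apply, hB, map_zero, AlgHom.coe_restrictScalars'] at h2
  have h3 := Polynomial.expand_injective (R := P2 n K) (show 0 < 4 by norm_num)
  exact h3 (by rw [← h2, map_zero])

variable [IsAlgClosed K]

omit [IsAlgClosed K] in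
theorem eight_ne : (8 : P2 n K) ≠ 0 := by
  have h2 := cast_ne H 2 (by norm_num) (by norm_num)
  have h3 : (C ((2 : ℕ) : K) : P2 n K) ≠ 0 := by
    rw [Ne, C_eq_zero]
    exact h2
  have h4 : (8 : P2 n K) = (C ((2 : ℕ) : K)) ^ 3 := by
    rw [map_natCast]
    norm_num
  rw [h4]
  exact pow_ne_zero 3 h3

theorem qt_ne : 8 * Qa Q * Tp Q ≠ 0 :=
  mul_ne_zero (mul_ne_zero (eight_ne H) (Qa_ne H)) (Tp_ne H)

theorem th_qt_ne : th Q (8 * Qa Q * Tp Q) ≠ 0 := by
  rw [map_mul, map_mul, th_Qa, th_Tp H, map_ofNat]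
  exact mul_ne_zero (mul_ne_zero (eight_ne H) (Qa_ne H))
    (mul_ne_zero (pow_ne_zero 3 (qt_ne H)) (Tp_ne H))

theorem gen' (g : P2 n K) (hg : Prime g) (hgD : g ∣ Dp Q) (hgt : th Q g = 0) (B : P2 n K)
    (hB : th Q B = 0) : g ∣ B := by
  have hTH := th_imp_TH H B hB
  have hI : (Ideal.span {g}).IsPrime := (Ideal.span_singleton_prime hg.ne_zero).mpr hg
  let S := P2 n K ⧸ Ideal.span {g}
  let L := FractionRing S
  let π : P2 n K →ₐ[K] L := (IsScalarTower.toAlgHom K S L).comp (Ideal.Quotient.mkₐ K _)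
  have hker : ∀ x, π x = 0 → g ∣ x := by
    intro x hx
    have h1 : algebraMap S L (Ideal.Quotient.mk _ x) = 0 := hx
    have h2 := (IsFractionRing.injective S L) (by rw [h1, map_zero] :
      algebraMap S L (Ideal.Quotient.mk _ x) = algebraMap S L 0)
    rw [Ideal.Quotient.eq_zero_iff_mem, Ideal.mem_span_singleton] at h2
    exact h2
  have hD : π (Dp Q) = 0 := by
    show algebraMap S L (Ideal.Quotient.mk _ (Dp Q)) = 0
    rw [Ideal.Quotient.eq_zero_iff_mem.mpr (Ideal.mem_span_singleton.mpr hgD), map_zero]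
  have hqt : π (8 * Qa Q * Tp Q) ≠ 0 := by
    intro h
    obtain ⟨c, hc⟩ := hker _ h
    apply th_qt_ne H
    rw [hc, map_mul, hgt, zero_mul]
  let E : Polynomial (P2 n K) →ₐ[K] L := ex π ((π (8 * Qa Q * Tp Q))⁻¹)
  have hE : E.comp (TH Q) = π := by
    apply MvPolynomial.algHom_ext
    intro i
    rcases i with i | i
    · have e : (X (Sum.inl i) : P2 n K) = xa i := rfl
      rw [AlgHom.comp_apply, e]
      unfold TH
      rw [pt_xa]
      exact ex_C _ _ _
    · have e : (X (Sum.inr i) : P2 n K) = xu i := rfl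
      rw [AlgHom.comp_apply, e]
      unfold TH
      rw [pt_xu, map_mul]
      simp only [E, ex_C, ex_X]
      rw [am_eq, map_add π, map_mul π (Dp Q), hD, zero_mul, zero_add, map_mul π _ (xu i),
        ← mul_assoc, inv_mul_cancel₀ hqt, one_mul]
  apply hker
  rw [← hE, AlgHom.comp_apply, hTH, map_zero]

omit [IsAlgClosed K] in
theorem ta_Dp : ta (Dp Q) = Polynomial.C (Dp Q) -
    Polynomial.X * Polynomial.C (8 * Qa Q * Tp Q) := by
  unfold ta
  rw [pt_Dp]
  have h1 := DD_dir H.hQ (fun i => (Polynomial.C (xa i) : Polynomial (P2 n K)))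
    (fun i => Polynomial.C (xu i)) 1 Polynomial.X
  have h2 : (fun j => 1 * Polynomial.C (xu j) + Polynomial.X * Polynomial.C (xa j)) =
      fun i => (Polynomial.C (xu i) + Polynomial.X * Polynomial.C (xa i) :
        Polynomial (P2 n K)) := by
    funext j
    ring
  rw [h2] at h1
  have h3 : ∀ i, Qc Q (fun i => (Polynomial.C (xa i) : Polynomial (P2 n K)))
      (fun i => Polynomial.C (xu i)) i = Polynomial.C (Qc Q xa xu i) := fun i =>
    (Qc_map (Polynomial.CAlgHom (R := K) (A := P2 n K)) Q xa xu i).symm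
  have h4 : DD (Qc Q (fun i => (Polynomial.C (xa i) : Polynomial (P2 n K)))
      (fun i => Polynomial.C (xu i))) = Polynomial.C (Dp Q) := by
    unfold Dp
    rw [DD_map]
    congr 1
    funext i
    exact h3 i
  have h5 : TT (Qc Q (fun i => (Polynomial.C (xa i) : Polynomial (P2 n K)))
      (fun i => Polynomial.C (xu i))) = Polynomial.C (Tp Q) := by
    unfold Tp
    rw [TT_map]
    congr 1
    funext i
    exact h3 i
  have h6 : (Polynomial.C (Qc Q xa xu 0) : Polynomial (P2 n K)) = Polynomial.C (Qa Q) := by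
    rw [Qc_zero']
    rfl
  rw [h1, h4, h5, h3, h6]
  simp only [map_mul, map_ofNat]
  ring

omit [IsAlgClosed K] H in
theorem ta_eval (B : P2 n K) : (ta B).eval 0 = B := by
  have h1 : ((Polynomial.aeval (R := P2 n K) (0 : P2 n K)).restrictScalars K).comp ta =
      AlgHom.id K (P2 n K) := by
    apply MvPolynomial.algHom_ext
    intro i
    rcases i with i | i
    · have e : (X (Sum.inl i) : P2 n K) = xa i := rfl
      rw [AlgHom.comp_apply, e]
      unfold ta
      rw [pt_xa]
      simp
    · have e : (X (Sum.inr i) : P2 n K) = xu i := rfl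
      rw [AlgHom.comp_apply, e]
      unfold ta
      rw [pt_xu]
      simp
  have h2 := congrArg (fun φ : P2 n K →ₐ[K] P2 n K => φ B) h1
  simp only [AlgHom.comp_apply, AlgHom.coe_restrictScalars', AlgHom.coe_id, id_eq] at h2
  rw [Polynomial.coe_aeval_eq_eval] at h2
  exact h2

omit [IsAlgClosed K] H in
/-- an invariant polynomial takes the same value after adding a multiple of the base point -/
theorem inv_eval (B : P2 n K) (hB : ta B = Polynomial.C B) {A : Type u} [CommRing A]
    [Algebra K A] (a u : Fin n → A) (t : A) :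
    aeval (Sum.elim a (fun i => u i + t * a i)) B = aeval (Sum.elim a u) B := by
  have h1 : aeval (Sum.elim a (fun i => u i + t * a i)) =
      (ex (aeval (Sum.elim a u) : P2 n K →ₐ[K] A) t).comp ta := by
    apply MvPolynomial.algHom_ext
    intro i
    rcases i with i | i
    · have e : (X (Sum.inl i) : P2 n K) = xa i := rfl
      rw [AlgHom.comp_apply, e, pt_xa]
      unfold ta
      rw [pt_xa, ex_C, pt_xa]
    · have e : (X (Sum.inr i) : P2 n K) = xu i := rfl
      rw [AlgHom.comp_apply, e, pt_xu]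
      unfold ta
      rw [pt_xu, map_add, map_mul, ex_C, ex_C, ex_X, pt_xa, pt_xu]
  rw [h1, AlgHom.comp_apply, hB, ex_C]

theorem not_inv (g : P2 n K) (hg : g ≠ 0) (hgt : th Q g = 0) :
    ta g ≠ Polynomial.C g := by
  intro hinv
  have hTH := th_imp_TH H g hgt
  let L := FractionRing (P2 n K)
  let π : P2 n K →ₐ[K] L := IsScalarTower.toAlgHom K (P2 n K) L
  have hπ : Function.Injective π := IsFractionRing.injective (P2 n K) L
  have hqt : π (8 * Qa Q * Tp Q) ≠ 0 := by
    intro h
    exact qt_ne H (hπ (by rw [h, map_zero]))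
  let c : L := (π (8 * Qa Q * Tp Q))⁻¹
  let E : Polynomial (P2 n K) →ₐ[K] L := ex π c
  have h1 : E (TH Q g) = aeval (Sum.elim (fun i => π (xa i)) (fun i => c * π (am Q i))) g := by
    have h2 : E.comp (TH Q) = aeval (Sum.elim (fun i => π (xa i)) (fun i => c * π (am Q i))) := by
      apply MvPolynomial.algHom_ext
      intro i
      rcases i with i | i
      · have e : (X (Sum.inl i) : P2 n K) = xa i := rfl
        rw [AlgHom.comp_apply, e, pt_xa]
        unfold TH
        rw [pt_xa]
        exact ex_C _ _ _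
      · have e : (X (Sum.inr i) : P2 n K) = xu i := rfl
        rw [AlgHom.comp_apply, e, pt_xu]
        unfold TH
        rw [pt_xu, map_mul]
        simp only [E, ex_C, ex_X]
    rw [← h2]
    rfl
  have h3 : (fun i => c * π (am Q i)) = fun i => π (xu i) + (c * π (Dp Q)) * π (xa i) := by
    funext i
    rw [am_eq, map_add, map_mul, map_mul _ (8 * Qa Q * Tp Q), mul_add, ← mul_assoc, ← mul_assoc,
      inv_mul_cancel₀ hqt, one_mul]
    ring
  rw [h3, inv_eval g hinv, hTH, map_zero] at h1
  have h4 : (aeval (Sum.elim (fun i => π (xa i)) (fun i => π (xu i))) : P2 n K →ₐ[K] L) = π := by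
    apply MvPolynomial.algHom_ext
    intro i
    rcases i with i | i
    · have e : (X (Sum.inl i) : P2 n K) = xa i := rfl
      rw [e, pt_xa]
    · have e : (X (Sum.inr i) : P2 n K) = xu i := rfl
      rw [e, pt_xu]
  rw [h4] at h1
  exact hg (hπ (by rw [← h1, map_zero]))

/-- (c) the equation of the first move -/
theorem exists_g : ∃ g c : P2 n K, Prime g ∧ Dp Q = g * c ∧ th Q g = 0 ∧
    (∀ B, th Q B = 0 → g ∣ B) ∧ ta c = Polynomial.C c := by
  obtain ⟨g, hg, hgD, hgt⟩ := exists_factor (RingHom.ker (th Q).toRingHom)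
    (RingHom.ker_isPrime _) (Dp Q) (by
      rw [RingHom.mem_ker]
      exact th_Dp H) (Dp_ne H)
  rw [RingHom.mem_ker] at hgt
  have hgt' : th Q g = 0 := hgt
  obtain ⟨c, hc⟩ := hgD
  refine ⟨g, c, hg, hc, hgt', fun B hB => gen' H g hg ⟨c, hc⟩ hgt' B hB, ?_⟩
  have hc0 : c ≠ 0 := by
    rintro rfl
    exact Dp_ne H (by rw [hc, mul_zero])
  have h1 := ta_Dp H
  have h1' : ta (Dp Q) = ta g * ta c := by
    rw [← map_mul, ← hc]
  have hdeg : (ta (Dp Q)).natDegree = 1 := by
    rw [h1, show (Polynomial.C (Dp Q) - Polynomial.X * Polynomial.C (8 * Qa Q * Tp Q) :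
      Polynomial (P2 n K)) = Polynomial.C (-(8 * Qa Q * Tp Q)) * Polynomial.X +
        Polynomial.C (Dp Q) by rw [map_neg]; ring]
    exact Polynomial.natDegree_linear (neg_ne_zero.mpr (qt_ne H))
  have hg0 : ta g ≠ 0 := by
    intro h
    have := ta_eval g
    rw [h, Polynomial.eval_zero] at this
    exact hg.ne_zero this.symm
  have hc0' : ta c ≠ 0 := by
    intro h
    have := ta_eval c
    rw [h, Polynomial.eval_zero] at this
    exact hc0 this.symm
  rw [h1', Polynomial.natDegree_mul hg0 hc0'] at hdeg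
  have h2 : (ta g).natDegree ≠ 0 := by
    intro h
    apply not_inv H g hg.ne_zero hgt'
    have h3 := Polynomial.eq_C_of_natDegree_eq_zero h
    have h4 := ta_eval g
    rw [h3, Polynomial.eval_C] at h4
    rw [h3, h4]
  have h3 : (ta c).natDegree = 0 := by omega
  have h4 := Polynomial.eq_C_of_natDegree_eq_zero h3
  have h5 := ta_eval c
  rw [h4, Polynomial.eval_C] at h5
  rw [h4, h5]

omit [IsAlgClosed K] in
/-- the equation `g` vanishes at `u = 0` -/
theorem g_zero (g : P2 n K) (hgt : th Q g = 0) {A : Type u} [CommRing A] [Algebra K A]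
    (a : Fin n → A) : aeval (Sum.elim a (fun _ => (0 : A))) g = 0 := by
  have hTH := th_imp_TH H g hgt
  have h1 : aeval (Sum.elim a (fun _ => (0 : A))) =
      (ex (aeval (Sum.elim a (fun _ => (0 : A))) : P2 n K →ₐ[K] A) 0).comp (TH Q) := by
    apply MvPolynomial.algHom_ext
    intro i
    rcases i with i | i
    · have e : (X (Sum.inl i) : P2 n K) = xa i := rfl
      rw [AlgHom.comp_apply, e]
      unfold TH
      rw [pt_xa, pt_xa, ex_C, pt_xa]
    · have e : (X (Sum.inr i) : P2 n K) = xu i := rfl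
      rw [AlgHom.comp_apply, e]
      unfold TH
      rw [pt_xu, pt_xu, map_mul, ex_X, zero_mul]
  rw [h1, AlgHom.comp_apply, hTH, map_zero]

end

end HDM

end MPcfca
end

section
/-! MP_cfca38_ag: HD, part 3: fraction fields, the second move. -/
set_option autoImplicit false
set_option linter.unusedSimpArgs false

namespace MPcfca

namespace HDM

open MvPolynomial

universe u v

variable {K : Type u} [Field K] {n : ℕ}

/-- `K[a, u] = K[a][u]` -/
noncomputable def sg : P2 n K ≃ₐ[K] MvPolynomial (Fin n) (P1 n K) :=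
  (renameEquiv K (Equiv.sumComm (Fin n) (Fin n))).trans (sumAlgEquiv K (Fin n) (Fin n))

theorem sg_xa (i : Fin n) : sg (xa i : P2 n K) = C (X i) := by
  simp [sg, xa]

theorem sg_xu (i : Fin n) : sg (xu i : P2 n K) = X i := by
  simp [sg, xu]

theorem sg_aeval_xa (P : P1 n K) : sg (aeval xa P : P2 n K) = C P := by
  have h1 : ((sg : P2 n K ≃ₐ[K] MvPolynomial (Fin n) (P1 n K)) : P2 n K →ₐ[K]
      MvPolynomial (Fin n) (P1 n K)).comp (aeval xa) =
      IsScalarTower.toAlgHom K (P1 n K) (MvPolynomial (Fin n) (P1 n K)) := by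
    apply MvPolynomial.algHom_ext
    intro i
    simp [sg_xa, algebraMap_eq]
  have h2 := congrArg (fun φ : P1 n K →ₐ[K] MvPolynomial (Fin n) (P1 n K) => φ P) h1
  simpa [algebraMap_eq] using h2

theorem prime_aeval_xa (P : P1 n K) (hP : Prime P) : Prime (aeval xa P : P2 n K) := by
  rw [← MulEquiv.prime_iff (sg : P2 n K ≃ₐ[K] MvPolynomial (Fin n) (P1 n K)), sg_aeval_xa,
    prime_C_iff]
  exact hP

theorem dvd_of_dvd_xa (P R : P1 n K) (h : (aeval xa P : P2 n K) ∣ aeval xa R) : P ∣ R := by
  obtain ⟨c, hc⟩ := h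
  have h1 : ∀ S : P1 n K, aeval (Sum.elim X (fun _ => (0 : P1 n K))) (aeval xa S : P2 n K) = S := by
    intro S
    rw [← AlgHom.comp_apply, comp_aeval]
    simp only [pt_xa]
    exact aeval_X_left_apply S
  refine ⟨aeval (Sum.elim X (fun _ => (0 : P1 n K))) c, ?_⟩
  rw [← h1 R, hc, map_mul, h1]

/-- `(a, u) ↦ (a, X)` -/
noncomputable def rh {A : Type u} [CommRing A] [Algebra K A] (a : Fin n → A) :
    P2 n K →ₐ[K] MvPolynomial (Fin n) A :=
  aeval (Sum.elim (fun i => C (a i)) X)

theorem rh_xa {A : Type u} [CommRing A] [Algebra K A] (a : Fin n → A) (i : Fin n) :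
    rh a (xa i : P2 n K) = C (a i) := pt_xa _ _ i

theorem rh_xu {A : Type u} [CommRing A] [Algebra K A] (a : Fin n → A) (i : Fin n) :
    rh a (xu i : P2 n K) = X i := pt_xu _ _ i

/-- two algebra homomorphisms on `P2` agree if they agree on the variables -/
theorem ext2 {A : Type u} [CommRing A] [Algebra K A] (f g : P2 n K →ₐ[K] A)
    (h1 : ∀ i, f (xa i) = g (xa i)) (h2 : ∀ i, f (xu i) = g (xu i)) (B : P2 n K) :
    f B = g B := by
  have h : f = g := by
    apply MvPolynomial.algHom_ext
    intro i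
    rcases i with i | i
    · exact h1 i
    · exact h2 i
  rw [h]

theorem rh_eval {A B : Type u} [CommRing A] [Algebra K A] [CommRing B] [Algebra K B]
    [Algebra A B] [IsScalarTower K A B] (a : Fin n → A) (z : Fin n → B) (P : P2 n K) :
    aeval z (rh a P) = aeval (Sum.elim (fun i => algebraMap A B (a i)) z) P := by
  have h := ext2 (((aeval z : MvPolynomial (Fin n) A →ₐ[A] B).restrictScalars K).comp (rh a))
    (aeval (Sum.elim (fun i => algebraMap A B (a i)) z)) (by
      intro i
      rw [AlgHom.comp_apply, rh_xa, pt_xa]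
      simp) (by
      intro i
      rw [AlgHom.comp_apply, rh_xu, pt_xu]
      simp) P
  exact h

theorem rh_map {A B : Type u} [CommRing A] [Algebra K A] [CommRing B] [Algebra K B]
    [Algebra A B] [IsScalarTower K A B] (a : Fin n → A) (P : P2 n K) :
    map (algebraMap A B) (rh a P) = rh (fun i => algebraMap A B (a i)) P := by
  have h := ext2 ((((mapAlgHom (σ := Fin n) (IsScalarTower.toAlgHom K A B)))).comp (rh a))
    (rh (fun i => algebraMap A B (a i))) (by
      intro i
      rw [AlgHom.comp_apply, rh_xa, rh_xa]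
      simp) (by
      intro i
      rw [AlgHom.comp_apply, rh_xu, rh_xu]
      simp) P
  exact h

theorem rh_sg {F : Type u} [Field F] [Algebra K F] [Algebra (P1 n K) F]
    [IsScalarTower K (P1 n K) F] (P : P2 n K) :
    rh (fun i => algebraMap (P1 n K) F (X i)) P = map (algebraMap (P1 n K) F) (sg P) := by
  have h := ext2 (rh (fun i => algebraMap (P1 n K) F (X i)))
    ((mapAlgHom (σ := Fin n) (IsScalarTower.toAlgHom K (P1 n K) F)).comp
      ((sg : P2 n K ≃ₐ[K] MvPolynomial (Fin n) (P1 n K)) : P2 n K →ₐ[K] _)) (by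
      intro i
      rw [AlgHom.comp_apply, rh_xa]
      simp [sg_xa]) (by
      intro i
      rw [AlgHom.comp_apply, rh_xu]
      simp [sg_xu]) P
  exact h

variable (Q : P1 n K)

theorem genF (g : P2 n K) (hgen : ∀ B, th Q B = 0 → g ∣ B) {F : Type u} [Field F]
    [Algebra K F] [Algebra (P1 n K) F] [IsScalarTower K (P1 n K) F] [IsFractionRing (P1 n K) F]
    (B : MvPolynomial (Fin n) F)
    (hB : aeval (fun i => mv Q (fun l => (C (algebraMap (P1 n K) F (X l)) :
      MvPolynomial (Fin n) F)) X i) B = 0) :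
    rh (fun i => algebraMap (P1 n K) F (X i)) g ∣ B := by
  let _ : Algebra (MvPolynomial (Fin n) (P1 n K)) (MvPolynomial (Fin n) F) :=
    algebraMvPolynomial
  obtain ⟨⟨x, s⟩, hs⟩ := IsLocalization.surj
    ((nonZeroDivisors (P1 n K)).map (C (σ := Fin n))) B
  obtain ⟨c, hc, hcs⟩ := s.2
  have hc0 : algebraMap (P1 n K) F c ≠ 0 := by
    have h1 := nonZeroDivisors.ne_zero hc
    intro h
    exact h1 ((IsFractionRing.injective (P1 n K) F) (by rw [h, map_zero]))
  have h1 : B * C (algebraMap (P1 n K) F c) =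
      rh (fun i => algebraMap (P1 n K) F (X i)) (sg.symm x) := by
    rw [rh_sg, AlgEquiv.apply_symm_apply]
    have h2 : algebraMap (MvPolynomial (Fin n) (P1 n K)) (MvPolynomial (Fin n) F) (s : _) =
        C (algebraMap (P1 n K) F c) := by
      rw [← hcs, algebraMap_def, map_C]
    rw [← h2]
    exact hs
  have h2 : ∀ P : P2 n K, aeval (fun i => mv Q (fun l => (C (algebraMap (P1 n K) F (X l)) :
      MvPolynomial (Fin n) F)) X i) (rh (fun i => algebraMap (P1 n K) F (X i)) P) =
      rh (fun i => algebraMap (P1 n K) F (X i)) (th Q P) := by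
    intro P
    rw [rh_eval]
    have h3 := ext2 (aeval (Sum.elim (fun i => algebraMap F (MvPolynomial (Fin n) F)
      (algebraMap (P1 n K) F (X i)))
      (fun i => mv Q (fun l => (C (algebraMap (P1 n K) F (X l)) : MvPolynomial (Fin n) F)) X i)))
      ((rh (fun i => algebraMap (P1 n K) F (X i))).comp (th Q)) (by
        intro i
        rw [AlgHom.comp_apply, pt_xa, th_xa, rh_xa]
        rfl) (by
        intro i
        rw [AlgHom.comp_apply, pt_xu, th_xu]
        unfold rh
        rw [pt_am]) P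
    rw [h3]
    rfl
  have h3 : rh (fun i => algebraMap (P1 n K) F (X i)) (th Q (sg.symm x)) = 0 := by
    rw [← h2, ← h1, map_mul, hB, zero_mul]
  have h4 : th Q (sg.symm x) = 0 := by
    rw [rh_sg] at h3
    have h5 := map_injective (σ := Fin n) (algebraMap (P1 n K) F)
      (IsFractionRing.injective (P1 n K) F)
    have h6 : sg (th Q (sg.symm x)) = 0 := h5 (by rw [h3, map_zero])
    exact (EmbeddingLike.map_eq_zero_iff (f := (sg : P2 n K ≃ₐ[K] _))).mp h6
  obtain ⟨q, hq⟩ := hgen _ h4
  have h5 : B = rh (fun i => algebraMap (P1 n K) F (X i)) (sg.symm x) *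
      C ((algebraMap (P1 n K) F c)⁻¹) := by
    rw [← h1, mul_assoc, ← C_mul, mul_inv_cancel₀ hc0, C_1, mul_one]
  rw [h5, hq, map_mul]
  exact Dvd.intro (rh (fun i => algebraMap (P1 n K) F (X i)) q *
      C ((algebraMap (P1 n K) F c)⁻¹)) (by ring)

def e3 (n : ℕ) : Fin n ⊕ (Fin n ⊕ Fin n) ≃ Fin n ⊕ (Fin n ⊕ Fin n) where
  toFun := Sum.elim (fun i => Sum.inr (Sum.inr i)) (Sum.elim (fun i => Sum.inr (Sum.inl i)) Sum.inl)
  invFun := Sum.elim (fun i => Sum.inr (Sum.inr i))
    (Sum.elim (fun i => Sum.inr (Sum.inl i)) Sum.inl)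
  left_inv := by
    intro x
    rcases x with x | x | x <;> rfl
  right_inv := by
    intro x
    rcases x with x | x | x <;> rfl

/-- exchange of the second and the third variable -/
noncomputable def ee : MvPolynomial (Fin n) (P2 n K) ≃ₐ[K] MvPolynomial (Fin n) (P2 n K) :=
  ((sumAlgEquiv K (Fin n) (Fin n ⊕ Fin n)).symm.trans (renameEquiv K (e3 n))).trans
    (sumAlgEquiv K (Fin n) (Fin n ⊕ Fin n))

theorem ee_xa (i : Fin n) : ee (C (xa i) : MvPolynomial (Fin n) (P2 n K)) = C (xa i) := by
  unfold ee xa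
  rw [AlgEquiv.trans_apply, AlgEquiv.trans_apply, sumAlgEquiv_symm_C_X, renameEquiv_apply,
    rename_X]
  exact sumAlgEquiv_X_inr K (Fin n) (Fin n ⊕ Fin n) (Sum.inl i)

theorem ee_xu (i : Fin n) : ee (C (xu i) : MvPolynomial (Fin n) (P2 n K)) = X i := by
  unfold ee xu
  rw [AlgEquiv.trans_apply, AlgEquiv.trans_apply, sumAlgEquiv_symm_C_X, renameEquiv_apply,
    rename_X]
  exact sumAlgEquiv_X_inl K (Fin n) (Fin n ⊕ Fin n) i

theorem ee_C (P : P2 n K) : ee (C P : MvPolynomial (Fin n) (P2 n K)) = rh xa P := by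
  have h := ext2 (((ee : MvPolynomial (Fin n) (P2 n K) ≃ₐ[K] _) :
      MvPolynomial (Fin n) (P2 n K) →ₐ[K] MvPolynomial (Fin n) (P2 n K)).comp
      (IsScalarTower.toAlgHom K (P2 n K) (MvPolynomial (Fin n) (P2 n K)))) (rh xa) (by
      intro i
      rw [AlgHom.comp_apply, rh_xa]
      exact ee_xa i) (by
      intro i
      rw [AlgHom.comp_apply, rh_xu]
      exact ee_xu i) P
  exact h

theorem prime_rh (G : P2 n K) (hG : Prime G) {L : Type u} [Field L] [Algebra K L]
    [Algebra (P2 n K) L] [IsScalarTower K (P2 n K) L] [IsFractionRing (P2 n K) L]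
    (z : Fin n → MvPolynomial (Fin n) L)
    (hz : aeval (Sum.elim (fun i => (C (algebraMap (P2 n K) L (xa i)) :
      MvPolynomial (Fin n) L)) z) G = 0) :
    Prime (rh (fun i => algebraMap (P2 n K) L (xa i)) G) := by
  let _ : Algebra (MvPolynomial (Fin n) (P2 n K)) (MvPolynomial (Fin n) L) :=
    algebraMvPolynomial
  have h1 : Prime (rh xa G : MvPolynomial (Fin n) (P2 n K)) := by
    rw [← ee_C, MulEquiv.prime_iff, prime_C_iff]
    exact hG
  have h2 : (Ideal.span {(rh xa G : MvPolynomial (Fin n) (P2 n K))}).IsPrime :=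
    (Ideal.span_singleton_prime h1.ne_zero).mpr h1
  have h3 : Disjoint (((nonZeroDivisors (P2 n K)).map (C (σ := Fin n)) :
      Submonoid (MvPolynomial (Fin n) (P2 n K))) : Set (MvPolynomial (Fin n) (P2 n K)))
      (Ideal.span {(rh xa G : MvPolynomial (Fin n) (P2 n K))} : Ideal _) := by
    rw [Set.disjoint_left]
    rintro _ ⟨c, hc, rfl⟩ hx
    rw [SetLike.mem_coe, Ideal.mem_span_singleton] at hx
    obtain ⟨q, hq⟩ := hx
    have h4 : aeval z (rh xa G : MvPolynomial (Fin n) (P2 n K)) = 0 := by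
      rw [rh_eval, ← hz]
      rfl
    have h5 : aeval z (C c : MvPolynomial (Fin n) (P2 n K)) = 0 := by
      rw [hq, map_mul, h4, zero_mul]
    rw [aeval_C, IsScalarTower.algebraMap_apply (P2 n K) L (MvPolynomial (Fin n) L),
      algebraMap_eq, C_eq_zero] at h5
    exact nonZeroDivisors.ne_zero hc ((IsFractionRing.injective (P2 n K) L)
      (by rw [h5, map_zero]))
  have h4 := IsLocalization.isPrime_of_isPrime_disjoint
    ((nonZeroDivisors (P2 n K)).map (C (σ := Fin n))) (MvPolynomial (Fin n) L) _ h2 h3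
  rw [Ideal.map_span, Set.image_singleton, algebraMap_def, rh_map] at h4
  have h5 : rh (fun i => algebraMap (P2 n K) L (xa i)) G ≠ 0 := by
    rw [← rh_map]
    intro h
    exact h1.ne_zero ((map_injective (σ := Fin n) (algebraMap (P2 n K) L)
      (IsFractionRing.injective (P2 n K) L)) (by rw [h, map_zero]))
  exact (Ideal.span_singleton_prime h5).mp h4

theorem th_eval {A : Type u} [CommRing A] [Algebra K A] (a u : Fin n → A) (P : P2 n K) :
    aeval (Sum.elim a u) (th Q P) = aeval (Sum.elim a (fun i => mv Q a u i)) P := by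
  have h := ext2 ((aeval (Sum.elim a u)).comp (th Q)) (aeval (Sum.elim a (fun i => mv Q a u i)))
    (by
      intro i
      rw [AlgHom.comp_apply, th_xa, pt_xa, pt_xa]) (by
      intro i
      rw [AlgHom.comp_apply, th_xu, pt_am, pt_xu]) P
  exact h

/-- the substitution of the two moves, over the field of functions of `(a, d)` -/
noncomputable def chi (L : Type u) [Field L] [Algebra K L] [Algebra (P2 n K) L] :
    P2 n K →ₐ[K] MvPolynomial (Fin n) L :=
  aeval (Sum.elim (fun i => (C (algebraMap (P2 n K) L (xa i)) : MvPolynomial (Fin n) L))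
    (fun i => mv Q (fun l => C (algebraMap (P2 n K) L (am Q l))) X i))

section
variable {Q}
variable {p j : ℕ} {Q1 Q2 : P1 n K} (H : HQ p Q Q1 Q2 j) [IsAlgClosed K]
include H

theorem key_ratio (g : P2 n K) (hgt : th Q g = 0) (hgen : ∀ B, th Q B = 0 → g ∣ B)
    (G : P2 n K) (hG : Prime G) (L : Type u) [Field L] [Algebra K L]
    [Algebra (P2 n K) L] [IsScalarTower K (P2 n K) L] [IsFractionRing (P2 n K) L]
    (hχ : chi Q L G = 0) :
    ∃ r : L, rh (fun i => algebraMap (P2 n K) L (xa i)) G =
      C r * rh (fun i => algebraMap (P2 n K) L (am Q i)) g := by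
  let F := FractionRing (P1 n K)
  have hinj : Function.Injective (aeval (am Q) : P1 n K →ₐ[K] P2 n K).toRingHom := psi_inj H
  let φ : F →+* L := IsFractionRing.map (A := P1 n K) (B := P2 n K) hinj
  let _ : Algebra F L := φ.toAlgebra
  have hφ : ∀ x : P1 n K, algebraMap F L (algebraMap (P1 n K) F x) =
      algebraMap (P2 n K) L (aeval (am Q) x) := by
    intro x
    show φ (algebraMap (P1 n K) F x) = _
    exact IsLocalization.map_eq _ x
  have _ : IsScalarTower K F L := by
    apply IsScalarTower.of_algebraMap_eq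
    intro c
    rw [IsScalarTower.algebraMap_apply K (P1 n K) F, hφ, AlgHom.commutes,
      ← IsScalarTower.algebraMap_apply]
  have hX : ∀ i, algebraMap F L (algebraMap (P1 n K) F (X i)) =
      algebraMap (P2 n K) L (am Q i) := by
    intro i
    rw [hφ, aeval_X]
  have hz : ∀ i, map (algebraMap F L) (mv Q (fun l => (C (algebraMap (P1 n K) F (X l)) :
      MvPolynomial (Fin n) F)) X i) =
      mv Q (fun l => (C (algebraMap (P2 n K) L (am Q l)) : MvPolynomial (Fin n) L)) X i := by
    intro i
    have h1 := mv_map (mapAlgHom (σ := Fin n) (IsScalarTower.toAlgHom K F L)) Q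
      (fun l => (C (algebraMap (P1 n K) F (X l)) : MvPolynomial (Fin n) F)) X i
    have h2 : (fun l => mapAlgHom (σ := Fin n) (IsScalarTower.toAlgHom K F L)
        (C (algebraMap (P1 n K) F (X l)) : MvPolynomial (Fin n) F)) =
        fun l => (C (algebraMap (P2 n K) L (am Q l)) : MvPolynomial (Fin n) L) := by
      funext l
      rw [← hX]
      simp
    have h3 : (fun l => mapAlgHom (σ := Fin n) (IsScalarTower.toAlgHom K F L)
        (X l : MvPolynomial (Fin n) F)) = fun l => (X l : MvPolynomial (Fin n) L) := by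
      funext l
      simp
    rw [h2, h3] at h1
    exact h1
  have h1 := ld (F := F) (L := L) (fun i => mv Q (fun l => (C (algebraMap (P1 n K) F (X l)) :
      MvPolynomial (Fin n) F)) X i) (rh (fun i => algebraMap (P1 n K) F (X i)) g)
    (fun B hB => genF Q g hgen B hB) (rh (fun i => algebraMap (P2 n K) L (xa i)) G) (by
      simp only [hz]
      rw [rh_eval]
      exact hχ)
  rw [rh_map] at h1
  simp only [hX] at h1
  obtain ⟨c, hc⟩ := h1
  have hpr := prime_rh G hG _ hχ
  rcases hpr.irreducible.isUnit_or_isUnit hc with h2 | h2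
  · exfalso
    have h3 := h2.map (aeval (R := L) (fun i => mv Q (fun l =>
      (C (algebraMap (P2 n K) L (am Q l)) : MvPolynomial (Fin n) L)) X i))
    rw [rh_eval] at h3
    have h4 : aeval (Sum.elim (fun i => algebraMap L (MvPolynomial (Fin n) L)
        (algebraMap (P2 n K) L (am Q i))) (fun i => mv Q (fun l =>
      (C (algebraMap (P2 n K) L (am Q l)) : MvPolynomial (Fin n) L)) X i)) g = 0 := by
      rw [algebraMap_eq, ← th_eval, hgt, map_zero]
    rw [h4] at h3
    exact not_isUnit_zero h3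
  · obtain ⟨r, hr, hr2⟩ := MvPolynomial.isUnit_iff_eq_C_of_isReduced.mp h2
    exact ⟨r, by rw [hc, hr2, mul_comm]⟩

end

end HDM

end MPcfca
end

section
/-! MP_cfca38_ag: HD, part 4: specialisation to a smooth zero of `Q1`. -/
set_option autoImplicit false
set_option linter.unusedSimpArgs false

namespace MPcfca

namespace HDM

open MvPolynomial

universe u v

variable {K : Type u} [Field K] {n : ℕ} (Q : P1 n K)

theorem sym_rel (g G : P2 n K) (L : Type u) [Field L] [Algebra K L]
    [Algebra (P2 n K) L] [IsScalarTower K (P2 n K) L] [IsFractionRing (P2 n K) L] (r : L)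
    (hr : rh (fun i => algebraMap (P2 n K) L (xa i)) G =
      C r * rh (fun i => algebraMap (P2 n K) L (am Q i)) g) (v v' : Fin n → K) :
    aeval (Sum.elim xa (fun i => (C (v i) : P2 n K))) G *
      aeval (Sum.elim (am Q) (fun i => (C (v' i) : P2 n K))) g =
    aeval (Sum.elim xa (fun i => (C (v' i) : P2 n K))) G *
      aeval (Sum.elim (am Q) (fun i => (C (v i) : P2 n K))) g := by
  apply IsFractionRing.injective (P2 n K) L
  have h1 : ∀ (a : Fin n → P2 n K) (w : Fin n → K) (P : P2 n K),
      algebraMap (P2 n K) L (aeval (Sum.elim a (fun i => (C (w i) : P2 n K))) P) =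
      aeval (fun i => algebraMap K L (w i)) (rh (fun i => algebraMap (P2 n K) L (a i)) P) := by
    intro a w P
    rw [rh_eval]
    have h := ext2 ((IsScalarTower.toAlgHom K (P2 n K) L).comp
      (aeval (Sum.elim a (fun i => (C (w i) : P2 n K)))))
      (aeval (Sum.elim (fun i => algebraMap L L (algebraMap (P2 n K) L (a i)))
        (fun i => algebraMap K L (w i)))) (by
        intro i
        rw [AlgHom.comp_apply, pt_xa, pt_xa]
        rfl) (by
        intro i
        rw [AlgHom.comp_apply, pt_xu, pt_xu]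
        exact (IsScalarTower.toAlgHom K (P2 n K) L).commutes (w i)) P
    exact h
  rw [map_mul, map_mul, h1, h1, h1, h1, hr]
  simp only [map_mul, aeval_C, Algebra.algebraMap_self, RingHom.id_apply]
  ring

/-- the relation at constants -/
theorem star (g G : P2 n K) (hgen : ∀ B, th Q B = 0 → g ∣ B)
    (hsym : ∀ v v' : Fin n → K, aeval (Sum.elim xa (fun i => (C (v i) : P2 n K))) G *
      aeval (Sum.elim (am Q) (fun i => (C (v' i) : P2 n K))) g =
    aeval (Sum.elim xa (fun i => (C (v' i) : P2 n K))) G *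
      aeval (Sum.elim (am Q) (fun i => (C (v i) : P2 n K))) g)
    (b u1 v v' : Fin n → K) (h0 : aeval (Sum.elim b u1) g = 0) :
    aeval (Sum.elim b v) G * aeval (Sum.elim u1 v') g =
      aeval (Sum.elim b v') G * aeval (Sum.elim u1 v) g := by
  have e1 : ∀ (w : Fin n → K) (P : P2 n K),
      th Q (aeval (Sum.elim xa (fun i => (C (w i) : P2 n K))) P) =
      aeval (Sum.elim xa (fun i => (C (w i) : P2 n K))) P := by
    intro w P
    exact ext2 ((th Q).comp (aeval (Sum.elim xa (fun i => (C (w i) : P2 n K)))))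
      (aeval (Sum.elim xa (fun i => (C (w i) : P2 n K)))) (by
        intro i
        rw [AlgHom.comp_apply, pt_xa, th_xa]) (by
        intro i
        rw [AlgHom.comp_apply, pt_xu]
        exact (th Q).commutes (w i)) P
  have e2 : ∀ (w : Fin n → K) (P : P2 n K),
      th Q (aeval (Sum.elim xu (fun i => (C (w i) : P2 n K))) P) =
      aeval (Sum.elim (am Q) (fun i => (C (w i) : P2 n K))) P := by
    intro w P
    exact ext2 ((th Q).comp (aeval (Sum.elim xu (fun i => (C (w i) : P2 n K)))))
      (aeval (Sum.elim (am Q) (fun i => (C (w i) : P2 n K)))) (by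
        intro i
        rw [AlgHom.comp_apply, pt_xa, th_xu, pt_xa]) (by
        intro i
        rw [AlgHom.comp_apply, pt_xu, pt_xu]
        exact (th Q).commutes (w i)) P
  have e3 : ∀ (w : Fin n → K) (P : P2 n K),
      aeval (Sum.elim b u1) (aeval (Sum.elim xa (fun i => (C (w i) : P2 n K))) P) =
      aeval (Sum.elim b w) P := by
    intro w P
    exact ext2 ((aeval (Sum.elim b u1)).comp (aeval (Sum.elim xa (fun i => (C (w i) : P2 n K)))))
      (aeval (Sum.elim b w)) (by
        intro i
        rw [AlgHom.comp_apply, pt_xa, pt_xa, pt_xa]) (by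
        intro i
        rw [AlgHom.comp_apply, pt_xu, pt_xu]
        exact (aeval (Sum.elim b u1) : P2 n K →ₐ[K] K).commutes (w i)) P
  have e4 : ∀ (w : Fin n → K) (P : P2 n K),
      aeval (Sum.elim b u1) (aeval (Sum.elim xu (fun i => (C (w i) : P2 n K))) P) =
      aeval (Sum.elim u1 w) P := by
    intro w P
    exact ext2 ((aeval (Sum.elim b u1)).comp (aeval (Sum.elim xu (fun i => (C (w i) : P2 n K)))))
      (aeval (Sum.elim u1 w)) (by
        intro i
        rw [AlgHom.comp_apply, pt_xa, pt_xu, pt_xa]) (by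
        intro i
        rw [AlgHom.comp_apply, pt_xu, pt_xu]
        exact (aeval (Sum.elim b u1) : P2 n K →ₐ[K] K).commutes (w i)) P
  have h1 := hgen (aeval (Sum.elim xa (fun i => (C (v i) : P2 n K))) G *
      aeval (Sum.elim xu (fun i => (C (v' i) : P2 n K))) g -
    aeval (Sum.elim xa (fun i => (C (v' i) : P2 n K))) G *
      aeval (Sum.elim xu (fun i => (C (v i) : P2 n K))) g) (by
      rw [map_sub, map_mul, map_mul, e1, e1, e2, e2, hsym, sub_self])
  obtain ⟨c, hc⟩ := h1
  have h2 := congrArg (aeval (Sum.elim b u1)) hc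
  rw [map_sub, map_mul, map_mul, map_mul, e3, e3, e4, e4, h0, zero_mul] at h2
  exact sub_eq_zero.mp h2

/-! ### linear forms -/

theorem lin_prime (l : P1 n K) (h : l.IsHomogeneous 1) (h0 : l ≠ 0) : Prime l := by
  apply Irreducible.prime
  apply irreducible_of_totalDegree_eq_one (h.totalDegree h0)
  intro x hx
  rw [isUnit_iff_ne_zero]
  rintro rfl
  apply h0
  ext i
  rw [coeff_zero]
  exact zero_dvd_iff.mp (hx i)

/-- the differential at `b` as a linear form -/
noncomputable def hbp (b : Fin n → K) : P1 n K := ∑ i, C (eval b (pderiv i Q)) * X i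

theorem eval_hbp (b v : Fin n → K) : eval v (hbp Q b) = hb Q b v := by
  unfold hbp hb
  simp

theorem hbp_hom (b : Fin n → K) : (hbp Q b).IsHomogeneous 1 := by
  apply IsHomogeneous.sum
  intro i _
  exact (isHomogeneous_X K i).C_mul _

theorem hbp_ne (b : Fin n → K) (i : Fin n) (h : eval b (pderiv i Q) ≠ 0) : hbp Q b ≠ 0 := by
  classical
  intro h0
  apply h
  rw [← hb_single, ← eval_hbp, h0, map_zero]

theorem hb_add (b v w : Fin n → K) : hb Q b (fun i => v i + w i) = hb Q b v + hb Q b w := by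
  unfold hb
  rw [← Finset.sum_add_distrib]
  apply Finset.sum_congr rfl
  intro i _
  ring

section
variable {Q}
variable {p j : ℕ} {Q1 Q2 : P1 n K} (H : HQ p Q Q1 Q2 j)
include H

theorem hb_self (b : Fin n → K) (h : eval b Q = 0) : hb Q b b = 0 := by
  have h1 := congrArg (eval b) H.hQ.sum_X_mul_pderiv
  rw [map_sum, map_nsmul, h, smul_zero] at h1
  rw [← h1]
  unfold hb
  apply Finset.sum_congr rfl
  intro i _
  rw [map_mul, eval_X, mul_comm]

variable [IsAlgClosed K]

/-- the equation of the first move at a smooth zero -/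
theorem g_at (g c : P2 n K) (hgt : th Q g = 0) (hc : Dp Q = g * c) (b : Fin n → K)
    (hb1 : eval b Q = 0) (i : Fin n) (hi : eval b (pderiv i Q) ≠ 0) :
    ∃ (e : ℕ) (κ : K), 1 ≤ e ∧ κ ≠ 0 ∧ ∀ v : Fin n → K, aeval (Sum.elim b v) g * κ =
      hb Q b v ^ e := by
  have hinf : Infinite K := IsAlgClosed.instInfinite
  let s : P2 n K →ₐ[K] P1 n K := aeval (Sum.elim (fun i => C (b i)) X)
  have hs : ∀ (P : P2 n K) (v : Fin n → K), eval v (s P) = aeval (Sum.elim b v) P := by
    intro P v
    have h := ext2 ((aeval v : P1 n K →ₐ[K] K).comp s) (aeval (Sum.elim b v)) (by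
      intro i
      rw [AlgHom.comp_apply, pt_xa, pt_xa]
      simp) (by
      intro i
      rw [AlgHom.comp_apply, pt_xu, pt_xu]
      simp) P
    rw [← h, AlgHom.comp_apply, aeval_eq_eval]
  have h1 : s g * s c = hbp Q b ^ 4 := by
    apply MvPolynomial.funext
    intro v
    rw [← map_mul, ← hc, hs, pt_Dp, DD_b v hb1, map_pow, eval_hbp]
  have hp := lin_prime _ (hbp_hom Q b) (hbp_ne Q b i hi)
  obtain ⟨e, he, ⟨w, hw⟩⟩ := (dvd_prime_pow hp 4).mp ⟨_, h1.symm⟩
  obtain ⟨κ, hκ, hκ2⟩ := MvPolynomial.isUnit_iff_eq_C_of_isReduced.mp w.isUnit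
  have h2 : ∀ v : Fin n → K, aeval (Sum.elim b v) g * κ = hb Q b v ^ e := by
    intro v
    have h3 := congrArg (eval v) hw
    rw [map_mul, hs, hκ2, eval_C, map_pow, eval_hbp] at h3
    exact h3
  refine ⟨e, κ, ?_, hκ.ne_zero, h2⟩
  by_contra hcon
  have he0 : e = 0 := by omega
  subst he0
  have h3 := h2 (fun _ => 0)
  rw [g_zero H g hgt b, zero_mul, pow_zero] at h3
  exact one_ne_zero h3.symm

/-- the vanishing of `Q T` on the tangent hyperplane -/
theorem QT_zero (g c G : P2 n K) (hgt : th Q g = 0) (hc : Dp Q = g * c)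
    (hcinv : ta c = Polynomial.C c)
    (hst : ∀ b u1 v v' : Fin n → K, aeval (Sum.elim b u1) g = 0 →
      aeval (Sum.elim b v) G * aeval (Sum.elim u1 v') g =
      aeval (Sum.elim b v') G * aeval (Sum.elim u1 v) g)
    (b us : Fin n → K) (hb1 : eval b Q = 0) (i : Fin n) (hi : eval b (pderiv i Q) ≠ 0)
    (hG : aeval (Sum.elim b us) G ≠ 0) (u1 : Fin n → K) (hu1 : hb Q b u1 = 0)
    (v : Fin n → K) : eval u1 Q * TT (Qc Q u1 v) = 0 := by
  classical
  obtain ⟨e, κ, he, hκ, hg⟩ := g_at H g c hgt hc b hb1 i hi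
  have hker : ∀ w : Fin n → K, hb Q b w = 0 → aeval (Sum.elim b w) g = 0 := by
    intro w hw
    have h1 := hg w
    rw [hw, zero_pow (by omega)] at h1
    exact (mul_eq_zero.mp h1).resolve_right hκ
  have h1 := hst b b
  have h2 := hst b u1
  let v0 : Fin n → K := Pi.single i 1
  have hv0 : aeval (Sum.elim b v0) g ≠ 0 := by
    intro h
    have h3 := hg v0
    rw [h, zero_mul, hb_single] at h3
    exact pow_ne_zero e hi h3.symm
  have hG0 : aeval (Sum.elim b v0) G ≠ 0 := by
    intro h
    have h3 := h1 us v0 (hker b (hb_self H b hb1))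
    rw [h, zero_mul] at h3
    exact (mul_ne_zero hG hv0) h3
  have hGv : ∀ w : Fin n → K, aeval (Sum.elim b w) G * (aeval (Sum.elim b v0) g * κ) =
      aeval (Sum.elim b v0) G * hb Q b w ^ e := by
    intro w
    rw [← hg w, ← mul_assoc, h1 w v0 (hker b (hb_self H b hb1)), mul_assoc]
  have hadd : hb Q b (fun i => v i + u1 i) = hb Q b v := by
    rw [hb_add, hu1, add_zero]
  have hGinv : aeval (Sum.elim b (fun i => v i + u1 i)) G = aeval (Sum.elim b v) G := by
    have h3 := hGv (fun i => v i + u1 i)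
    rw [hadd, ← hGv v] at h3
    exact mul_right_cancel₀ (mul_ne_zero hv0 hκ) h3
  have hginv : aeval (Sum.elim u1 (fun i => v i + u1 i)) g = aeval (Sum.elim u1 v) g := by
    have h3 := h2 v0 (fun i => v i + u1 i) (hker u1 hu1)
    rw [hGinv, ← h2 v0 v (hker u1 hu1)] at h3
    exact mul_left_cancel₀ hG0 h3
  have hcv : aeval (Sum.elim u1 (fun i => v i + u1 i)) c = aeval (Sum.elim u1 v) c := by
    have h3 := inv_eval c hcinv u1 v (1 : K)
    simpa only [one_mul] using h3
  have hD : DD (Qc Q u1 (fun i => v i + u1 i)) = DD (Qc Q u1 v) := by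
    rw [← pt_Dp, ← pt_Dp, hc, map_mul, map_mul, hginv, hcv]
  have h3 := DD_dir H.hQ u1 v 1 1
  simp only [one_mul] at h3
  rw [hD, Qc_zero', aeval_eq_eval] at h3
  have h8 : (8 : K) ≠ 0 := by
    have h4 := cast_ne H 2 (by norm_num) (by norm_num)
    have h5 : (8 : K) = ((2 : ℕ) : K) ^ 3 := by norm_num
    rw [h5]
    exact pow_ne_zero 3 h4
  have h4 : 8 * (eval u1 Q * TT (Qc Q u1 v)) = 0 := by
    linear_combination h3
  exact (mul_eq_zero.mp h4).resolve_left h8

end

end HDM

end MPcfca
end

section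
/-! MP_cfca38_ag: HD, part 5: end of the proof of `SpecHD`. -/
set_option autoImplicit false
set_option linter.unusedSimpArgs false

namespace MPcfca

namespace HDM

open MvPolynomial

universe u v

variable {K : Type u} [Field K] {n : ℕ} {Q : P1 n K}
variable {p j : ℕ} {Q1 Q2 : P1 n K} (H : HQ p Q Q1 Q2 j) [IsAlgClosed K]
include H

theorem exists_R : ∃ R : P1 n K, R ≠ 0 ∧ ∀ w : Fin n → K,
    (∀ v : Fin n → K, eval w Q * TT (Qc Q w v) = 0) → eval w R = 0 := by
  have hinf : Infinite K := IsAlgClosed.instInfinite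
  have h0 : Qa Q * Tp Q ≠ 0 := mul_ne_zero (Qa_ne H) (Tp_ne H)
  have h1 : ∃ z : Fin n ⊕ Fin n → K, eval z (Qa Q * Tp Q) ≠ 0 := by
    by_contra hcon
    push Not at hcon
    apply h0
    apply MvPolynomial.funext
    intro z
    rw [hcon z, map_zero]
  obtain ⟨z, hz⟩ := h1
  let u0 : Fin n → K := fun i => z (Sum.inr i)
  let w0 : Fin n → K := fun i => z (Sum.inl i)
  have hz2 : Sum.elim w0 u0 = z := by
    funext i
    rcases i with i | i <;> rfl
  let R : P1 n K := aeval (Sum.elim X (fun i => C (u0 i))) (Qa Q * Tp Q)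
  have hR : ∀ w : Fin n → K, eval w R = aeval (Sum.elim w u0) (Qa Q * Tp Q) := by
    intro w
    have h := ext2 ((aeval w : P1 n K →ₐ[K] K).comp
      (aeval (Sum.elim X (fun i => C (u0 i))) : P2 n K →ₐ[K] P1 n K)) (aeval (Sum.elim w u0)) (by
      intro i
      rw [AlgHom.comp_apply, pt_xa, pt_xa]
      simp) (by
      intro i
      rw [AlgHom.comp_apply, pt_xu, pt_xu]
      simp) (Qa Q * Tp Q)
    rw [← h, AlgHom.comp_apply, aeval_eq_eval]
  refine ⟨R, ?_, ?_⟩
  · intro h
    apply hz
    have h2 := hR w0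
    rw [h, map_zero, hz2, aeval_eq_eval] at h2
    exact h2.symm
  · intro w hw
    rw [hR, map_mul, pt_Qa, pt_Tp, aeval_eq_eval]
    exact hw u0

omit H [IsAlgClosed K] in
theorem eval_xa (b us : Fin n → K) (P : P1 n K) :
    eval (Sum.elim b us) (aeval xa P : P2 n K) = eval b P := by
  have h1 : ((aeval (Sum.elim b us) : P2 n K →ₐ[K] K).comp (aeval xa) : P1 n K →ₐ[K] K) =
      aeval b := by
    apply MvPolynomial.algHom_ext
    intro i
    rw [AlgHom.comp_apply, aeval_X, aeval_X, pt_xa]
  have h2 := congrArg (fun φ : P1 n K →ₐ[K] K => φ P) h1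
  simp only [AlgHom.comp_apply, aeval_eq_eval] at h2
  exact h2

/-- a linear form which is proportional to all the differentials at the zeros of `Q1` -/
theorem exists_l (G : P2 n K) (hG1 : ¬ (aeval xa Q1 : P2 n K) ∣ G)
    (hQT : ∀ (b us : Fin n → K), eval b Q = 0 → ∀ i : Fin n, eval b (pderiv i Q) ≠ 0 →
      aeval (Sum.elim b us) G ≠ 0 → ∀ u1 : Fin n → K, hb Q b u1 = 0 → ∀ v : Fin n → K,
      eval u1 Q * TT (Qc Q u1 v) = 0) :
    ∃ l : P1 n K, Prime l ∧ l.IsHomogeneous 1 ∧ ∀ y z : Fin n → K,
      Q1 ∣ (∑ i, C (y i) * pderiv i Q) * C (eval z l) -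
        (∑ i, C (z i) * pderiv i Q) * C (eval y l) := by
  classical
  obtain ⟨R, hR0, hR⟩ := exists_R H
  obtain ⟨f, hf, hfR⟩ := UniqueFactorizationMonoid.exists_prime_factors R hR0
  by_contra hcon
  push Not at hcon
  have hW : ∀ l : P1 n K, ∃ W : P1 n K, ¬ Q1 ∣ W ∧ (l ∈ f → l.IsHomogeneous 1 →
      ∃ y z : Fin n → K, W = (∑ i, C (y i) * pderiv i Q) * C (eval z l) -
        (∑ i, C (z i) * pderiv i Q) * C (eval y l)) := by
    intro l
    by_cases hl : l ∈ f ∧ l.IsHomogeneous 1
    · obtain ⟨y, z, hyz⟩ := hcon l (hf l hl.1) hl.2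
      exact ⟨_, hyz, fun _ _ => ⟨y, z, rfl⟩⟩
    · exact ⟨1, fun h => H.irr.not_isUnit (isUnit_of_dvd_one h), fun h1 h2 => absurd ⟨h1, h2⟩ hl⟩
  choose W hW1 hW2 using hW
  have hPi : ¬ Q1 ∣ (f.map W).prod := by
    intro h
    obtain ⟨l, _, hl⟩ := (prime1 H).exists_mem_multiset_map_dvd h
    exact hW1 l hl
  obtain ⟨i, hi⟩ := exists_pd H
  have hnd : ¬ (aeval xa Q1 : P2 n K) ∣ aeval xa (pderiv i Q * (f.map W).prod) * G := by
    intro h
    rcases (prime_aeval_xa Q1 (prime1 H)).dvd_or_dvd h with h1 | h1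
    · rcases (prime1 H).dvd_or_dvd (dvd_of_dvd_xa _ _ h1) with h2 | h2
      · exact hi h2
      · exact hPi h2
    · exact hG1 h1
  obtain ⟨z, hz1, hz2⟩ := ns _ _ (prime_aeval_xa Q1 (prime1 H)) hnd
  let us : Fin n → K := fun i => z (Sum.inr i)
  let b : Fin n → K := fun i => z (Sum.inl i)
  have hz : Sum.elim b us = z := by
    funext i
    rcases i with i | i <;> rfl
  rw [← hz, eval_xa] at hz1
  rw [← hz, map_mul, eval_xa, map_mul] at hz2
  have hbi := left_ne_zero_of_mul (left_ne_zero_of_mul hz2)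
  have hbPi := right_ne_zero_of_mul (left_ne_zero_of_mul hz2)
  have hbG := right_ne_zero_of_mul hz2
  have hbQ := Q_of_Q1 H b hz1
  have hp := lin_prime _ (hbp_hom Q b) (hbp_ne Q b i hbi)
  have hdvd : hbp Q b ∣ R := by
    by_contra hn
    obtain ⟨w, hw1, hw2⟩ := ns _ _ hp hn
    apply hw2
    apply hR
    rw [eval_hbp] at hw1
    refine hQT b us hbQ i hbi ?_ w hw1
    rw [aeval_eq_eval]
    exact hbG
  obtain ⟨l, hl, hbl⟩ := hp.exists_mem_multiset_dvd ((hfR.dvd_iff_dvd_right).mpr hdvd)
  obtain ⟨w, hw⟩ := (hp.irreducible.associated_of_dvd (hf l hl).irreducible hbl)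
  obtain ⟨κ, hκ, hκ2⟩ := MvPolynomial.isUnit_iff_eq_C_of_isReduced.mp w.isUnit
  have hlh : l.IsHomogeneous 1 := by
    rw [← hw, hκ2, mul_comm]
    exact (hbp_hom Q b).C_mul κ
  have hle : ∀ y, eval y l = hb Q b y * κ := by
    intro y
    rw [← hw, hκ2, map_mul, eval_hbp, eval_C]
  obtain ⟨y, y', hyy⟩ := hW2 l hl hlh
  have h1 : eval b (W l) = 0 := by
    have h2 : ∀ y : Fin n → K, eval b (∑ i, C (y i) * pderiv i Q) = hb Q b y := by
      intro y
      unfold hb
      rw [map_sum]
      apply Finset.sum_congr rfl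
      intro i _
      rw [map_mul, eval_C, mul_comm]
    rw [hyy, map_sub, map_mul, map_mul, h2, h2, eval_C, eval_C, hle, hle]
    ring
  apply hbPi
  obtain ⟨c, hc⟩ := Multiset.dvd_prod (Multiset.mem_map_of_mem W hl)
  rw [hc, map_mul, h1, zero_mul]

omit [IsAlgClosed K] in
theorem no_l (l : P1 n K) (hl : Prime l) (hl1 : l.IsHomogeneous 1)
    (h : ∀ y z : Fin n → K, Q1 ∣ (∑ i, C (y i) * pderiv i Q) * C (eval z l) -
        (∑ i, C (z i) * pderiv i Q) * C (eval y l)) : False := by
  classical
  have hlam : ∀ i, ∃ c : K, pderiv i l = C c := by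
    intro i
    have h1 : (pderiv i l).IsHomogeneous (1 - 1) := hl1.pderiv
    by_cases h0 : pderiv i l = 0
    · exact ⟨0, by rw [h0, C_0]⟩
    · have h2 := h1.totalDegree h0
      exact ⟨_, (totalDegree_eq_zero_iff_eq_C).mp h2⟩
  choose lam hlam using hlam
  have hl2 : l = ∑ i, X i * C (lam i) := by
    have h1 := hl1.sum_X_mul_pderiv
    rw [one_smul] at h1
    rw [← h1]
    simp only [hlam]
  have hev : ∀ y : Fin n → K, eval y l = ∑ i, y i * lam i := by
    intro y
    conv_lhs => rw [hl2]
    rw [map_sum]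
    apply Finset.sum_congr rfl
    intro i _
    rw [map_mul, eval_X, eval_C]
  have hex : ∃ i, lam i ≠ 0 := by
    by_contra hcon
    push Not at hcon
    apply hl.ne_zero
    rw [hl2]
    apply Finset.sum_eq_zero
    intro i _
    rw [hcon i, C_0, mul_zero]
  obtain ⟨i0, hi0⟩ := hex
  have hev1 : ∀ (i : Fin n) (c : K), eval (Pi.single i c) l = c * lam i := by
    intro i c
    rw [hev, Finset.sum_eq_single i]
    · simp
    · intro k _ hk
      simp [Pi.single_apply, hk]
    · intro hk
      exact absurd (Finset.mem_univ i) hk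
  have hsum : ∀ (P : P1 n K) (i : Fin n) (c : K),
      ∑ k, C ((Pi.single i c : Fin n → K) k) * pderiv k P = C c * pderiv i P := by
    intro P i c
    rw [Finset.sum_eq_single i]
    · simp
    · intro k _ hk
      simp [Pi.single_apply, hk]
    · intro hk
      exact absurd (Finset.mem_univ i) hk
  have hpd : ∀ i, C (lam i0) * pderiv i Q1 = C (lam i) * pderiv i0 Q1 := by
    intro i
    have h1 := h (fun k => (Pi.single i (lam i0) : Fin n → K) k -
      (Pi.single i0 (lam i) : Fin n → K) k) (Pi.single i0 1)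
    have h2 : eval (fun k => (Pi.single i (lam i0) : Fin n → K) k -
      (Pi.single i0 (lam i) : Fin n → K) k) l = 0 := by
      have h3 : eval (fun k => (Pi.single i (lam i0) : Fin n → K) k -
        (Pi.single i0 (lam i) : Fin n → K) k) l =
        eval (Pi.single i (lam i0) : Fin n → K) l - eval (Pi.single i0 (lam i) : Fin n → K) l := by
        rw [hev, hev, hev, ← Finset.sum_sub_distrib]
        apply Finset.sum_congr rfl
        intro k _
        ring
      rw [h3, hev1, hev1]
      ring
    rw [h2, C_0, mul_zero, sub_zero, hev1, one_mul] at h1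
    have h3 : Q1 ∣ ∑ k, C ((fun k => (Pi.single i (lam i0) : Fin n → K) k -
      (Pi.single i0 (lam i) : Fin n → K) k) k) * pderiv k Q := by
      rcases (prime1 H).dvd_or_dvd h1 with h4 | h4
      · exact h4
      · exact absurd (isUnit_of_dvd_unit h4 ((isUnit_iff_ne_zero.mpr hi0).map C))
          H.irr.not_isUnit
    have h4 := lin_zero_of_dvd H _ (dvd_of_dvd_pd H _ h3)
    have h5 : ∑ k, C ((fun k => (Pi.single i (lam i0) : Fin n → K) k -
      (Pi.single i0 (lam i) : Fin n → K) k) k) * pderiv k Q1 =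
      C (lam i0) * pderiv i Q1 - C (lam i) * pderiv i0 Q1 := by
      rw [← hsum, ← hsum, ← Finset.sum_sub_distrib]
      apply Finset.sum_congr rfl
      intro k _
      rw [C_sub]
      ring
    rw [h5] at h4
    exact sub_eq_zero.mp h4
  have heul := H.h1.sum_X_mul_pderiv
  have hmul : C (lam i0 * (j : K)) * Q1 = l * pderiv i0 Q1 := by
    have h1 : C (lam i0) * ∑ i, X i * pderiv i Q1 = l * pderiv i0 Q1 := by
      conv_rhs => rw [hl2]
      rw [Finset.mul_sum, Finset.sum_mul]
      apply Finset.sum_congr rfl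
      intro i _
      rw [mul_left_comm, hpd]
      ring
    rw [← h1, heul, nsmul_eq_mul, C_mul, map_natCast]
    ring
  have hu : lam i0 * (j : K) ≠ 0 := mul_ne_zero hi0
    (cast_ne H j (by have := H.hj; omega) (by have := j_le H; omega))
  have hdvd : l ∣ Q1 := by
    have h1 : l ∣ C (lam i0 * (j : K)) * Q1 := ⟨_, hmul⟩
    rcases hl.dvd_or_dvd h1 with h2 | h2
    · exact absurd (isUnit_of_dvd_unit h2 ((isUnit_iff_ne_zero.mpr hu).map C)) hl.not_isUnit
    · exact h2
  obtain ⟨w, hw⟩ := (hl.irreducible.associated_of_dvd H.irr hdvd)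
  obtain ⟨κ, hκ, hκ2⟩ := MvPolynomial.isUnit_iff_eq_C_of_isReduced.mp w.isUnit
  have h1 : Q1.IsHomogeneous 1 := by
    rw [← hw, hκ2, mul_comm]
    exact hl1.C_mul κ
  have h2 := h1.inj_right H.h1 H.irr.ne_zero
  have := H.hj
  omega

omit H in
/-- the conclusion over the field of functions of `(a, d)` -/
theorem chi_inj (H : HQ p Q Q1 Q2 j) (L : Type u) [Field L] [Algebra K L]
    [Algebra (P2 n K) L] [IsScalarTower K (P2 n K) L] [IsFractionRing (P2 n K) L] :
    Function.Injective (chi Q L) := by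
  rw [injective_iff_map_eq_zero]
  intro B hB
  by_contra hB0
  obtain ⟨G, hG, -, hGk⟩ := exists_factor (RingHom.ker (chi Q L).toRingHom)
    (RingHom.ker_isPrime _) B (by
      rw [RingHom.mem_ker]
      exact hB) hB0
  rw [RingHom.mem_ker] at hGk
  have hχ : chi Q L G = 0 := hGk
  obtain ⟨g, c, hg, hc, hgt, hgen, hcinv⟩ := exists_g H
  obtain ⟨r, hr⟩ := key_ratio H g hgt hgen G hG L hχ
  have hst : ∀ b u1 v v' : Fin n → K, aeval (Sum.elim b u1) g = 0 →
      aeval (Sum.elim b v) G * aeval (Sum.elim u1 v') g =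
      aeval (Sum.elim b v') G * aeval (Sum.elim u1 v) g := fun b u1 v v' h0 =>
    star Q g G hgen (sym_rel Q g G L r hr) b u1 v v' h0
  have hG1 : ¬ (aeval xa Q1 : P2 n K) ∣ G := by
    intro h
    obtain ⟨w, hw⟩ := (prime_aeval_xa Q1 (prime1 H)).irreducible.associated_of_dvd
      hG.irreducible h
    have h1 : chi Q L (aeval xa Q1) = C (algebraMap (P2 n K) L (aeval xa Q1)) := by
      have h2 : (chi Q L).comp (aeval xa) = ((IsScalarTower.toAlgHom K L (MvPolynomial (Fin n) L)).comp
          (IsScalarTower.toAlgHom K (P2 n K) L)).comp (aeval xa) := by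
        apply MvPolynomial.algHom_ext
        intro i
        unfold chi
        rw [AlgHom.comp_apply, aeval_X, pt_xa, AlgHom.comp_apply, aeval_X]
        rfl
      exact congrArg (fun φ : P1 n K →ₐ[K] MvPolynomial (Fin n) L => φ Q1) h2
    have h2 : chi Q L (aeval xa Q1) = 0 := by
      have h3 := congrArg (chi Q L) hw
      rw [map_mul, hχ] at h3
      exact (mul_eq_zero.mp h3).resolve_right (w.isUnit.map (chi Q L)).ne_zero
    rw [h1, C_eq_zero] at h2
    have h3 : (aeval xa Q1 : P2 n K) = 0 := (IsFractionRing.injective (P2 n K) L)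
      (by rw [h2, map_zero])
    exact (prime_aeval_xa Q1 (prime1 H)).ne_zero h3
  obtain ⟨l, hl, hl1, hdiv⟩ := exists_l H G hG1 (fun b us hbQ i hi hG u1 hu1 v =>
    QT_zero H g c G hgt hc hcinv hst b us hbQ i hi hG u1 hu1 v)
  exact no_l H l hl hl1 hdiv

end HDM

open MvPolynomial

universe u

theorem specHD : SpecHD.{u} := by
  intro p _ K _ _ hK n Q Q1 Q2 j hp hQ hfac hirr h1 hj hndv Ω _ _ a d d' hind
  have H : HDM.HQ p Q Q1 Q2 j := ⟨hp, hK, hQ, hfac, hirr, h1, hj, hndv⟩
  let L := FractionRing (HDM.P2 n K)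
  rw [AlgebraicIndependent] at hind ⊢
  rw [injective_iff_map_eq_zero]
  intro B hB
  apply HDM.chi_inj H L
  rw [map_zero]
  let R3 := MvPolynomial (Fin n ⊕ (Fin n ⊕ Fin n)) K
  let a3 : Fin n → R3 := fun i => X (Sum.inl i)
  let d3 : Fin n → R3 := fun i => X (Sum.inr (Sum.inl i))
  let e3 : Fin n → R3 := fun i => X (Sum.inr (Sum.inr i))
  have h2 : aeval (Sum.elim a3 (mv Q (mv Q a3 d3) e3)) B = 0 := by
    apply hind
    rw [map_zero, ← hB]
    exact HDM.ext2 ((aeval (Sum.elim a (Sum.elim d d'))).comp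
      (aeval (Sum.elim a3 (mv Q (mv Q a3 d3) e3)))) (aeval (Sum.elim a (mv Q (mv Q a d) d'))) (by
        intro i
        rw [AlgHom.comp_apply, HDM.pt_xa, HDM.pt_xa, aeval_X]
        rfl) (by
        intro i
        have e1 : (fun j => aeval (Sum.elim a (Sum.elim d d')) (mv Q a3 d3 j)) = mv Q a d := by
          funext j
          rw [mv_map]
          simp [a3, d3]
        have e2 : (fun j => aeval (Sum.elim a (Sum.elim d d')) (e3 j)) = d' := by
          funext j
          simp [e3]
        rw [AlgHom.comp_apply, HDM.pt_xu, HDM.pt_xu, mv_map, e1, e2]) B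
  let ω : R3 →ₐ[K] MvPolynomial (Fin n) L :=
    aeval (Sum.elim (fun i => C (algebraMap (HDM.P2 n K) L (HDM.xa i)))
      (Sum.elim (fun i => C (algebraMap (HDM.P2 n K) L (HDM.xu i))) X))
  have h3 : ω (aeval (Sum.elim a3 (mv Q (mv Q a3 d3) e3)) B) = HDM.chi Q L B := by
    exact HDM.ext2 (ω.comp (aeval (Sum.elim a3 (mv Q (mv Q a3 d3) e3)))) (HDM.chi Q L) (by
        intro i
        unfold HDM.chi
        rw [AlgHom.comp_apply, HDM.pt_xa, HDM.pt_xa, aeval_X]
        rfl) (by
        intro i
        unfold HDM.chi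
        have e1 : (fun j => ω (mv Q a3 d3 j)) =
            fun j => C (algebraMap (HDM.P2 n K) L (HDM.am Q j)) := by
          funext j
          have h4 := mv_map ((IsScalarTower.toAlgHom K L (MvPolynomial (Fin n) L)).comp
            (IsScalarTower.toAlgHom K (HDM.P2 n K) L)) Q HDM.xa HDM.xu j
          rw [mv_map]
          have h5 : (fun i => ω (a3 i)) = fun i => ((IsScalarTower.toAlgHom K L
            (MvPolynomial (Fin n) L)).comp (IsScalarTower.toAlgHom K (HDM.P2 n K) L))
              (HDM.xa i) := by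
            funext i
            exact aeval_X _ _
          have h6 : (fun i => ω (d3 i)) = fun i => ((IsScalarTower.toAlgHom K L
            (MvPolynomial (Fin n) L)).comp (IsScalarTower.toAlgHom K (HDM.P2 n K) L))
              (HDM.xu i) := by
            funext i
            exact aeval_X _ _
          rw [h5, h6, ← h4]
          rfl
        have e2 : (fun j => ω (e3 j)) = X := by
          funext j
          exact aeval_X _ _
        rw [AlgHom.comp_apply, HDM.pt_xu, HDM.pt_xu, mv_map, e1, e2]) B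
  rw [← h3, h2, map_zero]

end MPcfca
end

section
/-! MP_cfca38_ag: lemmas for the module LA. -/
set_option autoImplicit false
set_option linter.unusedSimpArgs false
set_option linter.unusedSectionVars false

namespace MPcfca
namespace LaM

open MvPolynomial

universe u v

/-- a family of at most `n` elements over which `n` independent elements are algebraic is
independent -/
theorem indep_of_span {K : Type u} {L : Type v} [Field K] [Field L] [Algebra K L] {n : ℕ}
    (y : Fin n → L) (hy : AlgebraicIndependent K y) {ω : Type*} [Finite ω] (g : ω → L)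
    (hc : Nat.card ω ≤ n)
    (h : ∀ i, IsAlgebraic (Algebra.adjoin K (Set.range g)) (y i)) :
    AlgebraicIndependent K g := by
  classical
  obtain ⟨t, hts, hti, htn⟩ := GenM.exists_indep y hy (Set.range g) h
  have hfr : (Set.range g).Finite := Set.finite_range g
  have hft : t.Finite := hfr.subset hts
  have h1 : n ≤ t.ncard := by
    rw [← Set.Finite.cast_ncard_eq hft] at htn
    exact_mod_cast htn
  have h2 : Nat.card (Set.range g) ≤ Nat.card ω := Finite.card_range_le g
  have h3 : t.ncard ≤ (Set.range g).ncard := Set.ncard_le_ncard hts hfr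
  rw [Nat.card_coe_set_eq] at h2
  have h4 : t = Set.range g := Set.eq_of_subset_of_ncard_le hts (by omega) hfr
  subst h4
  have hb := (Set.rangeFactorization_surjective (f := g)).bijective_of_nat_card_le
    (by rw [Nat.card_coe_set_eq]; omega)
  exact hti.comp (Set.rangeFactorization g) hb.1

section mem
variable {N : ℕ} {k Ω : Type u} [Field k] [Field Ω] [Algebra k Ω] (f : MvPolynomial (Idx N) k)
  (F : IntermediateField k Ω)

theorem al_mem {v w : Fin N → Ω} (hv : ∀ j, v j ∈ F) (hw : ∀ j, w j ∈ F) : al f v w ∈ F := by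
  have h1 := al_map f F.val (fun j => (⟨v j, hv j⟩ : F)) (fun j => (⟨w j, hw j⟩ : F))
  have h2 : al f v w = F.val (al f (fun j => (⟨v j, hv j⟩ : F)) (fun j => (⟨w j, hw j⟩ : F))) := by
    rw [h1]
    rfl
  rw [h2]
  exact Subtype.property _

theorem cf_mem {v w : Fin N → Ω} (hv : ∀ j, v j ∈ F) (hw : ∀ j, w j ∈ F) (i : ℕ) :
    cf f v w i ∈ F := by
  have h1 := cf_map f F.val (fun j => (⟨v j, hv j⟩ : F)) (fun j => (⟨w j, hw j⟩ : F)) i
  have h2 : cf f v w i
      = F.val (cf f (fun j => (⟨v j, hv j⟩ : F)) (fun j => (⟨w j, hw j⟩ : F)) i) := by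
    rw [h1]
    rfl
  rw [h2]
  exact Subtype.property _

theorem pol_mem {v w w' : Fin N → Ω} (hv : ∀ j, v j ∈ F) (hw : ∀ j, w j ∈ F)
    (hw' : ∀ j, w' j ∈ F) : pol f v w w' ∈ F := by
  unfold pol
  exact sub_mem (sub_mem (al_mem f F hv (fun j => add_mem (hw j) (hw' j))) (al_mem f F hv hw))
    (al_mem f F hv hw')

end mem

/-- `p`-th roots of the elements of `k(r^p)` are in `k(r)` -/
theorem root_mem {p : ℕ} [hp : Fact p.Prime] {k Ω : Type u} [Field k] [IsAlgClosed k] [CharP k p]
    [Field Ω] [Algebra k Ω] {ω : Type*} (r : ω → Ω) (a : Ω)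
    (ha : a ^ p ∈ IntermediateField.adjoin k (Set.range fun i => r i ^ p)) :
    a ∈ IntermediateField.adjoin k (Set.range r) := by
  have hchar : CharP Ω p := charP_of_injective_algebraMap (algebraMap k Ω).injective p
  have key : ∀ b ∈ IntermediateField.adjoin k (Set.range fun i => r i ^ p),
      ∃ c ∈ IntermediateField.adjoin k (Set.range r), c ^ p = b := by
    intro b hb
    induction hb using IntermediateField.adjoin_induction with
    | mem x hx =>
      obtain ⟨i, rfl⟩ := hx
      exact ⟨r i, IntermediateField.subset_adjoin _ _ ⟨i, rfl⟩, rfl⟩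
    | algebraMap x =>
      obtain ⟨y, hy⟩ := IsAlgClosed.exists_pow_nat_eq x hp.out.pos
      exact ⟨algebraMap k Ω y, IntermediateField.algebraMap_mem _ _, by rw [← map_pow, hy]⟩
    | add x y _ _ hx hy =>
      obtain ⟨c, hc, hc2⟩ := hx
      obtain ⟨d, hd, hd2⟩ := hy
      exact ⟨c + d, add_mem hc hd, by rw [add_pow_char, hc2, hd2]⟩
    | inv x _ hx =>
      obtain ⟨c, hc, hc2⟩ := hx
      exact ⟨c⁻¹, inv_mem hc, by rw [inv_pow, hc2]⟩
    | mul x y _ _ hx hy =>
      obtain ⟨c, hc, hc2⟩ := hx
      obtain ⟨d, hd, hd2⟩ := hy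
      exact ⟨c * d, mul_mem hc hd, by rw [mul_pow, hc2, hd2]⟩
  obtain ⟨c, hc, hc2⟩ := key _ ha
  have h1 : a = c := by
    have := frobenius_inj Ω p
    apply this
    show a ^ p = c ^ p
    exact hc2.symm
  rw [h1]
  exact hc

/-- the embedding of the rational function field -/
theorem to_frac {k Ω : Type u} [Field k] [Field Ω] [Algebra k Ω] {n : ℕ} (r : Fin n → Ω)
    (hr : AlgebraicIndependent k r) :
    ∃ ι : FractionRing (MvPolynomial (Fin n) k) →ₐ[k] Ω,
      ∀ a ∈ IntermediateField.adjoin k (Set.range r), ∃ b, ι b = a := by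
  let ι : FractionRing (MvPolynomial (Fin n) k) →ₐ[k] Ω :=
    IsFractionRing.liftAlgHom (g := aeval (R := k) r) hr
  refine ⟨ι, ?_⟩
  have h1 : IntermediateField.adjoin k (Set.range r) ≤ ι.fieldRange := by
    rw [IntermediateField.adjoin_le_iff]
    rintro _ ⟨i, rfl⟩
    refine ⟨algebraMap (MvPolynomial (Fin n) k) _ (X i), ?_⟩
    show ι _ = _
    rw [IsFractionRing.liftAlgHom_apply, IsFractionRing.lift_algebraMap]
    exact aeval_X r i
  intro a ha
  obtain ⟨b, hb⟩ := h1 ha
  exact ⟨b, hb⟩

section quad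
variable {N : ℕ} {k Ω : Type u} [Field k] [Field Ω] [Algebra k Ω]
  (F : IntermediateField k Ω)

/-- a vector over `F` in the quadric, in general position -/
theorem exists_w (q : (Fin N → Ω) → Ω) (B : LinearMap.BilinForm Ω (Fin N → Ω))
    (hs : ∀ u w, B u w = B w u) (hB : ∀ u w, q (u + w) = q u + q w + B u w)
    (hq : ∀ (c : Ω) u, q (c • u) = c ^ 2 * q u) (hqF : ∀ u : Fin N → Ω, (∀ j, u j ∈ F) → q u ∈ F)
    (y w0 : Fin N → Ω) (hw0F : ∀ j, w0 j ∈ F) (hw0 : q w0 = 0)
    (e1 : Fin N → k) (he1 : B w0 (fun j => algebraMap k Ω (e1 j)) ≠ 0)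
    (e2 : Fin N → k) (he2 : B (fun j => algebraMap k Ω (e2 j)) y ≠ 0) :
    ∃ w1 : Fin N → Ω, (∀ j, w1 j ∈ F) ∧ q w1 = 0 ∧ B w1 y ≠ 0 := by
  by_cases h0 : B w0 y = 0
  swap
  · exact ⟨w0, hw0F, hw0, h0⟩
  obtain ⟨e, he, he'⟩ : ∃ e : Fin N → Ω, (∀ j, e j ∈ F) ∧ B w0 e ≠ 0 ∧ B e y ≠ 0 := by
    by_cases h1 : B (fun j => algebraMap k Ω (e1 j)) y = 0
    · by_cases h2 : B w0 (fun j => algebraMap k Ω (e2 j)) = 0
      · refine ⟨(fun j => algebraMap k Ω (e1 j)) + (fun j => algebraMap k Ω (e2 j)), ?_, ?_, ?_⟩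
        · intro j
          exact add_mem (IntermediateField.algebraMap_mem _ _)
            (IntermediateField.algebraMap_mem _ _)
        · rw [map_add, h2, add_zero]
          exact he1
        · rw [map_add, LinearMap.add_apply, h1, zero_add]
          exact he2
      · exact ⟨_, fun j => IntermediateField.algebraMap_mem _ _, h2, he2⟩
    · exact ⟨_, fun j => IntermediateField.algebraMap_mem _ _, he1, h1⟩
  have hBe : B w0 e = q (w0 + e) - q w0 - q e := by
    rw [hB]
    ring
  have hBF : B w0 e ∈ F := by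
    rw [hBe]
    exact sub_mem (sub_mem (hqF _ fun j => add_mem (hw0F j) (he j)) (hqF _ hw0F)) (hqF _ he)
  refine ⟨q e • w0 + (-(B w0 e)) • e, ?_, ?_, ?_⟩
  · intro j
    exact add_mem (mul_mem (hqF _ he) (hw0F j)) (mul_mem (neg_mem hBF) (he j))
  · rw [hB, hq, hq, hw0]
    simp only [map_smul, LinearMap.smul_apply, smul_eq_mul]
    ring
  · simp only [map_add, LinearMap.add_apply, map_smul, LinearMap.smul_apply, h0, smul_eq_mul,
      mul_zero, zero_add]
    exact mul_ne_zero (neg_ne_zero.mpr he'.1) he'.2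

/-- the coordinates of `y` in terms of those of `w1` and of the projection of `y` from `w1` -/
theorem coords (q : (Fin N → Ω) → Ω) (B : LinearMap.BilinForm Ω (Fin N → Ω))
    (hB : ∀ u w, q (u + w) = q u + q w + B u w)
    (hq : ∀ (c : Ω) u, q (c • u) = c ^ 2 * q u) (hqF : ∀ u : Fin N → Ω, (∀ j, u j ∈ F) → q u ∈ F)
    (hs : ∀ u w, B u w = B w u)
    (y w1 : Fin N → Ω) (hw1F : ∀ j, w1 j ∈ F) (hw1 : q w1 = 0) (hy : q y = 0)
    (hBy : B w1 y ≠ 0) (c l : Ω) (e eh : Fin N → Ω) (he : y = e + c • w1)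
    (hle : e = l • eh) (hl : l ≠ 0) (hehF : ∀ j, eh j ∈ F) (j : Fin N) (hyj : y j = 1) :
    ∀ i, y i ∈ F := by
  have h11 : B w1 w1 = 0 := by
    have h1 := hB w1 w1
    have h2 : w1 + w1 = (2 : Ω) • w1 := by
      rw [two_smul]
    rw [h2, hq, hw1] at h1
    simp only [mul_zero, zero_add] at h1
    exact h1.symm
  have hBe : B w1 eh ≠ 0 := by
    intro h0
    apply hBy
    rw [he, hle, map_add, map_smul, map_smul, h0, h11]
    simp
  have hBF : B w1 eh ∈ F := by
    have : B w1 eh = q (w1 + eh) - q w1 - q eh := by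
      rw [hB]
      ring
    rw [this]
    exact sub_mem (sub_mem (hqF _ fun j => add_mem (hw1F j) (hehF j)) (hqF _ hw1F)) (hqF _ hehF)
  have hqeF : q eh ∈ F := hqF _ hehF
  -- `c = - l q(eh) / B(w1, eh)`
  have h2 : l * (l * q eh + c * B w1 eh) = 0 := by
    have h3 := hy
    rw [he, hle, hB, hq, hq, hw1, map_smul, map_smul, LinearMap.smul_apply, hs eh w1] at h3
    simp only [smul_eq_mul] at h3
    linear_combination h3
  have h4 : l * q eh + c * B w1 eh = 0 := by
    rcases mul_eq_zero.mp h2 with h | h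
    · exact absurd h hl
    · exact h
  have h5 : c = -(l * q eh) / B w1 eh := by
    rw [eq_div_iff hBe]
    linear_combination h4
  have h6 : ∀ i, y i = l * (eh i - q eh / B w1 eh * w1 i) := by
    intro i
    rw [he, hle, h5]
    simp only [Pi.add_apply, Pi.smul_apply, smul_eq_mul]
    field_simp
    ring
  have h7 : ∀ i, eh i - q eh / B w1 eh * w1 i ∈ F := fun i =>
    sub_mem (hehF i) (mul_mem (div_mem hqeF hBF) (hw1F i))
  have hlF : l ∈ F := by
    have h8 := h6 j
    rw [hyj] at h8
    have h9 : l = (eh j - q eh / B w1 eh * w1 j)⁻¹ :=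
      eq_inv_of_mul_eq_one_left h8.symm
    rw [h9]
    exact inv_mem (h7 j)
  intro i
  rw [h6]
  exact mul_mem hlF (h7 i)

end quad

end LaM
end MPcfca
end

section
/-! MP_cfca38_ag: more lemmas for the module LA. -/
set_option autoImplicit false
set_option linter.unusedSimpArgs false
set_option linter.unusedSectionVars false

namespace MPcfca
namespace LaM

open MvPolynomial

universe u v

theorem pol_map' {k A B : Type u} [Field k] [CommRing A] [Algebra k A] [CommRing B] [Algebra k B]
    {N : ℕ} (f : MvPolynomial (Idx N) k) (φ : A →ₐ[k] B) (x e e' : Fin N → A) :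
    φ (pol f x e e') = pol f (fun j => φ (x j)) (fun j => φ (e j)) (fun j => φ (e' j)) := by
  unfold pol
  rw [map_sub, map_sub, al_map, al_map, al_map]
  simp only [map_add]

theorem aeval_mem' {k Ω : Type u} [Field k] [Field Ω] [Algebra k Ω] (F : IntermediateField k Ω)
    {σ : Type*} (s : σ → Ω) (hs : ∀ i, s i ∈ F) (P : MvPolynomial σ k) : aeval s P ∈ F := by
  induction P using MvPolynomial.induction_on with
  | C a =>
    rw [aeval_C]
    exact IntermediateField.algebraMap_mem _ _
  | add P Q hP hQ =>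
    rw [map_add]
    exact add_mem hP hQ
  | mul_X P i hP =>
    rw [map_mul, aeval_X]
    exact mul_mem hP (hs i)

section cfl
variable {N : ℕ} {k Ω : Type u} [Field k] [Infinite k] [Field Ω] [Algebra k Ω] {p : ℕ}
  [hp : Fact p.Prime] {f : MvPolynomial (Idx N) k}

theorem cf_diag (h : IsSec p 2 f) (z : Fin N → Ω) (i : ℕ) : cf f z z i = 0 := by
  unfold cf
  have h1 := equi_all h (fun j => (Polynomial.C (z j) : Polynomial Ω))
    (fun j => Polynomial.C (z j)) 1 Polynomial.X 1 0 1 0
  have h2 : (fun j => 1 * (Polynomial.C (z j) : Polynomial Ω) + 0 * Polynomial.C (z j))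
      = fun j => Polynomial.C (z j) := by
    funext j
    ring
  rw [h2] at h1
  rw [h1]
  simp

theorem cf_zero_of (h : IsSec p 2 f) (z u x : Fin N → Ω) (c : Ω)
    (hx : ∀ j, x j = z j + c * u j) (h0 : ∀ i, i ≤ 2 → cf f z u i = 0) : cf f x z 1 = 0 := by
  have h1 := equi_all h (fun j => (Polynomial.C (z j) : Polynomial Ω))
    (fun j => Polynomial.C (u j)) 1 Polynomial.X 1 (Polynomial.C c) 1 0
  have h2 : (fun j => 1 * (Polynomial.C (z j) : Polynomial Ω) + Polynomial.C c *
      Polynomial.C (u j)) = fun j => Polynomial.C (x j) := by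
    funext j
    rw [hx, map_add, map_mul]
    ring
  have h3 : (fun j => 1 * (Polynomial.C (z j) : Polynomial Ω) + 0 * Polynomial.C (u j))
      = fun j => Polynomial.C (z j) := by
    funext j
    ring
  rw [h2, h3, ev_C_sum h z u] at h1
  have h4 : ∀ (y w : Polynomial Ω), ∑ i ∈ Finset.range (2 + 1),
      Polynomial.C (cf f z u i) * y ^ (2 - i) * w ^ i = 0 := by
    intro y w
    apply Finset.sum_eq_zero
    intro i hi
    rw [Finset.mem_range] at hi
    rw [h0 i (by omega), map_zero, zero_mul, zero_mul]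
  rw [h4, mul_zero] at h1
  unfold cf
  rw [h1]
  simp

/-- the equation for `c^p` -/
theorem root_eq (h : IsSec p 2 f) (z u x : Fin N → Ω) (c : Ω) (hc : c ≠ 0)
    (hx : ∀ j, x j = z j + c * u j) (hzu : al f z u = 0) (hxu : al f x u = 0)
    (hcf : cf f x z 1 ≠ 0) :
    cf f z u 2 ≠ 0 ∧ c ^ p = - cf f z u 1 / cf f z u 2 := by
  have h1 := al_line h z u 1 c
  have h2 : (fun j => 1 * z j + c * u j) = x := by
    funext j
    rw [hx]
    ring
  rw [h2, hxu, one_pow, one_pow, one_mul, ev_sum h] at h1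
  simp only [Finset.sum_range_succ, Finset.sum_range_zero, zero_add, one_pow, mul_one,
    pow_zero, pow_one] at h1
  rw [cf_zero, hzu, zero_add] at h1
  have h3 : c ^ p * (cf f z u 1 + cf f z u 2 * c ^ p) = 0 := by
    linear_combination -h1
  have h4 : cf f z u 1 + cf f z u 2 * c ^ p = 0 := by
    rcases mul_eq_zero.mp h3 with h5 | h5
    · exact absurd h5 (pow_ne_zero _ hc)
    · exact h5
  have h5 : cf f z u 2 ≠ 0 := by
    intro h6
    apply hcf
    apply cf_zero_of h z u x c hx
    intro i hi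
    interval_cases i
    · rw [cf_zero, hzu]
    · rw [h6, zero_mul, add_zero] at h4
      exact h4
    · exact h6
  refine ⟨h5, ?_⟩
  rw [eq_div_iff h5]
  linear_combination h4

/-- the quadratic form `al f z` is zero if it is zero on the vectors with coordinates
`0, j` equal to `0, 1` -/
theorem al_zero_of (h : IsSec p 2 f) (h2 : (2 : Ω) ≠ 0) (z : Fin (N) → Ω) (o j : Fin N)
    (hoj : o ≠ j) (hz : z o = 1)
    (h0 : ∀ u : Fin N → Ω, u o = 0 → u j = 1 → al f z u = 0) (u : Fin N → Ω) :
    al f z u = 0 := by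
  classical
  obtain ⟨B, hs, hpol, hd⟩ := RkM.pol_bilin h z
  have hq : ∀ (c : Ω) (u : Fin N → Ω), al f z (c • u) = c ^ 2 * al f z u := fun c u =>
    al_smul h z u c
  have hB : ∀ u w : Fin N → Ω, al f z (u + w) = al f z u + al f z w + B u w := by
    intro u w
    rw [← hpol]
    unfold pol
    have : (u + w) = fun j => u j + w j := rfl
    rw [this]
    ring
  have s1 : ∀ u : Fin N → Ω, u o = 0 → u j ≠ 0 → al f z u = 0 := by
    intro u hu huj
    have h3 : u = u j • ((u j)⁻¹ • u) := by
      rw [smul_smul, mul_inv_cancel₀ huj, one_smul]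
    rw [h3, hq, h0 ((u j)⁻¹ • u), mul_zero]
    · simp [hu]
    · simp [huj]
  have s2 : ∀ u : Fin N → Ω, u o = 0 → al f z u = 0 := by
    intro u hu
    by_cases huj : u j = 0
    swap
    · exact s1 u hu huj
    let ε : Fin N → Ω := fun i => if i = j then 1 else 0
    have e1 : ε o = 0 := if_neg hoj
    have e2 : ε j = 1 := if_pos rfl
    have h3 := s1 (u + ε) (by simp [hu, e1]) (by simp [huj, e2])
    have h4 := s1 (u + (-1 : Ω) • ε) (by simp [hu, e1]) (by simp [huj, e2])
    have h5 := s1 ε e1 (by simp [e2])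
    rw [hB, h5] at h3
    rw [hB, hq, h5, map_smul, smul_eq_mul] at h4
    have h6 : 2 * al f z u = 0 := by linear_combination h3 + h4
    rcases mul_eq_zero.mp h6 with h7 | h7
    · exact absurd h7 h2
    · exact h7
  have h3 := al_add h z (fun i => u i - u o * z i) (u o)
  have h4 : (fun i => u i - u o * z i + u o * z i) = u := by
    funext i
    ring
  rw [h4] at h3
  rw [h3]
  apply s2
  rw [hz]
  ring

end cfl

end LaM
end MPcfca
end

section
/-! MP_cfca38_ag: the two free coordinates of `z` are independent (module LA). -/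
set_option autoImplicit false
set_option linter.unusedSimpArgs false
set_option linter.unusedSectionVars false

namespace MPcfca
namespace LaM

open MvPolynomial

universe u v

theorem card_two {n : ℕ} (a b : Fin (n + 2)) (hab : a ≠ b) :
    Fintype.card {c : Fin (n + 2) // c ≠ a ∧ c ≠ b} = n := by
  classical
  rw [Fintype.card_subtype]
  have h1 : (Finset.univ.filter fun c : Fin (n + 2) => c ≠ a ∧ c ≠ b)
      = ({a, b} : Finset (Fin (n + 2)))ᶜ := by
    ext c
    simp
  rw [h1, Finset.card_compl, Finset.card_pair hab, Fintype.card_fin]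
  omega

theorem card_three {n : ℕ} (a b d : Fin (n + 3)) (hab : a ≠ b) (had : a ≠ d) (hbd : b ≠ d) :
    Fintype.card {c : Fin (n + 3) // c ≠ a ∧ c ≠ b ∧ c ≠ d} = n := by
  classical
  rw [Fintype.card_subtype]
  have h1 : (Finset.univ.filter fun c : Fin (n + 3) => c ≠ a ∧ c ≠ b ∧ c ≠ d)
      = ({a, b, d} : Finset (Fin (n + 3)))ᶜ := by
    ext c
    simp
  have h2 : ({a, b, d} : Finset (Fin (n + 3))).card = 3 := by
    rw [Finset.card_eq_three]
    exact ⟨a, b, d, hab, had, hbd, rfl⟩
  rw [h1, Finset.card_compl, h2, Fintype.card_fin]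
  omega

section
variable {p : ℕ} [hp : Fact p.Prime] {k Ω : Type u} [Field k] [Infinite k] [Field Ω]
  [Algebra k Ω] {f : MvPolynomial (Idx (p + 2)) k}

/-- algebraic dependence through two steps -/
theorem alg_step (U T : Set Ω) (hT : ∀ a ∈ T, IsAlgebraic (Algebra.adjoin k U) a) (a : Ω)
    (ha : IsAlgebraic (Algebra.adjoin k T) a) : IsAlgebraic (Algebra.adjoin k U) a := by
  let M := AlgebraicIndependent.matroid k Ω
  have h1 : ∀ (S : Set Ω) (a : Ω), a ∈ M.closure S ↔ IsAlgebraic (Algebra.adjoin k S) a := by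
    intro S a
    rw [AlgebraicIndependent.matroid_closure_eq]
    rfl
  rw [← h1] at ha ⊢
  have h2 : T ⊆ M.closure U := fun b hb => (h1 U b).2 (hT b hb)
  exact M.closure_subset_closure_of_subset_closure h2 ha

theorem s_indep (h : IsSec p 2 f) (h2 : (2 : Ω) ≠ 0) (z y : Fin (p + 2) → Ω) (hz0 : z 0 = 1)
    (s : Fin 2 → Ω) (zP : Fin (p + 2) → MvPolynomial (Fin 2) k) (hzP : ∀ c, aeval s (zP c) = z c)
    (j : Fin (p + 2)) (hj : (0 : Fin (p + 2)) ≠ j) (hy0 : y 0 = 0) (hyj : y j = 1)
    (hzy : al f z y = 0) (x : Fin (p + 1) → Ω) (hx : AlgebraicIndependent k x)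
    (halg : ∀ (F : IntermediateField k Ω), (∀ i, s i ∈ F) → (∀ c, y c ∈ F) →
      ∀ i, x i ^ p ∈ F) (e : Fin (p + 2) → Ω)
    (he : al f z e ≠ 0) : AlgebraicIndependent k s := by
  classical
  by_contra hns
  have hp0 : 0 < p := hp.out.pos
  let M := AlgebraicIndependent.matroid k Ω
  have hcl : ∀ (S : Set Ω) (a : Ω), a ∈ M.closure S ↔ IsAlgebraic (Algebra.adjoin k S) a := by
    intro S a
    rw [AlgebraicIndependent.matroid_closure_eq]
    rfl
  obtain ⟨B0, hB0⟩ := M.exists_isBasis (Set.range s)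
  have hfin : B0.Finite := (Set.finite_range s).subset hB0.subset
  have hfin' : Finite B0 := hfin
  have hi : AlgebraicIndepOn k id B0 := AlgebraicIndependent.matroid_indep_iff.1 hB0.indep
  have hcard : Nat.card B0 ≤ 1 := by
    by_contra hcon
    push Not at hcon
    have := Fintype.ofFinite B0
    have hle : Fintype.card (Fin 2) ≤ Fintype.card B0 := by
      rw [Fintype.card_fin, ← Nat.card_eq_fintype_card]
      omega
    obtain ⟨φ⟩ := Function.Embedding.nonempty_of_card_le hle
    have h3 : AlgebraicIndependent k (fun i : Fin 2 => ((φ i : B0) : Ω)) :=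
      hi.comp φ φ.injective
    apply hns
    apply indep_of_span _ h3 s (by simp)
    intro i
    have h4 : ((φ i : B0) : Ω) ∈ Algebra.adjoin k (Set.range s) :=
      Algebra.subset_adjoin (hB0.subset (φ i).2)
    exact isAlgebraic_algebraMap (⟨_, h4⟩ : Algebra.adjoin k (Set.range s))
  have hsB : ∀ i, IsAlgebraic (Algebra.adjoin k B0) (s i) := by
    intro i
    rw [← hcl]
    exact hB0.subset_closure ⟨i, rfl⟩
  -- the family
  let σ := {c : Fin (p + 2) // c ≠ 0 ∧ c ≠ j}
  let Yf : σ → Ω := fun c => y c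
  let fam : σ ⊕ B0 → Ω := Sum.elim Yf (fun b : B0 => (b : Ω))
  have hfamc : Nat.card (σ ⊕ B0) ≤ p + 1 := by
    rw [Nat.card_sum, Nat.card_eq_fintype_card (α := σ), card_two 0 j hj]
    omega
  have hfam : AlgebraicIndependent k fam := by
    apply indep_of_span x hx fam hfamc
    intro i
    let F := IntermediateField.adjoin k (Set.range s ∪ Set.range y)
    have h3 : x i ^ p ∈ F := by
      apply halg F
      · intro i
        exact IntermediateField.subset_adjoin _ _ (Or.inl ⟨i, rfl⟩)
      · intro c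
        exact IntermediateField.subset_adjoin _ _ (Or.inr ⟨c, rfl⟩)
    have h4 : IsAlgebraic F (x i) := by
      apply IsAlgebraic.of_pow hp0
      exact isAlgebraic_algebraMap (⟨_, h3⟩ : F)
    have h5 := IntermediateField.isAlgebraic_adjoin_iff.1 h4
    refine alg_step (Set.range fam) _ ?_ _ h5
    rintro a (⟨i, rfl⟩ | ⟨c, rfl⟩)
    · have h6 : B0 ⊆ Set.range fam := fun b hb => ⟨Sum.inr ⟨b, hb⟩, rfl⟩
      rw [← hcl]
      exact M.closure_subset_closure h6 (hB0.subset_closure ⟨i, rfl⟩)
    · by_cases hc : c ≠ 0 ∧ c ≠ j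
      · have h6 : y c ∈ Algebra.adjoin k (Set.range fam) :=
          Algebra.subset_adjoin ⟨Sum.inl ⟨c, hc⟩, rfl⟩
        exact isAlgebraic_algebraMap (⟨_, h6⟩ : Algebra.adjoin k (Set.range fam))
      · by_cases hc0 : c = 0
        · rw [hc0, hy0]
          exact isAlgebraic_zero
        · have hcj : c = j := by
            by_contra hcj
            exact hc ⟨hc0, hcj⟩
          rw [hcj, hyj]
          exact isAlgebraic_one
  have hY1 := (AlgebraicIndependent.sumElim_iff.mp hfam).2
  have hrange : Set.range (fun b : B0 => (b : Ω)) = B0 := Subtype.range_coe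
  rw [hrange] at hY1
  let F0 := IntermediateField.adjoin k B0
  have hY2 : AlgebraicIndependent F0 Yf :=
    IntermediateField.algebraicIndependent_adjoin_iff.mpr hY1
  let K := algebraicClosure F0 Ω
  have hY3 : AlgebraicIndependent K Yf := hY2.algebraicClosure
  have htow : IsScalarTower k K Ω := IsScalarTower.of_algebraMap_eq fun c => rfl
  let K' : IntermediateField k Ω := K.restrictScalars k
  have hsK : ∀ i, s i ∈ K' := by
    intro i
    have h3 : IsAlgebraic F0 (s i) := IntermediateField.isAlgebraic_adjoin_iff.2 (hsB i)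
    exact mem_algebraicClosure_iff.mpr h3
  have hzK : ∀ c, z c ∈ K := by
    intro c
    have h3 : z c ∈ K' := by
      rw [← hzP]
      exact aeval_mem' K' s hsK _
    exact h3
  let zK : Fin (p + 2) → K := fun c => ⟨z c, hzK c⟩
  let R := MvPolynomial σ K
  let W : Fin (p + 2) → R := fun c => if h : c ≠ 0 ∧ c ≠ j then X ⟨c, h⟩ else
    if c = 0 then 0 else 1
  let G : R := al f (fun c => (C (zK c) : R)) W
  have hGy : aeval Yf G = 0 := by
    let φ : R →ₐ[k] Ω := (aeval Yf : R →ₐ[K] Ω).restrictScalars k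
    have h3 : aeval Yf G = φ G := rfl
    have h4 : (fun c => φ (C (zK c) : R)) = z := by
      funext c
      show aeval Yf (C (zK c) : R) = _
      rw [aeval_C]
      rfl
    have h5 : (fun c => φ (W c)) = y := by
      funext c
      simp only [W]
      by_cases hc : c ≠ 0 ∧ c ≠ j
      · rw [dif_pos hc]
        show aeval Yf (X ⟨c, hc⟩ : R) = _
        rw [aeval_X]
      · rw [dif_neg hc]
        by_cases hc0 : c = 0
        · rw [if_pos hc0, map_zero, hc0, hy0]
        · have hcj : c = j := by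
            by_contra hcj
            exact hc ⟨hc0, hcj⟩
          rw [if_neg hc0, map_one, hcj, hyj]
    rw [h3, al_map, h4, h5, hzy]
  have hG0 : G = 0 := hY3.eq_zero_of_aeval_eq_zero G hGy
  -- over `Ω`
  have h0 : ∀ u : Fin (p + 2) → Ω, u 0 = 0 → u j = 1 → al f z u = 0 := by
    intro u hu0 huj
    let φ : R →ₐ[k] Ω := (aeval (fun c : σ => u c) : R →ₐ[K] Ω).restrictScalars k
    have h4 : (fun c => φ (C (zK c) : R)) = z := by
      funext c
      show aeval (fun c : σ => u c) (C (zK c) : R) = _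
      rw [aeval_C]
      rfl
    have h5 : (fun c => φ (W c)) = u := by
      funext c
      simp only [W]
      by_cases hc : c ≠ 0 ∧ c ≠ j
      · rw [dif_pos hc]
        show aeval (fun c : σ => u c) (X ⟨c, hc⟩ : R) = _
        rw [aeval_X]
      · rw [dif_neg hc]
        by_cases hc0 : c = 0
        · rw [if_pos hc0, map_zero, hc0, hu0]
        · have hcj : c = j := by
            by_contra hcj
            exact hc ⟨hc0, hcj⟩
          rw [if_neg hc0, map_one, hcj, huj]
    have h6 : φ G = 0 := by rw [hG0, map_zero]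
    rw [al_map, h4, h5] at h6
    exact h6
  exact he (al_zero_of h h2 z 0 j hj hz0 h0 e)

end

end LaM
end MPcfca
end

section
/-! MP_cfca38_ag: module LA. A generic `x` over a purely transcendental field, whose quadric has
a smooth point. -/
set_option autoImplicit false
set_option linter.unusedSimpArgs false
set_option linter.unusedSectionVars false

namespace MPcfca
namespace LaM

open MvPolynomial

universe u v

section
variable {p : ℕ} [hp : Fact p.Prime] {k Ω : Type u} [Field k] [IsAlgClosed k] [CharP k p]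
  [Field Ω] [Algebra k Ω] {f : MvPolynomial (Idx (p + 2)) k}

/-- TL: a zero of the quadratic form over `k(s)`, not in the radical -/
theorem exists_w0 (hTL : SpecTL.{u}) (h : IsSec p 2 f) (h2 : (2 : Ω) ≠ 0) (z : Fin (p + 2) → Ω)
    (s : Fin 2 → Ω) (hs : AlgebraicIndependent k s)
    (zP : Fin (p + 2) → MvPolynomial (Fin 2) k) (hzP : ∀ c, aeval s (zP c) = z c)
    (B : LinearMap.BilinForm Ω (Fin (p + 2) → Ω)) (hpol : ∀ u w, pol f z u w = B u w)
    (hd : ∀ u, B u u = 2 * al f z u) (E : Fin 5 → Fin (p + 2) → k)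
    (hE : (Matrix.of fun i j : Fin 5 => pol f z (fun l => algebraMap k Ω (E i l))
        (fun l => algebraMap k Ω (E j l))).det ≠ 0) :
    ∃ (w0 : Fin (p + 2) → Ω) (i0 : Fin 5),
      (∀ F : IntermediateField k Ω, (∀ i, s i ∈ F) → ∀ c, w0 c ∈ F) ∧
      al f z w0 = 0 ∧ B w0 (fun l => algebraMap k Ω (E i0 l)) ≠ 0 := by
  classical
  let R := MvPolynomial (Fin 2) k
  let φ : R →ₐ[k] Ω := aeval s
  let A : Fin 5 → Fin 5 → R := fun i j => pol f zP (fun l => C (E i l)) (fun l => C (E j l))
  have hA : ∀ i j, φ (A i j) = B (fun l => algebraMap k Ω (E i l))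
      (fun l => algebraMap k Ω (E j l)) := by
    intro i j
    simp only [A]
    rw [pol_map', ← hpol]
    have e1 : (fun c => φ (zP c)) = z := funext hzP
    have e2 : ∀ i, (fun l => φ (C (E i l) : R)) = fun l => algebraMap k Ω (E i l) := by
      intro i
      funext l
      exact aeval_C s (E i l)
    rw [e1, e2, e2]
  obtain ⟨q, hq0, hq⟩ := hTL k A
  let Ei : Fin 5 → Fin (p + 2) → Ω := fun i l => algebraMap k Ω (E i l)
  let w0 : Fin (p + 2) → Ω := ∑ i, φ (q i) • Ei i
  have hBw : ∀ e, B w0 e = ∑ i, φ (q i) * B (Ei i) e := by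
    intro e
    simp only [w0]
    rw [map_sum, LinearMap.sum_apply]
    apply Finset.sum_congr rfl
    intro i _
    rw [map_smul, LinearMap.smul_apply, smul_eq_mul]
  have hne : ∃ i, φ (q i) ≠ 0 := by
    by_contra hcon
    push Not at hcon
    apply hq0
    funext i
    exact hs.eq_zero_of_aeval_eq_zero _ (hcon i)
  obtain ⟨i0, hi0⟩ : ∃ i0, B w0 (Ei i0) ≠ 0 := by
    by_contra hcon
    push Not at hcon
    obtain ⟨i, hi⟩ := hne
    apply hi
    have h3 : (fun i => φ (q i)) = 0 := by
      apply Matrix.eq_zero_of_vecMul_eq_zero hE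
      funext j
      rw [Matrix.vecMul, dotProduct, Pi.zero_apply, ← hcon j, hBw]
      apply Finset.sum_congr rfl
      intro i _
      rw [Matrix.of_apply, hpol]
    exact congrFun h3 i
  have hww : B w0 w0 = 0 := by
    rw [hBw]
    have h3 : ∀ i, B (Ei i) w0 = ∑ j, φ (q j) * B (Ei i) (Ei j) := by
      intro i
      simp only [w0]
      rw [map_sum]
      apply Finset.sum_congr rfl
      intro j _
      rw [map_smul, smul_eq_mul]
    have h4 := congrArg φ hq
    rw [map_sum, map_zero] at h4
    rw [← h4]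
    apply Finset.sum_congr rfl
    intro i _
    rw [h3, map_sum, Finset.mul_sum]
    apply Finset.sum_congr rfl
    intro j _
    rw [map_mul, map_mul, hA]
    simp only [Ei]
    ring
  refine ⟨w0, i0, ?_, ?_, hi0⟩
  · intro F hF c
    simp only [w0]
    rw [Finset.sum_apply]
    apply sum_mem
    intro i _
    exact mul_mem (aeval_mem' F s hF _) (IntermediateField.algebraMap_mem _ _)
  · rw [hd] at hww
    rcases mul_eq_zero.mp hww with h5 | h5
    · exact absurd h5 h2
    · exact h5

end

end LaM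

open MvPolynomial LaM

universe u

theorem specLA (hSpA : SpecSpA.{u}) (hTL : SpecTL.{u}) : SpecLA.{u} := by
  classical
  intro p _ k _ _ _ f hg
  obtain ⟨Ω, _, _, _, x, z, hx0, hz0, hxi, halg, hxz, hzx, hcf, ⟨e, he⟩, ⟨e', he'⟩, ⟨E, hE⟩,
    J, hJc, hJ⟩ := hSpA p k f hg
  have hp1 : 0 < p := (Fact.out : p.Prime).pos
  have h5 := hg.five
  have hsec := hg.sec
  have hchar : CharP Ω p := charP_of_injective_algebraMap (algebraMap k Ω).injective p
  have h2 : (2 : Ω) ≠ 0 := by
    intro h20
    have h3 : ((2 : ℕ) : Ω) = 0 := by exact_mod_cast h20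
    rw [CharP.cast_eq_zero_iff Ω p] at h3
    have h4 := Nat.le_of_dvd (by norm_num) h3
    omega
  obtain ⟨B, hs, hpol, hd⟩ := RkM.pol_bilin hsec z
  have hq : ∀ (c : Ω) (u : Fin (p + 2) → Ω), al f z (c • u) = c ^ 2 * al f z u := fun c u =>
    al_smul hsec z u c
  have hB : ∀ u w : Fin (p + 2) → Ω, al f z (u + w) = al f z u + al f z w + B u w := by
    intro u w
    rw [← hpol]
    unfold pol
    have : (u + w) = fun j => u j + w j := rfl
    rw [this]
    ring
  have hadd : ∀ (u : Fin (p + 2) → Ω) (c : Ω), al f z (u + c • z) = al f z u := by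
    intro u c
    exact al_add hsec z u c
  have hBz : ∀ u, B z u = 0 := by
    intro u
    have h3 := hB u z
    have h4 := hadd u 1
    rw [one_smul] at h4
    have h6 := hadd 0 1
    rw [one_smul, zero_add] at h6
    have h7 := hq 0 0
    rw [zero_smul] at h7
    rw [h4, h6, h7] at h3
    rw [hs]
    linear_combination -h3
  -- the difference
  let y : Fin (p + 2) → Ω := fun c => x c - z c
  obtain ⟨j, hj⟩ : ∃ j, y j ≠ 0 := by
    by_contra hcon
    push Not at hcon
    apply hcf
    have h3 : x = z := by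
      funext c
      exact sub_eq_zero.mp (hcon c)
    rw [h3]
    exact cf_diag hsec z 1
  have hy0 : y 0 = 0 := by simp only [y, hx0, hz0, sub_self]
  have hj0 : (0 : Fin (p + 2)) ≠ j := by
    intro h3
    rw [← h3] at hj
    exact hj hy0
  let t : Ω := (y j)⁻¹
  have ht : t ≠ 0 := inv_ne_zero hj
  let Y : Fin (p + 2) → Ω := fun c => t * y c
  have hY0 : Y 0 = 0 := by simp only [Y, hy0, mul_zero]
  have hYj : Y j = 1 := inv_mul_cancel₀ hj
  have hxY : ∀ c, x c = z c + y j * Y c := by
    intro c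
    have h3 : y j * (t * y c) = y c := by
      rw [← mul_assoc, mul_inv_cancel₀ hj, one_mul]
    show x c = z c + y j * (t * y c)
    rw [h3]
    simp only [y]
    ring
  have hzY : al f z Y = 0 := by
    have h3 := al_lin hsec z x (-t) t
    rw [hzx, mul_zero] at h3
    rw [← h3]
    congr 1
    funext c
    simp only [Y, y]
    ring
  have hxY2 : al f x Y = 0 := by
    have h3 := al_lin hsec x z t (-t)
    rw [hxz, mul_zero] at h3
    rw [← h3]
    congr 1
    funext c
    simp only [Y, y]
    ring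
  obtain ⟨hcf2, hroot⟩ := root_eq hsec z Y x (y j) hj hxY hzY hxY2 hcf
  -- `p`-th powers of the coordinates of `x`
  have hpow : ∀ F : IntermediateField k Ω, (∀ c, z c ∈ F) → (∀ c, Y c ∈ F) →
      ∀ c, x c ^ p ∈ F := by
    intro F hzF hYF c
    rw [hxY, add_pow_char, mul_pow, hroot]
    exact add_mem (pow_mem (hzF c) p) (mul_mem (div_mem (neg_mem (cf_mem f F hzF hYF 1))
      (cf_mem f F hzF hYF 2)) (pow_mem (hYF c) p))
  -- the two free coordinates of `z`
  have hJc2 : Jᶜ.card = 2 := by
    rw [Finset.card_compl, Fintype.card_fin, hJc]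
    omega
  obtain ⟨c1, c2, hc12, hJ12⟩ := Finset.card_eq_two.mp hJc2
  let s : Fin 2 → Ω := ![z c1.succ, z c2.succ]
  have hzP0 : ∀ c, ∃ P : MvPolynomial (Fin 2) k, aeval s P = z c := by
    intro c
    refine Fin.cases ?_ (fun i => ?_) c
    · exact ⟨1, by rw [map_one, hz0]⟩
    · by_cases hi : i ∈ J
      · obtain ⟨a, ha⟩ := hJ i hi
        exact ⟨C a, by rw [aeval_C, ha]⟩
      · have h3 : i ∈ Jᶜ := Finset.mem_compl.2 hi
        rw [hJ12, Finset.mem_insert, Finset.mem_singleton] at h3
        rcases h3 with h3 | h3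
        · exact ⟨X 0, by rw [aeval_X, h3]; rfl⟩
        · exact ⟨X 1, by rw [aeval_X, h3]; rfl⟩
  choose zP hzP using hzP0
  have hzF : ∀ F : IntermediateField k Ω, (∀ i, s i ∈ F) → ∀ c, z c ∈ F := by
    intro F hF c
    rw [← hzP]
    exact aeval_mem' F s hF _
  -- some value of the form is not zero
  obtain ⟨e0, he0⟩ : ∃ e0 : Fin (p + 2) → Ω, al f z e0 ≠ 0 := by
    by_contra hcon
    push Not at hcon
    apply he'
    unfold pol
    rw [hcon, hcon, hcon]
    ring
  have hsi : AlgebraicIndependent k s := by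
    refine s_indep hsec h2 z Y hz0 s zP hzP j hj0 hY0 hYj hzY (fun i => x i.succ) hxi ?_ e0 he0
    intro F hF hYF i
    exact hpow F (hzF F hF) hYF i.succ
  obtain ⟨w0, i0, hw0F, hw0, hw0B⟩ := exists_w0 hTL hsec h2 z s hsi zP hzP B hpol hd E hE
  -- general position
  let Fs := IntermediateField.adjoin k (Set.range s)
  have hsF : ∀ i, s i ∈ Fs := fun i => IntermediateField.subset_adjoin _ _ ⟨i, rfl⟩
  have hYe : B (fun l => algebraMap k Ω (e' l)) Y ≠ 0 := by
    have h3 : Y = t • x + (-t) • z := by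
      funext c
      simp only [Y, y, Pi.add_apply, Pi.smul_apply, smul_eq_mul]
      ring
    rw [hs, h3, map_add, map_smul, map_smul, LinearMap.add_apply, LinearMap.smul_apply,
      LinearMap.smul_apply, hBz, smul_zero, add_zero, smul_eq_mul, ← hpol]
    exact mul_ne_zero ht he'
  obtain ⟨w2, hw2F, hw2, hw2B⟩ := exists_w Fs (al f z) B hs hB hq
    (fun u hu => al_mem f Fs (hzF Fs hsF) hu) Y w0 (hw0F Fs hsF) hw0 (E i0) hw0B e' hYe
  let w1 : Fin (p + 2) → Ω := w2 + (-(w2 0)) • z
  have hw1 : al f z w1 = 0 := by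
    simp only [w1]
    rw [hadd, hw2]
  have hw1B : B w1 Y ≠ 0 := by
    simp only [w1]
    rw [map_add, map_smul, LinearMap.add_apply, LinearMap.smul_apply, hBz, smul_zero, add_zero]
    exact hw2B
  have hw10 : w1 0 = 0 := by
    simp only [w1, Pi.add_apply, Pi.smul_apply, smul_eq_mul, hz0]
    ring
  have hw1F : ∀ F : IntermediateField k Ω, (∀ i, s i ∈ F) → ∀ c, w1 c ∈ F := by
    intro F hF c
    have hle : Fs ≤ F := by
      rw [IntermediateField.adjoin_le_iff]
      rintro _ ⟨i, rfl⟩
      exact hF i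
    exact add_mem (hle (hw2F c)) (mul_mem (neg_mem (hle (hw2F 0))) (hzF F hF c))
  obtain ⟨i, hi⟩ : ∃ i, w1 i ≠ 0 := by
    by_contra hcon
    push Not at hcon
    apply hw1B
    have h3 : w1 = 0 := funext hcon
    rw [h3, map_zero, LinearMap.zero_apply]
  have hi0' : (0 : Fin (p + 2)) ≠ i := by
    intro h3
    rw [← h3] at hi
    exact hi hw10
  let cc : Ω := Y i / w1 i
  let ee : Fin (p + 2) → Ω := Y + (-cc) • w1
  have hee0 : ee 0 = 0 := by
    simp only [ee, Pi.add_apply, Pi.smul_apply, smul_eq_mul, hY0, hw10, mul_zero, add_zero]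
  have heei : ee i = 0 := by
    simp only [ee, cc, Pi.add_apply, Pi.smul_apply, smul_eq_mul]
    field_simp
    ring
  have hw11 : B w1 w1 = 0 := by rw [hd, hw1, mul_zero]
  have heeB : B w1 ee ≠ 0 := by
    simp only [ee]
    rw [map_add, map_smul, hw11, smul_zero, add_zero]
    exact hw1B
  obtain ⟨l, hl⟩ : ∃ l, ee l ≠ 0 := by
    by_contra hcon
    push Not at hcon
    apply heeB
    have h3 : ee = 0 := funext hcon
    rw [h3, map_zero]
  have hl0 : (0 : Fin (p + 2)) ≠ l := by
    intro h3
    rw [← h3] at hl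
    exact hl hee0
  have hil : i ≠ l := by
    intro h3
    rw [← h3] at hl
    exact hl heei
  let eh : Fin (p + 2) → Ω := (ee l)⁻¹ • ee
  have heh0 : eh 0 = 0 := by
    simp only [eh, Pi.smul_apply, hee0, smul_zero]
  have hehi : eh i = 0 := by
    simp only [eh, Pi.smul_apply, heei, smul_zero]
  have hehl : eh l = 1 := by
    simp only [eh, Pi.smul_apply, smul_eq_mul]
    exact inv_mul_cancel₀ hl
  have hYe2 : Y = ee + cc • w1 := by
    simp only [ee]
    rw [neg_smul, neg_add_cancel_right]
  have hee2 : ee = ee l • eh := by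
    simp only [eh]
    rw [smul_smul, mul_inv_cancel₀ hl, one_smul]
  -- the generators
  obtain ⟨n, hn⟩ : ∃ n, p + 2 = n + 3 := ⟨p - 1, by omega⟩
  let σ := {c : Fin (p + 2) // c ≠ 0 ∧ c ≠ i ∧ c ≠ l}
  have hσ : Fintype.card σ = p - 1 := by
    have h3 : ({0, i, l} : Finset (Fin (p + 2))).card = 3 := by
      rw [Finset.card_eq_three]
      exact ⟨0, i, l, hi0', hl0, hil, rfl⟩
    have h4 : (Finset.univ.filter fun c : Fin (p + 2) => c ≠ 0 ∧ c ≠ i ∧ c ≠ l)
        = ({0, i, l} : Finset (Fin (p + 2)))ᶜ := by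
      ext c
      simp
    rw [Fintype.card_subtype, h4, Finset.card_compl, h3, Fintype.card_fin]
    omega
  let g : Fin 2 ⊕ σ → Ω := Sum.elim s (fun c : σ => eh c)
  have hcg : Fintype.card (Fin 2 ⊕ σ) = p + 1 := by
    rw [Fintype.card_sum, hσ, Fintype.card_fin]
    omega
  have hFg : ∀ F : IntermediateField k Ω, (∀ a, g a ∈ F) →
      (∀ c, z c ∈ F) ∧ (∀ c, Y c ∈ F) := by
    intro F hF
    have hsF' : ∀ i, s i ∈ F := fun i => hF (Sum.inl i)
    have hehF : ∀ c, eh c ∈ F := by
      intro c
      by_cases hc : c ≠ 0 ∧ c ≠ i ∧ c ≠ l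
      · exact hF (Sum.inr ⟨c, hc⟩)
      · by_cases hc0 : c = 0
        · rw [hc0, heh0]
          exact zero_mem _
        · by_cases hci : c = i
          · rw [hci, hehi]
            exact zero_mem _
          · have hcl : c = l := by
              by_contra hcl
              exact hc ⟨hc0, hci, hcl⟩
            rw [hcl, hehl]
            exact one_mem _
    refine ⟨hzF F hsF', ?_⟩
    exact coords F (al f z) B hB hq (fun u hu => al_mem f F (hzF F hsF') hu) hs Y w1
      (hw1F F hsF') hw1 hzY hw1B cc (ee l) ee eh hYe2 hee2 hl hehF j hYj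
  let ε : Fin (p + 1) ≃ (Fin 2 ⊕ σ) := (Fintype.equivFinOfCardEq hcg).symm
  have hr0 : ∀ a, ∃ b : Ω, b ^ p = g a := fun a => IsAlgClosed.exists_pow_nat_eq _ hp1
  choose r hr using hr0
  let r' : Fin (p + 1) → Ω := fun a => r (ε a)
  have hrange : Set.range (fun a => r' a ^ p) = Set.range g := by
    ext b
    constructor
    · rintro ⟨a, rfl⟩
      exact ⟨ε a, (hr _).symm⟩
    · rintro ⟨a, rfl⟩
      refine ⟨ε.symm a, ?_⟩
      simp only [r', Equiv.apply_symm_apply]
      exact hr a
  let F1 := IntermediateField.adjoin k (Set.range g)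
  have hF1 := hFg F1 (fun a => IntermediateField.subset_adjoin _ _ ⟨a, rfl⟩)
  let Kr := IntermediateField.adjoin k (Set.range r')
  have hxK : ∀ c, x c ∈ Kr := by
    intro c
    apply root_mem (p := p)
    rw [hrange]
    exact hpow F1 hF1.1 hF1.2 c
  have hzK : ∀ c, z c ∈ Kr := by
    intro c
    apply root_mem (p := p)
    rw [hrange]
    exact pow_mem (hF1.1 c) p
  have hri : AlgebraicIndependent k r' := by
    apply indep_of_span (fun i => x i.succ) hxi r' (by simp)
    intro i
    apply IntermediateField.isAlgebraic_adjoin_iff.1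
    exact isAlgebraic_algebraMap (⟨_, hxK i.succ⟩ : Kr)
  obtain ⟨ι, hι⟩ := to_frac r' hri
  choose x' hx' using fun c => hι (x c) (hxK c)
  choose z' hz' using fun c => hι (z c) (hzK c)
  have hinj : Function.Injective ι := ι.toRingHom.injective
  refine ⟨p + 1, x', z', ?_, ?_, ?_, (fun c => algebraMap k _ (e c)), ?_⟩
  · apply hinj
    rw [hx', hx0, map_one]
  · apply AlgebraicIndependent.of_comp ι
    have h3 : (ι ∘ fun j : Fin (p + 1) => x' j.succ) = fun j => x j.succ := by
      funext j
      exact hx' _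
    rw [h3]
    exact hxi
  · apply hinj
    rw [al_map, map_zero]
    have h3 : (fun c => ι (x' c)) = x := funext hx'
    have h4 : (fun c => ι (z' c)) = z := funext hz'
    rw [h3, h4, hxz]
  · intro h3
    have h4 := congrArg ι h3
    rw [pol_map', map_zero] at h4
    have h5 : (fun c => ι (x' c)) = x := funext hx'
    have h6 : (fun c => ι (z' c)) = z := funext hz'
    have h7 : (fun c => ι (algebraMap k _ (e c))) = fun c => algebraMap k Ω (e c) := by
      funext c
      exact ι.commutes (e c)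
    rw [h5, h6, h7] at h4
    exact he h4

end MPcfca
end
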