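import Pool.Agent.Lib.MP_cfca38_ag.PT1
import Pool.Agent.Lib.MP_cfca38_ag.La

/-! MP_cfca38_ag: the module NL: for generic `x` the quartic form `al f x` has a nonlinear
factor of multiplicity one (from AL, CR). -/

set_option autoImplicit false
set_option linter.unusedSimpArgs false
set_option linter.unusedSectionVars false

namespace MPcfca

open MvPolynomial

universe u

namespace NLM

/-! ### factors of homogeneous polynomials, linear forms -/

section hom
variable {σ : Type} [Fintype σ] {K : Type u} [Field K]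

theorem eval_one (P : MvPolynomial σ K) :
    Polynomial.eval 1 (aeval (R := K) (fun j => Polynomial.X * Polynomial.C (X j)) P :
      Polynomial (MvPolynomial σ K)) = P := by
  have h : (evA K (1 : MvPolynomial σ K)).comp
      (aeval (R := K) (fun j => Polynomial.X * Polynomial.C (X j))) =
      AlgHom.id K (MvPolynomial σ K) := by
    apply MvPolynomial.algHom_ext
    intro i
    rw [AlgHom.comp_apply, aeval_X, map_mul, evA_X, evA_C, one_mul]
    rfl
  have h2 := congrArg (fun g : MvPolynomial σ K →ₐ[K] MvPolynomial σ K => g P) h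
  simp only [AlgHom.comp_apply, evA_eval, AlgHom.id_apply] at h2
  exact h2

/-- factors of homogeneous polynomials are homogeneous -/
theorem factor_homog {m : ℕ} {Q P1 P2 : MvPolynomial σ K} (hQ : Q.IsHomogeneous m)
    (h0 : Q ≠ 0) (h : Q = P1 * P2) :
    ∃ d e : ℕ, d + e = m ∧ P1.IsHomogeneous d ∧ P2.IsHomogeneous e := by
  have h1 : (aeval (R := K) (fun j => Polynomial.X * Polynomial.C (X j)) Q :
      Polynomial (MvPolynomial σ K)) = Polynomial.X ^ m * Polynomial.C Q := by
    rw [hom_smul hQ, aeval_C', aeval_X_left_apply]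
  have h2 := h1
  conv_lhs at h2 => rw [h, map_mul]
  rw [mul_comm (Polynomial.X ^ m)] at h2
  obtain ⟨d, e, hde, hd, he⟩ := PrM.mono_of_mul h0 h2
  refine ⟨d, e, hde, isHomogeneous_of d P1 ?_, isHomogeneous_of e P2 ?_⟩
  · rw [hd, eval_one, mul_comm]
  · rw [he, eval_one, mul_comm]

theorem hom_zero_eq_C {P : MvPolynomial σ K} (h : P.IsHomogeneous 0) : P = C (coeff 0 P) :=
  totalDegree_eq_zero_iff_eq_C.mp ((totalDegree_zero_iff_isHomogeneous _).mpr h)

/-- linear forms -/
theorem lin_form {P : MvPolynomial σ K} (h : P.IsHomogeneous 1) :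
    ∃ c : σ → K, P = ∑ i, X i * C (c i) := by
  refine ⟨fun i => coeff 0 (pderiv i P), ?_⟩
  have h1 := h.sum_X_mul_pderiv
  rw [one_smul] at h1
  conv_lhs => rw [← h1]
  apply Finset.sum_congr rfl
  intro i _
  have h2 : (pderiv i P).IsHomogeneous 0 := h.pderiv
  rw [← hom_zero_eq_C h2]

/-- a polynomial dividing its partial derivative -/
theorem pd_zero {F : MvPolynomial σ K} (i : σ) (h : F ∣ pderiv i F) : pderiv i F = 0 := by
  by_contra hne
  have hF : F ≠ 0 := by
    rintro rfl
    exact hne (map_zero _)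
  obtain ⟨c, hc⟩ := h
  have hc0 : c ≠ 0 := by
    rintro rfl
    exact hne (by rw [hc, mul_zero])
  have h1 : (pderiv i F).totalDegree = F.totalDegree + c.totalDegree := by
    rw [hc, totalDegree_mul_of_isDomain hF hc0]
  have h2 : ∀ m ∈ (pderiv i F).support, m.degree < F.totalDegree := by
    intro m hm
    rw [mem_support_iff, coeff_pderiv] at hm
    have h3 : m + Finsupp.single i 1 ∈ F.support := by
      rw [mem_support_iff]
      exact left_ne_zero_of_mul hm
    have h4 := le_totalDegree h3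
    have h5 : (m + Finsupp.single i 1).sum (fun _ e => e) = m.degree + 1 := by
      have h6 : (m + Finsupp.single i 1).sum (fun _ e => e) =
        Finsupp.degree (m + Finsupp.single i 1) := rfl
      rw [h6, map_add, Finsupp.degree_single]
    omega
  obtain ⟨m, hm⟩ := (support_nonempty.mpr hne)
  have h6 : 0 < F.totalDegree := lt_of_le_of_lt (Nat.zero_le _) (h2 m hm)
  have h7 : (pderiv i F).totalDegree < F.totalDegree := by
    unfold totalDegree at h6 ⊢
    rw [Finset.sup_lt_iff h6]
    intro b hb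
    exact h2 b hb
  omega

end hom

/-! ### no square factors -/

section sq
variable {N : ℕ} {k : Type u} [Field k] {f : MvPolynomial (Idx N) k}
variable {Ω : Type u} [Field Ω] [Algebra k Ω]

/-- the point `(x, w)` with `w` the variables -/
noncomputable def pz (x : Fin N → Ω) : Fin N ⊕ Fin N → MvPolynomial (Fin N) Ω :=
  Sum.elim (fun j => C (x j)) X

theorem pz_indep (x : Fin N → Ω) (hx : AlgebraicIndependent k x) :
    AlgebraicIndependent k (pz x) := by
  have h1 := hx.sumElim_comp (MvPolynomial.algebraicIndependent_X (Fin N) Ω)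
  have h2 := h1.comp Sum.swap Sum.swap_leftInverse.injective
  have h3 : (Sum.elim (X : Fin N → MvPolynomial (Fin N) Ω)
      (algebraMap Ω (MvPolynomial (Fin N) Ω) ∘ x)) ∘ Sum.swap = pz x := by
    funext i
    rcases i with i | i <;> rfl
  rw [h3] at h2
  exact h2

theorem pz_alP (x : Fin N → Ω) : aeval (pz x) (alP f) = Qx f x := by
  unfold alP Qx
  rw [al_map]
  simp only [aeval_X, pz, Sum.elim_inl, Sum.elim_inr]

theorem pz_pd (x : Fin N → Ω) (h : MvPolynomial (Fin N ⊕ Fin N) k) (j : Fin N) :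
    pderiv j (aeval (pz x) h) = aeval (pz x) (pderiv (Sum.inr j) h) := by
  classical
  have h1 := CrM.chain ((pderiv j : Derivation Ω (MvPolynomial (Fin N) Ω) _).restrictScalars k)
    (pz x) h
  have h2 : ∀ a : MvPolynomial (Fin N) Ω,
    ((pderiv j : Derivation Ω (MvPolynomial (Fin N) Ω) _).restrictScalars k) a = pderiv j a :=
    fun a => rfl
  simp only [h2] at h1
  rw [h1, Fintype.sum_sum_type]
  simp only [pz, Sum.elim_inl, Sum.elim_inr, pderiv_C, mul_zero, Finset.sum_const_zero, zero_add]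
  rw [Finset.sum_eq_single j]
  · rw [pderiv_X_self, mul_one]
  · intro i _ hi
    rw [pderiv_X_of_ne hi, mul_zero]
  · intro hn
    exact absurd (Finset.mem_univ j) hn

/-- polynomials in `x` and the `w_i`, `i ≠ j0` -/
theorem deg_zero (x : Fin N → Ω) (j0 : Fin N)
    (h : MvPolynomial {i : Fin N ⊕ Fin N // i ≠ Sum.inr j0} k) :
    degreeOf j0 (aeval (fun i : {i : Fin N ⊕ Fin N // i ≠ Sum.inr j0} => pz x i) h) = 0 := by
  induction h using MvPolynomial.induction_on with
  | C a =>
    rw [aeval_C]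
    have h1 : algebraMap k (MvPolynomial (Fin N) Ω) a = C (algebraMap k Ω a) := rfl
    rw [h1, degreeOf_C]
  | add P Q hP hQ =>
    rw [map_add]
    apply Nat.le_zero.mp
    refine le_trans (degreeOf_add_le _ _ _) ?_
    rw [hP, hQ, max_self]
  | mul_X P i hP =>
    rw [map_mul, aeval_X]
    apply Nat.le_zero.mp
    refine le_trans (degreeOf_mul_le _ _ _) ?_
    rw [hP, zero_add]
    obtain ⟨i, hi⟩ := i
    rcases i with i | i
    · show degreeOf j0 (C (x i)) ≤ 0
      rw [degreeOf_C]
    · show degreeOf j0 (X i : MvPolynomial (Fin N) Ω) ≤ 0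
      have hne : i ≠ j0 := fun he => hi (by rw [he])
      rw [degreeOf_X, if_neg (Ne.symm hne)]

theorem no_sq_irr (hF : Prime (alP f)) (h4 : (4 : Ω) ≠ 0) (x : Fin N → Ω)
    (hx : AlgebraicIndependent k x) (hh : (Qx f x).IsHomogeneous 4)
    (π : MvPolynomial (Fin N) Ω) (hπ : Irreducible π) (hd : π ^ 2 ∣ Qx f x) : False := by
  classical
  -- a variable of `π`
  obtain ⟨j0, hj0⟩ : ∃ j0, degreeOf j0 π ≠ 0 := by
    by_contra hno
    push Not at hno
    have h1 : π.totalDegree = 0 := by
      rw [totalDegree_eq_zero_iff]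
      intro m hm j
      have := hno j
      rw [degreeOf_eq_sup] at this
      have h2 := Finset.le_sup (f := fun m : Fin N →₀ ℕ => m j) hm
      rw [this] at h2
      exact Nat.le_zero.mp h2
    rw [totalDegree_eq_zero_iff_eq_C] at h1
    have h3 : coeff 0 π ≠ 0 := by
      intro h3
      rw [h3, C_0] at h1
      exact hπ.ne_zero h1
    apply hπ.not_isUnit
    rw [h1]
    exact (isUnit_iff_ne_zero.mpr h3).map C
  let I : Ideal (MvPolynomial (Fin N) Ω) := Ideal.span {π}
  have hI : I.IsPrime := (Ideal.span_singleton_prime hπ.ne_zero).mpr hπ.prime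
  let L := FractionRing (MvPolynomial (Fin N) Ω ⧸ I)
  let q : MvPolynomial (Fin N) Ω →ₐ[k] L :=
    (IsScalarTower.toAlgHom k (MvPolynomial (Fin N) Ω ⧸ I) L).comp
      ((Ideal.Quotient.mkₐ Ω I).restrictScalars k)
  have hq : ∀ a, q a = 0 ↔ π ∣ a := by
    intro a
    have h1 : q a = algebraMap (MvPolynomial (Fin N) Ω ⧸ I) L (Ideal.Quotient.mk I a) := rfl
    rw [h1]
    rw [map_eq_zero_iff _ (IsFractionRing.injective (MvPolynomial (Fin N) Ω ⧸ I) L),
      Ideal.Quotient.eq_zero_iff_mem, Ideal.mem_span_singleton]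
  let z : Fin N ⊕ Fin N → L := fun i => q (pz x i)
  have hz : ∀ h : MvPolynomial (Fin N ⊕ Fin N) k, aeval z h = q (aeval (pz x) h) := by
    intro h
    have h1 := comp_aeval (R := k) (f := pz x) q
    exact (congrArg (fun g : MvPolynomial (Fin N ⊕ Fin N) k →ₐ[k] L => g h) h1).symm
  have hinj := pz_indep x hx
  have hzi : AlgebraicIndependent k
      (fun i : {i : Fin N ⊕ Fin N // i ≠ Sum.inr j0} => z i) := by
    rw [algebraicIndependent_iff]
    intro H hH
    have h1 : aeval (fun i : {i : Fin N ⊕ Fin N // i ≠ Sum.inr j0} => z i) H =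
        q (aeval (fun i : {i : Fin N ⊕ Fin N // i ≠ Sum.inr j0} => pz x i) H) := by
      have h1 := comp_aeval (R := k)
        (f := fun i : {i : Fin N ⊕ Fin N // i ≠ Sum.inr j0} => pz x i) q
      exact (congrArg (fun g : MvPolynomial {i : Fin N ⊕ Fin N // i ≠ Sum.inr j0} k →ₐ[k] L =>
        g H) h1).symm
    rw [h1, hq] at hH
    obtain ⟨c, hc⟩ := hH
    have h2 := deg_zero x j0 H
    have h3 : aeval (fun i : {i : Fin N ⊕ Fin N // i ≠ Sum.inr j0} => pz x i) H = 0 := by
      by_contra hne
      have hc0 : c ≠ 0 := by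
        rintro rfl
        exact hne (by rw [hc, mul_zero])
      rw [hc, degreeOf_mul_eq hπ.ne_zero hc0] at h2
      omega
    have h4 := hinj.comp (Subtype.val : {i : Fin N ⊕ Fin N // i ≠ Sum.inr j0} → Fin N ⊕ Fin N)
      Subtype.val_injective
    exact h4.eq_zero_of_aeval_eq_zero H h3
  obtain ⟨r, hr⟩ := hd
  have h0 : aeval z (alP f) = 0 := by
    rw [hz, hq, pz_alP, hr]
    exact Dvd.intro _ (by rw [pow_two, mul_assoc])
  have hpd : ∀ j, pderiv (Sum.inr j) (alP f) = 0 := by
    intro j
    apply pd_zero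
    apply GenM.dvd_of_aeval (Sum.inr j0) z (alP f) _ hF h0 hzi
    rw [hz, hq, ← pz_pd, pz_alP, hr]
    rw [Derivation.leibniz, Derivation.leibniz_pow]
    apply dvd_add
    · rw [smul_eq_mul, pow_two, mul_assoc]
      exact Dvd.intro _ rfl
    · simp only [smul_eq_mul, nsmul_eq_mul]
      refine Dvd.dvd.mul_left ?_ r
      refine Dvd.dvd.mul_left ?_ _
      refine Dvd.dvd.mul_right ?_ _
      norm_num
  have h5 := hh.sum_X_mul_pderiv
  have h6 : ∀ j, pderiv j (Qx f x) = 0 := by
    intro j
    rw [← pz_alP, pz_pd, hpd, map_zero]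
  simp only [h6, mul_zero, Finset.sum_const_zero] at h5
  have h7 : Qx f x ≠ 0 := by
    intro h7
    rw [← pz_alP] at h7
    exact hF.ne_zero (hinj.eq_zero_of_aeval_eq_zero _ h7)
  apply h7
  have h8 : (C (4 : Ω) : MvPolynomial (Fin N) Ω) * Qx f x = 0 := by
    rw [h5, nsmul_eq_mul]
    congr 1
  rcases mul_eq_zero.mp h8 with h9 | h9
  · exact absurd (C_eq_zero.mp h9) h4
  · exact h9

theorem no_sq (hF : Prime (alP f)) (h4 : (4 : Ω) ≠ 0) (x : Fin N → Ω)
    (hx : AlgebraicIndependent k x) (hh : (Qx f x).IsHomogeneous 4)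
    (P : MvPolynomial (Fin N) Ω) (hP : ¬ IsUnit P) (hd : P ^ 2 ∣ Qx f x) : False := by
  have h7 : Qx f x ≠ 0 := by
    intro h7
    rw [← pz_alP] at h7
    exact hF.ne_zero ((pz_indep x hx).eq_zero_of_aeval_eq_zero _ h7)
  have hP0 : P ≠ 0 := by
    rintro rfl
    apply h7
    rw [zero_pow two_ne_zero] at hd
    exact zero_dvd_iff.mp hd
  obtain ⟨π, hπ, hπP⟩ := WfDvdMonoid.exists_irreducible_factor hP hP0
  exact no_sq_irr hF h4 x hx hh π hπ ((pow_dvd_pow_of_dvd hπP 2).trans hd)

end sq

/-! ### restriction to the vectors with first coordinate zero -/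

section res
variable {n : ℕ} {Ω : Type u} [Field Ω]

/-- `w` modulo `x`, with first coordinate zero -/
noncomputable def tau (x : Fin (n + 1) → Ω) : (Fin (n + 1) → Ω) →ₗ[Ω] (Fin n → Ω) where
  toFun w := fun i => w i.succ - (w 0 / x 0) * x i.succ
  map_add' u w := by
    funext i
    simp only [Pi.add_apply]
    ring
  map_smul' c w := by
    funext i
    simp only [Pi.smul_apply, smul_eq_mul, RingHom.id_apply]
    ring

/-- the substitution `v_i = w_(i+1) - (w_0 / x_0) x_(i+1)` -/
noncomputable def psi (x : Fin (n + 1) → Ω) : MvPolynomial (Fin n) Ω →ₐ[Ω]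
    MvPolynomial (Fin (n + 1)) Ω :=
  aeval (fun i => X i.succ - C (x i.succ / x 0) * X 0)

/-- the retraction `w_0 = 0` -/
noncomputable def rho : MvPolynomial (Fin (n + 1)) Ω →ₐ[Ω] MvPolynomial (Fin n) Ω :=
  aeval (Fin.cons 0 X)

theorem rho_psi (x : Fin (n + 1) → Ω) (P : MvPolynomial (Fin n) Ω) : rho (psi x P) = P := by
  have h : (rho (n := n) (Ω := Ω)).comp (psi x) = AlgHom.id Ω _ := by
    apply MvPolynomial.algHom_ext
    intro i
    simp [rho, psi]
  exact congrArg (fun g : MvPolynomial (Fin n) Ω →ₐ[Ω] MvPolynomial (Fin n) Ω => g P) h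

theorem psi_nonunit (x : Fin (n + 1) → Ω) {P : MvPolynomial (Fin n) Ω} (hP : ¬ IsUnit P) :
    ¬ IsUnit (psi x P) := by
  intro h
  apply hP
  have h2 := h.map (rho (n := n) (Ω := Ω))
  rw [rho_psi] at h2
  exact h2

/-- the linear functional of a linear form -/
noncomputable def lf (P : MvPolynomial (Fin n) Ω) : (Fin n → Ω) →ₗ[Ω] Ω :=
  ∑ i, (coeff 0 (pderiv i P)) • LinearMap.proj i

theorem eval_lf {P : MvPolynomial (Fin n) Ω} (h : P.IsHomogeneous 1) (w : Fin n → Ω) :
    eval w P = lf P w := by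
  have h1 := h.sum_X_mul_pderiv
  rw [one_smul] at h1
  conv_lhs => rw [← h1]
  rw [map_sum, lf, LinearMap.sum_apply]
  apply Finset.sum_congr rfl
  intro i _
  have h2 : (pderiv i P).IsHomogeneous 0 := h.pderiv
  rw [hom_zero_eq_C h2]
  simp [mul_comm]

theorem prod_homog (s : Multiset (MvPolynomial (Fin n) Ω)) (hs : ∀ b ∈ s, b.IsHomogeneous 1) :
    s.prod.IsHomogeneous s.card := by
  induction s using Multiset.induction_on with
  | empty =>
    rw [Multiset.prod_zero, Multiset.card_zero]
    exact isHomogeneous_one _ _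
  | cons a s ih =>
    rw [Multiset.prod_cons, Multiset.card_cons, add_comm]
    exact (hs a (Multiset.mem_cons_self a s)).mul (ih fun b hb => hs b (Multiset.mem_cons_of_mem hb))

theorem prod_eval (s : Multiset (MvPolynomial (Fin n) Ω)) (v v' : Fin n → Ω)
    (hs : ∀ b ∈ s, eval v b = eval v' b) : eval v s.prod = eval v' s.prod := by
  induction s using Multiset.induction_on with
  | empty => simp
  | cons a s ih =>
    rw [Multiset.prod_cons, map_mul, map_mul, hs a (Multiset.mem_cons_self a s),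
      ih fun b hb => hs b (Multiset.mem_cons_of_mem hb)]

end res

section qw
variable {p : ℕ} [hp : Fact p.Prime] {k : Type u} [Field k] [Infinite k]
  {f : MvPolynomial (Idx (p + 2)) k}
variable {Ω : Type u} [Field Ω] [Algebra k Ω]

theorem aeval_QW {B : Type u} [CommRing B] [Algebra k B] [Algebra Ω B] [IsScalarTower k Ω B]
    (x : Fin (p + 2) → Ω) (v : Fin (p + 1) → B) :
    aeval v (QW f x) = al f (fun j => algebraMap Ω B (x j)) (Fin.cons 0 v) := by
  unfold QW
  have h := al_map f ((aeval (R := Ω) v).restrictScalars k) (fun j => C (x j)) (Fin.cons 0 X)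
  simp only [AlgHom.coe_restrictScalars', aeval_C] at h
  rw [h]
  congr 1
  funext j
  refine Fin.cases ?_ (fun i => ?_) j
  · simp
  · simp

theorem QW_hom (h : IsSec p 4 f) (x : Fin (p + 2) → Ω) : (QW f x).IsHomogeneous 4 := by
  apply isHomogeneous_of
  have h1 := aeval_QW (f := f) (B := Polynomial (MvPolynomial (Fin (p + 1)) Ω)) x
    (fun j => Polynomial.X * Polynomial.C (X j))
  have h2 := al_smul h (A := Polynomial (MvPolynomial (Fin (p + 1)) Ω))
    (fun j => algebraMap Ω _ (x j)) (Fin.cons 0 (fun j => Polynomial.C (X j))) Polynomial.X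
  have h3 : (fun j : Fin (p + 2) => (Polynomial.X : Polynomial (MvPolynomial (Fin (p + 1)) Ω)) *
      (Fin.cons 0 (fun j => Polynomial.C (X j)) :
        Fin (p + 2) → Polynomial (MvPolynomial (Fin (p + 1)) Ω)) j) =
      Fin.cons 0 (fun j => Polynomial.X * Polynomial.C (X j)) := by
    funext j
    refine Fin.cases ?_ (fun i => ?_) j
    · simp
    · simp
  rw [h3] at h2
  rw [h1, h2]
  congr 1
  have h4 := aeval_QW (f := f) (B := Polynomial (MvPolynomial (Fin (p + 1)) Ω)) x
    (fun j => Polynomial.C (X j))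
  rw [← h4, aeval_C', aeval_X_left_apply]

/-- `al f x w` in terms of the class of `w` modulo `x` -/
theorem al_tau (h : IsSec p 4 f) (x : Fin (p + 2) → Ω) (hx0 : x 0 ≠ 0) (w : Fin (p + 2) → Ω) :
    al f x w = eval (tau x w) (QW f x) := by
  have h1 := aeval_QW (f := f) (B := Ω) x (tau x w)
  have h2 : (fun j => algebraMap Ω Ω (x j)) = x := rfl
  rw [h2] at h1
  rw [← coe_aeval_eq_eval]
  have h3 := al_add h x w (-(w 0 / x 0))
  have h4 : (fun j => w j + -(w 0 / x 0) * x j) = Fin.cons 0 (tau x w) := by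
    funext j
    refine Fin.cases ?_ (fun i => ?_) j
    · show w 0 + -(w 0 / x 0) * x 0 = 0
      field_simp
      ring
    · show w i.succ + -(w 0 / x 0) * x i.succ = w i.succ - (w 0 / x 0) * x i.succ
      ring
  rw [h4] at h3
  rw [← h3]
  exact h1.symm

theorem psi_QW (h : IsSec p 4 f) (x : Fin (p + 2) → Ω) (hx0 : x 0 ≠ 0) :
    psi x (QW f x) = Qx f x := by
  unfold psi
  rw [aeval_QW]
  unfold Qx
  have h3 := al_add h (A := MvPolynomial (Fin (p + 2)) Ω) (fun j => C (x j)) X
    (-(C (1 / x 0) * X 0))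
  rw [← h3]
  congr 1
  funext j
  refine Fin.cases ?_ (fun i => ?_) j
  · show (0 : MvPolynomial (Fin (p + 2)) Ω) = X 0 + -(C (1 / x 0) * X 0) * C (x 0)
    have h5 : (C (1 / x 0) : MvPolynomial (Fin (p + 2)) Ω) * C (x 0) = 1 := by
      rw [← C_mul, one_div, inv_mul_cancel₀ hx0, C_1]
    linear_combination (X 0) * h5
  · show X i.succ - C (x i.succ / x 0) * X 0 =
      X i.succ + -(C (1 / x 0) * X 0) * (C (x i.succ) : MvPolynomial (Fin (p + 2)) Ω)
    have h5 : (C (x i.succ / x 0) : MvPolynomial (Fin (p + 2)) Ω) = C (1 / x 0) * C (x i.succ) := by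
      rw [← C_mul]
      congr 1
      ring
    rw [h5]
    ring

end qw

end NLM

open NLM in
/-- NL -/
theorem specNL (hAl : SpecAl.{u}) (hCR : SpecCR.{u}) : SpecNL.{u} := by
  classical
  intro p _ k _ _ _ f hg Ω _ _ _ x hx
  have h5 := hg.five
  have hchar : CharP Ω p := charP_of_injective_algebraMap (algebraMap k Ω).injective p
  have h4 : (4 : Ω) ≠ 0 := by
    intro h
    have h2 := (CharP.cast_eq_zero_iff Ω p 4).mp (by exact_mod_cast h)
    have h3 := Nat.le_of_dvd (by norm_num) h2
    omega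
  have hF : Prime (alP f) := hAl p k 4 f hg
  have hinf : Infinite k := IsAlgClosed.instInfinite
  have hx0 : x 0 ≠ 0 := by
    intro h
    have h2 := hx.ne_zero 0
    exact h2 h
  have hQh : (QW f x).IsHomogeneous 4 := QW_hom hg.sec x
  have hpsi := psi_QW hg.sec x hx0
  have hQ0 : QW f x ≠ 0 := by
    intro h
    rw [h, map_zero, ← pz_alP] at hpsi
    exact hF.ne_zero ((pz_indep x hx).eq_zero_of_aeval_eq_zero _ hpsi.symm)
  by_contra hno
  push Not at hno
  -- all irreducible factors are linear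
  have hlin : ∀ b, Irreducible b → b ∣ QW f x → b.IsHomogeneous 1 := by
    intro b hb hd
    obtain ⟨c, hc⟩ := hd
    obtain ⟨d, e, hde, h1, h2⟩ := factor_homog hQh hQ0 hc
    have h3 : ¬ b ∣ c := by
      rintro ⟨r, hr⟩
      refine no_sq hF h4 x hx (Qx_hom hg.sec x) (psi x b) (psi_nonunit x hb.not_isUnit) ?_
      refine ⟨psi x r, ?_⟩
      rw [← hpsi, hc, hr, map_mul, map_mul]
      ring
    have h6 : d < 2 := by
      by_contra hd2
      exact h3 (hno b c d hc hb h1 (by omega))
    have h7 : d ≠ 0 := by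
      rintro rfl
      have h8 := hom_zero_eq_C h1
      have h9 : coeff 0 b ≠ 0 := by
        intro h9
        rw [h9, C_0] at h8
        exact hb.ne_zero h8
      apply hb.not_isUnit
      rw [h8]
      exact (isUnit_iff_ne_zero.mpr h9).map C
    have h10 : d = 1 := by omega
    rw [h10] at h1
    exact h1
  obtain ⟨s, hs, u, hu⟩ := WfDvdMonoid.exists_factors (QW f x) hQ0
  have hsl : ∀ b ∈ s, b.IsHomogeneous 1 := by
    intro b hb
    apply hlin b (hs b hb)
    rw [← hu]
    exact (Multiset.dvd_prod hb).mul_right _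
  obtain ⟨a, ha⟩ : ∃ a : Ω, (u : MvPolynomial (Fin (p + 1)) Ω) = C a := by
    obtain ⟨d, e, hde, h1, h2⟩ := factor_homog (isHomogeneous_one (Fin (p + 1)) Ω) one_ne_zero
      (u.mul_inv).symm
    have h3 : d = 0 := by omega
    rw [h3] at h1
    exact ⟨_, hom_zero_eq_C h1⟩
  have hcard : s.card = 4 := by
    have h1 : (QW f x).IsHomogeneous (s.card + 0) := by
      rw [← hu, ha]
      exact (prod_homog s hsl).mul (isHomogeneous_C _ _)
    exact h1.inj_right hQh hQ0
  -- the vertex
  let T : (Fin (p + 2) → Ω) →ₗ[Ω] (s.toFinset → Ω) :=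
    LinearMap.pi (fun b : s.toFinset => (lf b.1).comp (tau x))
  have hT : p - 2 ≤ Module.finrank Ω (LinearMap.ker T) := by
    have h1 := LinearMap.finrank_range_add_finrank_ker T
    have h2 : Module.finrank Ω (LinearMap.range T) ≤ s.toFinset.card := by
      refine le_trans (Submodule.finrank_le _) ?_
      rw [Module.finrank_fintype_fun_eq_card, Fintype.card_coe]
    have h3 := Multiset.toFinset_card_le s
    rw [Module.finrank_fintype_fun_eq_card, Fintype.card_fin] at h1
    omega
  have hle := hCR p k 4 f hg Ω x hx (LinearMap.ker T) ?_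
  · omega
  · intro v hv w
    rw [al_tau hg.sec x hx0, al_tau hg.sec x hx0, ← hu, ha, map_mul, map_mul, eval_C, eval_C]
    congr 1
    apply prod_eval
    intro b hb
    rw [eval_lf (hsl b hb), eval_lf (hsl b hb)]
    have h1 : (fun j => w j + v j) = w + v := rfl
    rw [h1, map_add, map_add]
    have h2 : lf b (tau x v) = 0 := by
      have h3 := LinearMap.mem_ker.mp hv
      have h4 := congrFun h3 ⟨b, Multiset.mem_toFinset.mpr hb⟩
      exact h4
    rw [h2, add_zero]

end MPcfca
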