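import Pool.Agent.Lib.MP_cfca38_ag.Spec
import Pool.Agent.Lib.MP_cfca38_ag.La

section
/-! MP_cfca38_ag, module PT2: extracting `p`-th roots. -/
set_option autoImplicit false

namespace MPcfca

open MvPolynomial

universe u

namespace PT2M

theorem exists_root (p : ℕ) [Fact p.Prime] (k : Type u) [Field k] [IsAlgClosed k] [CharP k p]
    (M : ℕ) (r : MvPolynomial (Fin M) k) : ∃ s, s ^ p = expand p r := by
  have hp : p ≠ 0 := (Fact.out : p.Prime).ne_zero
  induction r using MvPolynomial.induction_on with
  | C a =>
    obtain ⟨c, hc⟩ := IsAlgClosed.exists_pow_nat_eq a (Nat.pos_of_ne_zero hp)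
    exact ⟨C c, by rw [← C_pow, hc, expand_C]⟩
  | add f g hf hg =>
    obtain ⟨s, hs⟩ := hf
    obtain ⟨t, ht⟩ := hg
    exact ⟨s + t, by rw [add_pow_char, hs, ht, map_add]⟩
  | mul_X f i hf =>
    obtain ⟨s, hs⟩ := hf
    exact ⟨s * X i, by rw [mul_pow, hs, map_mul, expand_X]⟩

end PT2M

/-- Module PT2. -/
theorem specPT2 : SpecPT2.{u} := by
  intro p _ k _ _ _ M
  have hp : p ≠ 0 := (Fact.out : p.Prime).ne_zero
  set K := FractionRing (MvPolynomial (Fin M) k)
  let g : MvPolynomial (Fin M) k →ₐ[k] K :=
    (IsScalarTower.toAlgHom k (MvPolynomial (Fin M) k) K).comp (expand p)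
  have hg : Function.Injective g :=
    (IsFractionRing.injective (MvPolynomial (Fin M) k) K).comp
      (expand_injective (Nat.pos_of_ne_zero hp))
  refine ⟨IsFractionRing.liftAlgHom hg, fun a => ?_⟩
  obtain ⟨x, y, hy, rfl⟩ := IsFractionRing.div_surjective (MvPolynomial (Fin M) k) a
  obtain ⟨s, hs⟩ := PT2M.exists_root p k M x
  obtain ⟨t, ht⟩ := PT2M.exists_root p k M y
  refine ⟨algebraMap _ K s / algebraMap _ K t, ?_⟩
  rw [map_div₀, IsFractionRing.liftAlgHom_apply, IsFractionRing.liftAlgHom_apply,
    IsFractionRing.lift_algebraMap, IsFractionRing.lift_algebraMap, div_pow, ← map_pow, ← map_pow,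
    hs, ht]
  rfl

end MPcfca
end

section
/-! MP_cfca38_ag: the module PAIR: the two roots of a generic plane (from AL, CH, GEN). -/
set_option autoImplicit false
set_option linter.unusedSimpArgs false
set_option linter.unusedSectionVars false

namespace MPcfca

open MvPolynomial

universe u

namespace PairM

section quad
variable {N : ℕ} {k : Type u} [Field k] [Infinite k] {A : Type u} [CommRing A] [Algebra k A]
variable {p : ℕ} [hp : Fact p.Prime] {f : MvPolynomial (Idx N) k}

/-- the quadratic form on a plane -/
theorem quad (h : IsSec p 2 f) (x w e : Fin N → A) : ∃ κ : A, ∀ y z : A,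
    al f x (fun j => y * w j + z * e j) = y ^ 2 * al f x w + y * z * κ + z ^ 2 * al f x e := by
  refine ⟨Qc (Qx f x) w e 1, ?_⟩
  have hq := Qx_hom h x
  have h1 : ∀ z : Fin N → A, aeval z (Qx f x) = al f x z := by
    intro z
    have := aeval_Qx (f := f) (B := A) x z
    simpa using this
  have h2 : ∀ y z : A, al f x (fun j => y * w j + z * e j)
      = Qc (Qx f x) w e 0 * y ^ 2 + Qc (Qx f x) w e 1 * y * z + Qc (Qx f x) w e 2 * z ^ 2 := by
    intro y z
    rw [← h1, line_sum hq w e y z]
    simp [Finset.sum_range_succ]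
  intro y z
  have h3 := h2 1 0
  have h4 := h2 0 1
  simp only [one_mul, zero_mul, add_zero, zero_add, one_pow, mul_one, mul_zero, ne_eq,
    OfNat.ofNat_ne_zero, not_false_eq_true, zero_pow] at h3 h4
  rw [h2 y z, h3, h4]
  ring

theorem al_zero (h : IsSec p 2 f) (x : Fin N → A) : al f x (fun _ => (0 : A)) = 0 := by
  have h1 := al_smul h x (fun _ => (0 : A)) 0
  simp only [mul_zero] at h1
  rw [h1]
  simp

theorem pol_smul (h : IsSec p 2 f) (x w e : Fin N → A) (c : A) :
    pol f x (fun j => c * w j) e = c * pol f x w e := by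
  obtain ⟨κ, hκ⟩ := quad h x w e
  have h1 := hκ c 1
  have h2 := hκ 1 1
  have h3 := hκ c 0
  simp only [one_mul, zero_mul, add_zero, mul_one, one_pow, mul_zero, ne_eq,
    OfNat.ofNat_ne_zero, not_false_eq_true, zero_pow] at h1 h2 h3
  unfold pol
  rw [h1, h2, h3]
  ring

theorem pol_add_self (h : IsSec p 2 f) (x w e : Fin N → A) (c : A) :
    pol f x (fun j => w j + c * x j) e = pol f x w e := by
  unfold pol
  have h1 : (fun j => w j + c * x j + e j) = fun j => (w j + e j) + c * x j := by
    funext j
    ring
  rw [h1, al_add h, al_add h]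

theorem pol_self (h : IsSec p 2 f) (x w : Fin N → A) :
    pol f x w w = 2 * al f x w := by
  obtain ⟨κ, hκ⟩ := quad h x w w
  have h1 := hκ 1 1
  have h2 := al_smul h x w (2 : A)
  have h3 : (fun j => (1 : A) * w j + 1 * w j) = fun j => 2 * w j := by
    funext j
    ring
  unfold pol
  have h4 : (fun j => w j + w j) = fun j => 2 * w j := by
    funext j
    ring
  rw [h4, h2]
  ring

end quad

section scal
variable {N : ℕ} {k : Type u} [Field k] [Infinite k]
variable {p : ℕ} [hp : Fact p.Prime] {f : MvPolynomial (Idx N) k}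

/-- scaling of the second vector -/
noncomputable def sT (N : ℕ) (k : Type u) [Field k] : MvPolynomial (Fin N ⊕ Fin N) k →ₐ[k]
    Polynomial (MvPolynomial (Fin N ⊕ Fin N) k) :=
  aeval (Sum.elim (fun j => Polynomial.C (X (Sum.inl j)))
    (fun j => Polynomial.X * Polynomial.C (X (Sum.inr j))))

theorem sT_alP (h : IsSec p 2 f) :
    sT N k (alP f) = Polynomial.X ^ 2 * Polynomial.C (alP f) := by
  have h1 : sT N k (alP f) = al f (A := Polynomial (MvPolynomial (Fin N ⊕ Fin N) k))
      (fun j => Polynomial.C (X (Sum.inl j)))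
      (fun j => Polynomial.X * Polynomial.C (X (Sum.inr j))) := by
    unfold alP
    rw [al_map]
    congr 1
    · funext j
      simp [sT]
    · funext j
      simp [sT]
  rw [h1, al_smul h]
  congr 1
  have h2 := al_map f (Polynomial.CAlgHom (R := k) (A := MvPolynomial (Fin N ⊕ Fin N) k))
    (fun j => X (Sum.inl j)) (fun j => X (Sum.inr j))
  exact h2.symm

theorem dvd_coeff (h : IsSec p 2 f) (P : MvPolynomial (Fin N ⊕ Fin N) k) (hP : alP f ∣ P) :
    (sT N k P).coeff 0 = 0 ∧ (sT N k P).coeff 1 = 0 := by
  obtain ⟨E, rfl⟩ := hP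
  rw [map_mul, sT_alP h, mul_assoc]
  constructor
  · rw [Polynomial.coeff_X_pow_mul', if_neg (by omega)]
  · rw [Polynomial.coeff_X_pow_mul', if_neg (by omega)]

end scal

section ratio
variable {k : Type u} [Field k] {L : Type u} [Field L] [Algebra k L]

theorem ratio {n : ℕ} (x : Fin (n + 1) → L) (hx : AlgebraicIndependent k x) :
    AlgebraicIndependent k (fun j : Fin n => x j.succ / x 0) := by
  have hx0 : x 0 ≠ 0 := hx.ne_zero 0
  have hlift : ∀ G : MvPolynomial (Fin n) k, ∃ (r : ℕ) (G' : MvPolynomial (Fin (n + 1)) k),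
      aeval x G' = x 0 ^ r * aeval (fun j : Fin n => x j.succ / x 0) G ∧
      aeval (R := k) (Fin.cons (1 : MvPolynomial (Fin n) k) (fun j => X j)) G' = G := by
    intro G
    induction G using MvPolynomial.induction_on with
    | C a =>
      refine ⟨0, C a, ?_, ?_⟩
      · simp
      · rw [← MvPolynomial.algebraMap_eq, AlgHom.commutes]
        rfl
    | add P Q hP hQ =>
      obtain ⟨r, P', hP1, hP2⟩ := hP
      obtain ⟨s, Q', hQ1, hQ2⟩ := hQ
      refine ⟨r + s, X 0 ^ s * P' + X 0 ^ r * Q', ?_, ?_⟩
      · simp only [map_add, map_mul, map_pow, aeval_X, hP1, hQ1]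
        ring
      · simp only [map_add, map_mul, map_pow, aeval_X, hP2, hQ2, Fin.cons_zero, one_pow, one_mul]
    | mul_X P i hP =>
      obtain ⟨r, P', hP1, hP2⟩ := hP
      refine ⟨r + 1, P' * X i.succ, ?_, ?_⟩
      · simp only [map_mul, aeval_X, hP1]
        field_simp
        ring
      · simp only [map_mul, aeval_X, hP2, Fin.cons_succ]
  rw [algebraicIndependent_iff]
  intro G hG
  obtain ⟨r, G', h1, h2⟩ := hlift G
  rw [hG, mul_zero] at h1
  have h3 := (algebraicIndependent_iff.mp hx) G' h1
  rw [← h2, h3, map_zero]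

end ratio

section generic
variable {k : Type u} [Field k] {p : ℕ}

/-- the vector `(1, c, a + c b)` -/
def xv {A : Type u} [CommRing A] (a b : Fin p → A) (c : A) : Fin (p + 2) → A :=
  Fin.cons 1 (Fin.cons c (fun j => a j + c * b j))

/-- the vector `(0, 1, b)` -/
def wv {A : Type u} [CommRing A] (b : Fin p → A) : Fin (p + 2) → A :=
  Fin.cons 0 (Fin.cons 1 b)

theorem xv0 {A : Type u} [CommRing A] (a b : Fin p → A) (c : A) : xv a b c 0 = 1 := rfl
theorem xv1 {A : Type u} [CommRing A] (a b : Fin p → A) (c : A) : xv a b c 1 = c := rfl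
theorem xvs {A : Type u} [CommRing A] (a b : Fin p → A) (c : A) (j : Fin p) :
    xv a b c j.succ.succ = a j + c * b j := rfl
theorem wv0 {A : Type u} [CommRing A] (b : Fin p → A) : wv b 0 = 0 := rfl
theorem wv1 {A : Type u} [CommRing A] (b : Fin p → A) : wv b 1 = 1 := rfl
theorem wvs {A : Type u} [CommRing A] (b : Fin p → A) (j : Fin p) :
    wv b j.succ.succ = b j := rfl

/-- the generic zero of `al f` over a generic root -/
theorem generic_zero [hp : Fact p.Prime] [IsAlgClosed k] [CharP k p] (hAl : SpecAl.{u})
    (hGen : SpecGen.{u}) (f : MvPolynomial (Idx (p + 2)) k) (hf : Good p 2 f)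
    {Om : Type u} [Field Om] [Algebra k Om] (a b : Fin p → Om)
    (hab : AlgebraicIndependent k (Sum.elim a b)) (xi : Om)
    (hroot : al f (xv a b xi) (wv b) = 0) :
    ∃ (L : Type u) (_ : Field L) (_ : Algebra Om L) (_ : Algebra k L) (_ : IsScalarTower k Om L)
      (lam s t : L), lam ≠ 0 ∧ t ≠ 0 ∧
      (∀ h : MvPolynomial (Fin (p + 2) ⊕ Fin (p + 2)) k,
        aeval (Sum.elim (fun j => lam * algebraMap Om L (xv a b xi j))
          (fun j => s * algebraMap Om L (xv a b xi j) + t * algebraMap Om L (wv b j))) h = 0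
        ↔ alP f ∣ h) := by
  classical
  have : Infinite k := IsAlgClosed.instInfinite
  have hsec := hf.sec
  let P3 := MvPolynomial (Fin 3) Om
  let L := FractionRing P3
  let v3 : Fin 3 → L := fun i => algebraMap P3 L (X i)
  have hv3 : AlgebraicIndependent Om v3 := by
    have h1 : AlgebraicIndependent Om (X : Fin 3 → P3) := MvPolynomial.algebraicIndependent_X _ _
    exact h1.map' (f := IsScalarTower.toAlgHom Om P3 L) (IsFractionRing.injective P3 L)
  have hall : AlgebraicIndependent k (Sum.elim v3 (algebraMap Om L ∘ Sum.elim a b)) :=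
    AlgebraicIndependent.sumElim_comp hab hv3
  refine ⟨L, inferInstance, inferInstance, inferInstance, inferInstance, v3 0, v3 1, v3 2,
    hv3.ne_zero 0, hv3.ne_zero 2, ?_⟩
  set x : Fin (p + 2) → L := fun j => v3 0 * algebraMap Om L (xv a b xi j) with hxdef
  set w : Fin (p + 2) → L := fun j => v3 1 * algebraMap Om L (xv a b xi j)
    + v3 2 * algebraMap Om L (wv b j) with hwdef
  have hcard : Fintype.card (Fin 3 ⊕ (Fin p ⊕ Fin p)) = 2 * p + 3 := by
    simp
    omega
  let e : Fin (2 * p + 3) ≃ Fin 3 ⊕ (Fin p ⊕ Fin p) := (Fintype.equivFinOfCardEq hcard).symm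
  let K1 := IntermediateField.adjoin k (Set.range (Sum.elim x w))
  have hxm : ∀ j, x j ∈ K1 := fun j => IntermediateField.subset_adjoin _ _ ⟨Sum.inl j, rfl⟩
  have hwm : ∀ j, w j ∈ K1 := fun j => IntermediateField.subset_adjoin _ _ ⟨Sum.inr j, rfl⟩
  have hlam0 : v3 0 ≠ 0 := hv3.ne_zero 0
  have ht0 : v3 2 ≠ 0 := hv3.ne_zero 2
  have hlam : v3 0 ∈ K1 := by
    have := hxm 0
    simp only [hxdef, xv0, map_one, mul_one] at this
    exact this
  have hxh : ∀ j, algebraMap Om L (xv a b xi j) ∈ K1 := by
    intro j
    have h1 : algebraMap Om L (xv a b xi j) = x j / v3 0 := by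
      rw [eq_div_iff hlam0, mul_comm]
    rw [h1]
    exact K1.div_mem (hxm j) hlam
  have hs : v3 1 ∈ K1 := by
    have := hwm 0
    simp only [hwdef, xv0, wv0, map_one, mul_one, map_zero, mul_zero, add_zero] at this
    exact this
  have ht : v3 2 ∈ K1 := by
    have h1 : v3 2 = w 1 - v3 1 * algebraMap Om L (xv a b xi 1) := by
      simp only [hwdef, wv1, map_one, mul_one]
      ring
    rw [h1]
    exact K1.sub_mem (hwm 1) (K1.mul_mem hs (hxh 1))
  have hwh : ∀ j, algebraMap Om L (wv b j) ∈ K1 := by
    intro j
    have h1 : algebraMap Om L (wv b j) = (w j - v3 1 * algebraMap Om L (xv a b xi j)) / v3 2 := by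
      rw [eq_div_iff ht0]
      show _ = v3 1 * algebraMap Om L (xv a b xi j) + v3 2 * algebraMap Om L (wv b j) - _
      ring
    rw [h1]
    exact K1.div_mem (K1.sub_mem (hwm j) (K1.mul_mem hs (hxh j))) ht
  have hb : ∀ j, algebraMap Om L (b j) ∈ K1 := by
    intro j
    have := hwh j.succ.succ
    rwa [wvs] at this
  have ha : ∀ j, algebraMap Om L (a j) ∈ K1 := by
    intro j
    have h1 := hxh j.succ.succ
    have h2 := hxh 1
    rw [xvs, map_add, map_mul] at h1
    rw [xv1] at h2
    have h3 := K1.sub_mem h1 (K1.mul_mem h2 (hb j))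
    rwa [add_sub_cancel_right] at h3
  have hal0 : al f x w = 0 := by
    have h1 : al f (fun j => algebraMap Om L (xv a b xi j)) (fun j => algebraMap Om L (wv b j))
        = 0 := by
      have := al_map f (IsScalarTower.toAlgHom k Om L) (xv a b xi) (wv b)
      rw [hroot, map_zero] at this
      exact this.symm
    have h2 : al f (fun j => algebraMap Om L (xv a b xi j)) w = 0 := by
      rw [hwdef, al_lin hsec, h1, mul_zero]
    rw [hxdef, al_smul_left hsec, h2, mul_zero]
  have haev : aeval (Sum.elim x w) (alP f) = 0 := by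
    unfold alP
    rw [al_map]
    refine Eq.trans ?_ hal0
    congr 1
    · funext j
      simp
    · funext j
      simp
  have hcard2 : 2 * p + 3 + 1 = Fintype.card (Fin (p + 2) ⊕ Fin (p + 2)) := by
    simp
    omega
  refine hGen k (Fin (p + 2) ⊕ Fin (p + 2)) L (alP f) (Sum.elim x w) (hAl p k 2 f hf) haev
    (2 * p + 3) (Sum.elim v3 (algebraMap Om L ∘ Sum.elim a b) ∘ e) hcard2
    (hall.comp _ e.injective) ?_
  intro i
  have hmem : (Sum.elim v3 (algebraMap Om L ∘ Sum.elim a b) ∘ e) i ∈ K1 := by
    show Sum.elim v3 (algebraMap Om L ∘ Sum.elim a b) (e i) ∈ K1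
    rcases e i with j | (j | j)
    · fin_cases j
      · exact hlam
      · exact hs
      · exact ht
    · exact ha j
    · exact hb j
  exact isAlgebraic_algebraMap (A := L) (⟨_, hmem⟩ : K1)

/-- a generic root gives a generic vector, and the root is not in the radical -/
theorem root_generic [hp : Fact p.Prime] [IsAlgClosed k] [CharP k p] (hAl : SpecAl.{u})
    (hGen : SpecGen.{u}) (f : MvPolynomial (Idx (p + 2)) k) (hf : Good p 2 f)
    {Om : Type u} [Field Om] [Algebra k Om] (a b : Fin p → Om)
    (hab : AlgebraicIndependent k (Sum.elim a b)) (xi : Om)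
    (hroot : al f (xv a b xi) (wv b) = 0) :
    AlgebraicIndependent k (fun j : Fin (p + 1) => xv a b xi j.succ) ∧
    ∃ e : Fin (p + 2) → k, pol f (xv a b xi) (wv b) (fun l => algebraMap k Om (e l)) ≠ 0 := by
  classical
  have : Infinite k := IsAlgClosed.instInfinite
  have hsec := hf.sec
  obtain ⟨L, _, _, _, _, lam, s, t, hlam, ht, hker⟩ :=
    generic_zero hAl hGen f hf a b hab xi hroot
  set x : Fin (p + 2) → L := fun j => lam * algebraMap Om L (xv a b xi j) with hxdef
  set w : Fin (p + 2) → L := fun j => s * algebraMap Om L (xv a b xi j)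
    + t * algebraMap Om L (wv b j) with hwdef
  have hprime := hAl p k 2 f hf
  constructor
  · have hx : AlgebraicIndependent k x := by
      rw [algebraicIndependent_iff]
      intro H hH
      have h1 : aeval (Sum.elim x w) (rename Sum.inl H : MvPolynomial (Fin (p + 2) ⊕ Fin (p + 2)) k)
          = 0 := by
        rw [aeval_rename]
        exact hH
      have h2 := (dvd_coeff hsec _ ((hker _).mp h1)).1
      have h3 : sT (p + 2) k (rename Sum.inl H) = Polynomial.C (rename Sum.inl H) := by
        unfold sT
        rw [aeval_rename]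
        have h4 : (Polynomial.CAlgHom (R := k)
            (A := MvPolynomial (Fin (p + 2) ⊕ Fin (p + 2)) k)).comp
            (rename Sum.inl : MvPolynomial (Fin (p + 2)) k →ₐ[k] _)
            = aeval ((Sum.elim (fun j => Polynomial.C (X (Sum.inl j)))
              (fun j => Polynomial.X * Polynomial.C (X (Sum.inr j)))) ∘ Sum.inl) := by
          apply MvPolynomial.algHom_ext
          intro i
          simp
        rw [← h4]
        rfl
      rw [h3, Polynomial.coeff_C_zero] at h2
      exact rename_injective _ Sum.inl_injective (by rw [h2, map_zero])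
    have h1 := ratio x hx
    have h2 : (fun j : Fin (p + 1) => x j.succ / x 0)
        = fun j => IsScalarTower.toAlgHom k Om L (xv a b xi j.succ) := by
      funext j
      have h3 : x 0 = lam := by
        show lam * algebraMap Om L (xv a b xi 0) = lam
        rw [xv0, map_one, mul_one]
      rw [h3, div_eq_iff hlam, mul_comm]
      rfl
    rw [h2] at h1
    exact AlgebraicIndependent.of_comp (IsScalarTower.toAlgHom k Om L) h1
  · by_contra hcon
    push Not at hcon
    -- all polar values vanish identically
    have hall : ∀ (e x0 w0 : Fin (p + 2) → k), pol f x0 w0 e = 0 := by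
      intro e x0 w0
      let S := MvPolynomial (Fin (p + 2) ⊕ Fin (p + 2)) k
      let XX : Fin (p + 2) → S := fun j => X (Sum.inl j)
      let WW : Fin (p + 2) → S := fun j => X (Sum.inr j)
      let P : S := pol f XX WW (fun j => C (e j))
      have hev : aeval (Sum.elim x w) P = pol f x w (fun j => algebraMap k L (e j)) := by
        show aeval (Sum.elim x w) (al f XX (fun j => WW j + C (e j)) - al f XX WW
          - al f XX (fun j => C (e j))) = _
        rw [map_sub, map_sub, al_map, al_map, al_map]
        unfold pol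
        congr 1
        · congr 1
          · congr 1
            · funext j
              simp [XX]
            · funext j
              simp [WW, MvPolynomial.algebraMap_eq]
          · congr 1
            · funext j
              simp [XX]
            · funext j
              simp [WW]
        · congr 1
          · funext j
            simp [XX]
          · funext j
            simp
      have hzero : pol f x w (fun j => algebraMap k L (e j)) = 0 := by
        set xh : Fin (p + 2) → L := fun j => algebraMap Om L (xv a b xi j) with hxh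
        set wh : Fin (p + 2) → L := fun j => algebraMap Om L (wv b j) with hwh
        have h1 : pol f xh wh (fun j => algebraMap k L (e j)) = 0 := by
          have h2 := congrArg (IsScalarTower.toAlgHom k Om L) (hcon e)
          rw [map_zero] at h2
          unfold pol at h2 ⊢
          rw [map_sub, map_sub, al_map, al_map, al_map] at h2
          refine Eq.trans ?_ h2
          have h3 : ∀ c : k, algebraMap k L c = IsScalarTower.toAlgHom k Om L (algebraMap k Om c) := by
            intro c
            exact IsScalarTower.algebraMap_apply k Om L c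
          simp only [h3, map_add]
          rfl
        have h2 : pol f xh w (fun j => algebraMap k L (e j)) = 0 := by
          have h3 : w = fun j => (fun j => t * wh j) j + s * xh j := by
            funext j
            show s * xh j + t * wh j = t * wh j + s * xh j
            ring
          rw [h3, pol_add_self hsec, pol_smul hsec, h1, mul_zero]
        have h4 : x = fun j => lam * xh j := rfl
        have h5 : ∀ z : Fin (p + 2) → L, al f x z = lam ^ (2 * (p + 1)) * al f xh z := by
          intro z
          rw [h4, al_smul_left hsec]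
        unfold pol at h2 ⊢
        rw [h5, h5, h5]
        linear_combination lam ^ (2 * (p + 1)) * h2
      rw [hzero] at hev
      have hdv := (hker P).mp hev
      have h2 := (dvd_coeff hsec P hdv).2
      have h3 : sT (p + 2) k P = Polynomial.X * Polynomial.C P := by
        have h4 : sT (p + 2) k P = pol f (A := Polynomial S) (fun j => Polynomial.C (XX j))
            (fun j => Polynomial.X * Polynomial.C (WW j)) (fun j => Polynomial.C (C (e j))) := by
          show sT (p + 2) k (al f XX (fun j => WW j + C (e j)) - al f XX WW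
            - al f XX (fun j => C (e j))) = _
          rw [map_sub, map_sub, al_map, al_map, al_map]
          have e1 : ∀ j, sT (p + 2) k (XX j) = Polynomial.C (XX j) := by
            intro j
            simp [sT, XX]
          have e2 : ∀ j, sT (p + 2) k (WW j) = Polynomial.X * Polynomial.C (WW j) := by
            intro j
            simp [sT, WW]
          have e3 : ∀ j, sT (p + 2) k (C (e j)) = Polynomial.C (C (e j)) := by
            intro j
            rw [← MvPolynomial.algebraMap_eq, AlgHom.commutes]
            rfl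
          simp only [e1, map_add, e2, e3]
          rfl
        rw [h4]
        rw [pol_smul hsec (fun j => Polynomial.C (XX j)) (fun j => Polynomial.C (WW j))
          (fun j => Polynomial.C (C (e j))) Polynomial.X]
        congr 1
        show _ = Polynomial.CAlgHom (R := k) (A := S) (al f XX (fun j => WW j + C (e j))
          - al f XX WW - al f XX (fun j => C (e j)))
        rw [map_sub, map_sub, al_map, al_map, al_map]
        unfold pol
        simp only [map_add]
        rfl
      rw [h3, mul_comm, Polynomial.coeff_mul_X, Polynomial.coeff_C_zero] at h2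
      have h5 := congrArg (aeval (Sum.elim x0 w0) : S →ₐ[k] k) h2
      rw [map_zero] at h5
      refine Eq.trans ?_ h5
      show _ = aeval (Sum.elim x0 w0) (al f XX (fun j => WW j + C (e j)) - al f XX WW
        - al f XX (fun j => C (e j)))
      rw [map_sub, map_sub, al_map, al_map, al_map]
      unfold pol
      congr 1
      · congr 1
        · congr 1
          · funext j
            simp [XX]
          · funext j
            simp [WW]
        · congr 1
          · funext j
            simp [XX]
          · funext j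
            simp [WW]
      · congr 1
        · funext j
          simp [XX]
        · funext j
          simp
    have h2ne : (2 : k) ≠ 0 := by
      intro h
      have h1 : ((2 : ℕ) : k) = 0 := by exact_mod_cast h
      have h2 := (CharP.cast_eq_zero_iff k p 2).mp h1
      have h3 := Nat.le_of_dvd (by norm_num) h2
      have h4 := hf.five
      omega
    apply hprime.ne_zero
    apply MvPolynomial.funext
    intro z
    rw [map_zero]
    have h1 := pol_self hsec (fun j => z (Sum.inl j)) (fun j => z (Sum.inr j))
    rw [hall] at h1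
    have h2 : al f (fun j => z (Sum.inl j)) (fun j => z (Sum.inr j)) = 0 := by
      have := (mul_eq_zero.mp h1.symm).resolve_left h2ne
      exact this
    have h3 : (aeval z : MvPolynomial (Fin (p + 2) ⊕ Fin (p + 2)) k →ₐ[k] k) (alP f) = 0 := by
      unfold alP
      rw [al_map]
      refine Eq.trans ?_ h2
      congr 1
      · funext j
        simp
      · funext j
        simp
    rwa [aeval_eq_eval] at h3

end generic

section gamma
variable {k : Type u} [Field k] {p : ℕ}

/-- a polynomial vanishing for `X i = 0` is divisible by `X i` -/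
theorem X_dvd {σ : Type} [DecidableEq σ] (i : σ) (P : MvPolynomial σ k) :
    (X i : MvPolynomial σ k) ∣ P - aeval (fun j => if j = i then (0 : MvPolynomial σ k) else X j) P := by
  induction P using MvPolynomial.induction_on with
  | C a =>
    rw [← MvPolynomial.algebraMap_eq, AlgHom.commutes, sub_self]
    exact dvd_zero _
  | add P Q hP hQ =>
    rw [map_add, add_sub_add_comm]
    exact dvd_add hP hQ
  | mul_X P j hP =>
    rw [map_mul, aeval_X]
    by_cases hj : j = i
    · rw [if_pos hj, mul_zero, sub_zero, hj]
      exact dvd_mul_left _ _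
    · rw [if_neg hj, ← sub_mul]
      exact Dvd.dvd.mul_right hP _

theorem gamma_ne [hp : Fact p.Prime] [IsAlgClosed k] [CharP k p] (hAl : SpecAl.{u})
    (f : MvPolynomial (Idx (p + 2)) k) (hf : Good p 2 f)
    {Om : Type u} [Field Om] [Algebra k Om] (a b : Fin p → Om)
    (hab : AlgebraicIndependent k (Sum.elim a b)) :
    al f (wv b) (Fin.cons 1 (Fin.cons 0 a)) ≠ 0 := by
  classical
  intro hzero
  have : Infinite k := IsAlgClosed.instInfinite
  have hsec := hf.sec
  have hprime := hAl p k 2 f hf
  -- vanishing at all points of the chart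
  have h1 : ∀ a0 b0 : Fin p → k, al f (wv b0) (Fin.cons 1 (Fin.cons 0 a0)) = 0 := by
    intro a0 b0
    let P : MvPolynomial (Fin p ⊕ Fin p) k := al f (A := MvPolynomial (Fin p ⊕ Fin p) k)
      (wv (fun j => X (Sum.inr j)))
      (Fin.cons 1 (Fin.cons 0 (fun j => X (Sum.inl j))))
    have hc : ∀ {B : Type u} [CommRing B] [Algebra k B] (a1 b1 : Fin p → B),
        aeval (Sum.elim a1 b1) P = al f (wv b1) (Fin.cons 1 (Fin.cons 0 a1)) := by
      intro B _ _ a1 b1
      simp only [P]
      rw [al_map]
      congr 1
      · funext j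
        refine Fin.cases ?_ (fun j => ?_) j
        · simp [wv]
        · refine Fin.cases ?_ (fun j => ?_) j
          · simp [wv]
          · simp [wv]
      · funext j
        refine Fin.cases ?_ (fun j => ?_) j
        · simp
        · refine Fin.cases ?_ (fun j => ?_) j
          · simp
          · simp
    have hP : P = 0 := (algebraicIndependent_iff.mp hab) P (by rw [hc, hzero])
    rw [← hc, hP, map_zero]
  -- vanishing when `x 0 = 0`
  have h2 : ∀ x0 w0 : Fin (p + 2) → k, x0 0 = 0 → x0 1 ≠ 0 → w0 0 ≠ 0 → al f x0 w0 = 0 := by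
    intro x0 w0 hx hx1 hw
    let b0 : Fin p → k := fun j => x0 j.succ.succ / x0 1
    let a0 : Fin p → k := fun j => (w0 j.succ.succ - w0 1 * b0 j) / w0 0
    have e1 : x0 = fun j => x0 1 * wv b0 j := by
      funext j
      refine Fin.cases ?_ (fun j => ?_) j
      · rw [wv0, hx, mul_zero]
      · refine Fin.cases ?_ (fun j => ?_) j
        · show x0 1 = x0 1 * wv b0 1
          rw [wv1, mul_one]
        · rw [wvs]
          simp only [b0]
          field_simp
    have e2 : w0 = fun j => w0 1 * wv b0 j + w0 0 * (Fin.cons 1 (Fin.cons 0 a0) :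
        Fin (p + 2) → k) j := by
      funext j
      refine Fin.cases ?_ (fun j => ?_) j
      · simp [wv]
      · refine Fin.cases ?_ (fun j => ?_) j
        · show w0 1 = w0 1 * wv b0 1 + w0 0 * 0
          rw [wv1]
          ring
        · rw [wvs, Fin.cons_succ, Fin.cons_succ]
          simp only [a0]
          rw [mul_div_cancel₀ _ hw]
          ring
    rw [e1, al_smul_left hsec, e2, al_lin hsec, h1, mul_zero, mul_zero]
  -- the polynomial with `X 0 = 0`
  let S := MvPolynomial (Fin (p + 2) ⊕ Fin (p + 2)) k
  let P0 : S := aeval (fun j => if j = Sum.inl 0 then (0 : S) else X j) (alP f)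
  have hP0 : P0 = 0 := by
    have h3 : P0 * (X (Sum.inl 1) * X (Sum.inr 0)) = 0 := by
      apply MvPolynomial.funext
      intro z
      rw [map_zero, map_mul, map_mul, eval_X, eval_X]
      by_cases hz1 : z (Sum.inl 1) = 0
      · rw [hz1, zero_mul, mul_zero]
      by_cases hz2 : z (Sum.inr 0) = 0
      · rw [hz2, mul_zero, mul_zero]
      have h4 : eval z P0 = al f (fun j => if j = 0 then 0 else z (Sum.inl j))
          (fun j => z (Sum.inr j)) := by
        have h5 : eval z P0 = (aeval z : S →ₐ[k] k) P0 := by rw [aeval_eq_eval]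
        rw [h5]
        simp only [P0]
        unfold alP
        rw [al_map, al_map]
        congr 1
        · funext j
          rw [aeval_X]
          by_cases hj : j = 0
          · rw [if_pos (by rw [hj]), if_pos hj, map_zero]
          · rw [if_neg (by simpa using hj), if_neg hj, aeval_X]
        · funext j
          rw [aeval_X, if_neg (by simp), aeval_X]
      rw [h4, h2 _ _ (if_pos rfl) (by
        rw [if_neg (by simp)]
        exact hz1) hz2, zero_mul]
    rcases mul_eq_zero.mp h3 with h4 | h4
    · exact h4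
    · exfalso
      rcases mul_eq_zero.mp h4 with h5 | h5
      · exact MvPolynomial.X_ne_zero _ h5
      · exact MvPolynomial.X_ne_zero _ h5
  have hdvd : (X (Sum.inl 0) : S) ∣ alP f := by
    have := X_dvd (k := k) (Sum.inl 0 : Fin (p + 2) ⊕ Fin (p + 2)) (alP f)
    have h5 : (aeval (fun j => if j = Sum.inl 0 then (0 : S) else X j) (alP f)) = 0 := hP0
    have h6 : alP f - (aeval (fun j => if j = Sum.inl 0 then (0 : S) else X j) (alP f)) = alP f := by
      rw [h5, sub_zero]
    exact h6 ▸ this
  obtain ⟨E, hE⟩ := hdvd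
  have hXT : sT (p + 2) k (X (Sum.inl 0)) = Polynomial.C (X (Sum.inl 0)) := by
    simp [sT]
  have h6 := sT_alP (N := p + 2) hsec
  rw [hE, map_mul, hXT] at h6
  rcases hprime.irreducible.isUnit_or_isUnit hE with hu | hu
  · have h7 := hu.map (aeval (fun _ => (0 : k)) : S →ₐ[k] k)
    rw [aeval_X] at h7
    exact not_isUnit_zero h7
  · have h8 := hu.map (sT (p + 2) k)
    have h9 := congrArg (Polynomial.eval 0) h6
    rw [Polynomial.eval_mul, Polynomial.eval_mul, Polynomial.eval_C, Polynomial.eval_pow,
      Polynomial.eval_X, zero_pow (by norm_num), zero_mul] at h9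
    have h10 := h8.map (Polynomial.evalRingHom (0 : S))
    have h11 : IsUnit (Polynomial.eval 0 (sT (p + 2) k E)) := h10
    rcases mul_eq_zero.mp h9 with h12 | h12
    · exact MvPolynomial.X_ne_zero _ h12
    · exact h11.ne_zero h12

/-- the family of the coordinates with a new variable -/
theorem chart_inj {Om : Type u} [Field Om] [Algebra k Om] (a b : Fin p → Om)
    (hab : AlgebraicIndependent k (Sum.elim a b)) :
    AlgebraicIndependent k (Sum.elim (Sum.elim (fun j => Polynomial.C (a j))
      (fun j => Polynomial.C (b j))) (fun _ : Unit => (Polynomial.X : Polynomial Om))) := by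
  have h1 : AlgebraicIndependent Om (fun _ : Unit => (Polynomial.X : Polynomial Om)) := by
    rw [algebraicIndependent_unique_type_iff]
    exact Polynomial.transcendental_X Om
  have h2 := AlgebraicIndependent.sumElim_comp hab h1
  have h3 := h2.comp (Sum.swap) (Equiv.sumComm _ _).injective
  convert h3 using 1
  funext i
  rcases i with (j | j) | j <;> rfl

theorem disc_ne [hp : Fact p.Prime] [IsAlgClosed k] [CharP k p] (hCh : SpecCh.{u})
    (f : MvPolynomial (Idx (p + 2)) k) (hf : Good p 2 f)
    {Om : Type u} [Field Om] [Algebra k Om] (a b : Fin p → Om)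
    (hab : AlgebraicIndependent k (Sum.elim a b))
    (hg : cf f (Fin.cons 1 (Fin.cons 0 a)) (wv b) 2 ≠ 0) :
    4 * cf f (Fin.cons 1 (Fin.cons 0 a)) (wv b) 0 * cf f (Fin.cons 1 (Fin.cons 0 a)) (wv b) 2
      ≠ cf f (Fin.cons 1 (Fin.cons 0 a)) (wv b) 1 ^ 2 := by
  classical
  intro hdisc
  have : Infinite k := IsAlgClosed.instInfinite
  have hsec := hf.sec
  have hprime := hCh p k 2 f hf
  let R := MvPolynomial (Ch p) k
  let cv : Fin (p + 2) → R := Fin.cons 1 (Fin.cons 0 (fun j : Fin p => X (Sum.inl (Sum.inl j))))
  let cw : Fin (p + 2) → R := Fin.cons 0 (Fin.cons 1 (fun j : Fin p => X (Sum.inl (Sum.inr j))))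
  let cX : R := X (Sum.inr ())
  let mu : R →ₐ[k] Polynomial Om := aeval (Sum.elim (Sum.elim (fun j => Polynomial.C (a j))
      (fun j => Polynomial.C (b j))) (fun _ : Unit => (Polynomial.X : Polynomial Om)))
  have hmu : Function.Injective mu := chart_inj a b hab
  have hmcv : (fun j => mu (cv j)) = fun j => Polynomial.C ((Fin.cons 1 (Fin.cons 0 a) :
      Fin (p + 2) → Om) j) := by
    funext j
    refine Fin.cases ?_ (fun j => ?_) j
    · simp [cv]
    · refine Fin.cases ?_ (fun j => ?_) j
      · simp [cv]
      · exact aeval_X _ _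
  have hmcw : (fun j => mu (cw j)) = fun j => Polynomial.C (wv b j) := by
    funext j
    refine Fin.cases ?_ (fun j => ?_) j
    · simp [cw, wv]
    · refine Fin.cases ?_ (fun j => ?_) j
      · simp [cw, wv]
      · exact aeval_X _ _
  have hmcf : ∀ i, mu (cf f cv cw i)
      = Polynomial.C (cf f (Fin.cons 1 (Fin.cons 0 a)) (wv b) i) := by
    intro i
    rw [cf_map, hmcv, hmcw]
    have := cf_map f (Polynomial.CAlgHom (R := k) (A := Om)) (Fin.cons 1 (Fin.cons 0 a)) (wv b) i
    exact this.symm
  have hmX : mu cX = Polynomial.X := aeval_X _ _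
  have hch : chart f = cf f cv cw 0 + cf f cv cw 1 * cX + cf f cv cw 2 * cX ^ 2 := by
    have h1 : chart f = ev f cv cw 1 cX := rfl
    rw [h1, ev_sum hsec]
    simp [Finset.sum_range_succ]
  have hdisc' : 4 * cf f cv cw 0 * cf f cv cw 2 = cf f cv cw 1 ^ 2 := by
    apply hmu
    rw [map_mul, map_mul, map_pow, hmcf, hmcf, hmcf, map_ofNat]
    have h2 : (4 : Polynomial Om) = Polynomial.C 4 := by
      rw [map_ofNat]
    rw [h2, ← Polynomial.C_mul, ← Polynomial.C_mul, ← Polynomial.C_pow, hdisc]
  have hsq : chart f ∣ (2 * cf f cv cw 2 * cX + cf f cv cw 1) ^ 2 := by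
    refine ⟨4 * cf f cv cw 2, ?_⟩
    rw [hch]
    linear_combination (-1) * hdisc'
  have hdv := hprime.dvd_of_dvd_pow hsq
  have h3 := map_dvd mu hdv
  rw [hch, map_add, map_add, map_mul, map_mul, map_add, map_mul, map_mul, map_pow, hmX, hmcf,
    hmcf, hmcf, map_ofNat] at h3
  set γ := cf f (Fin.cons 1 (Fin.cons 0 a)) (wv b) 2 with hγ
  set β := cf f (Fin.cons 1 (Fin.cons 0 a)) (wv b) 1 with hβ
  set α := cf f (Fin.cons 1 (Fin.cons 0 a)) (wv b) 0 with hα
  have h2ne : (2 : Om) ≠ 0 := by
    intro h
    have h1 : (2 : k) = 0 := by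
      apply (algebraMap k Om).injective
      rw [map_ofNat, map_zero]
      exact h
    have h1 : ((2 : ℕ) : k) = 0 := by exact_mod_cast h1
    have h2 := (CharP.cast_eq_zero_iff k p 2).mp h1
    have h3 := Nat.le_of_dvd (by norm_num) h2
    have h4 := hf.five
    omega
  have h4 : (2 * Polynomial.C γ * Polynomial.X + Polynomial.C β : Polynomial Om)
      = Polynomial.C (2 * γ) * Polynomial.X + Polynomial.C β := by
    rw [Polynomial.C_mul, map_ofNat]
  have h5 : (Polynomial.C α + Polynomial.C β * Polynomial.X + Polynomial.C γ * Polynomial.X ^ 2 :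
      Polynomial Om) = Polynomial.C γ * Polynomial.X ^ 2 + Polynomial.C β * Polynomial.X
        + Polynomial.C α := by
    ring
  rw [h4, h5] at h3
  have h6 : (Polynomial.C (2 * γ) * Polynomial.X + Polynomial.C β : Polynomial Om) ≠ 0 := by
    intro h
    have := congrArg (fun P : Polynomial Om => P.coeff 1) h
    simp at this
    rcases this with h | h
    · exact h2ne h
    · exact hg h
  have h7 := Polynomial.natDegree_le_of_dvd h3 h6
  rw [Polynomial.natDegree_quadratic hg, Polynomial.natDegree_linear (mul_ne_zero h2ne hg)] at h7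
  omega

end gamma

section basis
variable {k : Type u} [Field k]

open IntermediateField.algebraAdjoinAdjoin in
theorem alg_of_mem {E : Type u} [Field E] [Algebra k E] (S : Set E) (z : E)
    (hz : z ∈ IntermediateField.adjoin k S) : IsAlgebraic (Algebra.adjoin k S) z := by
  have h := Algebra.IsAlgebraic.isAlgebraic (R := Algebra.adjoin k S)
    (⟨z, hz⟩ : IntermediateField.adjoin k S)
  exact h.algebraMap (A := E)

/-- exchange: a transcendence basis from an independent family and some members of another
family -/
theorem exchange {n m : ℕ} {E : Type u} [Field E] [Algebra k E] (x : Fin n → E) (u : Fin m → E)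
    (hx : AlgebraicIndependent k x)
    (halg : Algebra.IsAlgebraic (Algebra.adjoin k (Set.range x ∪ Set.range u)) E) :
    ∃ J : Finset (Fin m), IsTranscendenceBasis k (Sum.elim x (fun j : J => u j.1)) := by
  classical
  obtain ⟨B, hxB, hBt, hB⟩ := exists_isTranscendenceBasis_between (R := k) (Set.range x)
    (Set.range x ∪ Set.range u) Set.subset_union_left
    ((algebraicIndependent_subtype_range hx.injective).mpr hx)
  let J : Finset (Fin m) := Finset.univ.filter
    (fun j => u j ∈ B ∧ u j ∉ Set.range x ∧ ∀ i < j, u i ≠ u j)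
  refine ⟨J, ?_⟩
  have hJ : ∀ j : J, u j.1 ∈ B ∧ u j.1 ∉ Set.range x ∧ ∀ i < j.1, u i ≠ u j.1 := by
    intro j
    have := j.2
    rw [Finset.mem_filter] at this
    exact this.2
  have hinj : Function.Injective (Sum.elim x (fun j : J => u j.1)) := by
    intro i j hij
    rcases i with i | i <;> rcases j with j | j
    · simp only [Sum.elim_inl] at hij
      rw [hx.injective hij]
    · simp only [Sum.elim_inl, Sum.elim_inr] at hij
      exact absurd ⟨i, hij⟩ (hJ j).2.1
    · simp only [Sum.elim_inl, Sum.elim_inr] at hij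
      exact absurd ⟨j, hij.symm⟩ (hJ i).2.1
    · simp only [Sum.elim_inr] at hij
      rcases lt_trichotomy i.1 j.1 with h | h | h
      · exact absurd hij ((hJ j).2.2 i.1 h)
      · rw [Subtype.ext h]
      · exact absurd hij.symm ((hJ i).2.2 j.1 h)
  have hrange : Set.range (Sum.elim x (fun j : J => u j.1)) = B := by
    apply Set.Subset.antisymm
    · rintro _ ⟨i, rfl⟩
      rcases i with i | i
      · exact hxB ⟨i, rfl⟩
      · exact (hJ i).1
    · intro y hy
      by_cases hyx : y ∈ Set.range x
      · obtain ⟨i, rfl⟩ := hyx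
        exact ⟨Sum.inl i, rfl⟩
      · have hyu : y ∈ Set.range u := (hBt hy).resolve_left hyx
        have hne : {j : Fin m | u j = y}.Nonempty := hyu
        obtain ⟨j, hj, hmin⟩ := WellFounded.has_min (wellFounded_lt (α := Fin m)) _ hne
        have hj' : u j = y := hj
        refine ⟨Sum.inr ⟨j, ?_⟩, hj'⟩
        rw [Finset.mem_filter]
        refine ⟨Finset.mem_univ _, ?_, ?_, ?_⟩
        · rw [hj']
          exact hy
        · rw [hj']
          exact hyx
        · intro i hi hiu
          exact hmin i (hiu.trans hj') hi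
  rw [← isTranscendenceBasis_subtype_range hinj, hrange]
  exact hB

end basis

end PairM

open PairM in
theorem specPair (hAl : SpecAl.{u}) (hCh : SpecCh.{u}) (hGen : SpecGen.{u}) : SpecPair.{u} := by
  classical
  intro p hp k _ _ _ f hf
  have : Infinite k := IsAlgClosed.instInfinite
  have hsec := hf.sec
  have h5 := hf.five
  let P2 := MvPolynomial (Fin p ⊕ Fin p) k
  let Fr := FractionRing P2
  let Om := AlgebraicClosure Fr
  have halgP : Algebra.IsAlgebraic P2 Fr := IsLocalization.isAlgebraic _ (nonZeroDivisors P2)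
  have halgO : Algebra.IsAlgebraic P2 Om := Algebra.IsAlgebraic.trans P2 Fr Om
  have hinjP : Function.Injective (algebraMap P2 Om) := by
    rw [IsScalarTower.algebraMap_eq P2 Fr Om]
    exact (algebraMap Fr Om).injective.comp (IsFractionRing.injective P2 Fr)
  have : FaithfulSMul P2 Om := (faithfulSMul_iff_algebraMap_injective P2 Om).mpr hinjP
  have hbasis : IsTranscendenceBasis k (algebraMap P2 Om ∘ (X : Fin p ⊕ Fin p → P2)) :=
    (IsTranscendenceBasis.mvPolynomial (Fin p ⊕ Fin p) k).algebraMap_comp
  let a : Fin p → Om := fun j => algebraMap P2 Om (X (Sum.inl j))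
  let b : Fin p → Om := fun j => algebraMap P2 Om (X (Sum.inr j))
  have hab_eq : (algebraMap P2 Om ∘ (X : Fin p ⊕ Fin p → P2)) = Sum.elim a b := by
    funext i
    rcases i with j | j <;> rfl
  rw [hab_eq] at hbasis
  have hab : AlgebraicIndependent k (Sum.elim a b) := hbasis.1
  -- the binary form of the generic plane
  let v : Fin (p + 2) → Om := Fin.cons 1 (Fin.cons 0 a)
  let w : Fin (p + 2) → Om := wv b
  set α := cf f v w 0 with hα
  set β := cf f v w 1 with hβ
  set γ := cf f v w 2 with hγ
  have hform : ∀ t : Om, ev f v w 1 t = α + β * t + γ * t ^ 2 := by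
    intro t
    rw [ev_sum hsec]
    simp [Finset.sum_range_succ, hα, hβ, hγ]
  have hγ0 : γ ≠ 0 := by
    rw [hγ, cf_top hsec]
    have h1 := ev_swap hsec v w 1 0
    rw [neg_one_sq, one_mul] at h1
    rw [← h1]
    exact gamma_ne hAl f hf a b hab
  have hdisc : 4 * α * γ ≠ β ^ 2 := disc_ne hCh f hf a b hab hγ0
  have hxv : ∀ c : Om, xv a b c = fun j => 1 * v j + c * w j := by
    intro c
    funext j
    refine Fin.cases ?_ (fun j => ?_) j
    · simp [xv, v, w, wv]
    · refine Fin.cases ?_ (fun j => ?_) j
      · simp [xv, v, w, wv]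
      · simp [xv, v, w, wv]
  have halx : ∀ c : Om, al f (xv a b c) w = α + β * c ^ p + γ * (c ^ p) ^ 2 := by
    intro c
    rw [hxv, al_line hsec, one_pow, one_pow, one_mul, hform]
  -- two roots
  obtain ⟨c, hc⟩ : ∃ c : Om, α + β * c + γ * c ^ 2 = 0 := by
    have hdeg : (Polynomial.C γ * Polynomial.X ^ 2 + Polynomial.C β * Polynomial.X
        + Polynomial.C α : Polynomial Om).degree ≠ 0 := by
      rw [Polynomial.degree_quadratic hγ0]
      norm_num
    obtain ⟨c, hc⟩ := IsAlgClosed.exists_root _ hdeg
    refine ⟨c, ?_⟩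
    have := Polynomial.IsRoot.def.mp hc
    simp only [Polynomial.eval_add, Polynomial.eval_mul, Polynomial.eval_C, Polynomial.eval_pow,
      Polynomial.eval_X] at this
    linear_combination this
  obtain ⟨c', hc'⟩ : ∃ c' : Om, c' = -β / γ - c := ⟨_, rfl⟩
  have hsum : γ * (c + c') = -β := by
    have h1 : c + c' = -β / γ := by rw [hc']; ring
    rw [h1, mul_div_cancel₀ _ hγ0]
  have hcc : γ * (c - c') = β + 2 * γ * c := by
    linear_combination (-1) * hsum
  have hroot' : α + β * c' + γ * c' ^ 2 = 0 := by
    linear_combination hc - (c - c') * hsum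
  have hne : c ≠ c' := by
    intro h
    rw [← h, sub_self, mul_zero] at hcc
    apply hdisc
    linear_combination 4 * γ * hc - (β + 2 * γ * c) * (0 : Om) - (-β - 2 * γ * c) * hcc
  have hp0 : 0 < p := hp.out.pos
  obtain ⟨xi, hxi⟩ := IsAlgClosed.exists_pow_nat_eq c hp0
  obtain ⟨xi', hxi'⟩ := IsAlgClosed.exists_pow_nat_eq c' hp0
  have hxne : xi' - xi ≠ 0 := by
    intro h
    apply hne
    rw [← hxi, ← hxi', sub_eq_zero.mp h]
  have hr : al f (xv a b xi) (wv b) = 0 := by
    have := halx xi
    rw [hxi, hc] at this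
    exact this
  have hr' : al f (xv a b xi') (wv b) = 0 := by
    have := halx xi'
    rw [hxi', hroot'] at this
    exact this
  obtain ⟨hx, e1, he1⟩ := root_generic hAl hGen f hf a b hab xi hr
  obtain ⟨hu, e2, he2⟩ := root_generic hAl hGen f hf a b hab xi' hr'
  have hux : xv a b xi' = fun j => 1 * xv a b xi j + (xi' - xi) * w j := by
    rw [hxv xi, hxv xi']
    funext j
    ring
  have hxu : xv a b xi = fun j => 1 * xv a b xi' j + (xi - xi') * w j := by
    rw [hxv xi, hxv xi']
    funext j
    ring
  have hpolx : pol f (xv a b xi) (xv a b xi') (fun l => algebraMap k Om (e1 l)) ≠ 0 := by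
    have h1 : xv a b xi' = fun j => (fun j => (xi' - xi) * w j) j + 1 * xv a b xi j := by
      rw [hux]
      funext j
      ring
    rw [h1, pol_add_self hsec, pol_smul hsec]
    exact mul_ne_zero hxne he1
  have hpolu : pol f (xv a b xi') (xv a b xi) (fun l => algebraMap k Om (e2 l)) ≠ 0 := by
    have h1 : xv a b xi = fun j => (fun j => (xi - xi') * w j) j + 1 * xv a b xi' j := by
      rw [hxu]
      funext j
      ring
    rw [h1, pol_add_self hsec, pol_smul hsec]
    exact mul_ne_zero (by rw [← neg_sub]; exact neg_ne_zero.mpr hxne) he2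
  have hcf1 : cf f (xv a b xi) (xv a b xi') 1 ≠ 0 := by
    -- the form on the frame `(x, w)`
    have hcx : ∀ T : Polynomial Om, ev f (A := Polynomial Om)
        (fun j => Polynomial.C (xv a b xi j)) (fun j => Polynomial.C (w j)) 1 T
        = T * (Polynomial.C (β + 2 * γ * c) + Polynomial.C γ * T) := by
      intro T
      have h1 : (fun j => Polynomial.C (xv a b xi j) : Fin (p + 2) → Polynomial Om)
          = fun j => 1 * Polynomial.C (v j) + Polynomial.C xi * Polynomial.C (w j) := by
        rw [hxv]
        funext j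
        simp
      rw [h1, ev_lin' hsec, one_pow, one_pow, one_mul, mul_one, one_mul, ev_C_sum hsec]
      simp only [Finset.sum_range_succ, Finset.sum_range_zero, zero_add, one_pow, mul_one,
        pow_zero, pow_one]
      rw [← hα, ← hβ, ← hγ, ← Polynomial.C_pow, hxi]
      have h2 : (Polynomial.C α : Polynomial Om) = - Polynomial.C (β * c + γ * c ^ 2) := by
        rw [← Polynomial.C_neg]
        congr 1
        linear_combination hc
      rw [h2]
      simp only [Polynomial.C_add, Polynomial.C_mul, Polynomial.C_pow, map_ofNat]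
      ring
    have h3 : ev f (A := Polynomial Om) (fun j => Polynomial.C (xv a b xi j))
        (fun j => Polynomial.C (xv a b xi' j)) 1 Polynomial.X
        = Polynomial.C ((xi' - xi) ^ 2) * (ev f (A := Polynomial Om)
          (fun j => Polynomial.C (xv a b xi j)) (fun j => Polynomial.C (w j))
          (1 + Polynomial.X) (Polynomial.X * Polynomial.C ((xi' - xi) ^ p))) := by
      have h1 : (fun j => Polynomial.C (xv a b xi' j) : Fin (p + 2) → Polynomial Om)
          = fun j => 1 * Polynomial.C (xv a b xi j)
            + Polynomial.C (xi' - xi) * Polynomial.C (w j) := by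
        rw [hux]
        funext j
        simp
      rw [h1, ev_lin hsec, one_pow, mul_one, ← Polynomial.C_pow, ← Polynomial.C_pow]
    have h4 : ev f (A := Polynomial Om) (fun j => Polynomial.C (xv a b xi j))
        (fun j => Polynomial.C (w j)) (1 + Polynomial.X)
        (Polynomial.X * Polynomial.C ((xi' - xi) ^ p))
        = Polynomial.X * (Polynomial.C ((xi' - xi) ^ p) * (Polynomial.C (β + 2 * γ * c)
          * (1 + Polynomial.X) + Polynomial.C γ * (Polynomial.X *
            Polynomial.C ((xi' - xi) ^ p)))) := by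
      have h5 := ev_C_sum hsec (xv a b xi) w (1 + Polynomial.X)
        (Polynomial.X * Polynomial.C ((xi' - xi) ^ p))
      have h6 := ev_C_sum hsec (xv a b xi) w 1 Polynomial.X
      have h7 := hcx Polynomial.X
      rw [h6] at h7
      simp only [Finset.sum_range_succ, Finset.sum_range_zero, zero_add, one_pow, mul_one,
        pow_zero, pow_one] at h7
      have g0 : cf f (xv a b xi) w 0 = 0 := by
        have := congrArg (fun P : Polynomial Om => P.coeff 0) h7
        simp at this
        exact this
      have g1 : cf f (xv a b xi) w 1 = β + 2 * γ * c := by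
        have := congrArg (fun P : Polynomial Om => P.coeff 1) h7
        simp [Polynomial.coeff_X, Polynomial.coeff_C, Polynomial.coeff_X_pow] at this
        exact this
      have g2 : cf f (xv a b xi) w 2 = γ := by
        have := congrArg (fun P : Polynomial Om => P.coeff 2) h7
        simp [Polynomial.coeff_X, Polynomial.coeff_C, Polynomial.coeff_X_pow] at this
        exact this
      rw [h5]
      simp only [Finset.sum_range_succ, Finset.sum_range_zero, zero_add, one_pow, mul_one,
        pow_zero, pow_one, g0, g1, g2]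
      rw [map_zero]
      ring
    have h8 : cf f (xv a b xi) (xv a b xi') 1
        = (xi' - xi) ^ 2 * ((xi' - xi) ^ p * (β + 2 * γ * c)) := by
      unfold cf
      rw [h3, h4, Polynomial.coeff_C_mul, Polynomial.coeff_X_mul, Polynomial.coeff_C_mul]
      simp
    rw [h8, ← hcc]
    exact mul_ne_zero (pow_ne_zero _ hxne) (mul_ne_zero (pow_ne_zero _ hxne)
      (mul_ne_zero hγ0 (sub_ne_zero.mpr hne)))
  -- the transcendence basis
  set xs : Fin (p + 1) → Om := fun j => xv a b xi j.succ with hxs
  set us : Fin (p + 1) → Om := fun j => xv a b xi' j.succ with hus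
  set S : Set Om := Set.range xs ∪ Set.range us with hS
  have halg : Algebra.IsAlgebraic (Algebra.adjoin k S) Om := by
    rw [hbasis.isAlgebraic_iff]
    let K1 := IntermediateField.adjoin k S
    have m1 : ∀ j : Fin (p + 1), xs j ∈ K1 := fun j =>
      IntermediateField.subset_adjoin _ _ (Or.inl ⟨j, rfl⟩)
    have m2 : ∀ j : Fin (p + 1), us j ∈ K1 := fun j =>
      IntermediateField.subset_adjoin _ _ (Or.inr ⟨j, rfl⟩)
    have mxi : xi ∈ K1 := m1 0
    have mxi' : xi' ∈ K1 := m2 0
    have mb : ∀ j, b j ∈ K1 := by
      intro j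
      have h1 : b j = (us j.succ - xs j.succ) / (xi' - xi) := by
        rw [eq_div_iff hxne]
        show b j * (xi' - xi) = (a j + xi' * b j) - (a j + xi * b j)
        ring
      rw [h1]
      exact K1.div_mem (K1.sub_mem (m2 _) (m1 _)) (K1.sub_mem mxi' mxi)
    have ma : ∀ j, a j ∈ K1 := by
      intro j
      have h1 : a j = xs j.succ - xi * b j := by
        show a j = (a j + xi * b j) - xi * b j
        ring
      rw [h1]
      exact K1.sub_mem (m1 _) (K1.mul_mem mxi (mb j))
    intro i
    rcases i with j | j
    · exact alg_of_mem S _ (ma j)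
    · exact alg_of_mem S _ (mb j)
  obtain ⟨J, hJ⟩ := exchange (k := k) xs us hx halg
  have hcard : J.card = p - 1 := by
    have h1 := hJ.cardinalMk_eq hbasis
    rw [Cardinal.mk_fintype, Cardinal.mk_fintype, Nat.cast_inj] at h1
    simp only [Fintype.card_sum, Fintype.card_fin, Fintype.card_coe] at h1
    omega
  refine ⟨Om, inferInstance, inferInstance, inferInstance, xv a b xi, xv a b xi', rfl, rfl, hx,
    hu, ?_, ?_, hcf1, ⟨e1, hpolx⟩, ⟨e2, hpolu⟩, J, hcard, hJ.1, ?_⟩
  · rw [hux, al_lin hsec]
    rw [show al f (xv a b xi) w = 0 from hr, mul_zero]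
  · rw [hxu, al_lin hsec]
    rw [show al f (xv a b xi') w = 0 from hr', mul_zero]
  · intro z
    have := hJ.isAlgebraic_field
    exact Algebra.IsAlgebraic.isAlgebraic z

end MPcfca
end

section
/-! MP_cfca38_ag, module SD: algebraic independence is an open condition on parameters. -/
set_option autoImplicit false

namespace MPcfca

open MvPolynomial

universe u

namespace SDM

variable {k : Type u} [Field k] {ι τ : Type}

/-- specialisation of the parameters -/
noncomputable def sp {L : Type u} [Field L] [Algebra k L] (z : ι → L) :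
    MvPolynomial (ι ⊕ τ) k →ₐ[k] MvPolynomial τ L :=
  aeval (R := k) (Sum.elim (fun i : ι => C (z i)) (fun j : τ => X j))

/-- polynomials in `τ` over the polynomials in `ι` -/
noncomputable def it : MvPolynomial (ι ⊕ τ) k →ₐ[k] MvPolynomial τ (MvPolynomial ι k) :=
  (sumAlgEquiv k τ ι).toAlgHom.comp (rename Sum.swap)

theorem it_inj : Function.Injective (it (k := k) (ι := ι) (τ := τ)) :=
  (sumAlgEquiv k τ ι).injective.comp (rename_injective _ Sum.swap_leftInverse.injective)

theorem sp_eq {L : Type u} [Field L] [Algebra k L] (z : ι → L) (f : MvPolynomial (ι ⊕ τ) k) :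
    sp z f = map (aeval z).toRingHom (it f) := by
  have h : (sp z : MvPolynomial (ι ⊕ τ) k →ₐ[k] MvPolynomial τ L).toRingHom
      = (map (aeval z).toRingHom).comp (it (k := k) (ι := ι) (τ := τ)).toRingHom := by
    apply MvPolynomial.ringHom_ext
    · intro r
      simp [sp, it, algebraMap_eq]
    · rintro (i | j)
      · simp [sp, it]
      · simp [sp, it]
  exact congrArg (fun g : MvPolynomial (ι ⊕ τ) k →+* MvPolynomial τ L => g f) h

theorem exists_nz (f : MvPolynomial (ι ⊕ τ) k) (hf : f ≠ 0) :
    ∃ B : MvPolynomial ι k, B ≠ 0 ∧ ∀ (L : Type u) [Field L] [Algebra k L] (z : ι → L),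
      aeval z B ≠ 0 → sp z f ≠ 0 := by
  have h1 : it f ≠ 0 := fun h => hf (it_inj (by rw [h, map_zero]))
  obtain ⟨m, hm⟩ := MvPolynomial.ne_zero_iff.1 h1
  refine ⟨coeff m (it f), hm, ?_⟩
  intro L _ _ z hz h0
  apply hz
  have h2 := congrArg (coeff m) h0
  rw [sp_eq, coeff_map, coeff_zero] at h2
  exact h2

theorem exists_B (u : Set (MvPolynomial (ι ⊕ τ) k)) (x : MvPolynomial (ι ⊕ τ) k)
    (hx : IsAlgebraic (Algebra.adjoin k u) x) :
    ∃ B : MvPolynomial ι k, B ≠ 0 ∧ ∀ (L : Type u) [Field L] [Algebra k L] (z : ι → L),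
      aeval z B ≠ 0 → IsAlgebraic (Algebra.adjoin L (sp z '' u)) (sp z x) := by
  obtain ⟨p, hp0, hp⟩ := hx
  have hc : ((p.leadingCoeff : Algebra.adjoin k u) : MvPolynomial (ι ⊕ τ) k) ≠ 0 := by
    intro h
    exact hp0 (Polynomial.leadingCoeff_eq_zero.1 (Subtype.ext h))
  obtain ⟨B, hB0, hB⟩ := exists_nz _ hc
  refine ⟨B, hB0, ?_⟩
  intro L _ _ z hz
  have h1 : ∀ a : Algebra.adjoin k u, sp z (a : MvPolynomial (ι ⊕ τ) k) ∈
      (Algebra.adjoin L (sp z '' u)) := by
    rintro ⟨a, ha⟩
    induction ha using Algebra.adjoin_induction with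
    | mem x hx => exact Algebra.subset_adjoin ⟨x, hx, rfl⟩
    | algebraMap r =>
      have h2 : sp z (algebraMap k (MvPolynomial (ι ⊕ τ) k) r)
          = algebraMap L (MvPolynomial τ L) (algebraMap k L r) := by
        rw [AlgHom.commutes]
        rfl
      rw [h2]
      exact Subalgebra.algebraMap_mem _ _
    | add x y _ _ hx hy =>
      rw [map_add]
      exact add_mem hx hy
    | mul x y _ _ hx hy =>
      rw [map_mul]
      exact mul_mem hx hy
  let ψ : Algebra.adjoin k u →+* Algebra.adjoin L (sp z '' u) :=
    ((sp z).toRingHom.comp (algebraMap (Algebra.adjoin k u) (MvPolynomial (ι ⊕ τ) k))).codRestrict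
      (Algebra.adjoin L (sp z '' u)) h1
  refine ⟨p.map ψ, ?_, ?_⟩
  · intro h
    have h2 : (p.map ψ).coeff p.natDegree = 0 := by rw [h, Polynomial.coeff_zero]
    rw [Polynomial.coeff_map, Polynomial.coeff_natDegree] at h2
    exact hB L z hz (congrArg Subtype.val h2)
  · rw [Polynomial.aeval_def, Polynomial.eval₂_map]
    have h3 : (algebraMap (Algebra.adjoin L (sp z '' u)) (MvPolynomial τ L)).comp ψ
        = (sp z).toRingHom.comp (algebraMap (Algebra.adjoin k u) (MvPolynomial (ι ⊕ τ) k)) := by
      ext a
      rfl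
    rw [h3]
    have h4 := Polynomial.hom_eval₂ p (algebraMap (Algebra.adjoin k u) (MvPolynomial (ι ⊕ τ) k))
      (sp z).toRingHom x
    have h5 : (sp z).toRingHom x = sp z x := rfl
    rw [h5] at h4
    rw [← h4, ← Polynomial.aeval_def, hp, map_zero]

/-- a family of at most `card τ` polynomials over which all variables are algebraic is
independent -/
theorem indep_of_algebraic {L : Type u} [Field L] [Fintype τ] {ω : Type*} [Finite ω]
    (y : ω → MvPolynomial τ L) (hcard : Nat.card ω ≤ Fintype.card τ)
    (h : ∀ l, IsAlgebraic (Algebra.adjoin L (Set.range y)) (X l : MvPolynomial τ L)) :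
    AlgebraicIndependent L y := by
  have h1 : Algebra.IsAlgebraic (Algebra.adjoin L (Set.range y)) (MvPolynomial τ L) := by
    rw [← AlgebraicIndependent.matroid_spanning_iff]
    have h2 : Set.range (X : τ → MvPolynomial τ L) ⊆
        (AlgebraicIndependent.matroid L (MvPolynomial τ L)).closure (Set.range y) := by
      rintro _ ⟨l, rfl⟩
      rw [AlgebraicIndependent.matroid_closure_eq]
      exact h l
    have h3 : (AlgebraicIndependent.matroid L (MvPolynomial τ L)).Spanning
        (Set.range (X : τ → MvPolynomial τ L)) := by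
      rw [AlgebraicIndependent.matroid_spanning_iff]
      have h4 : Algebra.adjoin L (Set.range (X : τ → MvPolynomial τ L)) = ⊤ :=
        MvPolynomial.adjoin_range_X
      rw [h4]
      refine ⟨fun a => ?_⟩
      exact isAlgebraic_algebraMap (⟨a, Algebra.mem_top⟩ : (⊤ : Subalgebra L (MvPolynomial τ L)))
    exact (AlgebraicIndependent.matroid L (MvPolynomial τ L)).closure_spanning_iff.1
      (h3.superset h2)
  refine (Algebra.IsAlgebraic.isTranscendenceBasis_of_lift_le_trdeg_of_finite L y ?_).1
  rw [MvPolynomial.trdeg_of_isDomain]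
  have := Fintype.ofFinite ω
  rw [Nat.card_eq_fintype_card] at hcard
  simp only [Cardinal.mk_fintype, Cardinal.lift_natCast]
  exact_mod_cast hcard

end SDM

open SDM in
/-- SD -/
theorem specSD : SpecSD.{u} := by
  classical
  intro k _ ι τ κ _ _ _ Φ hΦ
  set s : Set (MvPolynomial (ι ⊕ τ) k) :=
    Set.range (Sum.elim (fun i : ι => (X (Sum.inl i) : MvPolynomial (ι ⊕ τ) k)) Φ) with hs
  obtain ⟨u, hsu, hu⟩ := exists_isTranscendenceBasis_superset (R := k)
    (s := s) hΦ.to_subtype_range
  have hcu : Cardinal.mk u = (Fintype.card (ι ⊕ τ) : ℕ) := by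
    have h1 := hu.lift_cardinalMk_eq_trdeg
    rw [MvPolynomial.trdeg_of_isDomain] at h1
    simpa using h1
  have hfu : Finite u := by
    rw [← Cardinal.mk_lt_aleph0_iff, hcu]
    exact Cardinal.natCast_lt_aleph0
  have hcu' : Nat.card u = Fintype.card ι + Fintype.card τ := by
    rw [Nat.card, hcu, Cardinal.toNat_natCast, Fintype.card_sum]
  have hcs : Nat.card s = Fintype.card ι + Fintype.card κ := by
    rw [hs, Nat.card_range_of_injective hΦ.injective, Nat.card_eq_fintype_card, Fintype.card_sum]
  have hcd : Nat.card ↥(u \ s) + Nat.card s = Nat.card u := by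
    have h1 := Set.ncard_sdiff_add_ncard_of_subset hsu hfu
    rw [Nat.card_coe_set_eq, Nat.card_coe_set_eq, Nat.card_coe_set_eq]
    exact h1
  -- the polynomials
  have halg := hu.isAlgebraic
  rw [Subtype.range_coe] at halg
  choose B hB0 hB using fun l : τ => exists_B (k := k) (ι := ι) (τ := τ) u (X (Sum.inr l))
    (halg.isAlgebraic _)
  refine ⟨∏ l, B l, Finset.prod_ne_zero_iff.2 fun l _ => hB0 l, ?_⟩
  intro L _ _ z hz
  rw [map_prod, Finset.prod_ne_zero_iff] at hz
  let y : κ ⊕ ↥(u \ s) → MvPolynomial τ L := Sum.elim (fun i => sp z (Φ i)) (fun a => sp z (a : MvPolynomial (ι ⊕ τ) k))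
  have hfin : Finite ↥(u \ s) := Finite.Set.subset u Set.sdiff_subset
  have hy : AlgebraicIndependent L y := by
    apply indep_of_algebraic
    · rw [Nat.card_sum, Nat.card_eq_fintype_card (α := κ)]
      omega
    · intro l
      have h1 := hB l L z (hz l (Finset.mem_univ l))
      have h2 : sp z (X (Sum.inr l) : MvPolynomial (ι ⊕ τ) k) = X l := by simp [sp]
      rw [h2] at h1
      have h3 : Algebra.adjoin L (sp z '' u) ≤ Algebra.adjoin L (Set.range y) := by
        rw [Algebra.adjoin_le_iff]
        rintro _ ⟨a, ha, rfl⟩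
        by_cases has : a ∈ s
        · obtain ⟨i | i, rfl⟩ := has
          · have h4 : sp z (X (Sum.inl i) : MvPolynomial (ι ⊕ τ) k)
                = algebraMap L (MvPolynomial τ L) (z i) := by simp [sp, algebraMap_eq]
            simp only [Sum.elim_inl, SetLike.mem_coe]
            rw [h4]
            exact Subalgebra.algebraMap_mem _ _
          · exact Algebra.subset_adjoin ⟨Sum.inl i, rfl⟩
        · exact Algebra.subset_adjoin ⟨Sum.inr ⟨a, ha, has⟩, rfl⟩
      let _ : Algebra (Algebra.adjoin L (sp z '' u)) (Algebra.adjoin L (Set.range y)) :=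
        (Subalgebra.inclusion h3).toRingHom.toAlgebra
      have : IsScalarTower (Algebra.adjoin L (sp z '' u)) (Algebra.adjoin L (Set.range y))
        (MvPolynomial τ L) := IsScalarTower.of_algebraMap_eq (fun _ => rfl)
      exact h1.extendScalars (Subalgebra.inclusion_injective h3)
  exact hy.comp Sum.inl Sum.inl_injective

end MPcfca
end

section
/-! MP_cfca38_ag, module RED: the number of parameters of a unirational parametrisation can be
reduced to the dimension. -/
set_option autoImplicit false

namespace MPcfca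

open MvPolynomial

universe u v

namespace RedM

section coord
variable {K : Type u} [Field K] {σ : Type v}

theorem mem_vars_iff' (F : MvPolynomial σ K) (i : σ) : i ∈ F.vars ↔ degreeOf i F ≠ 0 := by
  classical
  rw [vars_def, Multiset.mem_toFinset, degreeOf_def, Multiset.count_ne_zero]

theorem exists_degreeOf_ne {F : MvPolynomial σ K} (hF : Prime F) : ∃ i0, degreeOf i0 F ≠ 0 := by
  by_contra h
  push Not at h
  have h1 : F.vars = ∅ := by
    apply Finset.eq_empty_of_forall_notMem
    intro i hi
    exact (mem_vars_iff' F i).1 hi (h i)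
  rw [vars_eq_empty_iff_eq_C] at h1
  by_cases h2 : F.coeff 0 = 0
  · rw [h2, C_0] at h1
    exact hF.ne_zero h1
  · apply hF.not_isUnit
    rw [h1]
    exact (IsUnit.mk0 _ h2).map C

theorem indep_coord {L : Type*} [Field L] [Algebra K L] (z : σ → L) (F : MvPolynomial σ K)
    (i0 : σ) (hd : degreeOf i0 F ≠ 0) (h : ∀ h, aeval z h = 0 → F ∣ h) :
    AlgebraicIndependent K (fun i : {i // i ≠ i0} => z i) := by
  classical
  rw [algebraicIndependent_iff]
  intro G hG
  by_contra hG0
  have h1 : aeval z (rename (Subtype.val : {i // i ≠ i0} → σ) G) = 0 := by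
    rw [aeval_rename]
    exact hG
  obtain ⟨c, hc⟩ := h _ h1
  have h2 : rename (Subtype.val : {i // i ≠ i0} → σ) G ≠ 0 := by
    intro h0
    exact hG0 (rename_injective _ Subtype.val_injective (by rw [h0, map_zero]))
  have hF0 : F ≠ 0 := by
    rintro rfl
    rw [zero_mul] at hc
    exact h2 hc
  have hc0 : c ≠ 0 := by
    rintro rfl
    rw [mul_zero] at hc
    exact h2 hc
  have h3 : degreeOf i0 (rename (Subtype.val : {i // i ≠ i0} → σ) G) = 0 := by
    by_contra h4
    rw [← ne_eq, ← mem_vars_iff'] at h4
    obtain ⟨⟨j, hj⟩, _, hj2⟩ := mem_vars_rename _ _ h4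
    exact hj hj2
  rw [hc, degreeOf_mul_eq hF0 hc0] at h3
  omega

end coord

/-- a family of at most `card τ` elements over which a transcendence basis indexed by `τ` is
algebraic is independent -/
theorem indep_of_basis {k : Type u} {E : Type u} [Field k] [Field E] [Algebra k E]
    {τ ω : Type} [Fintype τ] [Finite ω]
    (x : τ → E) (hx : IsTranscendenceBasis k x) (y : ω → E) (hcard : Nat.card ω ≤ Fintype.card τ)
    (h : ∀ l, IsAlgebraic (Algebra.adjoin k (Set.range y)) (x l)) :
    AlgebraicIndependent k y := by
  have h1 : Algebra.IsAlgebraic (Algebra.adjoin k (Set.range y)) E := by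
    rw [← AlgebraicIndependent.matroid_spanning_iff]
    have h2 : Set.range x ⊆ (AlgebraicIndependent.matroid k E).closure (Set.range y) := by
      rintro _ ⟨l, rfl⟩
      rw [AlgebraicIndependent.matroid_closure_eq]
      exact h l
    have h3 : (AlgebraicIndependent.matroid k E).Spanning (Set.range x) := by
      rw [AlgebraicIndependent.matroid_spanning_iff]
      exact hx.isAlgebraic
    exact (AlgebraicIndependent.matroid k E).closure_spanning_iff.1 (h3.superset h2)
  refine (Algebra.IsAlgebraic.isTranscendenceBasis_of_lift_le_trdeg_of_finite k y ?_).1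
  rw [← hx.lift_cardinalMk_eq_trdeg]
  have := Fintype.ofFinite ω
  rw [Nat.card_eq_fintype_card] at hcard
  simp only [Cardinal.mk_fintype, Cardinal.lift_natCast]
  exact_mod_cast hcard

/-- monotonicity of algebraicity in the subalgebra -/
theorem alg_mono {k : Type*} {E : Type*} [Field k] [Field E] [Algebra k E]
    {S T : Subalgebra k E} (h : S ≤ T) {x : E} (hx : IsAlgebraic S x) : IsAlgebraic T x := by
  let _ : Algebra S T := (Subalgebra.inclusion h).toRingHom.toAlgebra
  have : IsScalarTower S T E := IsScalarTower.of_algebraMap_eq (fun _ => rfl)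
  exact hx.extendScalars (Subalgebra.inclusion_injective h)

/-- specialisation of an algebraic relation -/
theorem exists_lead {k : Type u} [Field k] {A : Type u} [CommRing A] [IsDomain A] [Algebra k A]
    (u : Set A) (x : A) (hx : IsAlgebraic (Algebra.adjoin k u) x) :
    ∃ f : A, f ≠ 0 ∧ ∀ (E : Type u) [Field E] [Algebra k E] (Ψ : A →ₐ[k] E), Ψ f ≠ 0 →
      IsAlgebraic (Algebra.adjoin k (Ψ '' u)) (Ψ x) := by
  obtain ⟨p, hp0, hp⟩ := hx
  have hc : ((p.leadingCoeff : Algebra.adjoin k u) : A) ≠ 0 := by
    intro h
    exact hp0 (Polynomial.leadingCoeff_eq_zero.1 (Subtype.ext h))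
  refine ⟨_, hc, ?_⟩
  intro E _ _ Ψ hΨ
  have h1 : ∀ a : Algebra.adjoin k u, Ψ (a : A) ∈ (Algebra.adjoin k (Ψ '' u)) := by
    intro a
    rw [← AlgHom.map_adjoin]
    exact ⟨a, a.2, rfl⟩
  let ψ : Algebra.adjoin k u →+* Algebra.adjoin k (Ψ '' u) :=
    (Ψ.toRingHom.comp (algebraMap (Algebra.adjoin k u) A)).codRestrict
      (Algebra.adjoin k (Ψ '' u)) h1
  refine ⟨p.map ψ, ?_, ?_⟩
  · intro h
    have h2 : (p.map ψ).coeff p.natDegree = 0 := by rw [h, Polynomial.coeff_zero]
    rw [Polynomial.coeff_map, Polynomial.coeff_natDegree] at h2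
    exact hΨ (congrArg Subtype.val h2)
  · rw [Polynomial.aeval_def, Polynomial.eval₂_map]
    have h3 : (algebraMap (Algebra.adjoin k (Ψ '' u)) E).comp ψ
        = Ψ.toRingHom.comp (algebraMap (Algebra.adjoin k u) A) := by
      ext a
      rfl
    rw [h3]
    have h4 := Polynomial.hom_eval₂ p (algebraMap (Algebra.adjoin k u) A) Ψ.toRingHom x
    have h5 : Ψ.toRingHom x = Ψ x := rfl
    rw [h5] at h4
    rw [← h4, ← Polynomial.aeval_def, hp, map_zero]

section special
variable {k : Type u} [Field k] {M : ℕ} (J : Set (Fin M))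

open Classical in
/-- specialisation of the variables in `J` -/
noncomputable def spJ (c : J → k) : MvPolynomial (Fin M) k →ₐ[k] MvPolynomial ↥Jᶜ k :=
  (SDM.sp (ι := J) (τ := ↥Jᶜ) c).comp (rename (Equiv.Set.sumCompl J).symm)

theorem spJ_mem (c : J → k) (j : J) : spJ J c (X (j : Fin M)) = C (c j) := by
  classical
  simp [spJ, SDM.sp]

theorem spJ_notMem (c : J → k) (j : ↥Jᶜ) : spJ J c (X (j : Fin M)) = X j := by
  classical
  simp [spJ, SDM.sp]

theorem exists_c [Infinite k] {ω : Type*} [Fintype ω] (f : ω → MvPolynomial (Fin M) k)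
    (hf : ∀ i, f i ≠ 0) : ∃ c : J → k, ∀ i, spJ J c (f i) ≠ 0 := by
  classical
  have h1 : ∀ i, rename (Equiv.Set.sumCompl J).symm (f i) ≠ 0 := by
    intro i h
    exact hf i (rename_injective _ (Equiv.injective _) (by rw [h, map_zero]))
  choose B hB0 hB using fun i => SDM.exists_nz (k := k) (ι := J) (τ := ↥Jᶜ) _ (h1 i)
  have h2 : ∏ i, B i ≠ 0 := Finset.prod_ne_zero_iff.2 fun i _ => hB0 i
  have h3 : ∃ c : J → k, eval c (∏ i, B i) ≠ 0 := by
    by_contra hcon
    push Not at hcon
    exact h2 (MvPolynomial.funext fun c => by rw [hcon c, map_zero])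
  obtain ⟨c, hc⟩ := h3
  refine ⟨c, fun i => hB i k c ?_⟩
  rw [map_prod, Finset.prod_ne_zero_iff] at hc
  exact hc i (Finset.mem_univ i)

end special

end RedM

open RedM in
/-- RED -/
theorem specRed : SpecRed.{u} := by
  classical
  intro k _ _ σ _ F M φ hF hφ
  have hInf : Infinite k := IsAlgClosed.instInfinite
  obtain ⟨i0, hi0⟩ := exists_degreeOf_ne hF
  set P := MvPolynomial (Fin M) k with hP
  let z : σ → FractionRing P := fun i => φ (X i)
  have hz : ∀ h, aeval z h = φ h := by
    intro h
    have : aeval z = φ := by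
      apply MvPolynomial.algHom_ext
      intro i
      rw [aeval_X]
    rw [this]
  obtain ⟨b, hb⟩ := IsLocalization.exist_integer_multiples_of_finite (nonZeroDivisors P) z
  choose a ha using hb
  have hb0 : (b : P) ≠ 0 := nonZeroDivisors.ne_zero b.2
  have hpow : Submonoid.powers (b : P) ≤ nonZeroDivisors P :=
    powers_le_nonZeroDivisors_of_noZeroDivisors hb0
  let A := Localization.Away (b : P)
  have hdom : IsDomain A := IsLocalization.isDomain_localization hpow
  have hPA : Function.Injective (algebraMap P A) := IsLocalization.injective A hpow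
  have hfs : FaithfulSMul P A := (faithfulSMul_iff_algebraMap_injective P A).2 hPA
  have halgPA : Algebra.IsAlgebraic P A := IsLocalization.isAlgebraic A (Submonoid.powers (b : P))
  let zh : σ → A := fun i => IsLocalization.mk' A (a i) (⟨b, Submonoid.mem_powers _⟩ :
    Submonoid.powers (b : P))
  -- the inclusion of `A`
  have hunit : ∀ y : Submonoid.powers (b : P),
      IsUnit (IsScalarTower.toAlgHom k P (FractionRing P) (y : P)) := by
    intro y
    apply IsUnit.mk0
    intro h
    have h1 : (y : P) = 0 := IsFractionRing.injective P (FractionRing P) (by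
      rw [map_zero]; exact h)
    exact nonZeroDivisors.ne_zero (hpow y.2) h1
  let j : A →ₐ[k] FractionRing P := IsLocalization.liftAlgHom (M := Submonoid.powers (b : P)) hunit
  have hj : ∀ x : P, j (algebraMap P A x) = algebraMap P (FractionRing P) x := by
    intro x
    exact IsLocalization.lift_eq _ x
  have hjz : ∀ i, j (zh i) = z i := by
    intro i
    have h1 : zh i * algebraMap P A b = algebraMap P A (a i) := IsLocalization.mk'_spec A (a i) _
    have h2 := congrArg j h1
    rw [map_mul, hj, hj, ha i, Algebra.smul_def, mul_comm] at h2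
    have h3 : algebraMap P (FractionRing P) b ≠ 0 := by
      intro h
      exact hb0 (IsFractionRing.injective P (FractionRing P) (by rw [map_zero]; exact h))
    exact mul_left_cancel₀ h3 h2
  have hjinj : Function.Injective j := by
    rw [injective_iff_map_eq_zero]
    intro x hx
    obtain ⟨c, s, rfl⟩ := IsLocalization.exists_mk'_eq (Submonoid.powers (b : P)) x
    have h1 := congrArg j (IsLocalization.mk'_spec A c s)
    rw [map_mul, hx, zero_mul, hj] at h1
    have h2 : c = 0 := IsFractionRing.injective P (FractionRing P) (by rw [map_zero]; exact h1.symm)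
    rw [h2, IsLocalization.mk'_zero]
  -- the coordinates
  have hzi : AlgebraicIndependent k (fun i : {i // i ≠ i0} => z i) :=
    indep_coord z F i0 hi0 fun h hh => (hφ h).1 (by rw [← hz, hh])
  have hzhi : AlgebraicIndependent k (fun i : {i // i ≠ i0} => zh i) := by
    apply AlgebraicIndependent.of_comp j
    have : (j ∘ fun i : {i // i ≠ i0} => zh i) = (fun i : {i // i ≠ i0} => z i) := by
      funext i
      exact hjz i
    rw [this]
    exact hzi
  set s : Set A := Set.range (fun i : {i // i ≠ i0} => zh i) with hs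
  let xh : Fin M → A := algebraMap P A ∘ (X : Fin M → P)
  have hxh : IsTranscendenceBasis k xh :=
    (IsTranscendenceBasis.mvPolynomial (Fin M) k).algebraMap_comp
  have hspan : Algebra.IsAlgebraic (Algebra.adjoin k (s ∪ Set.range xh)) A := by
    rw [← AlgebraicIndependent.matroid_spanning_iff]
    have h3 : (AlgebraicIndependent.matroid k A).Spanning (Set.range xh) := by
      rw [AlgebraicIndependent.matroid_spanning_iff]
      exact hxh.isAlgebraic
    exact h3.superset Set.subset_union_right
  obtain ⟨u, hsu, hut, hu⟩ := exists_isTranscendenceBasis_between (R := k) s (s ∪ Set.range xh)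
    Set.subset_union_left hzhi.to_subtype_range
  -- counting
  have hcu : Cardinal.mk u = (M : ℕ) := by
    have h1 := hu.lift_cardinalMk_eq hxh
    simpa using h1
  have hfu : Finite u := by
    rw [← Cardinal.mk_lt_aleph0_iff, hcu]
    exact Cardinal.natCast_lt_aleph0
  have hcu' : Nat.card u = M := by
    rw [Nat.card, hcu, Cardinal.toNat_natCast]
  set n := Fintype.card σ - 1 with hn
  have hcs : Nat.card s = n := by
    rw [hs, Nat.card_range_of_injective hzhi.injective, Nat.card_eq_fintype_card,
      Fintype.card_subtype_compl, Fintype.card_subtype_eq]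
  have hcd : Nat.card ↥(u \ s) + Nat.card s = Nat.card u := by
    have h1 := Set.ncard_sdiff_add_ncard_of_subset hsu hfu
    rw [Nat.card_coe_set_eq, Nat.card_coe_set_eq, Nat.card_coe_set_eq]
    exact h1
  let J : Set (Fin M) := {l | xh l ∈ u \ s}
  have hJ : Nat.card J = Nat.card ↥(u \ s) := by
    apply Nat.card_congr
    refine Equiv.ofBijective (fun l : J => (⟨xh l, l.2⟩ : ↥(u \ s))) ⟨?_, ?_⟩
    · intro l l' h
      exact Subtype.ext (hxh.1.injective (congrArg Subtype.val h))
    · rintro ⟨x, hx⟩
      rcases hut hx.1 with h | ⟨l, rfl⟩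
      · exact absurd h hx.2
      · exact ⟨⟨l, hx⟩, rfl⟩
  have hJc : Fintype.card ↥Jᶜ = n := by
    have h1 := Fintype.card_compl_set J
    rw [Fintype.card_fin, ← Nat.card_eq_fintype_card (α := J), hJ] at h1
    omega
  -- relations
  have halg := hu.isAlgebraic
  rw [Subtype.range_coe] at halg
  choose f hf0 hf using fun l : Fin M => exists_lead (k := k) u (xh l) (halg.isAlgebraic _)
  choose g t hgt using fun l : Fin M =>
    IsLocalization.exists_mk'_eq (Submonoid.powers (b : P)) (f l)
  have hg0 : ∀ l, g l ≠ 0 := by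
    intro l h
    apply hf0 l
    rw [← hgt l, h, IsLocalization.mk'_zero]
  obtain ⟨c, hc⟩ := exists_c (k := k) J (fun o : Option (Fin M) => o.elim (b : P) g) (by
    rintro (_ | l)
    · exact hb0
    · exact hg0 l)
  have hcb : spJ J c (b : P) ≠ 0 := hc none
  have hcg : ∀ l, spJ J c (g l) ≠ 0 := fun l => hc (some l)
  -- the specialisation
  set E := FractionRing (MvPolynomial ↥Jᶜ k) with hE
  let ρ : P →ₐ[k] E := (IsScalarTower.toAlgHom k (MvPolynomial ↥Jᶜ k) E).comp (spJ J c)
  have hρ : ∀ x, spJ J c x ≠ 0 → ρ x ≠ 0 := by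
    intro x hx h
    exact hx (IsFractionRing.injective (MvPolynomial ↥Jᶜ k) E (by rw [map_zero]; exact h))
  have hunit2 : ∀ y : Submonoid.powers (b : P), IsUnit (ρ (y : P)) := by
    rintro ⟨_, r, rfl⟩
    apply IsUnit.mk0
    simp only [map_pow]
    exact pow_ne_zero _ (hρ _ hcb)
  let Ψ : A →ₐ[k] E := IsLocalization.liftAlgHom (M := Submonoid.powers (b : P)) hunit2
  have hΨ : ∀ x : P, Ψ (algebraMap P A x) = ρ x := by
    intro x
    exact IsLocalization.lift_eq _ x
  have hΨf : ∀ l, Ψ (f l) ≠ 0 := by
    intro l h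
    have h1 := congrArg Ψ (IsLocalization.mk'_spec A (g l) (t l))
    rw [map_mul, hgt, h, zero_mul, hΨ] at h1
    exact hρ _ (hcg l) h1.symm
  have halgE : Algebra.IsAlgebraic (MvPolynomial ↥Jᶜ k) E :=
    IsLocalization.isAlgebraic E (nonZeroDivisors (MvPolynomial ↥Jᶜ k))
  have hx : IsTranscendenceBasis k (algebraMap (MvPolynomial ↥Jᶜ k) E ∘ X) :=
    (IsTranscendenceBasis.mvPolynomial ↥Jᶜ k).algebraMap_comp
  have hind : AlgebraicIndependent k (fun i : {i // i ≠ i0} => Ψ (zh i)) := by
    apply indep_of_basis _ hx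
    · rw [hJc, Nat.card_eq_fintype_card, Fintype.card_subtype_compl, Fintype.card_subtype_eq]
    · intro l
      have h1 := hf l E Ψ (hΨf l)
      have h2 : Ψ (xh l) = (algebraMap (MvPolynomial ↥Jᶜ k) E ∘ X) l := by
        simp only [xh, Function.comp]
        rw [hΨ]
        simp only [ρ, AlgHom.comp_apply]
        rw [spJ_notMem]
        rfl
      rw [h2] at h1
      refine alg_mono ?_ h1
      rw [Algebra.adjoin_le_iff]
      rintro _ ⟨x, hxu, rfl⟩
      by_cases hxs : x ∈ s
      · obtain ⟨i, rfl⟩ := hxs
        exact Algebra.subset_adjoin ⟨i, rfl⟩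
      · rcases hut hxu with h | ⟨l', rfl⟩
        · exact absurd h hxs
        · have h3 : Ψ (xh l') = algebraMap k E (c ⟨l', hxu, hxs⟩) := by
            simp only [xh, Function.comp]
            rw [hΨ]
            simp only [ρ, AlgHom.comp_apply]
            rw [spJ_mem J c ⟨l', hxu, hxs⟩]
            rw [← algebraMap_eq, AlgHom.commutes]
          rw [h3]
          exact Subalgebra.algebraMap_mem _ _
  -- the new parametrisation
  have hΨz : ∀ h : MvPolynomial σ k, aeval (fun i => Ψ (zh i)) h = Ψ (aeval zh h) := by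
    intro h
    have : (aeval (fun i => Ψ (zh i)) : MvPolynomial σ k →ₐ[k] E) = Ψ.comp (aeval zh) := by
      apply MvPolynomial.algHom_ext
      intro i
      simp
    rw [this]
    rfl
  have hF0 : aeval zh F = 0 := by
    apply hjinj
    rw [map_zero]
    have : j.comp (aeval zh) = aeval z := by
      apply MvPolynomial.algHom_ext
      intro i
      simp only [AlgHom.comp_apply, aeval_X]
      exact hjz i
    have h2 := congrArg (fun g => g F) this
    simp only [AlgHom.comp_apply] at h2
    rw [h2, hz]
    exact (hφ F).2 dvd_rfl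
  have hker : ∀ h : MvPolynomial σ k, aeval (fun i => Ψ (zh i)) h = 0 ↔ F ∣ h := by
    intro h
    constructor
    · intro hh
      exact GenM.dvd_of_aeval i0 (fun i => Ψ (zh i)) F h hF (by rw [hΨz, hF0, map_zero]) hind hh
    · rintro ⟨d, rfl⟩
      rw [hΨz, map_mul, hF0, zero_mul, map_zero]
  -- renaming
  let e : ↥Jᶜ ≃ Fin n := Fintype.equivFinOfCardEq hJc
  let r : MvPolynomial ↥Jᶜ k →ₐ[k] FractionRing (MvPolynomial (Fin n) k) :=
    (IsScalarTower.toAlgHom k (MvPolynomial (Fin n) k) _).comp (rename e)
  have hr : Function.Injective r :=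
    (IsFractionRing.injective (MvPolynomial (Fin n) k) _).comp (rename_injective _ e.injective)
  let r' : E →ₐ[k] FractionRing (MvPolynomial (Fin n) k) := IsFractionRing.liftAlgHom (g := r) hr
  refine ⟨r'.comp (aeval (fun i => Ψ (zh i))), fun h => ?_⟩
  rw [AlgHom.comp_apply, ← hker h]
  constructor
  · intro hh
    exact r'.toRingHom.injective (by rw [map_zero]; exact hh)
  · intro hh
    rw [hh, map_zero]

end MPcfca
end
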