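import Pool.Agent.Lib.MP_cfca38_ag.PT1

/-! MP_cfca38_ag: module V1. The V-move of a generic flag is a generic flag. -/

set_option autoImplicit false
set_option linter.unusedSimpArgs false
set_option linter.unusedSectionVars false

namespace MPcfca
namespace V1M

open MvPolynomial PrM AlM

universe u

/-- Frobenius and values -/
theorem aeval_frob {p : ℕ} [hp : Fact p.Prime] {k : Type u} [Field k] [CharP k p] {A : Type u}
    [CommRing A] [Algebra k A] [CharP A p] {σ : Type} (g : MvPolynomial σ k) (z : σ → A) :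
    aeval (fun i => z i ^ p) (map (frobenius k p) g) = aeval z g ^ p := by
  rw [aeval_def, eval₂_map, aeval_def]
  have h1 := eval₂_comp_left (frobenius A p) (algebraMap k A) z g
  have h2 : (eval₂ (algebraMap k A) z g) ^ p = frobenius A p (eval₂ (algebraMap k A) z g) := rfl
  rw [h2, h1]
  congr 1
  ext a
  simp only [RingHom.comp_apply, frobenius_def, map_pow]

section scale
variable {N : ℕ} {k : Type u} [Field k] [Infinite k] {f : MvPolynomial (Idx N) k}
variable {A : Type u} [CommRing A] [Algebra k A] {p : ℕ} [hp : Fact p.Prime]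

theorem vm_scale (h : IsSec p 4 f) (x w : Fin N → A) (c : A) (j : Fin N) :
    vm f p (fun j => c * x j) w j = c ^ (16 + 13 * p) * vm f p x w j := by
  let c' : ℕ → A := fun i => c ^ (4 + p * (4 - i)) * cf f x w i
  have h1 : ∀ i, i < 5 → cf f (fun j => c * x j) w i = c' i := by
    intro i hi
    exact cf_smul_left h x w c i (by omega)
  have hD := DD_congr h1
  have hT := TT_congr h1
  unfold vm
  rw [hD, hT, h1 0 (by norm_num)]
  simp only [DD, TT, c', Nat.sub_zero, Nat.sub_self, mul_zero, add_zero,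
    show 4 - 1 = 3 from rfl, show 4 - 2 = 2 from rfl, show 4 - 3 = 1 from rfl, mul_one]
  ring

end scale

section
variable {p : ℕ} [hp : Fact p.Prime] {k : Type u} [Field k] [IsAlgClosed k] [CharP k p]
  {f : MvPolynomial (Idx (p + 2)) k}

abbrev R2 (p : ℕ) (k : Type u) [Field k] : Type u := MvPolynomial (Fin (p + 2) ⊕ Fin (p + 2)) k

noncomputable abbrev xR (p : ℕ) (k : Type u) [Field k] (j : Fin (p + 2)) : R2 p k :=
  X (Sum.inl j)
noncomputable abbrev wR (p : ℕ) (k : Type u) [Field k] (j : Fin (p + 2)) : R2 p k :=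
  X (Sum.inr j)

theorem small_ne (hg : Good p 4 f) {L : Type u} [Field L] [Algebra k L] (n : ℕ) (h0 : 0 < n)
    (hn : n < 5) : ((n : ℕ) : L) ≠ 0 := by
  have hchar : CharP L p := charP_of_injective_algebraMap (algebraMap k L).injective p
  intro h
  rw [CharP.cast_eq_zero_iff L p] at h
  have h4 := Nat.le_of_dvd h0 h
  have h5 := hg.five
  omega

theorem cfR_val {A : Type u} [CommRing A] [Algebra k A] (x w : Fin (p + 2) → A) (i : ℕ) :
    aeval (Sum.elim x w) (cf f (xR p k) (wR p k) i) = cf f x w i := by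
  rw [cf_map]
  congr 1
  · funext j
    rw [aeval_X]
    rfl
  · funext j
    rw [aeval_X]
    rfl

theorem not_dvd_cf1 (hg : Good p 4 f) : ¬ alP f ∣ cf f (xR p k) (wR p k) 1 := by
  have hp0 : p ≠ 0 := hp.out.ne_zero
  rintro ⟨C', hC⟩
  by_cases hall : ∀ x w : Fin (p + 2) → k, cf f x w 1 = 0
  · obtain ⟨x, w, hxw⟩ := al_pt_ne hg
    have h1 := cf_shc hg.sec x w 1 1 1 (by norm_num)
    rw [hall] at h1
    simp only [shc, one_pow, one_mul, mul_one] at h1
    rw [hall, add_zero, cf_zero] at h1
    have h4 : ((4 : ℕ) : k) ≠ 0 := small_ne (L := k) hg 4 (by norm_num) (by norm_num)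
    rcases mul_eq_zero.mp h1.symm with h5 | h5
    · exact h4 (by exact_mod_cast h5)
    · exact hxw h5
  · push Not at hall
    obtain ⟨x, w, hxw⟩ := hall
    let q : Polynomial k := aeval (R := k)
      (Sum.elim (fun j => Polynomial.X * Polynomial.C (x j)) (fun j => Polynomial.C (w j))) C'
    have hq : ∀ s : k, q.eval s = aeval (Sum.elim (fun j => s * x j) w) C' := by
      intro s
      have h1 : q.eval s = Polynomial.aeval s q := by
        rw [Polynomial.coe_aeval_eq_eval]
      rw [h1]
      simp only [q]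
      rw [← AlgHom.comp_apply, comp_aeval]
      congr 2
      funext i
      rcases i with j | j
      · simp only [Sum.elim_inl, map_mul, Polynomial.aeval_X, Polynomial.aeval_C]
        rfl
      · simp only [Sum.elim_inr, Polynomial.aeval_C]
        rfl
    have hP : Polynomial.C (cf f x w 1) * Polynomial.X ^ (4 + 3 * p) =
        Polynomial.X ^ p * (Polynomial.C (al f x w) * q) * Polynomial.X ^ (4 + 3 * p) := by
      apply Polynomial.funext
      intro s
      have h1 := congrArg (aeval (Sum.elim (fun j => s * x j) w)) hC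
      rw [cfR_val, map_mul, cf_smul_left hg.sec x w s 1 (by norm_num)] at h1
      have h2 : aeval (Sum.elim (fun j => s * x j) w) (alP f) = al f (fun j => s * x j) w := by
        rw [aeval_eq_eval]
        exact ea_alP f _ _
      rw [h2, al_smul_left hg.sec, ← hq] at h1
      simp only [Polynomial.eval_mul, Polynomial.eval_C, Polynomial.eval_pow, Polynomial.eval_X]
      have h3 : 4 + p * (4 - 1) = 4 + 3 * p := by ring
      rw [h3] at h1
      rw [mul_comm, h1]
      ring
    have hX : (Polynomial.X ^ (4 + 3 * p) : Polynomial k) ≠ 0 :=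
      pow_ne_zero _ Polynomial.X_ne_zero
    have h1 := mul_right_cancel₀ hX hP
    have h2 := congrArg (Polynomial.eval 0) h1
    simp only [Polynomial.eval_mul, Polynomial.eval_C, Polynomial.eval_pow, Polynomial.eval_X,
      zero_pow hp0, zero_mul] at h2
    exact hxw h2

/-- a generic zero of `al` -/
theorem exists_generic_zero (hS : Prime (alP f)) :
    ∃ (L : Type u) (_ : Field L) (_ : IsAlgClosed L) (_ : Algebra k L) (x w : Fin (p + 2) → L),
      ∀ B : R2 p k, aeval (Sum.elim x w) B = 0 ↔ alP f ∣ B := by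
  have hprime : (Ideal.span {alP f}).IsPrime := (Ideal.span_singleton_prime hS.ne_zero).2 hS
  let Q := R2 p k ⧸ Ideal.span {alP f}
  have : IsDomain Q := Ideal.Quotient.isDomain _
  let L := AlgebraicClosure (FractionRing Q)
  let φ : R2 p k →ₐ[k] L :=
    ((IsScalarTower.toAlgHom k (FractionRing Q) L).comp
      (IsScalarTower.toAlgHom k Q (FractionRing Q))).comp (Ideal.Quotient.mkₐ k _)
  refine ⟨L, inferInstance, inferInstance, inferInstance, fun j => φ (xR p k j),
    fun j => φ (wR p k j), ?_⟩
  intro B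
  have h1 : aeval (Sum.elim (fun j => φ (xR p k j)) (fun j => φ (wR p k j))) B = φ B := by
    have h2 : aeval (Sum.elim (fun j => φ (xR p k j)) (fun j => φ (wR p k j))) = φ := by
      apply MvPolynomial.algHom_ext
      rintro (j | j)
      · rw [aeval_X]
        rfl
      · rw [aeval_X]
        rfl
    rw [h2]
  rw [h1]
  have h3 : φ B = algebraMap (FractionRing Q) L (algebraMap Q (FractionRing Q)
      (Ideal.Quotient.mk (Ideal.span {alP f}) B)) := rfl
  rw [h3, map_eq_zero_iff _ (algebraMap (FractionRing Q) L).injective,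
    map_eq_zero_iff _ (IsFractionRing.injective Q (FractionRing Q)), Ideal.Quotient.eq_zero_iff_mem,
    Ideal.mem_span_singleton]

/-- the polynomial `B^[p](vm(x, w), w^(p))` -/
noncomputable def Phi (f : MvPolynomial (Idx (p + 2)) k) (B : R2 p k) : R2 p k :=
  aeval (Sum.elim (vm f p (xR p k) (wR p k)) (fun j => wR p k j ^ p)) (map (frobenius k p) B)

theorem Phi_val {A : Type u} [CommRing A] [Algebra k A] [CharP A p] (B : R2 p k)
    (x w x1 : Fin (p + 2) → A) (h1 : ∀ j, x1 j ^ p = vm f p x w j) :
    aeval (Sum.elim x w) (Phi f B) = aeval (Sum.elim x1 w) B ^ p := by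
  rw [← aeval_frob (p := p)]
  unfold Phi
  rw [← AlgHom.comp_apply, comp_aeval]
  congr 2
  funext i
  rcases i with j | j
  · simp only [Sum.elim_inl]
    rw [h1, vm_map]
    congr 1
    · funext j
      rw [aeval_X]
      rfl
    · funext j
      rw [aeval_X]
      rfl
  · simp only [Sum.elim_inr]
    rw [map_pow, aeval_X]
    rfl

theorem dvd_of_Phi (hg : Good p 4 f) (hS : Prime (alP f)) (B : R2 p k) (hB : Phi f B = 0) :
    alP f ∣ B := by
  obtain ⟨L, _, _, _, x, w, hL⟩ := exists_generic_zero hS
  have hp0 : p ≠ 0 := hp.out.ne_zero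
  have hchar : CharP L p := charP_of_injective_algebraMap (algebraMap k L).injective p
  rw [← hL]
  have hal : al f x w = 0 := by
    have h1 : aeval (Sum.elim x w) (alP f) = 0 := (hL _).2 dvd_rfl
    rw [← cf_zero, ← cfR_val, cf_zero]
    exact h1
  have hβ : cf f x w 1 ≠ 0 := by
    intro h1
    apply not_dvd_cf1 hg
    rw [← hL, cfR_val]
    exact h1
  obtain ⟨lam, hlam⟩ := IsAlgClosed.exists_pow_nat_eq (cf f x w 1 ^ 4) hp.out.pos
  have hlam0 : lam ≠ 0 := by
    intro h1
    rw [h1, zero_pow hp0] at hlam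
    exact pow_ne_zero 4 hβ hlam.symm
  let Q : Polynomial L := aeval (R := k)
    (Sum.elim (fun j => Polynomial.X * Polynomial.C (x j)) (fun j => Polynomial.C (w j))) B
  have hQ : ∀ s : L, Q.eval s = aeval (Sum.elim (fun j => s * x j) w) B := by
    intro s
    have h1 : Q.eval s = evA k s Q := (evA_eval s Q).symm
    rw [h1]
    simp only [Q]
    rw [← AlgHom.comp_apply, comp_aeval]
    congr 2
    funext i
    rcases i with j | j
    · simp only [Sum.elim_inl, map_mul, evA_X, evA_C]
    · simp only [Sum.elim_inr, evA_C]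
  have hroot : ∀ c : k, c ≠ 0 → Q.eval (algebraMap k L c * lam) = 0 := by
    intro c hc
    obtain ⟨a, ha⟩ := IsAlgClosed.exists_pow_nat_eq (c ^ p) (show 0 < 16 + 13 * p by omega)
    have h1 := congrArg (aeval (R := k) (Sum.elim (fun j => algebraMap k L a * x j) w)) hB
    rw [Phi_val B _ w (fun j => algebraMap k L c * lam * x j), map_zero] at h1
    · rw [hQ]
      exact pow_eq_zero_iff hp0 |>.1 h1
    · intro j
      rw [vm_scale hg.sec, vm_root x w hal, mul_pow, mul_pow, hlam, ← map_pow, ← map_pow, ha]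
      ring
  have hQ0 : Q = 0 := by
    apply Polynomial.eq_zero_of_infinite_isRoot
    have hinf : ({c : k | c ≠ 0}).Infinite := by
      have : ({c : k | c ≠ 0}) = {(0 : k)}ᶜ := rfl
      rw [this]
      exact (Set.finite_singleton _).infinite_compl
    have hinj : Set.InjOn (fun c : k => algebraMap k L c * lam) {c : k | c ≠ 0} := by
      intro a _ b _ hab
      exact (algebraMap k L).injective (mul_right_cancel₀ hlam0 hab)
    refine (hinf.image hinj).mono ?_
    rintro _ ⟨c, hc, rfl⟩
    exact hroot c hc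
  have h1 := hQ 1
  rw [hQ0, Polynomial.eval_zero] at h1
  simp only [one_mul] at h1
  exact h1.symm

end

section omega
variable {p : ℕ} [hp : Fact p.Prime] {k : Type u} [Field k] [IsAlgClosed k] [CharP k p]
  {f : MvPolynomial (Idx (p + 2)) k} {Ω : Type u} [Field Ω] [Algebra k Ω]

/-- `DD` and `SS` are not zero at a generic flag -/
theorem DS_ne (hg : Good p 4 f) (hS : Prime (alP f)) (x w : Fin (p + 2) → Ω)
    (hxw : AlgebraicIndependent k (Sum.elim x w)) :
    al f x w ≠ 0 ∧ DD (cf f x w) ≠ 0 ∧ SS (cf f x w) ≠ 0 := by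
  obtain ⟨L, _, _, _, x', w', hL⟩ := exists_generic_zero hS
  have hal : al f x' w' = 0 := by
    have h1 : aeval (Sum.elim x' w') (alP f) = 0 := (hL _).2 dvd_rfl
    rw [← cf_zero, ← cfR_val, cf_zero]
    exact h1
  have hβ : cf f x' w' 1 ≠ 0 := by
    intro h1
    apply not_dvd_cf1 hg
    rw [← hL, cfR_val]
    exact h1
  have hcf0 : cf f x' w' 0 = 0 := by rw [cf_zero, hal]
  have hDval : ∀ (A : Type u) [Field A] [Algebra k A] (a b : Fin (p + 2) → A),
      aeval (Sum.elim a b) (DD (cf f (xR p k) (wR p k))) = DD (cf f a b) := by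
    intro A _ _ a b
    have h1 : aeval (Sum.elim a b) (DD (cf f (xR p k) (wR p k)))
        = DD (fun i => aeval (Sum.elim a b) (cf f (xR p k) (wR p k) i)) :=
      DD_map ((aeval (R := k) (Sum.elim a b)) : R2 p k →+* A) _
    rw [h1]
    simp only [cfR_val]
  have hSval : ∀ (A : Type u) [Field A] [Algebra k A] (a b : Fin (p + 2) → A),
      aeval (Sum.elim a b) (SS (cf f (xR p k) (wR p k))) = SS (cf f a b) := by
    intro A _ _ a b
    have h1 : aeval (Sum.elim a b) (SS (cf f (xR p k) (wR p k)))
        = SS (fun i => aeval (Sum.elim a b) (cf f (xR p k) (wR p k) i)) :=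
      SS_map ((aeval (R := k) (Sum.elim a b)) : R2 p k →+* A) _
    rw [h1]
    simp only [cfR_val]
  refine ⟨?_, ?_, ?_⟩
  · intro h1
    have h2 : aeval (Sum.elim x w) (alP f) = 0 := by
      have h3 := cfR_val (f := f) x w 0
      rw [cf_zero, cf_zero, h1] at h3
      exact h3
    exact hS.ne_zero (hxw.eq_zero_of_aeval_eq_zero _ h2)
  · intro h1
    rw [← hDval] at h1
    have h2 := hxw.eq_zero_of_aeval_eq_zero _ h1
    have h3 := hDval L x' w'
    rw [h2, map_zero, DD_root _ hcf0] at h3
    exact pow_ne_zero 4 hβ h3.symm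
  · intro h1
    rw [← hSval] at h1
    have h2 := hxw.eq_zero_of_aeval_eq_zero _ h1
    have h3 := hSval L x' w'
    rw [h2, map_zero, SS_root _ hcf0] at h3
    have h4 : ((3 : ℕ) : L) ≠ 0 := small_ne (k := k) hg 3 (by norm_num) (by norm_num)
    have h5 : (-3 : L) ≠ 0 := neg_ne_zero.mpr (by exact_mod_cast h4)
    exact mul_ne_zero h5 (pow_ne_zero 8 hβ) h3.symm

theorem al_x1_ne (hg : Good p 4 f) (hS : Prime (alP f)) (x w x1 : Fin (p + 2) → Ω)
    (hxw : AlgebraicIndependent k (Sum.elim x w)) (h1 : ∀ j, x1 j ^ p = vm f p x w j) :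
    al f x1 w ≠ 0 := by
  obtain ⟨ha, hD, hSS⟩ := DS_ne hg hS x w hxw
  have hp0 : p ≠ 0 := hp.out.ne_zero
  let Ω' := AlgebraicClosure Ω
  have hchar : CharP Ω' p := charP_of_injective_algebraMap (algebraMap k Ω').injective p
  let ι : Ω →ₐ[k] Ω' := IsScalarTower.toAlgHom k Ω Ω'
  have hinj : Function.Injective ι := ι.toRingHom.injective
  let x' : Fin (p + 2) → Ω' := fun j => ι (x j)
  let w' : Fin (p + 2) → Ω' := fun j => ι (w j)
  have hcf : cf f x' w' = fun i => ι (cf f x w i) := by
    funext i
    exact (cf_map f ι x w i).symm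
  have hD' : DD (cf f x' w') = ι (DD (cf f x w)) := by
    rw [hcf]
    exact (DD_map (ι : Ω →+* Ω') _).symm
  have hS' : SS (cf f x' w') = ι (SS (cf f x w)) := by
    rw [hcf]
    exact (SS_map (ι : Ω →+* Ω') _).symm
  obtain ⟨c, hc⟩ := IsAlgClosed.exists_pow_nat_eq (DD (cf f x' w')) hp.out.pos
  obtain ⟨l, hl⟩ := IsAlgClosed.exists_pow_nat_eq (8 * cf f x' w' 0 * TT (cf f x' w'))
    hp.out.pos
  have h2 : (fun j => ι (x1 j)) = fun j => c * x' j + l * w' j := by
    funext j
    have h3 : (ι (x1 j)) ^ p = (c * x' j + l * w' j) ^ p := by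
      rw [← map_pow, h1, vm_map, add_pow_char, mul_pow, mul_pow, hc, hl]
      rfl
    exact frobenius_inj Ω' p h3
  have h3 := al_vm hg.sec x' w' c l hc hl
  rw [← h2] at h3
  intro h4
  have h5 : al f (fun j => ι (x1 j)) w' = 0 := by
    have h6 := al_map f ι x1 w
    rw [h4, map_zero] at h6
    exact h6.symm
  rw [h5] at h3
  have h6 : al f x' w' ≠ 0 := by
    have h7 := al_map f ι x w
    intro h8
    apply ha
    apply hinj
    rw [h7, map_zero]
    exact h8
  have h7 : c ≠ 0 := by
    intro h8
    rw [h8, zero_pow hp0, hD'] at hc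
    exact hD (hinj (by rw [← hc, map_zero]))
  have h8 : SS (cf f x' w') ≠ 0 := by
    rw [hS']
    intro h9
    exact hSS (hinj (by rw [h9, map_zero]))
  exact mul_ne_zero h6 (pow_ne_zero 2 (mul_ne_zero (pow_ne_zero 2 h7) h8)) h3.symm

end omega

end V1M

open MvPolynomial PrM AlM V1M

universe u

theorem specV1 (hAl : SpecAl.{u}) : SpecV1.{u} := by
  intro p _ k _ _ _ f hg Ω _ _ x w x1 hxw h1
  have hS := hAl p k 4 f hg
  have hp0 : p ≠ 0 := (Fact.out : p.Prime).ne_zero
  have hchar : CharP Ω p := charP_of_injective_algebraMap (algebraMap k Ω).injective p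
  have hne := al_x1_ne hg hS x w x1 hxw h1
  have hdeg : 0 < (alP f).totalDegree := by
    rw [Nat.pos_iff_ne_zero]
    intro h2
    rw [totalDegree_eq_zero_iff_eq_C] at h2
    apply hS.not_isUnit
    rw [h2]
    have h3 : coeff 0 (alP f) ≠ 0 := by
      intro h4
      rw [h4, C_0] at h2
      exact hS.ne_zero h2
    exact (isUnit_iff_ne_zero.mpr h3).map C
  have key : ∀ (n : ℕ) (B : R2 p k), B.totalDegree ≤ n → aeval (Sum.elim x1 w) B = 0 →
      B = 0 := by
    intro n
    induction n with
    | zero =>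
      intro B hB hB0
      have h2 : Phi f B = 0 := by
        apply hxw.eq_zero_of_aeval_eq_zero
        rw [Phi_val B x w x1 h1, hB0, zero_pow hp0]
      obtain ⟨C', rfl⟩ := dvd_of_Phi hg hS B h2
      by_contra hcon
      have h3 := totalDegree_mul_of_isDomain (left_ne_zero_of_mul hcon)
        (right_ne_zero_of_mul hcon)
      omega
    | succ n ih =>
      intro B hB hB0
      have h2 : Phi f B = 0 := by
        apply hxw.eq_zero_of_aeval_eq_zero
        rw [Phi_val B x w x1 h1, hB0, zero_pow hp0]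
      obtain ⟨C', rfl⟩ := dvd_of_Phi hg hS B h2
      by_contra hcon
      have h3 := totalDegree_mul_of_isDomain (left_ne_zero_of_mul hcon)
        (right_ne_zero_of_mul hcon)
      have h4 : aeval (Sum.elim x1 w) C' = 0 := by
        rw [map_mul] at hB0
        rcases mul_eq_zero.mp hB0 with h5 | h5
        · exfalso
          apply hne
          have h6 := cfR_val (f := f) x1 w 0
          rw [cf_zero, cf_zero] at h6
          rw [← h6]
          exact h5
        · exact h5
      exact right_ne_zero_of_mul hcon (ih C' (by omega) h4)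
  rw [algebraicIndependent_iff]
  intro B hB
  exact key _ B le_rfl hB

end MPcfca
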