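import Pool.Agent.Lib.MP_cfca38_ag.PT1
import Pool.Agent.Lib.MP_cfca38_ag.La

/-! MP_cfca38_ag: module V2 (two V-moves with generic planes dominate). -/

set_option autoImplicit false
set_option linter.unusedSimpArgs false
set_option linter.unusedSectionVars false
set_option linter.unusedVariables false

namespace MPcfca

open MvPolynomial

universe u

namespace V2M

open V34M

/-! ### binary quartics -/

section quartic
variable {A : Type u} [CommRing A]

/-- the coefficients of `q(y0 + t, y1)` -/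
def tq (c : ℕ → A) (y0 y1 : A) : ℕ → A
  | 0 => c 0 * y0 ^ 4 + c 1 * y0 ^ 3 * y1 + c 2 * y0 ^ 2 * y1 ^ 2 + c 3 * y0 * y1 ^ 3 + c 4 * y1 ^ 4
  | 1 => 4 * c 0 * y0 ^ 3 + 3 * c 1 * y0 ^ 2 * y1 + 2 * c 2 * y0 * y1 ^ 2 + c 3 * y1 ^ 3
  | 2 => 6 * c 0 * y0 ^ 2 + 3 * c 1 * y0 * y1 + c 2 * y1 ^ 2
  | 3 => 4 * c 0 * y0 + c 1 * y1
  | 4 => c 0
  | _ => 0

/-- the coefficients of the quartic at the moved point, towards the old one -/
def mq (c : ℕ → A) : ℕ → A := tq c (DD c) (8 * c 0 * TT c)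

theorem mq_zero (c : ℕ → A) : mq c 0 = c 0 * SS c ^ 2 := by
  rw [← quart_id]
  simp only [mq, tq]

theorem mq_special (c : ℕ → A) (h4 : c 4 = 0) (hD : DD c = 0) :
    DD (mq c) = (c 3 * (8 * c 0 * TT c) ^ 3) ^ 4 ∧ TT (mq c) = (c 3 * (8 * c 0 * TT c) ^ 3) ^ 3 := by
  have h0 : mq c 0 = 0 := by
    simp only [mq, tq]
    rw [hD, h4]
    ring
  have h1 : mq c 1 = c 3 * (8 * c 0 * TT c) ^ 3 := by
    simp only [mq, tq]
    rw [hD]
    ring
  rw [DD_root _ h0, TT_root _ h0, h1]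
  exact ⟨rfl, rfl⟩

theorem tq_map {B : Type u} [CommRing B] (φ : A →+* B) (c : ℕ → A) (y0 y1 : A) :
    (fun i => φ (tq c y0 y1 i)) = tq (fun i => φ (c i)) (φ y0) (φ y1) := by
  funext i
  match i with
  | 0 => simp [tq]
  | 1 => simp [tq, map_ofNat]
  | 2 => simp [tq, map_ofNat]
  | 3 => simp [tq, map_ofNat]
  | 4 => simp [tq]
  | (n + 5) => simp [tq]

theorem mq_map {B : Type u} [CommRing B] (φ : A →+* B) (c : ℕ → A) :
    (fun i => φ (mq c i)) = mq (fun i => φ (c i)) := by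
  unfold mq
  rw [tq_map, DD_map, map_mul, map_mul, TT_map, map_ofNat]

end quartic

/-- a binary quartic with a root at infinity, not of the shape simple + triple: after a shift,
`4 c0 c2 = c1^2` and `c0 ≠ 0` -/
theorem exists_shift {K : Type u} [Field K] [IsAlgClosed K] (h2 : (2 : K) ≠ 0) (h3 : (3 : K) ≠ 0)
    (c : ℕ → K) (hc3 : c 3 ≠ 0) (hH : c 1 * c 2 ≠ 9 * c 0 * c 3) :
    ∃ s : K, c 0 + c 1 * s + c 2 * s ^ 2 + c 3 * s ^ 3 ≠ 0 ∧
      4 * (c 0 + c 1 * s + c 2 * s ^ 2 + c 3 * s ^ 3) * (c 2 + 3 * c 3 * s)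
        - (c 1 + 2 * c 2 * s + 3 * c 3 * s ^ 2) ^ 2 = 0 := by
  let P : Polynomial K := Polynomial.C (3 * c 3 ^ 2) * Polynomial.X ^ 4
    + Polynomial.C (4 * c 2 * c 3) * Polynomial.X ^ 3 + Polynomial.C (6 * c 1 * c 3) * Polynomial.X ^ 2
    + Polynomial.C (12 * c 0 * c 3) * Polynomial.X + Polynomial.C (4 * c 0 * c 2 - c 1 ^ 2)
  have hev : ∀ s : K, P.eval s = 4 * (c 0 + c 1 * s + c 2 * s ^ 2 + c 3 * s ^ 3)
      * (c 2 + 3 * c 3 * s) - (c 1 + 2 * c 2 * s + 3 * c 3 * s ^ 2) ^ 2 := by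
    intro s
    simp only [P, Polynomial.eval_add, Polynomial.eval_mul, Polynomial.eval_C, Polynomial.eval_pow,
      Polynomial.eval_X]
    ring
  have hdeg : P.degree ≠ 0 := by
    have h4 : P.coeff 4 ≠ 0 := by
      simp only [P, Polynomial.coeff_add, Polynomial.coeff_C_mul, Polynomial.coeff_X_pow,
        Polynomial.coeff_X, Polynomial.coeff_C]
      norm_num
      exact ⟨h3, hc3⟩
    intro h0
    apply h4
    apply Polynomial.coeff_eq_zero_of_degree_lt
    rw [h0]
    norm_num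
  obtain ⟨a, ha⟩ := IsAlgClosed.exists_root P hdeg
  have ha' := hev a
  rw [Polynomial.IsRoot.def.mp ha] at ha'
  by_cases hh : c 0 + c 1 * a + c 2 * a ^ 2 + c 3 * a ^ 3 = 0
  swap
  · exact ⟨a, hh, ha'.symm⟩
  have hd : c 1 + 2 * c 2 * a + 3 * c 3 * a ^ 2 = 0 := by
    rw [hh] at ha'
    have : (c 1 + 2 * c 2 * a + 3 * c 3 * a ^ 2) ^ 2 = 0 := by linear_combination ha'
    exact pow_eq_zero_iff (by norm_num) |>.mp this
  set e := c 2 + 3 * c 3 * a with he
  have e2 : c 2 = e - 3 * c 3 * a := by rw [he]; ring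
  have e1 : c 1 = - 2 * e * a + 3 * c 3 * a ^ 2 := by
    linear_combination hd - 2 * a * e2
  have e0 : c 0 = e * a ^ 2 - c 3 * a ^ 3 := by
    linear_combination hh - a * e1 - a ^ 2 * e2
  have hene : e ≠ 0 := by
    intro h0
    apply hH
    rw [e0, e1, e2, h0]
    ring
  refine ⟨a - 4 * e / (3 * c 3), ?_, ?_⟩
  · have : c 0 + c 1 * (a - 4 * e / (3 * c 3)) + c 2 * (a - 4 * e / (3 * c 3)) ^ 2
        + c 3 * (a - 4 * e / (3 * c 3)) ^ 3 = - (16 * e ^ 3) / (27 * c 3 ^ 2) := by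
      rw [e0, e1, e2]
      have h27 : (27 : K) ≠ 0 := by
        have : (27 : K) = 3 ^ 3 := by norm_num
        rw [this]
        exact pow_ne_zero _ h3
      field_simp
      ring
    rw [this]
    have h27 : (27 : K) ≠ 0 := by
      have : (27 : K) = 3 ^ 3 := by norm_num
      rw [this]
      exact pow_ne_zero _ h3
    have h16 : (16 : K) ≠ 0 := by
      have : (16 : K) = 2 ^ 4 := by norm_num
      rw [this]
      exact pow_ne_zero _ h2
    apply div_ne_zero
    · exact neg_ne_zero.mpr (mul_ne_zero h16 (pow_ne_zero _ hene))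
    · exact mul_ne_zero h27 (pow_ne_zero _ hc3)
  · rw [e0, e1, e2]
    field_simp
    ring

/-! ### the frame of the moved point -/

section frames
variable {N : ℕ} {k : Type u} [Field k] [Infinite k] {f : MvPolynomial (Idx N) k}
variable {A B : Type u} [CommRing A] [Algebra k A] [CommRing B] [Algebra k B]
variable {p : ℕ} [hp : Fact p.Prime]

theorem coeff5 (q : ℕ → A) (i : ℕ) (hi : i < 5) :
    (Polynomial.C (q 0) + Polynomial.C (q 1) * Polynomial.X + Polynomial.C (q 2) * Polynomial.X ^ 2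
      + Polynomial.C (q 3) * Polynomial.X ^ 3 + Polynomial.C (q 4) * Polynomial.X ^ 4).coeff i
      = q i := by
  simp only [Polynomial.coeff_add, Polynomial.coeff_C_mul, Polynomial.coeff_X_pow,
    Polynomial.coeff_C, Polynomial.coeff_X]
  interval_cases i <;> simp

/-- the frame `(c x + l w, x)` -/
theorem cf_tq (h : IsSec p 4 f) (x w : Fin N → A) (c l : A) (i : ℕ) (hi : i < 5) :
    cf f (fun j => c * x j + l * w j) x i = l ^ 4 * tq (cf f x w) (c ^ p) (l ^ p) i := by
  have hp0 : p ≠ 0 := hp.out.ne_zero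
  have h1 := equi_all h (fun j => (Polynomial.C (x j) : Polynomial A)) (fun j => Polynomial.C (w j))
    1 Polynomial.X (Polynomial.C c) (Polynomial.C l) 1 0
  simp only [one_mul, zero_mul, add_zero, mul_one, mul_zero, zero_sub, one_pow,
    zero_pow hp0] at h1
  rw [ev_C_sum h x w] at h1
  have h2 : (fun j => (Polynomial.C c * Polynomial.C (x j) + Polynomial.C l * Polynomial.C (w j) :
      Polynomial A)) = fun j => Polynomial.C (c * x j + l * w j) := by
    funext j
    rw [map_add, map_mul, map_mul]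
  rw [h2] at h1
  unfold cf
  rw [h1]
  have h3 : ((-Polynomial.C l) ^ 4 * ∑ i ∈ Finset.range (4 + 1),
      Polynomial.C (cf f x w i) * (Polynomial.C c ^ p + Polynomial.X) ^ (4 - i)
        * (Polynomial.C l ^ p) ^ i : Polynomial A) =
      Polynomial.C (l ^ 4 * tq (cf f x w) (c ^ p) (l ^ p) 0)
      + Polynomial.C (l ^ 4 * tq (cf f x w) (c ^ p) (l ^ p) 1) * Polynomial.X
      + Polynomial.C (l ^ 4 * tq (cf f x w) (c ^ p) (l ^ p) 2) * Polynomial.X ^ 2
      + Polynomial.C (l ^ 4 * tq (cf f x w) (c ^ p) (l ^ p) 3) * Polynomial.X ^ 3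
      + Polynomial.C (l ^ 4 * tq (cf f x w) (c ^ p) (l ^ p) 4) * Polynomial.X ^ 4 := by
    simp only [Finset.sum_range_succ, Finset.sum_range_zero, tq, map_add, map_mul, map_pow,
      map_ofNat]
    ring
  rw [h3, coeff5 (fun i => l ^ 4 * tq (cf f x w) (c ^ p) (l ^ p) i) i hi]
  rfl

/-- exchange of the frame -/
theorem cf_swap (h : IsSec p 4 f) (x w : Fin N → A) (i : ℕ) (hi : i < 5) :
    cf f w x i = cf f x w (4 - i) := by
  have h1 := ev_swap h (fun j => (Polynomial.C (x j) : Polynomial A)) (fun j => Polynomial.C (w j))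
    1 Polynomial.X
  rw [ev_C_sum h x w] at h1
  have h3 : ((-1) ^ 4 * ∑ i ∈ Finset.range (4 + 1),
      Polynomial.C (cf f x w i) * Polynomial.X ^ (4 - i) * 1 ^ i : Polynomial A) =
      Polynomial.C (cf f x w (4 - 0))
      + Polynomial.C (cf f x w (4 - 1)) * Polynomial.X
      + Polynomial.C (cf f x w (4 - 2)) * Polynomial.X ^ 2
      + Polynomial.C (cf f x w (4 - 3)) * Polynomial.X ^ 3
      + Polynomial.C (cf f x w (4 - 4)) * Polynomial.X ^ 4 := by
    simp only [Finset.sum_range_succ, Finset.sum_range_zero]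
    ring
  rw [h3] at h1
  have h4 := coeff5 (fun i => cf f x w (4 - i)) i hi
  show (ev f (fun j => Polynomial.C (w j)) (fun j => Polynomial.C (x j)) 1 Polynomial.X).coeff i = _
  rw [h1]
  exact h4

/-- the coefficients of `q(1, s + t)` -/
def sq (c : ℕ → A) (s : A) : ℕ → A
  | 0 => c 0 + c 1 * s + c 2 * s ^ 2 + c 3 * s ^ 3 + c 4 * s ^ 4
  | 1 => c 1 + 2 * c 2 * s + 3 * c 3 * s ^ 2 + 4 * c 4 * s ^ 3
  | 2 => c 2 + 3 * c 3 * s + 6 * c 4 * s ^ 2
  | 3 => c 3 + 4 * c 4 * s
  | 4 => c 4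
  | _ => 0

/-- shift of the first vector of the frame -/
theorem cf_shift (h : IsSec p 4 f) (x w : Fin N → A) (a : A) (i : ℕ) (hi : i < 5) :
    cf f (fun j => x j + a * w j) w i = sq (cf f x w) (a ^ p) i := by
  have h1 := ev_lin' h (fun j => (Polynomial.C (x j) : Polynomial A)) (fun j => Polynomial.C (w j))
    1 (Polynomial.C a) 1 Polynomial.X
  simp only [one_mul, one_pow] at h1
  rw [ev_C_sum h x w] at h1
  have h2 : (fun j => (Polynomial.C (x j) + Polynomial.C a * Polynomial.C (w j) :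
      Polynomial A)) = fun j => Polynomial.C (x j + a * w j) := by
    funext j
    rw [map_add, map_mul]
  rw [h2] at h1
  unfold cf
  rw [h1]
  have h3 : (∑ i ∈ Finset.range (4 + 1),
      Polynomial.C (cf f x w i) * 1 ^ (4 - i)
        * (Polynomial.C a ^ p + Polynomial.X) ^ i : Polynomial A) =
      Polynomial.C (sq (cf f x w) (a ^ p) 0)
      + Polynomial.C (sq (cf f x w) (a ^ p) 1) * Polynomial.X
      + Polynomial.C (sq (cf f x w) (a ^ p) 2) * Polynomial.X ^ 2
      + Polynomial.C (sq (cf f x w) (a ^ p) 3) * Polynomial.X ^ 3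
      + Polynomial.C (sq (cf f x w) (a ^ p) 4) * Polynomial.X ^ 4 := by
    simp only [Finset.sum_range_succ, Finset.sum_range_zero, sq, map_add, map_mul, map_pow,
      map_ofNat]
    ring
  rw [h3, coeff5 (fun i => sq (cf f x w) (a ^ p) i) i hi]
  rfl

end frames

/-! ### the coefficients as polynomials -/

section pol
variable {N : ℕ} {k : Type u} [Field k]

/-- the ring of polynomials in `(x, w)` -/
abbrev RP (N : ℕ) (k : Type u) [Field k] : Type u := MvPolynomial (Fin N ⊕ Fin N) k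

/-- the coefficient `cf f x w i` as a polynomial -/
noncomputable def cP (f : MvPolynomial (Idx N) k) (i : ℕ) : RP N k :=
  cf f (fun j => X (Sum.inl j)) (fun j => X (Sum.inr j)) i

theorem ev_cP (f : MvPolynomial (Idx N) k) {A : Type u} [CommRing A] [Algebra k A]
    (x w : Fin N → A) (i : ℕ) : aeval (Sum.elim x w) (cP f i) = cf f x w i := by
  unfold cP
  rw [cf_map]
  simp

theorem ev_cP' (f : MvPolynomial (Idx N) k) (x w : Fin N → k) (i : ℕ) :
    eval (Sum.elim x w) (cP f i) = cf f x w i := by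
  rw [← aeval_eq_eval]
  exact ev_cP f x w i

theorem cP_zero (f : MvPolynomial (Idx N) k) : cP f 0 = alP f := cf_zero _ _

theorem pt_surj (z : Fin N ⊕ Fin N → k) : ∃ x w : Fin N → k, z = Sum.elim x w :=
  ⟨fun j => z (Sum.inl j), fun j => z (Sum.inr j), by funext i; cases i <;> rfl⟩

variable {p : ℕ} [hp : Fact p.Prime] [Infinite k] {f : MvPolynomial (Idx N) k}

theorem cf_C (x w : Fin N → k) (i : ℕ) :
    cf f (fun j => (Polynomial.C (x j) : Polynomial k)) (fun j => Polynomial.C (w j)) i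
      = Polynomial.C (cf f x w i) := by
  have := cf_map f (Polynomial.CAlgHom (R := k) (A := k)) x w i
  simpa using this.symm

/-- elements of small degree in `x` are not divisible by `al` -/
theorem not_dvd (h : IsSec p 4 f) (e : ℕ) (he : e < 4 + 4 * p) (R : RP N k) (hR : R ≠ 0)
    (hs : ∀ x w : Fin N → k, aeval (Sum.elim (fun j => (Polynomial.X * Polynomial.C (x j) :
      Polynomial k)) (fun j => Polynomial.C (w j))) R
        = Polynomial.X ^ e * Polynomial.C (eval (Sum.elim x w) R)) : ¬ cP f 0 ∣ R := by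
  rintro ⟨C', hC⟩
  apply hR
  apply MvPolynomial.funext
  intro z
  obtain ⟨x, w, rfl⟩ := pt_surj z
  have h1 := hs x w
  have h2 : aeval (Sum.elim (fun j => (Polynomial.X * Polynomial.C (x j) :
      Polynomial k)) (fun j => Polynomial.C (w j))) R
      = Polynomial.X ^ e * (Polynomial.X ^ (4 + 4 * p - e) * Polynomial.C (cf f x w 0)
        * aeval (Sum.elim (fun j => (Polynomial.X * Polynomial.C (x j) :
      Polynomial k)) (fun j => Polynomial.C (w j))) C') := by
    conv_lhs => rw [hC]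
    rw [map_mul, ev_cP, cf_smul_left h _ _ _ _ (by norm_num), cf_C]
    have : (4 : ℕ) + p * (4 - 0) = e + (4 + 4 * p - e) := by omega
    rw [this, pow_add]
    ring
  rw [h1] at h2
  have h3 := mul_left_cancel₀ (pow_ne_zero e Polynomial.X_ne_zero) h2
  have h4 := congrArg (Polynomial.eval 0) h3
  rw [Polynomial.eval_C, Polynomial.eval_mul, Polynomial.eval_mul, Polynomial.eval_pow,
    Polynomial.eval_X, zero_pow (by omega), zero_mul, zero_mul] at h4
  rw [h4, map_zero]

theorem cP1_ne (h : IsSec p 4 f) (h0 : cP f 0 ≠ 0) (h2 : (2 : k) ≠ 0) : cP f 1 ≠ 0 := by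
  intro h1
  apply h0
  apply MvPolynomial.funext
  intro z
  obtain ⟨x, w, rfl⟩ := pt_surj z
  have hz : ∀ x w : Fin N → k, cf f x w 1 = 0 := by
    intro x w
    rw [← ev_cP', h1, map_zero]
  have h3 := cf_shc h x w 1 1 1 (by norm_num)
  rw [hz] at h3
  simp only [shc, hz, one_pow, mul_one, one_mul, mul_zero, add_zero] at h3
  rw [ev_cP', map_zero]
  have h4 : (4 : k) ≠ 0 := by
    have : (4 : k) = 2 * 2 := by norm_num
    rw [this]
    exact mul_ne_zero h2 h2
  exact (mul_eq_zero.mp h3.symm).resolve_left h4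

/-- the second covariant -/
noncomputable def HP (f : MvPolynomial (Idx N) k) : RP N k :=
  cP f 3 * cP f 2 - 9 * cP f 4 * cP f 1

theorem HP_ne [IsAlgClosed k] (h : IsSec p 4 f) (h0 : cP f 0 ≠ 0) (h2 : (2 : k) ≠ 0)
    (h3 : (3 : k) ≠ 0) : HP f ≠ 0 := by
  intro h1
  apply h0
  apply MvPolynomial.funext
  intro z
  obtain ⟨x, w, rfl⟩ := pt_surj z
  rw [ev_cP', map_zero]
  have hz : ∀ x w : Fin N → k, cf f x w 1 * cf f x w 2 - 9 * cf f x w 0 * cf f x w 3 = 0 := by
    intro x w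
    have h4 : eval (Sum.elim w x) (HP f) = 0 := by rw [h1, map_zero]
    unfold HP at h4
    rw [map_sub, map_mul, map_mul, map_mul, ev_cP', ev_cP', ev_cP', ev_cP',
      cf_swap h x w 3 (by norm_num), cf_swap h x w 2 (by norm_num), cf_swap h x w 4 (by norm_num),
      cf_swap h x w 1 (by norm_num)] at h4
    simpa using h4
  have hE : ∀ E : k, E * (3 * cf f x w 1 ^ 2 - 14 * cf f x w 0 * cf f x w 2)
      - 9 * E ^ 2 * cf f x w 0 * cf f x w 1 - 12 * E ^ 3 * cf f x w 0 ^ 2 = 0 := by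
    intro E
    obtain ⟨e, he⟩ := IsAlgClosed.exists_pow_nat_eq E hp.out.pos
    have h5 := hz x (fun j => 1 * w j + e * x j)
    rw [cf_shc h x w 1 e 1 (by norm_num), cf_shc h x w 1 e 2 (by norm_num),
      cf_shc h x w 1 e 0 (by norm_num), cf_shc h x w 1 e 3 (by norm_num)] at h5
    simp only [shc, one_pow, one_mul, he] at h5
    linear_combination h5 - hz x w
  have e1 := hE 1
  have e2 := hE (-1)
  have e3 := hE 2
  have h6 : (2 : k) ^ 3 * 3 ^ 2 * cf f x w 0 ^ 2 = 0 := by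
    have e4 : (18 : k) * cf f x w 0 * cf f x w 1 = 0 := by linear_combination - e1 - e2
    linear_combination (-1) * e3 + e1 - e2 - 2 * e4
  have h7 : (2 : k) ^ 3 * 3 ^ 2 ≠ 0 := mul_ne_zero (pow_ne_zero _ h2) (pow_ne_zero _ h3)
  exact pow_eq_zero_iff (by norm_num) |>.mp ((mul_eq_zero.mp h6).resolve_left h7)

theorem not_dvd_cP1 (h : IsSec p 4 f) (h0 : cP f 0 ≠ 0) (h2 : (2 : k) ≠ 0) :
    ¬ cP f 0 ∣ cP f 1 := by
  have hp1 := hp.out.two_le
  apply not_dvd h (4 + 3 * p) (by omega) _ (cP1_ne h h0 h2)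
  intro x w
  rw [ev_cP, ev_cP', cf_smul_left h _ _ _ _ (by norm_num), cf_C]
  congr 2
  omega

theorem not_dvd_HP [IsAlgClosed k] (h : IsSec p 4 f) (h0 : cP f 0 ≠ 0) (h2 : (2 : k) ≠ 0)
    (h3 : (3 : k) ≠ 0) (h5 : 5 ≤ p) : ¬ cP f 0 ∣ HP f := by
  apply not_dvd h (8 + 3 * p) (by omega) _ (HP_ne h h0 h2 h3)
  intro x w
  unfold HP
  simp only [map_sub, map_mul, ev_cP, ev_cP', map_ofNat]
  rw [cf_smul_left h _ _ _ _ (show 3 ≤ 4 by norm_num), cf_smul_left h _ _ _ _ (show 2 ≤ 4 by norm_num),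
    cf_smul_left h _ _ _ _ (show 4 ≤ 4 by norm_num), cf_smul_left h _ _ _ _ (show 1 ≤ 4 by norm_num),
    cf_C, cf_C, cf_C, cf_C]
  have e1 : (4 : ℕ) + p * (4 - 3) = 4 + p := by omega
  have e2 : (4 : ℕ) + p * (4 - 2) = 4 + 2 * p := by omega
  have e3 : (4 : ℕ) + p * (4 - 4) = 4 := by omega
  have e4 : (4 : ℕ) + p * (4 - 1) = 4 + 3 * p := by omega
  have e5 : (8 : ℕ) + 3 * p = (4 + p) + (4 + 2 * p) := by omega
  have e6 : (8 : ℕ) + 3 * p = 4 + (4 + 3 * p) := by omega
  rw [e1, e2, e3, e4]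
  have e7 : (Polynomial.X : Polynomial k) ^ (8 + 3 * p) = Polynomial.X ^ (4 + p)
      * Polynomial.X ^ (4 + 2 * p) := by rw [e5, pow_add]
  have e8 : (Polynomial.X : Polynomial k) ^ (8 + 3 * p) = Polynomial.X ^ 4
      * Polynomial.X ^ (4 + 3 * p) := by rw [e6, pow_add]
  rw [mul_sub]
  congr 1
  · rw [e7]
    ring
  · rw [e8]
    ring

/-- a point with `c0 = 0`, `c1 ≠ 0` -/
theorem root_point [IsAlgClosed k] (h : IsSec p 4 f) (hpr : Prime (cP f 0)) (h2 : (2 : k) ≠ 0) :
    ∃ x w : Fin N → k, cf f x w 0 = 0 ∧ cf f x w 1 ≠ 0 := by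
  obtain ⟨z, hz0, hz1⟩ := ns (cP f 0) (cP f 1) hpr (not_dvd_cP1 h hpr.ne_zero h2)
  obtain ⟨x, w, rfl⟩ := pt_surj z
  rw [ev_cP'] at hz0 hz1
  exact ⟨x, w, hz0, hz1⟩

/-- the special point -/
theorem special_point [IsAlgClosed k] (h : IsSec p 4 f) (hpr : Prime (cP f 0))
    (h2 : (2 : k) ≠ 0) (h3 : (3 : k) ≠ 0) (h5 : 5 ≤ p) :
    ∃ x w : Fin N → k, cf f x w 4 = 0 ∧ DD (cf f x w) = 0 ∧ cf f x w 0 ≠ 0 ∧ cf f x w 3 ≠ 0 ∧
      TT (cf f x w) ≠ 0 := by
  have hnd : ¬ cP f 0 ∣ cP f 1 * HP f := by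
    intro hd
    rcases hpr.dvd_or_dvd hd with hd | hd
    · exact not_dvd_cP1 h hpr.ne_zero h2 hd
    · exact not_dvd_HP h hpr.ne_zero h2 h3 h5 hd
  obtain ⟨z, hz0, hz1⟩ := ns (cP f 0) _ hpr hnd
  obtain ⟨w, v, rfl⟩ := pt_surj z
  rw [map_mul] at hz1
  have hc1 := left_ne_zero_of_mul hz1
  have hH := right_ne_zero_of_mul hz1
  unfold HP at hH
  rw [map_sub, map_mul, map_mul, map_mul, ev_cP', ev_cP', ev_cP', ev_cP',
    cf_swap h v w 3 (by norm_num), cf_swap h v w 2 (by norm_num), cf_swap h v w 4 (by norm_num),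
    cf_swap h v w 1 (by norm_num)] at hH
  rw [ev_cP', cf_swap h v w 0 (by norm_num)] at hz0
  rw [ev_cP', cf_swap h v w 1 (by norm_num)] at hc1
  simp only [map_ofNat] at hH
  norm_num at hz0 hc1 hH
  obtain ⟨s, hs1, hs2⟩ := exists_shift h2 h3 (cf f v w) hc1 (by
    intro h6
    apply hH
    rw [h6]
    ring)
  obtain ⟨a, ha⟩ := IsAlgClosed.exists_pow_nat_eq s hp.out.pos
  refine ⟨fun j => v j + a * w j, w, ?_⟩
  have e0 := cf_shift h v w a 0 (by norm_num)
  have e1 := cf_shift h v w a 1 (by norm_num)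
  have e2 := cf_shift h v w a 2 (by norm_num)
  have e3 := cf_shift h v w a 3 (by norm_num)
  have e4 := cf_shift h v w a 4 (by norm_num)
  simp only [sq, ha, hz0, mul_zero, zero_mul, add_zero] at e0 e1 e2 e3 e4
  have hcc : 4 * cf f (fun j => v j + a * w j) w 0 * cf f (fun j => v j + a * w j) w 2
      - cf f (fun j => v j + a * w j) w 1 ^ 2 = 0 := by
    rw [e0, e1, e2]
    linear_combination hs2
  have h0 : cf f (fun j => v j + a * w j) w 0 ≠ 0 := by
    rw [e0]
    exact hs1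
  have h3' : cf f (fun j => v j + a * w j) w 3 ≠ 0 := by
    rw [e3]
    exact hc1
  refine ⟨e4, ?_, h0, h3', ?_⟩
  · unfold DD
    rw [hcc, e4]
    ring
  · have : TT (cf f (fun j => v j + a * w j) w) = 2 ^ 3 * cf f (fun j => v j + a * w j) w 0 ^ 2
        * cf f (fun j => v j + a * w j) w 3 := by
      unfold TT
      linear_combination (- cf f (fun j => v j + a * w j) w 1) * hcc
    rw [this]
    exact mul_ne_zero (mul_ne_zero (pow_ne_zero _ h2) (pow_ne_zero _ h0)) h3'

end pol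

/-! ### the two ideals -/

section ideals
variable {N : ℕ} {k : Type u} [Field k] {p : ℕ} [hp : Fact p.Prime] [CharP k p]
variable (p) (f : MvPolynomial (Idx N) k)

/-- `B ↦ B(x, x1)^p` -/
noncomputable def psi1 : RP N k →+* RP N k :=
  ((aeval (Sum.elim (fun j => (X (Sum.inl j) : RP N k) ^ p)
    (vm f p (A := RP N k) (fun j => X (Sum.inl j)) (fun j => X (Sum.inr j)))) :
      RP N k →ₐ[k] RP N k).toRingHom).comp (map (frobenius k p))

/-- `G ↦ G(x, x2)^(p^2)` -/
noncomputable def psi2 : RP N k →+* RR N k :=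
  ((aeval (Sum.elim (fun j => ((X (Sum.inl j) : RR N k) ^ p) ^ p) (Phi p f)) :
      RP N k →ₐ[k] RR N k).toRingHom).comp ((map (frobenius k p)).comp (map (frobenius k p)))

variable {p f}
variable {Ω : Type u} [Field Ω] [Algebra k Ω]

theorem psi1_eval (x w x1 : Fin N → Ω) (h1 : ∀ j, x1 j ^ p = vm f p x w j) (B : RP N k) :
    aeval (Sum.elim x x1) B ^ p = aeval (Sum.elim x w) (psi1 p f B) := by
  have : CharP Ω p := charP_of_injective_algebraMap (algebraMap k Ω).injective p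
  rw [aeval_pow]
  unfold psi1
  simp only [RingHom.comp_apply, AlgHom.toRingHom_eq_coe, RingHom.coe_coe]
  rw [← AlgHom.comp_apply, comp_aeval]
  congr 2
  funext i
  rcases i with i | i
  · simp
  · simp only [Sum.elim_inr, vm_map, aeval_X, Sum.elim_inl]
    exact h1 i

theorem psi2_eval (x w w' x1 x2 : Fin N → Ω) (h1 : ∀ j, x1 j ^ p = vm f p x w j)
    (h2 : ∀ j, x2 j ^ p = vm f p x1 w' j) (B : RP N k) :
    (aeval (Sum.elim x x2) B ^ p) ^ p = aeval (Sum.elim x (Sum.elim w w')) (psi2 p f B) := by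
  have : CharP Ω p := charP_of_injective_algebraMap (algebraMap k Ω).injective p
  rw [aeval_pow, aeval_pow]
  unfold psi2
  simp only [RingHom.comp_apply, AlgHom.toRingHom_eq_coe, RingHom.coe_coe]
  rw [← AlgHom.comp_apply, comp_aeval]
  congr 2
  funext i
  rcases i with i | i
  · simp
  · simp only [Sum.elim_inr]
    rw [aeval_Phi]
    exact x2_pow f x w w' x1 x2 h1 h2 i

variable (p f) in
/-- the relations between `x` and `x1` -/
noncomputable def J1 : Ideal (RP N k) := RingHom.ker (psi1 p f)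

variable (p f) in
/-- the relations between `x` and `x2` -/
noncomputable def J2 : Ideal (RP N k) := RingHom.ker (psi2 p f)

theorem J1_prime : (J1 p f).IsPrime := RingHom.ker_isPrime _

theorem J2_prime : (J2 p f).IsPrime := RingHom.ker_isPrime _

theorem J1_pt {B : RP N k} (hB : B ∈ J1 p f) (x w x1 : Fin N → Ω)
    (h1 : ∀ j, x1 j ^ p = vm f p x w j) : aeval (Sum.elim x x1) B = 0 := by
  have h := psi1_eval x w x1 h1 B
  rw [RingHom.mem_ker.mp hB, map_zero] at h
  exact pow_eq_zero_iff hp.out.ne_zero |>.mp h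

theorem J2_pt {B : RP N k} (hB : B ∈ J2 p f) (x w w' x1 x2 : Fin N → Ω)
    (h1 : ∀ j, x1 j ^ p = vm f p x w j) (h2 : ∀ j, x2 j ^ p = vm f p x1 w' j) :
    aeval (Sum.elim x x2) B = 0 := by
  have h := psi2_eval x w w' x1 x2 h1 h2 B
  rw [RingHom.mem_ker.mp hB, map_zero] at h
  exact pow_eq_zero_iff hp.out.ne_zero |>.mp (pow_eq_zero_iff hp.out.ne_zero |>.mp h)

theorem J1_of_generic {B : RP N k} (x w x1 : Fin N → Ω) (hxw : AlgebraicIndependent k (Sum.elim x w))
    (h1 : ∀ j, x1 j ^ p = vm f p x w j) (hB : aeval (Sum.elim x x1) B = 0) : B ∈ J1 p f := by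
  have h := psi1_eval x w x1 h1 B
  rw [hB, zero_pow hp.out.ne_zero] at h
  exact hxw.eq_zero_of_aeval_eq_zero _ h.symm

theorem J2_of_generic {B : RP N k} (x w w' x1 x2 : Fin N → Ω)
    (hxw : AlgebraicIndependent k (Sum.elim x (Sum.elim w w')))
    (h1 : ∀ j, x1 j ^ p = vm f p x w j) (h2 : ∀ j, x2 j ^ p = vm f p x1 w' j)
    (hB : aeval (Sum.elim x x2) B = 0) : B ∈ J2 p f := by
  have h := psi2_eval x w w' x1 x2 h1 h2 B
  rw [hB, zero_pow hp.out.ne_zero, zero_pow hp.out.ne_zero] at h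
  exact hxw.eq_zero_of_aeval_eq_zero _ h.symm

/-! ### evaluation of the invariants -/

theorem ev_TT (f : MvPolynomial (Idx N) k) {A : Type u} [CommRing A] [Algebra k A]
    (x w : Fin N → A) : aeval (Sum.elim x w) (TT (cP f)) = TT (cf f x w) := by
  have h := TT_map ((aeval (Sum.elim x w) : RP N k →ₐ[k] A) : RP N k →+* A) (cP f)
  simp only [RingHom.coe_coe, ev_cP] at h
  exact h

theorem ev_DD (f : MvPolynomial (Idx N) k) {A : Type u} [CommRing A] [Algebra k A]
    (x w : Fin N → A) : aeval (Sum.elim x w) (DD (cP f)) = DD (cf f x w) := by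
  have h := DD_map ((aeval (Sum.elim x w) : RP N k →ₐ[k] A) : RP N k →+* A) (cP f)
  simp only [RingHom.coe_coe, ev_cP] at h
  exact h

theorem ev_SS (f : MvPolynomial (Idx N) k) {A : Type u} [CommRing A] [Algebra k A]
    (x w : Fin N → A) : aeval (Sum.elim x w) (SS (cP f)) = SS (cf f x w) := by
  have h := SS_map ((aeval (Sum.elim x w) : RP N k →ₐ[k] A) : RP N k →+* A) (cP f)
  simp only [RingHom.coe_coe, ev_cP] at h
  exact h

theorem ev_mq (f : MvPolynomial (Idx N) k) {A : Type u} [CommRing A] [Algebra k A]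
    (x w : Fin N → A) : (fun i => aeval (Sum.elim x w) (mq (cP f) i)) = mq (cf f x w) := by
  have h := mq_map ((aeval (Sum.elim x w) : RP N k →ₐ[k] A) : RP N k →+* A) (cP f)
  simp only [RingHom.coe_coe, ev_cP] at h
  exact h

theorem ev_DDmq (f : MvPolynomial (Idx N) k) {A : Type u} [CommRing A] [Algebra k A]
    (x w : Fin N → A) : aeval (Sum.elim x w) (DD (mq (cP f))) = DD (mq (cf f x w)) := by
  have h := DD_map ((aeval (Sum.elim x w) : RP N k →ₐ[k] A) : RP N k →+* A) (mq (cP f))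
  simp only [RingHom.coe_coe] at h
  rw [h, ev_mq]

theorem ev_TTmq (f : MvPolynomial (Idx N) k) {A : Type u} [CommRing A] [Algebra k A]
    (x w : Fin N → A) : aeval (Sum.elim x w) (TT (mq (cP f))) = TT (mq (cf f x w)) := by
  have h := TT_map ((aeval (Sum.elim x w) : RP N k →ₐ[k] A) : RP N k →+* A) (mq (cP f))
  simp only [RingHom.coe_coe] at h
  rw [h, ev_mq]

variable [IsAlgClosed k] [Infinite k]

/-- the moved point in coordinates -/
theorem vm_cl {A : Type u} [CommRing A] [Algebra k A] [CharP A p] (x w : Fin N → A) (c l : A)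
    (hc : c ^ p = DD (cf f x w)) (hl : l ^ p = 8 * cf f x w 0 * TT (cf f x w)) (j : Fin N) :
    (c * x j + l * w j) ^ p = vm f p x w j := by
  rw [add_pow_char, mul_pow, mul_pow, hc, hl]
  rfl

/-- step B: all relations between `x` and `x1` are multiples of `g` -/
theorem stepB (h : IsSec p 4 f) (hpr : Prime (cP f 0)) (h2 : (2 : k) ≠ 0) (h3 : (3 : k) ≠ 0)
    (h5 : 5 ≤ p) (g : RP N k) (hg : Prime g) (hgD : g ∣ DD (cP f)) (hgJ : g ∈ J1 p f)
    (B : RP N k) (hB : B ∈ J1 p f) : g ∣ B := by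
  by_contra hgB
  obtain ⟨x, w, s4, sD, s0, s3, sT⟩ := special_point h hpr h2 h3 h5
  have h8 : (8 : k) ≠ 0 := by
    have : (8 : k) = 2 ^ 3 := by norm_num
    rw [this]
    exact pow_ne_zero _ h2
  -- the moved special point
  obtain ⟨l, hl⟩ := IsAlgClosed.exists_pow_nat_eq (8 * cf f x w 0 * TT (cf f x w)) hp.out.pos
  have hl0 : l ≠ 0 := by
    rintro rfl
    rw [zero_pow hp.out.ne_zero] at hl
    exact mul_ne_zero (mul_ne_zero h8 s0) sT hl.symm
  have hx1 : ∀ j, ((fun j => l * w j + 0 * x j) j) ^ p = vm f p x w j := by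
    intro j
    rw [← vm_cl x w 0 l (by rw [sD, zero_pow hp.out.ne_zero]) hl j]
    simp only
    rw [add_comm]
  have n0 : ¬ g ∣ cP f 0 := by
    rintro ⟨C', hC⟩
    have hm : cP f 0 ∈ J1 p f := by
      rw [hC]
      exact Ideal.mul_mem_right _ _ hgJ
    have h6 := J1_pt hm x w _ hx1
    rw [ev_cP, cf_shc h x w l 0 0 (by norm_num)] at h6
    exact mul_ne_zero (pow_ne_zero _ hl0) s0 h6
  have nT : ¬ g ∣ TT (cP f) := by
    rintro ⟨C', hC⟩
    have hm : TT (cP f) ∈ J1 p f := by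
      rw [hC]
      exact Ideal.mul_mem_right _ _ hgJ
    have h6 := J1_pt hm x w _ hx1
    rw [ev_TT, TT_vdir h] at h6
    exact mul_ne_zero (mul_ne_zero (pow_ne_zero _ hl0) (pow_ne_zero _ (pow_ne_zero _ hl0))) sT h6
  have hnd : ¬ g ∣ B * (cP f 0 * TT (cP f)) := by
    intro hd
    rcases hg.dvd_or_dvd hd with hd | hd
    · exact hgB hd
    · rcases hg.dvd_or_dvd hd with hd | hd
      · exact n0 hd
      · exact nT hd
  obtain ⟨z, hz0, hz1⟩ := ns g _ hg hnd
  obtain ⟨y, u, rfl⟩ := pt_surj z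
  rw [map_mul, map_mul] at hz1
  have b1 := left_ne_zero_of_mul hz1
  have b2 := left_ne_zero_of_mul (right_ne_zero_of_mul hz1)
  have b3 := right_ne_zero_of_mul (right_ne_zero_of_mul hz1)
  rw [ev_cP'] at b2
  rw [← aeval_eq_eval, ev_TT] at b3
  have hD : DD (cf f y u) = 0 := by
    obtain ⟨C', hC⟩ := hgD
    rw [← ev_DD, hC, map_mul, aeval_eq_eval, hz0, zero_mul]
  -- choose the scaling
  have hne : 8 * cf f y u 0 * TT (cf f y u) ≠ 0 := mul_ne_zero (mul_ne_zero h8 b2) b3
  obtain ⟨c, hc⟩ := IsAlgClosed.exists_pow_nat_eq (8 * cf f y u 0 * TT (cf f y u))⁻¹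
    (show 0 < 16 + p * 4 by omega)
  have hy1 : ∀ j, u j ^ p = vm f p y (fun j => c * u j + 0 * y j) j := by
    intro j
    rw [vm_dir h]
    have e1 : vm f p y u j = 8 * cf f y u 0 * TT (cf f y u) * u j ^ p := by
      unfold vm
      rw [hD]
      ring
    have e2 : c ^ 16 * (c ^ p) ^ 4 = (8 * cf f y u 0 * TT (cf f y u))⁻¹ := by
      rw [← hc, pow_add, pow_mul]
    rw [e1, e2, ← mul_assoc, inv_mul_cancel₀ hne, one_mul]
  have h6 := J1_pt hB y _ u hy1
  exact b1 h6

/-- step D: `DD` does not vanish on `(x, x2)` -/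
theorem stepD (h : IsSec p 4 f) (hpr : Prime (cP f 0)) (h2 : (2 : k) ≠ 0) (h3 : (3 : k) ≠ 0)
    (h5 : 5 ≤ p) (hD : DD (cP f) ∈ J2 p f) : False := by
  have h8 : (8 : k) ≠ 0 := by
    have : (8 : k) = 2 ^ 3 := by norm_num
    rw [this]
    exact pow_ne_zero _ h2
  -- the product vanishes at all points
  have key : ∀ x w : Fin N → k, cf f x w 0 * TT (cf f x w) * SS (cf f x w) *
      DD (mq (cf f x w)) * TT (mq (cf f x w)) = 0 := by
    intro x w
    by_contra hne
    have a5 := right_ne_zero_of_mul hne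
    have hne := left_ne_zero_of_mul hne
    have a4 := right_ne_zero_of_mul hne
    have hne := left_ne_zero_of_mul hne
    have a3 := right_ne_zero_of_mul hne
    have hne := left_ne_zero_of_mul hne
    have a2 := right_ne_zero_of_mul hne
    have a1 := left_ne_zero_of_mul hne
    obtain ⟨c, hc⟩ := IsAlgClosed.exists_pow_nat_eq (DD (cf f x w)) hp.out.pos
    obtain ⟨l, hl⟩ := IsAlgClosed.exists_pow_nat_eq (8 * cf f x w 0 * TT (cf f x w)) hp.out.pos
    have hl0 : l ≠ 0 := by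
      rintro rfl
      rw [zero_pow hp.out.ne_zero] at hl
      exact mul_ne_zero (mul_ne_zero h8 a1) a2 hl.symm
    set x1 : Fin N → k := fun j => c * x j + l * w j with hx1
    have hcf : ∀ i, i < 5 → cf f x1 x i = (fun i => l ^ 4 * mq (cf f x w) i) i := by
      intro i hi
      rw [hx1, cf_tq h x w c l i hi, hc, hl]
      rfl
    have hD1 : DD (cf f x1 x) = (l ^ 4) ^ 4 * DD (mq (cf f x w)) := by
      rw [DD_congr hcf, DD_smul]
    have hT1 : TT (cf f x1 x) = (l ^ 4) ^ 3 * TT (mq (cf f x w)) := by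
      rw [TT_congr hcf, TT_smul]
    have h01 : cf f x1 x 0 = l ^ 4 * (cf f x w 0 * SS (cf f x w) ^ 2) := by
      rw [hcf 0 (by norm_num)]
      simp only
      rw [mq_zero]
    obtain ⟨c', hc'⟩ := IsAlgClosed.exists_pow_nat_eq (DD (cf f x1 x)) hp.out.pos
    obtain ⟨l', hl'⟩ := IsAlgClosed.exists_pow_nat_eq (8 * cf f x1 x 0 * TT (cf f x1 x)) hp.out.pos
    have hz := J2_pt hD x w x x1 (fun j => c' * x1 j + l' * x j)
      (fun j => vm_cl x w c l hc hl j) (fun j => vm_cl x1 x c' l' hc' hl' j)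
    rw [ev_DD] at hz
    have e1 : (fun j => c' * x1 j + l' * x j) = fun j => (c' * l) * w j + (c' * c + l') * x j := by
      funext j
      rw [hx1]
      ring
    rw [e1, DD_vdir h] at hz
    have e2 : (c' * l) ^ p = DD (cf f x1 x) * (8 * cf f x w 0 * TT (cf f x w)) := by
      rw [mul_pow, hc', hl]
    have e3 : (c' * c + l') ^ p = DD (cf f x1 x) * DD (cf f x w)
        + 8 * cf f x1 x 0 * TT (cf f x1 x) := by
      rw [add_pow_char, mul_pow, hc', hc, hl']
    have e4 : ((c' * l) ^ p) ^ 4 * DD (cf f x w)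
        - 8 * (c' * c + l') ^ p * ((c' * l) ^ p) ^ 3 * cf f x w 0 * TT (cf f x w)
        = - ((c' * l) ^ p) ^ 3 * (8 * cf f x w 0 * TT (cf f x w))
          * (8 * cf f x1 x 0 * TT (cf f x1 x)) := by
      rw [e3]
      linear_combination ((c' * l) ^ p) ^ 3 * DD (cf f x w) * e2
    rw [e4] at hz
    have b1 : DD (cf f x1 x) ≠ 0 := by
      rw [hD1]
      exact mul_ne_zero (pow_ne_zero _ (pow_ne_zero _ hl0)) a4
    have b2 : TT (cf f x1 x) ≠ 0 := by
      rw [hT1]
      exact mul_ne_zero (pow_ne_zero _ (pow_ne_zero _ hl0)) a5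
    have b3 : cf f x1 x 0 ≠ 0 := by
      rw [h01]
      exact mul_ne_zero (pow_ne_zero _ hl0) (mul_ne_zero a1 (pow_ne_zero _ a3))
    have b4 : (c' * l) ^ p ≠ 0 := by
      rw [e2]
      exact mul_ne_zero b1 (mul_ne_zero (mul_ne_zero h8 a1) a2)
    have b5 : c' * l ≠ 0 := by
      intro h0
      apply b4
      rw [h0, zero_pow hp.out.ne_zero]
    refine mul_ne_zero (pow_ne_zero _ b5) (mul_ne_zero (mul_ne_zero (neg_ne_zero.mpr
      (pow_ne_zero _ b4)) (mul_ne_zero (mul_ne_zero h8 a1) a2))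
      (mul_ne_zero (mul_ne_zero h8 b3) b2)) hz
  have key2 : cP f 0 * TT (cP f) * SS (cP f) * DD (mq (cP f)) * TT (mq (cP f)) = 0 := by
    apply MvPolynomial.funext
    intro z
    obtain ⟨x, w, rfl⟩ := pt_surj z
    rw [map_zero, ← key x w, ← aeval_eq_eval]
    simp only [map_mul, ev_cP, ev_TT, ev_SS, ev_DDmq, ev_TTmq]
  obtain ⟨x, w, s4, sD, s0, s3, sT⟩ := special_point h hpr h2 h3 h5
  obtain ⟨y, v, r0, r1⟩ := root_point h hpr h2
  obtain ⟨m1, m2⟩ := mq_special (cf f x w) s4 sD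
  have hL : cf f x w 3 * (8 * cf f x w 0 * TT (cf f x w)) ^ 3 ≠ 0 :=
    mul_ne_zero s3 (pow_ne_zero _ (mul_ne_zero (mul_ne_zero h8 s0) sT))
  rcases mul_eq_zero.mp key2 with hk | hk
  · rcases mul_eq_zero.mp hk with hk | hk
    · rcases mul_eq_zero.mp hk with hk | hk
      · rcases mul_eq_zero.mp hk with hk | hk
        · exact hpr.ne_zero hk
        · have := ev_TT f x w
          rw [hk, map_zero] at this
          exact sT this.symm
      · have := ev_SS f y v
        rw [hk, map_zero, SS_root _ r0] at this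
        exact mul_ne_zero (neg_ne_zero.mpr h3) (pow_ne_zero _ r1) this.symm
    · have := ev_DDmq f x w
      rw [hk, map_zero, m1] at this
      exact pow_ne_zero _ hL this.symm
  · have := ev_TTmq f x w
    rw [hk, map_zero, m2] at this
    exact pow_ne_zero _ hL this.symm

/-- `al` involves a coordinate of `w` -/
theorem exists_coord_w (h : IsSec p 4 f) (h0 : cP f 0 ≠ 0) :
    ∃ i : Fin N, (GenM.eqv (K := k) (Sum.inr i : Fin N ⊕ Fin N) (cP f 0)).natDegree ≠ 0 := by
  classical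
  by_contra hcon
  push Not at hcon
  apply h0
  have step : ∀ (i : Fin N) (x w : Fin N → k) (t : k),
      cf f x (Function.update w i t) 0 = cf f x w 0 := by
    intro i x w t
    obtain ⟨r, hr⟩ := Polynomial.natDegree_eq_zero.mp (hcon i)
    have e1 := GenM.eval_eqv (K := k) (Sum.inr i : Fin N ⊕ Fin N)
      (Sum.elim x (Function.update w i t)) (cP f 0)
    have e2 := GenM.eval_eqv (K := k) (Sum.inr i : Fin N ⊕ Fin N) (Sum.elim x w) (cP f 0)
    rw [← hr, Polynomial.eval₂_C, ev_cP] at e1 e2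
    have hfun : (fun j : {j // j ≠ (Sum.inr i : Fin N ⊕ Fin N)} =>
        Sum.elim x (Function.update w i t) (j : Fin N ⊕ Fin N))
        = fun j : {j // j ≠ (Sum.inr i : Fin N ⊕ Fin N)} => Sum.elim x w (j : Fin N ⊕ Fin N) := by
      funext j
      rcases j with ⟨j | j, hj⟩
      · rfl
      · simp only [Sum.elim_inr]
        rw [Function.update_of_ne]
        rintro rfl
        exact hj rfl
    rw [← e1, ← e2, hfun]
  have all : ∀ (S : Finset (Fin N)) (x w : Fin N → k),
      cf f x (fun j => if j ∈ S then 0 else w j) 0 = cf f x w 0 := by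
    intro S
    induction S using Finset.induction_on with
    | empty => intro x w; simp
    | insert a S ha ih =>
      intro x w
      have e : (fun j => if j ∈ insert a S then (0 : k) else w j)
          = Function.update (fun j => if j ∈ S then 0 else w j) a 0 := by
        funext j
        by_cases hj : j = a
        · subst hj
          simp
        · simp [hj, Function.update_of_ne hj]
      rw [e, step, ih]
  apply MvPolynomial.funext
  intro z
  obtain ⟨x, w, rfl⟩ := pt_surj z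
  rw [ev_cP', map_zero, ← all Finset.univ x w]
  have e3 := cf_smul_right h x w 0 0 (by norm_num)
  simp only [Finset.mem_univ, if_true]
  simp only [zero_mul, mul_zero, add_zero] at e3
  rw [e3, zero_pow (by norm_num), zero_mul]

/-- over a generic `x1` there is `w'` with `al = 0`, `c1 ≠ 0` -/
theorem exists_root {Ω : Type u} [Field Ω] [IsAlgClosed Ω] [Algebra k Ω] (h : IsSec p 4 f)
    (hpr : Prime (cP f 0)) (h2 : (2 : k) ≠ 0) (x1 w : Fin N → Ω)
    (hg : AlgebraicIndependent k (Sum.elim x1 w)) :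
    ∃ w' : Fin N → Ω, cf f x1 w' 0 = 0 ∧ cf f x1 w' 1 ≠ 0 := by
  classical
  obtain ⟨i, hi⟩ := exists_coord_w h hpr.ne_zero
  let i0 : Fin N ⊕ Fin N := Sum.inr i
  let ι : MvPolynomial {j // j ≠ i0} k →+* Ω :=
    (aeval (R := k) (fun j : {j // j ≠ i0} => Sum.elim x1 w j)).toRingHom
  have hsub : AlgebraicIndependent k (fun j : {j // j ≠ i0} => Sum.elim x1 w j) :=
    hg.comp _ Subtype.val_injective
  have hι : Function.Injective ι := hsub
  have hdeg : ((GenM.eqv (K := k) i0 (cP f 0)).map ι).degree ≠ 0 := by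
    intro h0
    have h1 := Polynomial.natDegree_eq_of_degree_eq_some h0
    rw [Polynomial.natDegree_map_eq_of_injective hι] at h1
    exact hi h1
  obtain ⟨t, ht⟩ := IsAlgClosed.exists_root _ hdeg
  rw [Polynomial.IsRoot.def, Polynomial.eval_map] at ht
  have hz : ∀ j : {j // j ≠ i0}, Sum.elim x1 (Function.update w i t) j = Sum.elim x1 w j := by
    rintro ⟨j | j, hj⟩
    · rfl
    · simp only [Sum.elim_inr]
      rw [Function.update_of_ne]
      rintro rfl
      exact hj rfl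
  have hfun : (fun j : {j // j ≠ i0} => Sum.elim x1 (Function.update w i t) (j : Fin N ⊕ Fin N))
      = fun j : {j // j ≠ i0} => Sum.elim x1 w (j : Fin N ⊕ Fin N) := funext hz
  have e1 := GenM.eval_eqv (K := k) i0 (Sum.elim x1 (Function.update w i t)) (cP f 0)
  rw [hfun] at e1
  have e2 : Sum.elim x1 (Function.update w i t) i0 = t := by
    simp [i0]
  rw [e2] at e1
  have e3 : aeval (Sum.elim x1 (Function.update w i t)) (cP f 0) = 0 := by
    rw [← e1]
    exact ht
  refine ⟨Function.update w i t, ?_, ?_⟩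
  · rw [← ev_cP]
    exact e3
  · intro h1
    rw [← ev_cP] at h1
    exact not_dvd_cP1 h hpr.ne_zero h2 (GenM.dvd_of_aeval i0 _ _ _ hpr e3 (by
      rw [hfun]
      exact hsub) h1)

end ideals

end V2M

open V2M V34M in
/-- V2 -/
theorem specV2 (hAl : SpecAl.{u}) (hV1 : SpecV1.{u}) : SpecV2.{u} := by
  intro p _ k _ _ _ f hgood Ω _ _ x w w' x1 x2 hxw hx1 hx2
  have h5 := hgood.five
  have h := hgood.sec
  have hinf : Infinite k := IsAlgClosed.instInfinite
  have hp := (Fact.out : p.Prime)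
  have hprime : Prime (cP f 0) := by
    rw [cP_zero]
    exact hAl p k 4 f hgood
  have hchar : ∀ n : ℕ, 0 < n → n < 5 → ((n : ℕ) : k) ≠ 0 := by
    intro n h0 h1 h2
    rw [CharP.cast_eq_zero_iff k p] at h2
    have := Nat.le_of_dvd h0 h2
    omega
  have h2 : (2 : k) ≠ 0 := by
    have := hchar 2 (by norm_num) (by norm_num)
    exact_mod_cast this
  have h3 : (3 : k) ≠ 0 := by
    have := hchar 3 (by norm_num) (by norm_num)
    exact_mod_cast this
  -- step A
  have hA : ∀ G ∈ J2 p f, G ∈ J1 p f := by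
    intro G hG
    obtain ⟨Ω', _, _, _, z, hz⟩ := exists_generic k (Fin (p + 2) ⊕ Fin (p + 2))
    let a : Fin (p + 2) → Ω' := fun j => z (Sum.inl j)
    let b : Fin (p + 2) → Ω' := fun j => z (Sum.inr j)
    have hzz : z = Sum.elim a b := by
      funext i
      rcases i with i | i <;> rfl
    rw [hzz] at hz
    choose a1 ha1 using fun j => IsAlgClosed.exists_pow_nat_eq (vm f p a b j) hp.pos
    have hg1 := hV1 p k f hgood Ω' a b a1 hz ha1
    obtain ⟨b', hb0, hb1⟩ := exists_root h hprime h2 a1 b hg1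
    obtain ⟨c, hc⟩ := IsAlgClosed.exists_pow_nat_eq (cf f a1 b' 1)⁻¹ (show 0 < 4 + p * 1 by omega)
    have hx : ∀ j, a1 j ^ p = vm f p a1 (fun j => c * b' j) j := by
      intro j
      have e0 : al f a1 (fun j => c * b' j) = 0 := by
        rw [← cf_zero, cf_smul_right h _ _ _ _ (by norm_num), hb0, mul_zero]
      rw [vm_root _ _ e0, cf_smul_right h _ _ _ _ (by norm_num), hc, inv_mul_cancel₀ hb1,
        one_pow, one_mul]
    exact J1_of_generic a b a1 hz ha1 (J2_pt hG a b _ a1 a1 ha1 hx)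
  -- the prime `g`
  have hD0 : DD (cP f) ≠ 0 := by
    obtain ⟨y, v, r0, r1⟩ := root_point h hprime h2
    intro h0
    have := ev_DD f y v
    rw [h0, map_zero, DD_root _ r0] at this
    exact pow_ne_zero _ r1 this.symm
  have hDJ : DD (cP f) ∈ J1 p f := by
    obtain ⟨Ω', _, _, _, z, hz⟩ := exists_generic k (Fin (p + 2) ⊕ Fin (p + 2))
    have : CharP Ω' p := charP_of_injective_algebraMap (algebraMap k Ω').injective p
    let a : Fin (p + 2) → Ω' := fun j => z (Sum.inl j)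
    let b : Fin (p + 2) → Ω' := fun j => z (Sum.inr j)
    have hzz : z = Sum.elim a b := by
      funext i
      rcases i with i | i <;> rfl
    rw [hzz] at hz
    obtain ⟨c, hc⟩ := IsAlgClosed.exists_pow_nat_eq (DD (cf f a b)) hp.pos
    obtain ⟨l, hl⟩ := IsAlgClosed.exists_pow_nat_eq (8 * cf f a b 0 * TT (cf f a b)) hp.pos
    refine J1_of_generic a b (fun j => c * a j + l * b j) hz (fun j => vm_cl a b c l hc hl j) ?_
    rw [ev_DD]
    have e : (fun j => c * a j + l * b j) = fun j => l * b j + c * a j := by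
      funext j
      ring
    rw [e]
    exact DD_vm h a b c l hc hl
  obtain ⟨g, hg, hgD, hgJ⟩ := exists_factor (J1 p f) J1_prime _ hDJ hD0
  have hB := stepB h hprime h2 h3 h5 g hg hgD hgJ
  -- conclusion
  rw [algebraicIndependent_iff]
  intro G hG
  by_contra hG0
  have hGJ : G ∈ J2 p f := J2_of_generic x w w' x1 x2 hxw hx1 hx2 hG
  obtain ⟨G1, hG1, -, hG1J⟩ := exists_factor (J2 p f) J2_prime _ hGJ hG0
  have hd := hB G1 (hA G1 hG1J)
  have hass : Associated g G1 := hg.associated_of_dvd hG1 hd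
  have hgJ2 : g ∈ J2 p f := by
    obtain ⟨c, hc⟩ := hass.symm.dvd
    rw [hc]
    exact Ideal.mul_mem_right _ _ hG1J
  apply stepD h hprime h2 h3 h5
  obtain ⟨c, hc⟩ := hgD
  rw [hc]
  exact Ideal.mul_mem_right _ _ hgJ2

end MPcfca
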