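import Pool.Agent.Lib.MP_cfca38_ag.Spec
import Pool.Agent.Lib.MP_cfca38_ag.PT1
import Pool.Agent.Lib.MP_cfca38_ag.CZ
import Pool.Agent.Lib.MP_cfca38_ag.FB
import Pool.Agent.Lib.MP_cfca38_ag.FLB
import Pool.Agent.Lib.MP_cfca38_ag.La
import Pool.Agent.Lib.MP_cfca38_ag.NL
import Pool.Agent.Lib.MP_cfca38_ag.Red
import Pool.Agent.Lib.MP_cfca38_ag.V1
import Pool.Agent.Lib.MP_cfca38_ag.V2

section
/-! MP_cfca38_ag: module SM. -/
set_option autoImplicit false

namespace MPcfca

open MvPolynomial

universe u

namespace SmM

variable {N : ℕ} {k : Type u} [Field k]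

/-- the point of `A^(Idx N)` with coordinates `v, w, X, Y` -/
def pt {A : Type u} (v w : Fin N → A) (x y : A) : Idx N → A :=
  Sum.elim (fun ij : Fin 2 × Fin N => if ij.1 = 0 then v ij.2 else w ij.2)
    (fun l : Fin 2 => if l = 0 then x else y)

theorem pt_surj {A : Type u} (z : Idx N → A) : z = pt (fun j => z (Sum.inl (0, j)))
    (fun j => z (Sum.inl (1, j))) (z (Sum.inr 0)) (z (Sum.inr 1)) := by
  funext i
  unfold pt
  rcases i with ⟨i, j⟩ | l
  · fin_cases i <;> simp
  · fin_cases l <;> simp

theorem ev_eq (f : MvPolynomial (Idx N) k) {A : Type u} [CommRing A] [Algebra k A]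
    (v w : Fin N → A) (x y : A) : ev f v w x y = aeval (pt v w x y) f := rfl

/-- two vectors all of whose minors vanish are dependent -/
theorem minor_ne {K : Type u} [Field K] {v w : Fin N → K} (h : LinearIndependent K ![v, w]) :
    ∃ i j, v i * w j - v j * w i ≠ 0 := by
  by_contra hc
  push Not at hc
  rw [LinearIndependent.pair_iff] at h
  by_cases hv : v = 0
  · have := h 1 0 (by rw [hv]; simp)
    exact one_ne_zero this.1
  · obtain ⟨i, hi⟩ := Function.ne_iff.mp hv
    have h1 := h (w i) (-v i) (by
      funext j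
      have := hc i j
      simp only [Pi.add_apply, Pi.smul_apply, smul_eq_mul, Pi.zero_apply]
      linear_combination -this)
    exact hi (neg_eq_zero.mp h1.2)

end SmM

theorem specSm : SpecSm.{u} := by
  intro p _ k _ _ _ m f hg Ω _ _ v w x y hind hxy h0
  by_contra hc
  push Not at hc
  set I : Ideal (MvPolynomial (Idx (p + 2)) k) :=
    Ideal.span ({f} ∪ Set.range (fun i => pderiv i f)) with hI
  have hkill : ∀ g ∈ I, aeval (SmM.pt v w x y) g = 0 := by
    intro g hgI
    have : I ≤ RingHom.ker (aeval (R := k) (SmM.pt v w x y) :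
        MvPolynomial (Idx (p + 2)) k →ₐ[k] Ω) := by
      rw [hI, Ideal.span_le]
      rintro g (hg1 | ⟨i, rfl⟩)
      · rw [Set.mem_singleton_iff.mp hg1]
        exact h0
      · exact hc i
    exact this hgI
  have hrad : ∀ (i j : Fin (p + 2)) (l : Fin 2),
      (X (Sum.inl (0, i)) * X (Sum.inl (1, j)) - X (Sum.inl (0, j)) * X (Sum.inl (1, i)))
        * X (Sum.inr l) ∈ I.radical := by
    intro i j l
    rw [← vanishingIdeal_zeroLocus_eq_radical (K := k), mem_vanishingIdeal_iff]
    intro z hz
    rw [SmM.pt_surj z] at hz ⊢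
    set v' := fun j => z (Sum.inl (0, j))
    set w' := fun j => z (Sum.inl (1, j))
    set x' := z (Sum.inr 0)
    set y' := z (Sum.inr 1)
    have e : aeval (SmM.pt v' w' x' y')
        ((X (Sum.inl (0, i)) * X (Sum.inl (1, j)) - X (Sum.inl (0, j)) * X (Sum.inl (1, i)))
        * X (Sum.inr l) : MvPolynomial (Idx (p + 2)) k)
        = (v' i * w' j - v' j * w' i) * (if l = 0 then x' else y') := by
      simp [SmM.pt]
    rw [e]
    by_cases hli : LinearIndependent k ![v', w']
    · have hxy' : x' = 0 ∧ y' = 0 := by
        by_contra hne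
        have hor : x' ≠ 0 ∨ y' ≠ 0 := by
          by_contra h
          push Not at h
          exact hne h
        obtain ⟨i0, hi0⟩ := hg.smooth v' w' x' y' hli hor
          (hz f (Ideal.subset_span (Or.inl rfl)))
        exact hi0 (hz _ (Ideal.subset_span (Or.inr ⟨i0, rfl⟩)))
      rw [hxy'.1, hxy'.2]
      simp
    · have : v' i * w' j - v' j * w' i = 0 := by
        rw [LinearIndependent.pair_iff] at hli
        push Not at hli
        obtain ⟨s, t, hst, hne⟩ := hli
        have ei := congrFun hst i
        have ej := congrFun hst j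
        simp only [Pi.add_apply, Pi.smul_apply, smul_eq_mul, Pi.zero_apply] at ei ej
        by_cases hs : s = 0
        · have ht : t ≠ 0 := hne hs
          rw [hs] at ei ej
          have h1 : w' i = 0 := by
            have : t * w' i = 0 := by linear_combination ei
            exact (mul_eq_zero.mp this).resolve_left ht
          have h2 : w' j = 0 := by
            have : t * w' j = 0 := by linear_combination ej
            exact (mul_eq_zero.mp this).resolve_left ht
          rw [h1, h2]; ring
        · have : s * (v' i * w' j - v' j * w' i) = 0 := by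
            linear_combination w' j * ei - w' i * ej
          exact (mul_eq_zero.mp this).resolve_left hs
      rw [this, zero_mul]
  obtain ⟨i, j, hij⟩ := SmM.minor_ne hind
  have hfin : ∀ l : Fin 2, (if l = 0 then x else y) = 0 := by
    intro l
    obtain ⟨n, hn⟩ := hrad i j l
    have h1 := hkill _ hn
    rw [map_pow] at h1
    have h4 : aeval (SmM.pt v w x y)
      ((X (Sum.inl (0, i)) * X (Sum.inl (1, j)) - X (Sum.inl (0, j)) * X (Sum.inl (1, i)))
        * X (Sum.inr l) : MvPolynomial (Idx (p + 2)) k) = 0 := by
      rcases Nat.eq_zero_or_pos n with hn0 | hn0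
      · rw [hn0, pow_zero] at h1
        exact absurd h1 one_ne_zero
      · exact (pow_eq_zero_iff hn0.ne').mp h1
    have e : aeval (SmM.pt v w x y)
        ((X (Sum.inl (0, i)) * X (Sum.inl (1, j)) - X (Sum.inl (0, j)) * X (Sum.inl (1, i)))
        * X (Sum.inr l) : MvPolynomial (Idx (p + 2)) k)
        = (v i * w j - v j * w i) * (if l = 0 then x else y) := by
      simp [SmM.pt]
    rw [e] at h4
    exact (mul_eq_zero.mp h4).resolve_left hij
  have hx := hfin 0
  have hy := hfin 1
  simp at hx hy
  rcases hxy with h | h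
  · exact h hx
  · exact h hy

end MPcfca
end

section
/-! MP_cfca38_ag: assembly of all the modules. -/
set_option autoImplicit false

namespace MPcfca

universe u

theorem prF : SpecPr.{u} := specPr specCZ
theorem alF : SpecAl.{u} := specAl prF
theorem chF : SpecCh.{u} := specCh prF
theorem crF : SpecCR.{u} := specCR specSm
theorem rkF : SpecRk.{u} := specRk crF
theorem v1F : SpecV1.{u} := specV1 alF
theorem v2F : SpecV2.{u} := specV2 alF v1F
theorem v3F : SpecV3.{u} := specV3 v2F specSD
theorem v4F : SpecV4.{u} := specV4 v1F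
theorem nlF : SpecNL.{u} := specNL alF crF

theorem flbF : SpecFlB.{u} :=
  specFlB (specHB specHD nlF specSD) v3F v4F specPT1 specPT2

theorem fbF : SpecFB.{u} := specFB flbF chF

theorem faF : SpecFA.{u} :=
  specFA (specLA (specSpA (specPair alF chF specGen) rkF) specTL) rkF chF specGen specPT1

theorem goalAF : GoalA.{u} := goalA faF chF specRed

theorem goalBF : GoalB.{u} := goalB fbF specRed

end MPcfca
end
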