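import Mathlib

/-! MP_cfca38_ag: definitions for the statement.

`N = p + 2`, `G = Gr(2, N)`, `X = P_G(F^* S)`.  A point of `X` is a plane `V = <v, w>` of `k^N`
together with a line of `V^(p)`, spanned by `X v^(p) + Y w^(p)`. Sections of `O_X(-(m/2) K_X)`
(`-K_X = 2 (h + H)`) are the polynomials `f(v, w; X, Y)` which are homogeneous of degree `m`
in `(X, Y)` and satisfy the transformation law `equi` below. -/

set_option autoImplicit false

namespace MPcfca

open MvPolynomial

universe u

/-- coordinates: `Sum.inl (i, j)` is the `j`-th coordinate of the `i`-th vector of the frame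
`(v, w)`, and `Sum.inr 0`, `Sum.inr 1` are `X` and `Y`. -/
abbrev Idx (N : ℕ) : Type := (Fin 2 × Fin N) ⊕ Fin 2

section
variable {N : ℕ} {k : Type u} [Field k]

/-- the value `f(v, w; X, Y)`, with `v w X Y` in any commutative `k`-algebra -/
noncomputable def ev (f : MvPolynomial (Idx N) k) {A : Type u} [CommRing A] [Algebra k A]
    (v w : Fin N → A) (X Y : A) : A :=
  aeval (Sum.elim (fun ij : Fin 2 × Fin N => if ij.1 = 0 then v ij.2 else w ij.2)
    (fun l : Fin 2 => if l = 0 then X else Y)) f

/-- `f` is a section of `O_X(m (h + H))`: homogeneous of degree `m` in `(X, Y)`, and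
`f(g (v, w); X', Y') = det(g)^m f(v, w; X, Y)` when `X v^(p) + Y w^(p)` is the same vector as
`X' (g v)^(p) + Y' (g w)^(p)`. -/
structure IsSec (p m : ℕ) (f : MvPolynomial (Idx N) k) : Prop where
  hom : ∀ (v w : Fin N → k) (X Y c : k), ev f v w (c * X) (c * Y) = c ^ m * ev f v w X Y
  equi : ∀ (v w : Fin N → k) (X Y a b c d : k), a * d - b * c ≠ 0 →
    ev f (fun j => a * v j + b * w j) (fun j => c * v j + d * w j) X Y
      = (a * d - b * c) ^ m * ev f v w (X * a ^ p + Y * c ^ p) (X * b ^ p + Y * d ^ p)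

/-- the zero divisor of `f` in `X` is smooth: at every point some partial derivative of `f` is
not zero. -/
def Smooth (f : MvPolynomial (Idx N) k) : Prop :=
  ∀ (v w : Fin N → k) (X Y : k), LinearIndependent k ![v, w] → (X ≠ 0 ∨ Y ≠ 0) →
    ev f v w X Y = 0 → ∃ i : Idx N, ev (pderiv i f) v w X Y ≠ 0

end

section
variable {p : ℕ} {k : Type u} [Field k]

/-- coordinates on the open chart `A^(2p+1)` of `X` -/
abbrev Ch (p : ℕ) : Type := (Fin p ⊕ Fin p) ⊕ Unit

/-- the equation of the divisor of `f` in the open chart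
`V = <(1,0,a), (0,1,b)>`, vector `(1,0,a)^(p) + c (0,1,b)^(p)` of `X`, with coordinates
`(a, b, c)`. -/
noncomputable def chart (f : MvPolynomial (Idx (p + 2)) k) : MvPolynomial (Ch p) k :=
  ev f (A := MvPolynomial (Ch p) k)
    (Fin.cons 1 (Fin.cons 0 (fun j : Fin p => X (Sum.inl (Sum.inl j)))))
    (Fin.cons 0 (Fin.cons 1 (fun j : Fin p => X (Sum.inl (Sum.inr j)))))
    1 (X (Sum.inr ()))

/-- The hypersurface `F = 0` of affine space is integral and is dominated by a rational map from
`A^n`: its function field embeds into `k(t_1, ..., t_n)` over `k`. -/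
def Unirational {σ : Type} (F : MvPolynomial σ k) (n : ℕ) : Prop :=
  ∃ φ : MvPolynomial σ k →ₐ[k] FractionRing (MvPolynomial (Fin n) k),
    ∀ h : MvPolynomial σ k, φ h = 0 ↔ F ∣ h

/-- type (A): the smooth divisor `Y = {f = 0}`, of dimension `2 p` -/
def GoalA : Prop :=
  ∀ (p : ℕ) [Fact p.Prime] (k : Type u) [Field k] [IsAlgClosed k] [CharP k p], 5 ≤ p →
    ∀ f : MvPolynomial (Idx (p + 2)) k, IsSec p 2 f → Smooth f →
      Unirational (chart f) (2 * p)

/-- the equation `s^2 = f` of the double cover in the chart -/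
noncomputable def dbl (f : MvPolynomial (Idx (p + 2)) k) : MvPolynomial (Option (Ch p)) k :=
  X none ^ 2 - rename some (chart f)

/-- type (B): the double cover `Y` of `X` branched along the smooth divisor `{f = 0}`, of
dimension `2 p + 1` -/
def GoalB : Prop :=
  ∀ (p : ℕ) [Fact p.Prime] (k : Type u) [Field k] [IsAlgClosed k] [CharP k p], 5 ≤ p →
    ∀ f : MvPolynomial (Idx (p + 2)) k, IsSec p 4 f → Smooth f →
      Unirational (dbl f) (2 * p + 1)

end

end MPcfca
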