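import Pool.Agent.Lib.MP_cfca38_ag.VTool

/-! MP_cfca38_ag: specifications of the modules. Text with the proofs:
/team-store/MP_cfca38_ag_PROOF.md -/

set_option autoImplicit false

namespace MPcfca

open MvPolynomial

universe u

/-- the standing hypotheses -/
structure Good (p m : ℕ) {k : Type u} [Field k] (f : MvPolynomial (Idx (p + 2)) k) : Prop where
  five : 5 ≤ p
  hm : m = 2 ∨ m = 4
  sec : IsSec p m f
  smooth : Smooth f

/-! ## common modules -/

/-- CZ: fewer forms than variables have a common zero -/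
def SpecCZ : Prop :=
  ∀ (K : Type u) [Field K] [IsAlgClosed K] (n r : ℕ) (g : Fin r → MvPolynomial (Fin n) K)
    (d : Fin r → ℕ), r < n → (∀ i, (g i).IsHomogeneous (d i)) → (∀ i, 0 < d i) →
    ∃ z : Fin n → K, z ≠ 0 ∧ ∀ i, eval z (g i) = 0

/-- SM: smoothness holds over every field extension -/
def SpecSm : Prop :=
  ∀ (p : ℕ) [Fact p.Prime] (k : Type u) [Field k] [IsAlgClosed k] [CharP k p] (m : ℕ)
    (f : MvPolynomial (Idx (p + 2)) k), Good p m f →
  ∀ (Ω : Type u) [Field Ω] [Algebra k Ω] (v w : Fin (p + 2) → Ω) (X Y : Ω),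
    LinearIndependent Ω ![v, w] → (X ≠ 0 ∨ Y ≠ 0) → ev f v w X Y = 0 →
    ∃ i, ev (pderiv i f) v w X Y ≠ 0

/-- PR: `f` is prime -/
def SpecPr : Prop :=
  ∀ (p : ℕ) [Fact p.Prime] (k : Type u) [Field k] [IsAlgClosed k] [CharP k p] (m : ℕ)
    (f : MvPolynomial (Idx (p + 2)) k), Good p m f → Prime f

/-- `al f` as a polynomial in `(x, w)` -/
noncomputable def alP {N : ℕ} {k : Type u} [Field k] (f : MvPolynomial (Idx N) k) :
    MvPolynomial (Fin N ⊕ Fin N) k :=
  al f (fun j => X (Sum.inl j)) (fun j => X (Sum.inr j))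

/-- AL: `al f` is prime (from PR) -/
def SpecAl : Prop :=
  ∀ (p : ℕ) [Fact p.Prime] (k : Type u) [Field k] [IsAlgClosed k] [CharP k p] (m : ℕ)
    (f : MvPolynomial (Idx (p + 2)) k), Good p m f → Prime (alP f)

/-- CH: the chart equation is prime (from PR) -/
def SpecCh : Prop :=
  ∀ (p : ℕ) [Fact p.Prime] (k : Type u) [Field k] [IsAlgClosed k] [CharP k p] (m : ℕ)
    (f : MvPolynomial (Idx (p + 2)) k), Good p m f → Prime (chart f)

/-- CR: for generic `x` the vertex of the form `al f x` has dimension at most 2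
(it contains `x`) -/
def SpecCR : Prop :=
  ∀ (p : ℕ) [Fact p.Prime] (k : Type u) [Field k] [IsAlgClosed k] [CharP k p] (m : ℕ)
    (f : MvPolynomial (Idx (p + 2)) k), Good p m f →
  ∀ (Ω : Type u) [Field Ω] [IsAlgClosed Ω] [Algebra k Ω] (x : Fin (p + 2) → Ω),
    AlgebraicIndependent k x → ∀ U : Submodule Ω (Fin (p + 2) → Ω),
    (∀ u ∈ U, ∀ w, al f x (fun j => w j + u j) = al f x w) → Module.finrank Ω U ≤ 2

/-- GEN: the generic point of a hypersurface -/
def SpecGen : Prop :=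
  ∀ (K : Type u) [Field K] (σ : Type) [Fintype σ] (L : Type u) [Field L] [Algebra K L]
    (F : MvPolynomial σ K) (z : σ → L), Prime F → aeval z F = 0 →
    ∀ (n : ℕ) (y : Fin n → L), n + 1 = Fintype.card σ → AlgebraicIndependent K y →
    (∀ i, IsAlgebraic (IntermediateField.adjoin K (Set.range z)) (y i)) →
    ∀ h : MvPolynomial σ K, aeval z h = 0 ↔ F ∣ h

/-- SD: algebraic independence is an open condition on parameters -/
def SpecSD : Prop :=
  ∀ (k : Type u) [Field k] (ι τ κ : Type) [Fintype ι] [Fintype τ] [Fintype κ]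
    (Φ : κ → MvPolynomial (ι ⊕ τ) k),
    AlgebraicIndependent k
      (Sum.elim (fun i : ι => (X (Sum.inl i) : MvPolynomial (ι ⊕ τ) k)) Φ) →
    ∃ B : MvPolynomial ι k, B ≠ 0 ∧ ∀ (L : Type u) [Field L] [Algebra k L] (z : ι → L),
      aeval z B ≠ 0 → AlgebraicIndependent L
        (fun i => (aeval (R := k) (Sum.elim (fun i : ι => C (z i)) (fun j : τ => X j)) (Φ i) :
          MvPolynomial τ L))

/-- RED: the number of parameters can be reduced to the dimension -/
def SpecRed : Prop :=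
  ∀ (k : Type u) [Field k] [IsAlgClosed k] (σ : Type) [Fintype σ] (F : MvPolynomial σ k) (M : ℕ)
    (φ : MvPolynomial σ k →ₐ[k] FractionRing (MvPolynomial (Fin M) k)), Prime F →
    (∀ h, φ h = 0 ↔ F ∣ h) → Unirational F (Fintype.card σ - 1)

/-- PT1: adding variables -/
def SpecPT1 : Prop :=
  ∀ (k : Type u) [Field k] (M n : ℕ),
    ∃ (j : FractionRing (MvPolynomial (Fin M) k) →ₐ[k] FractionRing (MvPolynomial (Fin (M + n)) k))
      (t : Fin n → FractionRing (MvPolynomial (Fin (M + n)) k)),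
      @AlgebraicIndependent (Fin n) (FractionRing (MvPolynomial (Fin M) k))
        (FractionRing (MvPolynomial (Fin (M + n)) k)) t _ _ j.toRingHom.toAlgebra

/-- PT2: extracting p-th roots -/
def SpecPT2 : Prop :=
  ∀ (p : ℕ) [Fact p.Prime] (k : Type u) [Field k] [IsAlgClosed k] [CharP k p] (M : ℕ),
    ∃ j : FractionRing (MvPolynomial (Fin M) k) →ₐ[k] FractionRing (MvPolynomial (Fin M) k),
      ∀ a, ∃ b, b ^ p = j a

/-! ## modules for the double covers (B), `m = 4` -/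

/-- the quartic form `al f x` on the vectors with first coordinate `0` -/
noncomputable def QW {p : ℕ} {k : Type u} [Field k] (f : MvPolynomial (Idx (p + 2)) k)
    {Ω : Type u} [Field Ω] [Algebra k Ω] (x : Fin (p + 2) → Ω) : MvPolynomial (Fin (p + 1)) Ω :=
  al f (A := MvPolynomial (Fin (p + 1)) Ω) (fun j => C (x j)) (Fin.cons 0 X)

/-- NL: for generic `x` the quartic has a nonlinear factor of multiplicity one -/
def SpecNL : Prop :=
  ∀ (p : ℕ) [Fact p.Prime] (k : Type u) [Field k] [IsAlgClosed k] [CharP k p]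
    (f : MvPolynomial (Idx (p + 2)) k), Good p 4 f →
  ∀ (Ω : Type u) [Field Ω] [IsAlgClosed Ω] [Algebra k Ω] (x : Fin (p + 2) → Ω),
    AlgebraicIndependent k x → ∃ (Q1 Q2 : MvPolynomial (Fin (p + 1)) Ω) (j : ℕ),
      QW f x = Q1 * Q2 ∧ Irreducible Q1 ∧ Q1.IsHomogeneous j ∧ 2 ≤ j ∧ ¬ Q1 ∣ Q2

/-- HD: two H-moves from a generic point dominate, for a quartic form with a nonlinear factor
of multiplicity one -/
def SpecHD : Prop :=
  ∀ (p : ℕ) [Fact p.Prime] (K : Type u) [Field K] [IsAlgClosed K] [CharP K p] (n : ℕ)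
    (Q Q1 Q2 : MvPolynomial (Fin n) K) (j : ℕ), 5 ≤ p → Q.IsHomogeneous 4 → Q = Q1 * Q2 →
    Irreducible Q1 → Q1.IsHomogeneous j → 2 ≤ j → ¬ Q1 ∣ Q2 →
  ∀ (Ω : Type u) [Field Ω] [Algebra K Ω] (a d d' : Fin n → Ω),
    AlgebraicIndependent K (Sum.elim a (Sum.elim d d')) →
    AlgebraicIndependent K (Sum.elim a (mv Q (mv Q a d) d'))

/-- HB: two H-moves in the fibre of `x` from `w`, plus a multiple of `x`, give a generic vector,
for `(x, w)` in general position (from HD, NL, SD) -/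
def SpecHB : Prop :=
  ∀ (p : ℕ) [Fact p.Prime] (k : Type u) [Field k] [IsAlgClosed k] [CharP k p]
    (f : MvPolynomial (Idx (p + 2)) k), Good p 4 f →
  ∃ B : MvPolynomial (Fin (p + 2) ⊕ Fin (p + 2)) k, B ≠ 0 ∧
    ∀ (L : Type u) [Field L] [Algebra k L] (x w : Fin (p + 2) → L),
      aeval (Sum.elim x w) B ≠ 0 →
    ∀ (Ω : Type u) [Field Ω] [Algebra k Ω] [Algebra L Ω] [IsScalarTower k L Ω]
      (d d' : Fin (p + 2) → Ω) (nu : Ω),
      AlgebraicIndependent L (Sum.elim (Sum.elim d d') (fun _ : Unit => nu)) →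
      AlgebraicIndependent L (fun j => hm f (fun i => algebraMap L Ω (x i))
        (hm f (fun i => algebraMap L Ω (x i)) (fun i => algebraMap L Ω (w i)) d) d' j
          + nu * algebraMap L Ω (x j))

/-- V1: the V-move of a generic flag is a generic flag -/
def SpecV1 : Prop :=
  ∀ (p : ℕ) [Fact p.Prime] (k : Type u) [Field k] [IsAlgClosed k] [CharP k p]
    (f : MvPolynomial (Idx (p + 2)) k), Good p 4 f →
  ∀ (Ω : Type u) [Field Ω] [Algebra k Ω] (x w x1 : Fin (p + 2) → Ω),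
    AlgebraicIndependent k (Sum.elim x w) → (∀ j, x1 j ^ p = vm f p x w j) →
    AlgebraicIndependent k (Sum.elim x1 w)

/-- V2: two V-moves with generic planes dominate -/
def SpecV2 : Prop :=
  ∀ (p : ℕ) [Fact p.Prime] (k : Type u) [Field k] [IsAlgClosed k] [CharP k p]
    (f : MvPolynomial (Idx (p + 2)) k), Good p 4 f →
  ∀ (Ω : Type u) [Field Ω] [Algebra k Ω] (x w w' x1 x2 : Fin (p + 2) → Ω),
    AlgebraicIndependent k (Sum.elim x (Sum.elim w w')) →
    (∀ j, x1 j ^ p = vm f p x w j) → (∀ j, x2 j ^ p = vm f p x1 w' j) →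
    AlgebraicIndependent k (Sum.elim x x2)

/-- V3: V2 for a general starting point of `k^N` (from V2 and SD) -/
def SpecV3 : Prop :=
  ∀ (p : ℕ) [Fact p.Prime] (k : Type u) [Field k] [IsAlgClosed k] [CharP k p]
    (f : MvPolynomial (Idx (p + 2)) k), Good p 4 f →
  ∃ B : MvPolynomial (Fin (p + 2)) k, B ≠ 0 ∧ ∀ x : Fin (p + 2) → k, eval x B ≠ 0 →
    ∀ (Ω : Type u) [Field Ω] [Algebra k Ω] (w w' x1 x2 : Fin (p + 2) → Ω),
    AlgebraicIndependent k (Sum.elim w w') →
    (∀ j, x1 j ^ p = vm f p (fun i => algebraMap k Ω (x i)) w j) →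
    (∀ j, x2 j ^ p = vm f p x1 w' j) → AlgebraicIndependent k x2

/-- V4: open conditions hold at the flags obtained from a general point of `k^N` (from V1) -/
def SpecV4 : Prop :=
  ∀ (p : ℕ) [Fact p.Prime] (k : Type u) [Field k] [IsAlgClosed k] [CharP k p]
    (f : MvPolynomial (Idx (p + 2)) k), Good p 4 f →
  ∀ G : MvPolynomial (Fin (p + 2) ⊕ Fin (p + 2)) k, G ≠ 0 →
  ∃ B : MvPolynomial (Fin (p + 2)) k, B ≠ 0 ∧ ∀ x : Fin (p + 2) → k, eval x B ≠ 0 →
    ∀ (Ω : Type u) [Field Ω] [Algebra k Ω] (w w' x1 x2 : Fin (p + 2) → Ω),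
    AlgebraicIndependent k (Sum.elim w w') →
    (∀ j, x1 j ^ p = vm f p (fun i => algebraMap k Ω (x i)) w j) →
    (∀ j, x2 j ^ p = vm f p x1 w' j) →
    aeval (Sum.elim x1 w) G ≠ 0 ∧ aeval (Sum.elim x2 w') G ≠ 0

/-- FLB: a generic flag over a purely transcendental field, on which `al f` is a square
(from HB, V3, V4, PT1, PT2) -/
def SpecFlB : Prop :=
  ∀ (p : ℕ) [Fact p.Prime] (k : Type u) [Field k] [IsAlgClosed k] [CharP k p]
    (f : MvPolynomial (Idx (p + 2)) k), Good p 4 f →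
  ∃ (M : ℕ) (x w : Fin (p + 2) → FractionRing (MvPolynomial (Fin M) k))
    (s : FractionRing (MvPolynomial (Fin M) k)),
    AlgebraicIndependent k (Sum.elim x w) ∧ s ≠ 0 ∧ al f x w = s ^ 2

/-- FB: type (B) with any number of parameters (from FLB, CH) -/
def SpecFB : Prop :=
  ∀ (p : ℕ) [Fact p.Prime] (k : Type u) [Field k] [IsAlgClosed k] [CharP k p]
    (f : MvPolynomial (Idx (p + 2)) k), Good p 4 f →
  Prime (dbl f) ∧ ∃ (M : ℕ)
    (φ : MvPolynomial (Option (Ch p)) k →ₐ[k] FractionRing (MvPolynomial (Fin M) k)),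
    ∀ h, φ h = 0 ↔ dbl f ∣ h

/-! ## modules for the divisors (A), `m = 2` -/

/-- the polar form of `al f x` -/
noncomputable def pol {N : ℕ} {k : Type u} [Field k] (f : MvPolynomial (Idx N) k) {A : Type u}
    [CommRing A] [Algebra k A] (x e e' : Fin N → A) : A :=
  al f x (fun j => e j + e' j) - al f x e - al f x e'

/-- RK: for generic `x` (up to scaling) the quadratic form `al f x` has rank at least 5, on a
subspace defined over `k` (from CR) -/
def SpecRk : Prop :=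
  ∀ (p : ℕ) [Fact p.Prime] (k : Type u) [Field k] [IsAlgClosed k] [CharP k p]
    (f : MvPolynomial (Idx (p + 2)) k), Good p 2 f →
  ∀ (Ω : Type u) [Field Ω] [Algebra k Ω] (x : Fin (p + 2) → Ω), x 0 = 1 →
    AlgebraicIndependent k (fun j : Fin (p + 1) => x j.succ) →
    ∃ E : Fin 5 → Fin (p + 2) → k,
      (Matrix.of fun i j : Fin 5 => pol f x (fun l => algebraMap k Ω (E i l))
        (fun l => algebraMap k Ω (E j l))).det ≠ 0

/-- PAIR: the two roots of a generic plane (from CH, GEN, CR) -/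
def SpecPair : Prop :=
  ∀ (p : ℕ) [Fact p.Prime] (k : Type u) [Field k] [IsAlgClosed k] [CharP k p]
    (f : MvPolynomial (Idx (p + 2)) k), Good p 2 f →
  ∃ (Ω : Type u) (_ : Field Ω) (_ : IsAlgClosed Ω) (_ : Algebra k Ω) (x u : Fin (p + 2) → Ω),
    x 0 = 1 ∧ u 0 = 1 ∧ AlgebraicIndependent k (fun j : Fin (p + 1) => x j.succ) ∧
    AlgebraicIndependent k (fun j : Fin (p + 1) => u j.succ) ∧
    al f x u = 0 ∧ al f u x = 0 ∧ cf f x u 1 ≠ 0 ∧ (∃ e : Fin (p + 2) → k,
      pol f x u (fun l => algebraMap k Ω (e l)) ≠ 0) ∧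
    (∃ e : Fin (p + 2) → k, pol f u x (fun l => algebraMap k Ω (e l)) ≠ 0) ∧
    ∃ J : Finset (Fin (p + 1)), J.card = p - 1 ∧
      AlgebraicIndependent k (Sum.elim (fun j : Fin (p + 1) => x j.succ)
        (fun j : J => u (Fin.succ j.1))) ∧
      (∀ a : Ω, IsAlgebraic (IntermediateField.adjoin k
        (Set.range (Sum.elim (fun j : Fin (p + 1) => x j.succ)
          (fun j : J => u (Fin.succ j.1))))) a)

/-- SPA: the second root specialises to a point of a plane `P(U)` defined over `k`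
(from PAIR, RK) -/
def SpecSpA : Prop :=
  ∀ (p : ℕ) [Fact p.Prime] (k : Type u) [Field k] [IsAlgClosed k] [CharP k p]
    (f : MvPolynomial (Idx (p + 2)) k), Good p 2 f →
  ∃ (Ω : Type u) (_ : Field Ω) (_ : IsAlgClosed Ω) (_ : Algebra k Ω) (x z : Fin (p + 2) → Ω),
    x 0 = 1 ∧ z 0 = 1 ∧ AlgebraicIndependent k (fun j : Fin (p + 1) => x j.succ) ∧
    (∀ a : Ω, IsAlgebraic (IntermediateField.adjoin k
      (Set.range (fun j : Fin (p + 1) => x j.succ))) a) ∧
    al f x z = 0 ∧ al f z x = 0 ∧ cf f x z 1 ≠ 0 ∧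
    (∃ e : Fin (p + 2) → k, pol f x z (fun l => algebraMap k Ω (e l)) ≠ 0) ∧
    (∃ e : Fin (p + 2) → k, pol f z x (fun l => algebraMap k Ω (e l)) ≠ 0) ∧
    (∃ E : Fin 5 → Fin (p + 2) → k,
      (Matrix.of fun i j : Fin 5 => pol f z (fun l => algebraMap k Ω (E i l))
        (fun l => algebraMap k Ω (E j l))).det ≠ 0) ∧
    ∃ J : Finset (Fin (p + 1)), J.card = p - 1 ∧ ∀ j ∈ J, ∃ c : k, z (Fin.succ j) = algebraMap k Ω c

/-- TL (Tsen-Lang): quadratic forms in 5 variables over `k(s, t)` have zeros (from CZ) -/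
def SpecTL : Prop :=
  ∀ (k : Type u) [Field k] [IsAlgClosed k] (A : Fin 5 → Fin 5 → MvPolynomial (Fin 2) k),
    ∃ z : Fin 5 → MvPolynomial (Fin 2) k, z ≠ 0 ∧ ∑ i, ∑ j, A i j * z i * z j = 0

/-- LA: a generic `x` over a purely transcendental field, whose quadric has a smooth point
(from SPA, TL) -/
def SpecLA : Prop :=
  ∀ (p : ℕ) [Fact p.Prime] (k : Type u) [Field k] [IsAlgClosed k] [CharP k p]
    (f : MvPolynomial (Idx (p + 2)) k), Good p 2 f →
  ∃ (M : ℕ) (x z : Fin (p + 2) → FractionRing (MvPolynomial (Fin M) k)),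
    x 0 = 1 ∧ AlgebraicIndependent k (fun j : Fin (p + 1) => x j.succ) ∧
    al f x z = 0 ∧ ∃ e, pol f x z e ≠ 0

/-- FA: type (A) with any number of parameters (from LA, RK, CH, GEN, PT1) -/
def SpecFA : Prop :=
  ∀ (p : ℕ) [Fact p.Prime] (k : Type u) [Field k] [IsAlgClosed k] [CharP k p]
    (f : MvPolynomial (Idx (p + 2)) k), Good p 2 f →
  ∃ (M : ℕ) (φ : MvPolynomial (Ch p) k →ₐ[k] FractionRing (MvPolynomial (Fin M) k)),
    ∀ h, φ h = 0 ↔ chart f ∣ h

/-! ## assembly -/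

theorem goalA (hF : SpecFA.{u}) (hC : SpecCh.{u}) (hR : SpecRed.{u}) : GoalA.{u} := by
  intro p _ k _ _ _ h5 f hs hsm
  have hg : Good p 2 f := ⟨h5, Or.inl rfl, hs, hsm⟩
  obtain ⟨M, φ, hφ⟩ := hF p k f hg
  have h1 := hR k (Ch p) (chart f) M φ (hC p k 2 f hg) hφ
  have h2 : Fintype.card (Ch p) - 1 = 2 * p := by
    simp [Ch, Fintype.card_sum]
    omega
  rwa [h2] at h1

theorem goalB (hF : SpecFB.{u}) (hR : SpecRed.{u}) : GoalB.{u} := by
  intro p _ k _ _ _ h5 f hs hsm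
  have hg : Good p 4 f := ⟨h5, Or.inr rfl, hs, hsm⟩
  obtain ⟨hp, M, φ, hφ⟩ := hF p k f hg
  have h1 := hR k (Option (Ch p)) (dbl f) M φ hp hφ
  have h2 : Fintype.card (Option (Ch p)) - 1 = 2 * p + 1 := by
    simp [Ch, Fintype.card_sum]
    omega
  rwa [h2] at h1

end MPcfca
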