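import Pool.Agent.Lib.MP_cfca38_ag.Defs

section
/-! MP_cfca38_ag: the toolbox EQ. The transformation law in every commutative algebra,
and its consequences for `al f x w = f(x, w; 1, 0)` and for the coefficients
`cf f v w i` of `f(v, w; 1, t)`. -/
set_option autoImplicit false
set_option linter.unusedSimpArgs false

namespace MPcfca

open MvPolynomial

universe u

section defs
variable {N : ℕ} {k : Type u} [Field k]

/-- `al f x w = f(x, w; 1, 0)` -/
noncomputable def al (f : MvPolynomial (Idx N) k) {A : Type u} [CommRing A] [Algebra k A]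
    (x w : Fin N → A) : A := ev f x w 1 0

/-- the coefficient of `t^i` in `f(v, w; 1, t)` -/
noncomputable def cf (f : MvPolynomial (Idx N) k) {A : Type u} [CommRing A] [Algebra k A]
    (v w : Fin N → A) (i : ℕ) : A :=
  (ev f (A := Polynomial A) (fun j => Polynomial.C (v j)) (fun j => Polynomial.C (w j)) 1
    Polynomial.X).coeff i

/-- the coefficient of `t^i` in `al f x (w + t d)` -/
noncomputable def hc (f : MvPolynomial (Idx N) k) {A : Type u} [CommRing A] [Algebra k A]
    (x w d : Fin N → A) (i : ℕ) : A :=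
  (al f (A := Polynomial A) (fun j => Polynomial.C (x j))
    (fun j => Polynomial.C (w j) + Polynomial.X * Polynomial.C (d j))).coeff i

end defs

section base
variable {N : ℕ} {k : Type u} [Field k] (f : MvPolynomial (Idx N) k)
variable {A B : Type u} [CommRing A] [Algebra k A] [CommRing B] [Algebra k B]

theorem ev_map (φ : A →ₐ[k] B) (v w : Fin N → A) (X Y : A) :
    φ (ev f v w X Y) = ev f (fun j => φ (v j)) (fun j => φ (w j)) (φ X) (φ Y) := by
  unfold ev
  rw [← AlgHom.comp_apply, comp_aeval]
  congr 2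
  funext i
  rcases i with ij | l
  · simp only [Sum.elim_inl]
    split_ifs <;> rfl
  · simp only [Sum.elim_inr]
    split_ifs <;> rfl

theorem al_map (φ : A →ₐ[k] B) (x w : Fin N → A) :
    φ (al f x w) = al f (fun j => φ (x j)) (fun j => φ (w j)) := by
  unfold al
  rw [ev_map, map_one, map_zero]

/-- evaluation at a point of the algebra `A`, as an algebra map `A[t] → A` -/
noncomputable def evA (k : Type u) [Field k] {A : Type u} [CommRing A] [Algebra k A] (t : A) :
    Polynomial A →ₐ[k] A :=
  (Polynomial.aeval (R := A) t).restrictScalars k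

theorem evA_C (t a : A) : evA k t (Polynomial.C a) = a := by
  simp [evA]

theorem evA_X (t : A) : evA k t (Polynomial.X : Polynomial A) = t := by
  simp [evA]

theorem evA_eval (t : A) (P : Polynomial A) : evA k t P = P.eval t := by
  simp [evA, Polynomial.aeval_def, Polynomial.eval₂_eq_eval_map]

theorem cf_map (φ : A →ₐ[k] B) (v w : Fin N → A) (i : ℕ) :
    φ (cf f v w i) = cf f (fun j => φ (v j)) (fun j => φ (w j)) i := by
  unfold cf
  have h := ev_map f (Polynomial.mapAlgHom φ) (fun j => Polynomial.C (v j))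
    (fun j => Polynomial.C (w j)) 1 Polynomial.X
  simp only [Polynomial.coe_mapAlgHom, Polynomial.map_C, Polynomial.map_one,
    Polynomial.map_X] at h
  have h2 := congrArg (fun P : Polynomial B => P.coeff i) h
  simp only [Polynomial.coeff_map] at h2
  exact h2

theorem hc_map (φ : A →ₐ[k] B) (x w d : Fin N → A) (i : ℕ) :
    φ (hc f x w d i) = hc f (fun j => φ (x j)) (fun j => φ (w j)) (fun j => φ (d j)) i := by
  unfold hc
  have h := al_map f (Polynomial.mapAlgHom φ) (fun j => Polynomial.C (x j))
    (fun j => Polynomial.C (w j) + Polynomial.X * Polynomial.C (d j))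
  simp only [Polynomial.coe_mapAlgHom, Polynomial.map_C, Polynomial.map_add,
    Polynomial.map_mul, Polynomial.map_X] at h
  have h2 := congrArg (fun P : Polynomial B => P.coeff i) h
  simp only [Polynomial.coeff_map] at h2
  exact h2

end base

section ext
variable {N : ℕ} {k : Type u} [Field k] [Infinite k] (f : MvPolynomial (Idx N) k)

/-- the ring of the universal identities -/
abbrev RU (N : ℕ) (k : Type u) [Field k] : Type u := MvPolynomial (Idx N ⊕ Fin 4) k

/-- the point of `A` with given coordinates -/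
def ptU {A : Type u} (v w : Fin N → A) (X Y a b c d : A) : Idx N ⊕ Fin 4 → A :=
  Sum.elim (Sum.elim (fun ij : Fin 2 × Fin N => if ij.1 = 0 then v ij.2 else w ij.2)
    (fun l : Fin 2 => if l = 0 then X else Y)) ![a, b, c, d]

omit [Field k] [Infinite k] in
theorem ev_surj (z : Idx N ⊕ Fin 4 → k) : ∃ v w X Y a b c d,
    z = ptU v w X Y a b c d := by
  refine ⟨fun j => z (Sum.inl (Sum.inl (0, j))), fun j => z (Sum.inl (Sum.inl (1, j))),
    z (Sum.inl (Sum.inr 0)), z (Sum.inl (Sum.inr 1)), z (Sum.inr 0), z (Sum.inr 1),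
    z (Sum.inr 2), z (Sum.inr 3), ?_⟩
  funext i
  unfold ptU
  rcases i with (⟨i, j⟩ | l) | r
  · fin_cases i <;> simp
  · fin_cases l <;> simp
  · fin_cases r <;> simp

variable {A : Type u} [CommRing A] [Algebra k A]

/-- an identity between two universal elements which holds at all points of `k` with
`a d - b c` not zero holds in all algebras. -/
theorem univ_id (P Q : RU N k)
    (h : ∀ (v w : Fin N → k) (X Y a b c d : k), a * d - b * c ≠ 0 →
      aeval (ptU v w X Y a b c d) P = aeval (ptU v w X Y a b c d) Q) : P = Q := by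
  have h1 : (P - Q) * (X (Sum.inr 0) * X (Sum.inr 3) - X (Sum.inr 1) * X (Sum.inr 2)) = 0 := by
    apply MvPolynomial.funext
    intro z
    obtain ⟨v, w, x, y, a, b, c, d, rfl⟩ := ev_surj z
    by_cases hd : a * d - b * c = 0
    · simp only [map_mul, map_sub, eval_X, map_zero]
      have e0 : ptU v w x y a b c d (Sum.inr 0) = a := rfl
      have e1 : ptU v w x y a b c d (Sum.inr 1) = b := rfl
      have e2 : ptU v w x y a b c d (Sum.inr 2) = c := rfl
      have e3 : ptU v w x y a b c d (Sum.inr 3) = d := rfl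
      rw [e0, e1, e2, e3, hd, mul_zero]
    · have h2 := h v w x y a b c d hd
      rw [aeval_eq_eval] at h2
      rw [map_mul, map_sub, h2, sub_self, zero_mul, map_zero]
  rcases mul_eq_zero.mp h1 with h2 | h2
  · exact sub_eq_zero.mp h2
  · exfalso
    have h3 := congrArg (eval (ptU (0 : Fin N → k) 0 0 0 1 0 0 1)) h2
    simp only [map_mul, map_sub, eval_X, map_zero] at h3
    have e0 : ptU (N := N) (0 : Fin N → k) 0 0 0 1 0 0 1 (Sum.inr 0) = 1 := rfl
    have e1 : ptU (N := N) (0 : Fin N → k) 0 0 0 1 0 0 1 (Sum.inr 1) = 0 := rfl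
    have e2 : ptU (N := N) (0 : Fin N → k) 0 0 0 1 0 0 1 (Sum.inr 2) = 0 := rfl
    have e3 : ptU (N := N) (0 : Fin N → k) 0 0 0 1 0 0 1 (Sum.inr 3) = 1 := rfl
    rw [e0, e1, e2, e3] at h3
    simp at h3


/-- the universal point -/
noncomputable abbrev UV (N : ℕ) (k : Type u) [Field k] (j : Fin N) : RU N k :=
  X (Sum.inl (Sum.inl (0, j)))
noncomputable abbrev UW (N : ℕ) (k : Type u) [Field k] (j : Fin N) : RU N k :=
  X (Sum.inl (Sum.inl (1, j)))
noncomputable abbrev UX (N : ℕ) (k : Type u) [Field k] : RU N k := X (Sum.inl (Sum.inr 0))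
noncomputable abbrev UY (N : ℕ) (k : Type u) [Field k] : RU N k := X (Sum.inl (Sum.inr 1))
noncomputable abbrev US (N : ℕ) (k : Type u) [Field k] (i : Fin 4) : RU N k := X (Sum.inr i)

section pt
omit [Infinite k]
variable (v w : Fin N → A) (x y a b c d : A)

theorem pt_V (j : Fin N) : aeval (ptU v w x y a b c d) (UV N k j) = v j := by
  simp [ptU]
theorem pt_W (j : Fin N) : aeval (ptU v w x y a b c d) (UW N k j) = w j := by
  simp [ptU]
theorem pt_X : aeval (ptU v w x y a b c d) (UX N k) = x := by
  simp [ptU]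
theorem pt_Y : aeval (ptU v w x y a b c d) (UY N k) = y := by
  simp [ptU]
theorem pt_0 : aeval (ptU v w x y a b c d) (US N k 0) = a := by
  simp [ptU]
theorem pt_1 : aeval (ptU v w x y a b c d) (US N k 1) = b := by
  simp [ptU]
theorem pt_2 : aeval (ptU v w x y a b c d) (US N k 2) = c := by
  simp [ptU]
theorem pt_3 : aeval (ptU v w x y a b c d) (US N k 3) = d := by
  simp [ptU]

end pt

variable {f} {p m : ℕ}

theorem equi_all (h : IsSec p m f) (v w : Fin N → A) (x y a b c d : A) :
    ev f (fun j => a * v j + b * w j) (fun j => c * v j + d * w j) x y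
      = (a * d - b * c) ^ m * ev f v w (x * a ^ p + y * c ^ p) (x * b ^ p + y * d ^ p) := by
  have key : ev f (fun j => US N k 0 * UV N k j + US N k 1 * UW N k j)
      (fun j => US N k 2 * UV N k j + US N k 3 * UW N k j) (UX N k) (UY N k)
      = (US N k 0 * US N k 3 - US N k 1 * US N k 2) ^ m *
        ev f (UV N k) (UW N k) (UX N k * US N k 0 ^ p + UY N k * US N k 2 ^ p)
          (UX N k * US N k 1 ^ p + UY N k * US N k 3 ^ p) := by
    apply univ_id
    intro v w x y a b c d hd
    rw [ev_map, map_mul, map_pow, ev_map]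
    simp only [map_add, map_mul, map_pow, map_sub, pt_V, pt_W, pt_X, pt_Y, pt_0, pt_1, pt_2, pt_3]
    exact h.equi v w x y a b c d hd
  have h2 := congrArg (aeval (ptU v w x y a b c d)) key
  rw [ev_map, map_mul, map_pow, ev_map] at h2
  simp only [map_add, map_mul, map_pow, map_sub, pt_V, pt_W, pt_X, pt_Y, pt_0, pt_1, pt_2,
    pt_3] at h2
  exact h2

theorem hom_all (h : IsSec p m f) (v w : Fin N → A) (x y c : A) :
    ev f v w (c * x) (c * y) = c ^ m * ev f v w x y := by
  have key : ev f (UV N k) (UW N k) (US N k 2 * UX N k) (US N k 2 * UY N k)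
      = US N k 2 ^ m * ev f (UV N k) (UW N k) (UX N k) (UY N k) := by
    apply univ_id
    intro v w x y a b c d hd
    rw [ev_map, map_mul (aeval (ptU v w x y a b c d)) (US N k 2 ^ m), ev_map]
    simp only [map_add, map_mul, map_pow, map_sub, pt_V, pt_W, pt_X, pt_Y, pt_0, pt_1, pt_2, pt_3]
    exact h.hom v w x y c
  have h2 := congrArg (aeval (ptU v w x y 1 1 c 1)) key
  rw [ev_map, map_mul (aeval (ptU v w x y 1 1 c 1)) (US N k 2 ^ m), ev_map] at h2
  simp only [map_add, map_mul, map_pow, map_sub, pt_V, pt_W, pt_X, pt_Y, pt_0, pt_1, pt_2,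
    pt_3] at h2
  exact h2

/-! ### consequences for `al` -/

variable [hp : Fact p.Prime]

theorem ev_lin (h : IsSec p m f) (x w : Fin N → A) (c d y z : A) :
    ev f x (fun j => c * x j + d * w j) y z = d ^ m * ev f x w (y + z * c ^ p) (z * d ^ p) := by
  have h1 := equi_all h x w y z 1 0 c d
  have hp0 : p ≠ 0 := hp.out.ne_zero
  simp only [one_mul, zero_mul, add_zero, mul_one, sub_zero, one_pow, zero_pow hp0, mul_zero,
    zero_add] at h1
  exact h1

theorem ev_lin' (h : IsSec p m f) (x w : Fin N → A) (a b y z : A) :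
    ev f (fun j => a * x j + b * w j) w y z = a ^ m * ev f x w (y * a ^ p) (y * b ^ p + z) := by
  have h1 := equi_all h x w y z a b 0 1
  have hp0 : p ≠ 0 := hp.out.ne_zero
  simp only [one_mul, zero_mul, add_zero, mul_one, sub_zero, one_pow, zero_pow hp0, mul_zero,
    zero_add] at h1
  exact h1

theorem al_lin (h : IsSec p m f) (x w : Fin N → A) (c d : A) :
    al f x (fun j => c * x j + d * w j) = d ^ m * al f x w := by
  unfold al
  rw [ev_lin h]
  simp

theorem al_add (h : IsSec p m f) (x w : Fin N → A) (c : A) :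
    al f x (fun j => w j + c * x j) = al f x w := by
  have h1 := al_lin h x w c 1
  simp only [one_mul, one_pow] at h1
  rw [← h1]
  congr 1
  funext j
  ring

theorem al_smul (h : IsSec p m f) (x w : Fin N → A) (d : A) :
    al f x (fun j => d * w j) = d ^ m * al f x w := by
  have h1 := al_lin h x w 0 d
  simp only [zero_mul, zero_add] at h1
  exact h1

/-- `al` on a line through `w`: `f(a x + b w, w; 1, 0) = a^m f(x, w; a^p, b^p)` -/
theorem al_line (h : IsSec p m f) (x w : Fin N → A) (a b : A) :
    al f (fun j => a * x j + b * w j) w = a ^ m * ev f x w (a ^ p) (b ^ p) := by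
  unfold al
  rw [ev_lin' h]
  simp

theorem al_smul_left (h : IsSec p m f) (x w : Fin N → A) (a : A) :
    al f (fun j => a * x j) w = a ^ (m * (p + 1)) * al f x w := by
  have h1 := al_line h x w a 0
  have hp0 : p ≠ 0 := hp.out.ne_zero
  have h2 := hom_all h x w 1 0 (a ^ p)
  simp only [zero_mul, add_zero, zero_pow hp0] at h1
  simp only [mul_one, mul_zero] at h2
  rw [h1, h2]
  unfold al
  ring

/-- exchanging the two vectors of the frame -/
theorem ev_swap (h : IsSec p m f) (v w : Fin N → A) (y z : A) :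
    ev f w v y z = (-1) ^ m * ev f v w z y := by
  have h1 := equi_all h v w y z 0 1 1 0
  have hp0 : p ≠ 0 := hp.out.ne_zero
  simp only [one_mul, zero_mul, add_zero, mul_one, zero_sub, one_pow, zero_pow hp0, mul_zero,
    zero_add] at h1
  exact h1

end ext

section coeffs
variable {N : ℕ} {k : Type u} [Field k] {f : MvPolynomial (Idx N) k}
variable {A : Type u} [CommRing A] [Algebra k A] {p m : ℕ}

/-- the monomial in `v, w` of the exponent `s` -/
def mo (v w : Fin N → A) (s : Idx N →₀ ℕ) : A :=
  ∏ ij : Fin 2 × Fin N, (if ij.1 = 0 then v ij.2 else w ij.2) ^ s (Sum.inl ij)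

theorem ev_expand (v w : Fin N → A) (x y : A) :
    ev f v w x y = ∑ s ∈ f.support, algebraMap k A (coeff s f) * mo v w s *
      x ^ s (Sum.inr 0) * y ^ s (Sum.inr 1) := by
  unfold ev mo
  rw [aeval_def, eval₂_eq']
  apply Finset.sum_congr rfl
  intro s _
  rw [Fintype.prod_sum_type]
  simp only [Sum.elim_inl, Sum.elim_inr, Fin.prod_univ_two]
  simp [mul_assoc]

theorem mo_C (v w : Fin N → A) (s : Idx N →₀ ℕ) :
    mo (fun j => Polynomial.C (v j)) (fun j => Polynomial.C (w j)) s
      = Polynomial.C (mo v w s) := by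
  unfold mo
  rw [map_prod]
  apply Finset.prod_congr rfl
  intro ij _
  split_ifs <;> simp

theorem supp_deg [Infinite k] (h : IsSec p m f) (s : Idx N →₀ ℕ) (hs : s ∈ f.support) :
    s (Sum.inr 0) + s (Sum.inr 1) = m := by
  classical
  by_contra hne
  let A := MvPolynomial (Idx N) k
  let V : Fin N → A := fun j => X (Sum.inl (0, j))
  let W : Fin N → A := fun j => X (Sum.inl (1, j))
  let x : A := X (Sum.inr 0)
  let y : A := X (Sum.inr 1)
  have hself : ev f V W x y = f := by
    unfold ev
    conv_rhs => rw [← aeval_X_left_apply f]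
    congr 2
    funext i
    rcases i with ⟨i, j⟩ | l
    · fin_cases i <;> simp [V, W]
    · fin_cases l <;> simp [x, y]
  have h1 := hom_all h (A := Polynomial A) (fun j => Polynomial.C (V j))
    (fun j => Polynomial.C (W j)) (Polynomial.C x) (Polynomial.C y) Polynomial.X
  have h2 : ev f (fun j => Polynomial.C (V j)) (fun j => Polynomial.C (W j))
      (Polynomial.C x) (Polynomial.C y) = Polynomial.C (ev f V W x y) := by
    have := ev_map f (Polynomial.CAlgHom (R := k) (A := A)) V W x y
    simpa using this.symm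
  rw [h2, hself] at h1
  have hterm : ∀ r : Idx N →₀ ℕ, algebraMap k A (coeff r f) * mo V W r *
      x ^ r (Sum.inr 0) * y ^ r (Sum.inr 1) = monomial r (coeff r f) := by
    intro r
    rw [monomial_eq, Finsupp.prod_fintype _ _ (fun i => pow_zero _), Fintype.prod_sum_type]
    unfold mo
    rw [Fin.prod_univ_two, ← mul_assoc, ← mul_assoc]
    congr 2
    rw [algebraMap_eq]
    congr 1
    apply Finset.prod_congr rfl
    rintro ⟨i, j⟩ _
    fin_cases i <;> simp [V, W]
  have h4 : ev f (fun j => Polynomial.C (V j)) (fun j => Polynomial.C (W j))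
      (Polynomial.X * Polynomial.C x) (Polynomial.X * Polynomial.C y)
      = ∑ r ∈ f.support, Polynomial.C (monomial r (coeff r f)) *
        Polynomial.X ^ (r (Sum.inr 0) + r (Sum.inr 1)) := by
    rw [ev_expand]
    apply Finset.sum_congr rfl
    intro r _
    rw [mo_C, ← hterm r, mul_pow, mul_pow, pow_add]
    simp only [map_mul, map_pow]
    have : (algebraMap k (Polynomial A)) (coeff r f) = Polynomial.C (algebraMap k A (coeff r f)) := rfl
    rw [this]
    ring
  rw [h4] at h1
  have h3 := congrArg (fun P : Polynomial A => P.coeff (s (Sum.inr 0) + s (Sum.inr 1))) h1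
  simp only [Polynomial.finsetSum_coeff, Polynomial.coeff_C_mul, Polynomial.coeff_X_pow,
    Polynomial.coeff_mul_C, if_neg hne, zero_mul, mul_ite, mul_one, mul_zero] at h3
  have h5 := congrArg (fun P : A => MvPolynomial.coeff s P) h3
  rw [MvPolynomial.coeff_sum, MvPolynomial.coeff_zero, Finset.sum_eq_single s] at h5
  · rw [if_pos rfl, coeff_monomial, if_pos rfl] at h5
    exact (mem_support_iff.mp hs) h5
  · intro r _ hrs
    split_ifs
    · rw [coeff_monomial, if_neg hrs]
    · simp
  · intro h6
    exact absurd hs h6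

/-- the coefficients -/
theorem cf_expand (v w : Fin N → A) (i : ℕ) :
    cf f v w i = ∑ s ∈ f.support, if s (Sum.inr 1) = i then
      algebraMap k A (coeff s f) * mo v w s else 0 := by
  classical
  unfold cf
  rw [ev_expand, Polynomial.finsetSum_coeff]
  apply Finset.sum_congr rfl
  intro s _
  have : (algebraMap k (Polynomial A)) (coeff s f) = Polynomial.C (algebraMap k A (coeff s f)) := rfl
  rw [this, mo_C, one_pow, mul_one, ← map_mul, Polynomial.coeff_C_mul, Polynomial.coeff_X_pow]
  split_ifs with h1 h2 h2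
  · simp
  · exact absurd h1.symm h2
  · exact absurd h2.symm h1
  · simp

theorem cf_zero_of_lt [Infinite k] (h : IsSec p m f) (v w : Fin N → A) {i : ℕ} (hi : m < i) :
    cf f v w i = 0 := by
  rw [cf_expand]
  apply Finset.sum_eq_zero
  intro s hs
  rw [if_neg]
  have := supp_deg h s hs
  omega

theorem ev_sum [Infinite k] (h : IsSec p m f) (v w : Fin N → A) (x y : A) :
    ev f v w x y = ∑ i ∈ Finset.range (m + 1), cf f v w i * x ^ (m - i) * y ^ i := by
  classical
  simp only [cf_expand, Finset.sum_mul]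
  rw [Finset.sum_comm, ev_expand]
  apply Finset.sum_congr rfl
  intro s hs
  have hd := supp_deg h s hs
  rw [Finset.sum_eq_single (s (Sum.inr 1))]
  · rw [if_pos rfl]
    congr 2
    congr 1
    omega
  · intro i _ hi
    rw [if_neg (Ne.symm hi)]
    simp
  · intro hi
    exfalso
    apply hi
    rw [Finset.mem_range]
    omega

theorem cf_zero (v w : Fin N → A) : cf f v w 0 = al f v w := by
  unfold cf al
  rw [Polynomial.coeff_zero_eq_eval_zero, ← evA_eval (k := k), ev_map]
  simp [evA_C, evA_X]

theorem cf_top [Infinite k] (h : IsSec p m f) (v w : Fin N → A) :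
    cf f v w m = ev f v w 0 1 := by
  rw [ev_sum h v w 0 1, Finset.sum_eq_single m]
  · simp
  · intro i hi him
    rw [Finset.mem_range] at hi
    have : m - i ≠ 0 := by omega
    rw [zero_pow this]
    simp
  · intro hm
    exact absurd (Finset.mem_range.mpr (Nat.lt_succ_self m)) hm

end coeffs

end MPcfca
end

section
/-! MP_cfca38_ag: the toolbox QUART. The point `2D - 3P` on `s^2 = q(t)`, for a quartic `q`,
and the expansion of a homogeneous polynomial along a line. -/
set_option autoImplicit false
set_option linter.unusedSimpArgs false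

namespace MPcfca

open MvPolynomial

universe u v

section quart
variable {A : Type u} [CommRing A]

def TT (c : ℕ → A) : A := 8 * c 0 ^ 2 * c 3 - 4 * c 0 * c 1 * c 2 + c 1 ^ 3

def DD (c : ℕ → A) : A := (4 * c 0 * c 2 - c 1 ^ 2) ^ 2 - 64 * c 0 ^ 3 * c 4

def SS (c : ℕ → A) : A :=
  DD c ^ 2 + 4 * c 1 * DD c * TT c + 8 * (4 * c 0 * c 2 - c 1 ^ 2) * TT c ^ 2

theorem quart_id (c : ℕ → A) :
    c 0 * DD c ^ 4 + c 1 * DD c ^ 3 * (8 * c 0 * TT c) + c 2 * DD c ^ 2 * (8 * c 0 * TT c) ^ 2
      + c 3 * DD c * (8 * c 0 * TT c) ^ 3 + c 4 * (8 * c 0 * TT c) ^ 4 = c 0 * SS c ^ 2 := by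
  unfold SS DD TT
  ring

/-- the coefficients after the substitution `t ↦ (1 + e t, l t)` -/
def shc (c : ℕ → A) (l e : A) : ℕ → A
  | 0 => c 0
  | 1 => 4 * e * c 0 + l * c 1
  | 2 => 6 * e ^ 2 * c 0 + 3 * e * l * c 1 + l ^ 2 * c 2
  | 3 => 4 * e ^ 3 * c 0 + 3 * e ^ 2 * l * c 1 + 2 * e * l ^ 2 * c 2 + l ^ 3 * c 3
  | 4 => e ^ 4 * c 0 + e ^ 3 * l * c 1 + e ^ 2 * l ^ 2 * c 2 + e * l ^ 3 * c 3 + l ^ 4 * c 4
  | _ => 0

theorem TT_shc (c : ℕ → A) (l e : A) : TT (shc c l e) = l ^ 3 * TT c := by
  simp only [TT, shc]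
  ring

theorem DD_shc (c : ℕ → A) (l e : A) :
    DD (shc c l e) = l ^ 4 * DD c - 8 * e * l ^ 3 * c 0 * TT c := by
  simp only [TT, DD, shc]
  ring

theorem TT_smul (c : ℕ → A) (l : A) : TT (fun i => l * c i) = l ^ 3 * TT c := by
  simp only [TT]
  ring

theorem DD_smul (c : ℕ → A) (l : A) : DD (fun i => l * c i) = l ^ 4 * DD c := by
  simp only [DD]
  ring

theorem SS_smul (c : ℕ → A) (l : A) : SS (fun i => l * c i) = l ^ 8 * SS c := by
  simp only [SS, DD, TT]
  ring

/-- if `c 0 = 0` the values are powers of `c 1` -/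
theorem TT_root (c : ℕ → A) (h : c 0 = 0) : TT c = c 1 ^ 3 := by
  simp only [TT, h]
  ring

theorem DD_root (c : ℕ → A) (h : c 0 = 0) : DD c = c 1 ^ 4 := by
  simp only [DD, h]
  ring

theorem SS_root (c : ℕ → A) (h : c 0 = 0) : SS c = - 3 * c 1 ^ 8 := by
  simp only [SS, DD, TT, h]
  ring

/-- only `c 0, ..., c 4` matter -/
theorem TT_congr {c c' : ℕ → A} (h : ∀ i, i < 5 → c i = c' i) : TT c = TT c' := by
  simp only [TT]
  rw [h 0 (by norm_num), h 1 (by norm_num), h 2 (by norm_num), h 3 (by norm_num)]

theorem DD_congr {c c' : ℕ → A} (h : ∀ i, i < 5 → c i = c' i) : DD c = DD c' := by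
  simp only [DD]
  rw [h 0 (by norm_num), h 1 (by norm_num), h 2 (by norm_num), h 4 (by norm_num)]

theorem SS_congr {c c' : ℕ → A} (h : ∀ i, i < 5 → c i = c' i) : SS c = SS c' := by
  have h1 := DD_congr h
  have h2 := TT_congr h
  simp only [SS]
  rw [h1, h2, h 0 (by norm_num), h 1 (by norm_num), h 2 (by norm_num)]

end quart

section qmap
variable {A : Type u} {B : Type v} [CommRing A] [CommRing B] (φ : A →+* B)

theorem TT_map (c : ℕ → A) : φ (TT c) = TT (fun i => φ (c i)) := by
  simp [TT, map_ofNat]

theorem DD_map (c : ℕ → A) : φ (DD c) = DD (fun i => φ (c i)) := by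
  simp [DD, map_ofNat]

theorem SS_map (c : ℕ → A) : φ (SS c) = SS (fun i => φ (c i)) := by
  simp [SS, DD, TT, map_ofNat]

end qmap

/-! ### lines -/

section line
variable {σ : Type} [Fintype σ] {K : Type u} [CommRing K]
variable {A B : Type v} [CommRing A] [Algebra K A] [CommRing B] [Algebra K B]

/-- the coefficient of `t^i` in `Q(w + t d)` -/
noncomputable def Qc (Q : MvPolynomial σ K) (w d : σ → A) (i : ℕ) : A :=
  (aeval (R := K) (fun j => Polynomial.C (w j) + Polynomial.X * Polynomial.C (d j)) Q :
    Polynomial A).coeff i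

theorem aeval_expand (Q : MvPolynomial σ K) (z : σ → A) :
    aeval z Q = ∑ s ∈ Q.support, algebraMap K A (coeff s Q) * ∏ j, z j ^ s j := by
  rw [aeval_def, eval₂_eq']

theorem hom_smul {m : ℕ} {Q : MvPolynomial σ K} (h : Q.IsHomogeneous m) (z : σ → A) (c : A) :
    aeval (fun j => c * z j) Q = c ^ m * aeval z Q := by
  rw [aeval_expand, aeval_expand, Finset.mul_sum]
  apply Finset.sum_congr rfl
  intro s hs
  have hd : ∑ j, s j = m := by
    have := h (mem_support_iff.mp hs)
    rw [← this]
    simp [Finsupp.weight_apply, Finsupp.sum_fintype]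
  simp only [mul_pow]
  rw [Finset.prod_mul_distrib, Finset.prod_pow_eq_pow_sum, hd]
  ring

omit [Fintype σ] in
theorem aeval_C' (Q : MvPolynomial σ K) (z : σ → A) :
    (aeval (R := K) (fun j => (Polynomial.C (z j) : Polynomial A)) Q) =
      Polynomial.C (aeval z Q) := by
  have h : (aeval (R := K) (fun j => (Polynomial.C (z j) : Polynomial A))) =
      (Polynomial.CAlgHom (R := K) (A := A)).comp (aeval z) := by
    apply MvPolynomial.algHom_ext
    intro i
    simp
  rw [h]
  rfl

theorem isHomogeneous_of (m : ℕ) (Q : MvPolynomial σ K)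
    (h : (aeval (R := K) (fun j => Polynomial.X * Polynomial.C (X j)) Q :
      Polynomial (MvPolynomial σ K)) = Polynomial.X ^ m * Polynomial.C Q) :
    Q.IsHomogeneous m := by
  have h1 : (aeval (R := K) (fun j => Polynomial.X * Polynomial.C (X j)) Q :
      Polynomial (MvPolynomial σ K)) = ∑ i ∈ Finset.range (Q.totalDegree + 1),
        Polynomial.X ^ i * Polynomial.C (homogeneousComponent i Q) := by
    conv_lhs => rw [← sum_homogeneousComponent Q]
    rw [map_sum]
    apply Finset.sum_congr rfl
    intro i _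
    rw [hom_smul (homogeneousComponent_isHomogeneous i Q)]
    rw [aeval_C', aeval_X_left_apply]
  rw [h1] at h
  have h3 : ∀ i, i ≠ m → i < Q.totalDegree + 1 → homogeneousComponent i Q = 0 := by
    intro i him hi
    have h4 := congrArg (fun P : Polynomial (MvPolynomial σ K) => P.coeff i) h
    simp only [Polynomial.finsetSum_coeff, Polynomial.coeff_mul_C, Polynomial.coeff_X_pow,
      if_neg him, zero_mul, ite_mul, one_mul] at h4
    rw [Finset.sum_eq_single i] at h4
    · rwa [if_pos rfl] at h4
    · intro j _ hj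
      rw [if_neg (Ne.symm hj)]
    · intro hn
      exact absurd (Finset.mem_range.mpr hi) hn
  have h5 : Q = homogeneousComponent m Q := by
    conv_lhs => rw [← sum_homogeneousComponent Q]
    by_cases hm : m < Q.totalDegree + 1
    · rw [Finset.sum_eq_single m]
      · intro j hj hjm
        exact h3 j hjm (Finset.mem_range.mp hj)
      · intro hn
        exact absurd (Finset.mem_range.mpr hm) hn
    · rw [Finset.sum_eq_zero, homogeneousComponent_eq_zero]
      · omega
      · intro j hj
        rw [Finset.mem_range] at hj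
        exact h3 j (by omega) hj
  rw [h5]
  exact homogeneousComponent_isHomogeneous m Q

omit [Fintype σ] in
theorem Qc_map (φ : A →ₐ[K] B) (Q : MvPolynomial σ K) (w d : σ → A) (i : ℕ) :
    φ (Qc Q w d i) = Qc Q (fun j => φ (w j)) (fun j => φ (d j)) i := by
  unfold Qc
  have h : (aeval (R := K) (fun j => (Polynomial.C (φ (w j)) + Polynomial.X *
      Polynomial.C (φ (d j)) : Polynomial B))) =
      (Polynomial.mapAlgHom φ).comp (aeval (R := K) (fun j => (Polynomial.C (w j) +
        Polynomial.X * Polynomial.C (d j) : Polynomial A))) := by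
    apply MvPolynomial.algHom_ext
    intro i
    simp
  rw [h]
  simp

omit [Fintype σ] in
theorem Qc_hasPoly (Q : MvPolynomial σ K) (w d : σ → A) (t : A) :
    aeval (fun j => w j + t * d j) Q =
      (aeval (R := K) (fun j => Polynomial.C (w j) + Polynomial.X * Polynomial.C (d j)) Q :
        Polynomial A).eval t := by
  have h : (aeval (R := K) (fun j => w j + t * d j)) =
      ((Polynomial.aeval (R := A) t).restrictScalars K).comp
        (aeval (R := K) (fun j => (Polynomial.C (w j) +
        Polynomial.X * Polynomial.C (d j) : Polynomial A))) := by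
    apply MvPolynomial.algHom_ext
    intro i
    simp
    exact mul_comm _ _
  rw [h]
  simp [Polynomial.aeval_def, Polynomial.eval₂_eq_eval_map]

omit [Fintype σ] in
/-- the expansion on the plane of `w` and `d` -/
theorem line_sum {m : ℕ} {Q : MvPolynomial σ K} (h : Q.IsHomogeneous m) (w d : σ → A)
    (y z : A) : aeval (fun j => y * w j + z * d j) Q =
      ∑ i ∈ Finset.range (m + 1), Qc Q w d i * y ^ (m - i) * z ^ i := by
  classical
  let g : MvPolynomial (Fin 2) A :=
    aeval (R := K) (fun j => X 0 * C (w j) + X 1 * C (d j)) Q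
  have hg : g.IsHomogeneous m := by
    have := IsHomogeneous.aeval (R := K) (S := A) (n := 1) h
      (fun j => (X 0 * C (w j) + X 1 * C (d j) : MvPolynomial (Fin 2) A)) (by
        intro j
        apply IsHomogeneous.add
        · have := (isHomogeneous_X A (0 : Fin 2)).mul (isHomogeneous_C (Fin 2) (w j))
          simpa using this
        · have := (isHomogeneous_X A (1 : Fin 2)).mul (isHomogeneous_C (Fin 2) (d j))
          simpa using this)
    simpa using this
  have hdeg : ∀ s ∈ g.support, s 0 + s 1 = m := by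
    intro s hs
    have := hg (mem_support_iff.mp hs)
    rw [← this]
    simp [Finsupp.weight_apply, Finsupp.sum_fintype, Fin.sum_univ_two]
  have h1 : ∀ (B : Type v) [CommRing B] [Algebra A B] [Algebra K B] [IsScalarTower K A B]
      (y z : B), aeval (R := K) (fun j => y * algebraMap A B (w j) + z * algebraMap A B (d j)) Q
        = ∑ s ∈ g.support, algebraMap A B (coeff s g) * y ^ s 0 * z ^ s 1 := by
    intro B _ _ _ _ y z
    have h2 : (aeval (R := K) (fun j => y * algebraMap A B (w j) + z * algebraMap A B (d j))) =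
        ((aeval (R := A) ![y, z]).restrictScalars K).comp
          (aeval (R := K) (fun j => (X 0 * C (w j) + X 1 * C (d j) : MvPolynomial (Fin 2) A)))
        := by
      apply MvPolynomial.algHom_ext
      intro i
      simp
    rw [h2]
    have h3 : (aeval (R := A) ![y, z]) g = ∑ s ∈ g.support, algebraMap A B (coeff s g) *
        y ^ s 0 * z ^ s 1 := by
      rw [aeval_expand]
      apply Finset.sum_congr rfl
      intro s _
      rw [Fin.prod_univ_two]
      simp [mul_assoc]
    exact h3
  have hc : ∀ i, Qc Q w d i = ∑ s ∈ g.support, if s 1 = i then coeff s g else 0 := by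
    intro i
    have h4 := h1 (Polynomial A) 1 Polynomial.X
    simp only [one_mul, one_pow, mul_one] at h4
    unfold Qc
    have h5 : (fun j => (Polynomial.C (w j) + Polynomial.X * Polynomial.C (d j) : Polynomial A))
        = fun j => algebraMap A (Polynomial A) (w j) +
          Polynomial.X * algebraMap A (Polynomial A) (d j) := rfl
    rw [h5, h4, Polynomial.finsetSum_coeff]
    apply Finset.sum_congr rfl
    intro s _
    rw [Polynomial.algebraMap_apply, Algebra.algebraMap_self, RingHom.id_apply,
      Polynomial.coeff_C_mul, Polynomial.coeff_X_pow]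
    split_ifs with h6 h7 h7
    · simp
    · exact absurd h6.symm h7
    · exact absurd h7.symm h6
    · simp
  have h8 := h1 A y z
  simp only [Algebra.algebraMap_self, RingHom.id_apply] at h8
  rw [h8]
  simp only [hc, Finset.sum_mul]
  rw [Finset.sum_comm]
  apply Finset.sum_congr rfl
  intro s hs
  have hd := hdeg s hs
  rw [Finset.sum_eq_single (s 1)]
  · rw [if_pos rfl]
    congr 2
    congr 1
    omega
  · intro i _ hi
    rw [if_neg (Ne.symm hi)]
    simp
  · intro hi
    exfalso
    apply hi
    rw [Finset.mem_range]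
    omega

omit [Fintype σ] in
theorem Qc_zero_of_lt {m : ℕ} {Q : MvPolynomial σ K} (h : Q.IsHomogeneous m) (w d : σ → A)
    {i : ℕ} (hi : m < i) : Qc Q w d i = 0 := by
  have h1 := line_sum h (fun j => (Polynomial.C (w j) : Polynomial A))
    (fun j => Polynomial.C (d j)) 1 Polynomial.X
  have h2 : ∀ j, Qc Q (fun j => (Polynomial.C (w j) : Polynomial A))
      (fun j => Polynomial.C (d j)) j = Polynomial.C (Qc Q w d j) := by
    intro j
    have := Qc_map (Polynomial.CAlgHom (R := K) (A := A)) Q w d j
    simpa using this.symm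
  simp only [one_mul, one_pow, mul_one, h2] at h1
  unfold Qc
  rw [h1, Polynomial.finsetSum_coeff]
  apply Finset.sum_eq_zero
  intro j hj
  rw [Finset.mem_range] at hj
  rw [Polynomial.coeff_C_mul, Polynomial.coeff_X_pow, if_neg (by omega), mul_zero]

omit [Fintype σ] in
theorem Qc_self_zero {m : ℕ} {Q : MvPolynomial σ K} (h : Q.IsHomogeneous m) (w d : σ → A) :
    Qc Q w d 0 = aeval w Q := by
  have h1 := line_sum h w d 1 0
  simp only [one_mul, zero_mul, add_zero, one_pow, mul_one] at h1
  rw [h1, Finset.sum_eq_single 0]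
  · simp
  · intro i _ hi
    rw [zero_pow hi, mul_zero]
  · intro hn
    exact absurd (Finset.mem_range.mpr (Nat.succ_pos m)) hn

/-! ### the H-move for a quartic form -/

/-- the point `2D - 3P` on the line through `w` in the direction `d` -/
noncomputable def mv (Q : MvPolynomial σ K) (w d : σ → A) : σ → A := fun j =>
  DD (Qc Q w d) * w j + 8 * Qc Q w d 0 * TT (Qc Q w d) * d j

omit [Fintype σ] in
theorem mv_map (φ : A →ₐ[K] B) (Q : MvPolynomial σ K) (w d : σ → A) (j : σ) :
    φ (mv Q w d j) = mv Q (fun j => φ (w j)) (fun j => φ (d j)) j := by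
  unfold mv
  have h1 : φ (DD (Qc Q w d)) = DD (fun i => φ (Qc Q w d i)) := DD_map (φ : A →+* B) _
  have h2 : φ (TT (Qc Q w d)) = TT (fun i => φ (Qc Q w d i)) := TT_map (φ : A →+* B) _
  rw [map_add, map_mul, map_mul, map_mul, map_mul, h1, h2]
  simp only [Qc_map, map_ofNat]

omit [Fintype σ] in
/-- change of direction -/
theorem Qc_shc {Q : MvPolynomial σ K} (h : Q.IsHomogeneous 4) (w d : σ → A) (l e : A) (i : ℕ)
    (hi : i < 5) : Qc Q w (fun j => l * d j + e * w j) i = shc (Qc Q w d) l e i := by
  have h1 : (aeval (R := K) (fun j => (Polynomial.C (w j) + Polynomial.X *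
      Polynomial.C (l * d j + e * w j) : Polynomial A))) Q =
      aeval (R := K) (fun j => (1 + Polynomial.C e * Polynomial.X) * Polynomial.C (w j) +
        (Polynomial.C l * Polynomial.X) * Polynomial.C (d j)) Q := by
    congr 2
    funext j
    simp only [map_add, map_mul]
    ring
  have h2 : ∀ j, Qc Q (fun j => (Polynomial.C (w j) : Polynomial A))
      (fun j => Polynomial.C (d j)) j = Polynomial.C (Qc Q w d j) := by
    intro j
    have := Qc_map (Polynomial.CAlgHom (R := K) (A := A)) Q w d j
    simpa using this.symm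
  have h3 : (aeval (R := K) (fun j => (Polynomial.C (w j) + Polynomial.X *
      Polynomial.C (l * d j + e * w j) : Polynomial A))) Q =
      Polynomial.C (shc (Qc Q w d) l e 0) + Polynomial.C (shc (Qc Q w d) l e 1) * Polynomial.X
      + Polynomial.C (shc (Qc Q w d) l e 2) * Polynomial.X ^ 2
      + Polynomial.C (shc (Qc Q w d) l e 3) * Polynomial.X ^ 3
      + Polynomial.C (shc (Qc Q w d) l e 4) * Polynomial.X ^ 4 := by
    rw [h1, line_sum h]
    simp only [Finset.sum_range_succ, Finset.sum_range_zero, h2, shc, map_add, map_mul, map_pow,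
      map_ofNat]
    ring
  unfold Qc at h3 ⊢
  rw [h3]
  simp only [Polynomial.coeff_add, Polynomial.coeff_C_mul, Polynomial.coeff_X_pow,
    Polynomial.coeff_C, Polynomial.coeff_X]
  interval_cases i <;> simp

omit [Fintype σ] in
/-- scaling of the base point -/
theorem Qc_smul_left {Q : MvPolynomial σ K} (h : Q.IsHomogeneous 4) (w d : σ → A) (c : A)
    (i : ℕ) (hi : i < 5) : Qc Q (fun j => c * w j) d i = c ^ (4 - i) * Qc Q w d i := by
  have h1 : (aeval (R := K) (fun j => (Polynomial.C (c * w j) + Polynomial.X *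
      Polynomial.C (d j) : Polynomial A))) Q =
      aeval (R := K) (fun j => Polynomial.C c * Polynomial.C (w j) +
        Polynomial.X * Polynomial.C (d j)) Q := by
    congr 2
    funext j
    simp only [map_mul]
  have h2 : ∀ j, Qc Q (fun j => (Polynomial.C (w j) : Polynomial A))
      (fun j => Polynomial.C (d j)) j = Polynomial.C (Qc Q w d j) := by
    intro j
    have := Qc_map (Polynomial.CAlgHom (R := K) (A := A)) Q w d j
    simpa using this.symm
  have h3 : (aeval (R := K) (fun j => (Polynomial.C (c * w j) + Polynomial.X *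
      Polynomial.C (d j) : Polynomial A))) Q =
      Polynomial.C (c ^ 4 * Qc Q w d 0) + Polynomial.C (c ^ 3 * Qc Q w d 1) * Polynomial.X
      + Polynomial.C (c ^ 2 * Qc Q w d 2) * Polynomial.X ^ 2
      + Polynomial.C (c * Qc Q w d 3) * Polynomial.X ^ 3
      + Polynomial.C (Qc Q w d 4) * Polynomial.X ^ 4 := by
    rw [h1, line_sum h]
    simp only [Finset.sum_range_succ, Finset.sum_range_zero, h2, map_mul, map_pow]
    ring
  unfold Qc at h3 ⊢
  rw [h3]
  simp only [Polynomial.coeff_add, Polynomial.coeff_C_mul, Polynomial.coeff_X_pow,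
    Polynomial.coeff_C, Polynomial.coeff_X]
  interval_cases i <;> simp

omit [Fintype σ] in
theorem DD_dir {Q : MvPolynomial σ K} (h : Q.IsHomogeneous 4) (w d : σ → A) (l e : A) :
    DD (Qc Q w (fun j => l * d j + e * w j)) =
      l ^ 4 * DD (Qc Q w d) - 8 * e * l ^ 3 * Qc Q w d 0 * TT (Qc Q w d) := by
  rw [DD_congr (Qc_shc h w d l e), DD_shc]

omit [Fintype σ] in
theorem TT_dir {Q : MvPolynomial σ K} (h : Q.IsHomogeneous 4) (w d : σ → A) (l e : A) :
    TT (Qc Q w (fun j => l * d j + e * w j)) = l ^ 3 * TT (Qc Q w d) := by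
  rw [TT_congr (Qc_shc h w d l e), TT_shc]

omit [Fintype σ] in
/-- the move depends only on the line -/
theorem mv_dir {Q : MvPolynomial σ K} (h : Q.IsHomogeneous 4) (w d : σ → A) (l e : A) (j : σ) :
    mv Q w (fun j => l * d j + e * w j) j = l ^ 4 * mv Q w d j := by
  have h0 : Qc Q w (fun j => l * d j + e * w j) 0 = Qc Q w d 0 := by
    rw [Qc_self_zero h, Qc_self_zero h]
  unfold mv
  rw [DD_dir h, TT_dir h, h0]
  ring

omit [Fintype σ] in
theorem mv_smul {Q : MvPolynomial σ K} (h : Q.IsHomogeneous 4) (w d : σ → A) (c : A) (j : σ) :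
    mv Q (fun j => c * w j) d j = c ^ 13 * mv Q w d j := by
  have h1 := Qc_smul_left h w d c
  have h0 := h1 0 (by norm_num)
  have h2 := h1 1 (by norm_num)
  have h3 := h1 2 (by norm_num)
  have h4 := h1 3 (by norm_num)
  have h5 := h1 4 (by norm_num)
  unfold mv TT DD
  rw [h0, h2, h3, h4, h5]
  simp only [Nat.sub_zero, Nat.reduceSub, pow_one, pow_zero, one_mul]
  ring

omit [Fintype σ] in
/-- the new point lies on the discriminant curve of the old one -/
theorem DD_mv {Q : MvPolynomial σ K} (h : Q.IsHomogeneous 4) (w d : σ → A) :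
    DD (Qc Q w (mv Q w d)) = 0 := by
  have h1 : mv Q w d = fun j => (8 * Qc Q w d 0 * TT (Qc Q w d)) * d j +
      DD (Qc Q w d) * w j := by
    funext j
    unfold mv
    ring
  rw [h1, DD_dir h]
  ring

omit [Fintype σ] in
theorem TT_mv {Q : MvPolynomial σ K} (h : Q.IsHomogeneous 4) (w d : σ → A) :
    TT (Qc Q w (mv Q w d)) = (8 * Qc Q w d 0 * TT (Qc Q w d)) ^ 3 * TT (Qc Q w d) := by
  have h1 : mv Q w d = fun j => (8 * Qc Q w d 0 * TT (Qc Q w d)) * d j +
      DD (Qc Q w d) * w j := by
    funext j
    unfold mv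
    ring
  rw [h1, TT_dir h]

omit [Fintype σ] in
/-- `Q(mv Q w d) = Q(w) SS^2` -/
theorem Q_mv {Q : MvPolynomial σ K} (h : Q.IsHomogeneous 4) (w d : σ → A) :
    aeval (mv Q w d) Q = aeval w Q * SS (Qc Q w d) ^ 2 := by
  have h1 := line_sum h w d (DD (Qc Q w d)) (8 * Qc Q w d 0 * TT (Qc Q w d))
  have h2 := quart_id (Qc Q w d)
  rw [← Qc_self_zero h w d, ← h2]
  have h3 : (fun j => DD (Qc Q w d) * w j + (8 * Qc Q w d 0 * TT (Qc Q w d)) * d j) =
      mv Q w d := by
    funext j
    unfold mv
    ring
  rw [h3] at h1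
  rw [h1]
  simp only [Finset.sum_range_succ, Finset.sum_range_zero]
  ring

omit [Fintype σ] in
/-- at a root the move does nothing -/
theorem mv_root {Q : MvPolynomial σ K} (h : Q.IsHomogeneous 4) (w d : σ → A)
    (hw : aeval w Q = 0) (j : σ) : mv Q w d j = Qc Q w d 1 ^ 4 * w j := by
  have h0 : Qc Q w d 0 = 0 := by rw [Qc_self_zero h, hw]
  unfold mv
  rw [DD_root _ h0, h0]
  ring

end line

end MPcfca
end

section
/-! MP_cfca38_ag: the toolbox VTOOL. Moves along a plane `V = <x, w>` (Frobenius twisted), and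
the quartic form `al f x` in the second vector. -/
set_option autoImplicit false
set_option linter.unusedSimpArgs false

namespace MPcfca

open MvPolynomial

universe u

section vtool
variable {N : ℕ} {k : Type u} [Field k] [Infinite k] {f : MvPolynomial (Idx N) k}
variable {A B : Type u} [CommRing A] [Algebra k A] [CommRing B] [Algebra k B]
variable {p m : ℕ} [hp : Fact p.Prime]

/-- the frame `(x, w)` gives the vector `x_1^(p) = vm f p x w` -/
noncomputable def vm (f : MvPolynomial (Idx N) k) (p : ℕ) (x w : Fin N → A) : Fin N → A := fun j =>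
  DD (cf f x w) * x j ^ p + 8 * cf f x w 0 * TT (cf f x w) * w j ^ p

omit [Infinite k] hp in
theorem vm_map (φ : A →ₐ[k] B) (x w : Fin N → A) (j : Fin N) :
    φ (vm f p x w j) = vm f p (fun j => φ (x j)) (fun j => φ (w j)) j := by
  unfold vm
  have h1 : φ (DD (cf f x w)) = DD (fun i => φ (cf f x w i)) := DD_map (φ : A →+* B) _
  have h2 : φ (TT (cf f x w)) = TT (fun i => φ (cf f x w i)) := TT_map (φ : A →+* B) _
  rw [map_add, map_mul, map_mul, map_mul, map_mul, map_pow, map_pow, h1, h2]
  simp only [cf_map, map_ofNat]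

omit hp in
/-- coefficients of `f(v, w; y, z)` for polynomial arguments -/
theorem ev_C_sum (h : IsSec p m f) (v w : Fin N → A) (y z : Polynomial A) :
    ev f (fun j => Polynomial.C (v j)) (fun j => Polynomial.C (w j)) y z =
      ∑ i ∈ Finset.range (m + 1), Polynomial.C (cf f v w i) * y ^ (m - i) * z ^ i := by
  rw [ev_sum h]
  apply Finset.sum_congr rfl
  intro i _
  have h2 : Polynomial.C (cf f v w i) = cf f (fun j => (Polynomial.C (v j) : Polynomial A))
      (fun j => Polynomial.C (w j)) i := by
    have := cf_map f (Polynomial.CAlgHom (R := k) (A := A)) v w i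
    simpa using this
  rw [h2]

theorem cf_smul_left (h : IsSec p m f) (v w : Fin N → A) (c : A) (i : ℕ) (hi : i ≤ m) :
    cf f (fun j => c * v j) w i = c ^ (m + p * (m - i)) * cf f v w i := by
  have h1 := ev_lin' h (fun j => (Polynomial.C (v j) : Polynomial A)) (fun j => Polynomial.C (w j))
    (Polynomial.C c) 0 1 Polynomial.X
  have hp0 : p ≠ 0 := hp.out.ne_zero
  simp only [zero_mul, add_zero, one_mul, zero_pow hp0, zero_add] at h1
  have h2 : (fun j => (Polynomial.C c * Polynomial.C (v j) : Polynomial A)) =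
      fun j => Polynomial.C (c * v j) := by
    funext j
    rw [map_mul]
  rw [h2, ev_C_sum h v w] at h1
  unfold cf
  rw [h1, ← map_pow, ← map_pow, Polynomial.coeff_C_mul, Polynomial.finsetSum_coeff,
    Finset.sum_eq_single i]
  · rw [← map_pow, ← map_mul, Polynomial.coeff_C_mul, Polynomial.coeff_X_pow, if_pos rfl]
    rw [pow_add, ← pow_mul]
    unfold cf
    ring
  · intro j _ hj
    rw [← map_pow, ← map_mul, Polynomial.coeff_C_mul, Polynomial.coeff_X_pow,
      if_neg (Ne.symm hj), mul_zero]
  · intro hn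
    exact absurd (Finset.mem_range.mpr (by omega)) hn

theorem cf_smul_right (h : IsSec p m f) (v w : Fin N → A) (c : A) (i : ℕ) (hi : i ≤ m) :
    cf f v (fun j => c * w j) i = c ^ (m + p * i) * cf f v w i := by
  have h1 := ev_lin h (fun j => (Polynomial.C (v j) : Polynomial A)) (fun j => Polynomial.C (w j))
    0 (Polynomial.C c) 1 Polynomial.X
  have hp0 : p ≠ 0 := hp.out.ne_zero
  simp only [zero_mul, add_zero, zero_add, zero_pow hp0, mul_zero] at h1
  have h2 : (fun j => (Polynomial.C c * Polynomial.C (w j) : Polynomial A)) =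
      fun j => Polynomial.C (c * w j) := by
    funext j
    rw [map_mul]
  rw [h2, ev_C_sum h v w] at h1
  unfold cf
  rw [h1, ← map_pow, ← map_pow, Polynomial.coeff_C_mul, Polynomial.finsetSum_coeff,
    Finset.sum_eq_single i]
  · rw [one_pow, mul_one, mul_pow, ← map_pow, Polynomial.coeff_C_mul, mul_comm (Polynomial.X ^ i),
      Polynomial.coeff_C_mul, Polynomial.coeff_X_pow, if_pos rfl]
    rw [pow_add, ← pow_mul]
    unfold cf
    ring
  · intro j _ hj
    rw [one_pow, mul_one, mul_pow, ← map_pow, Polynomial.coeff_C_mul, mul_comm (Polynomial.X ^ j),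
      Polynomial.coeff_C_mul, Polynomial.coeff_X_pow, if_neg (Ne.symm hj), mul_zero, mul_zero]
  · intro hn
    exact absurd (Finset.mem_range.mpr (by omega)) hn

/-- change of the second vector of the frame in its plane -/
theorem cf_shc (h : IsSec p 4 f) (v w : Fin N → A) (l e : A) (i : ℕ) (hi : i < 5) :
    cf f v (fun j => l * w j + e * v j) i = l ^ 4 * shc (cf f v w) (l ^ p) (e ^ p) i := by
  have h1 := ev_lin h (fun j => (Polynomial.C (v j) : Polynomial A)) (fun j => Polynomial.C (w j))
    (Polynomial.C e) (Polynomial.C l) 1 Polynomial.X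
  have h2 : (fun j => (Polynomial.C e * Polynomial.C (v j) + Polynomial.C l * Polynomial.C (w j) :
      Polynomial A)) = fun j => Polynomial.C (l * w j + e * v j) := by
    funext j
    rw [map_add, map_mul, map_mul]
    ring
  rw [h2, ev_C_sum h v w] at h1
  have h3 : (ev f (fun j => (Polynomial.C (v j) : Polynomial A))
      (fun j => Polynomial.C (l * w j + e * v j)) 1 Polynomial.X) =
      Polynomial.C (l ^ 4 * shc (cf f v w) (l ^ p) (e ^ p) 0)
      + Polynomial.C (l ^ 4 * shc (cf f v w) (l ^ p) (e ^ p) 1) * Polynomial.X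
      + Polynomial.C (l ^ 4 * shc (cf f v w) (l ^ p) (e ^ p) 2) * Polynomial.X ^ 2
      + Polynomial.C (l ^ 4 * shc (cf f v w) (l ^ p) (e ^ p) 3) * Polynomial.X ^ 3
      + Polynomial.C (l ^ 4 * shc (cf f v w) (l ^ p) (e ^ p) 4) * Polynomial.X ^ 4 := by
    rw [h1]
    simp only [Finset.sum_range_succ, Finset.sum_range_zero, shc, map_add, map_mul, map_pow,
      map_ofNat]
    ring
  show (ev f (A := Polynomial A) (fun j => Polynomial.C (v j))
    (fun j => Polynomial.C (l * w j + e * v j)) 1 Polynomial.X).coeff i = _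
  rw [h3]
  simp only [Polynomial.coeff_add, Polynomial.coeff_C_mul, Polynomial.coeff_X_pow,
    Polynomial.coeff_C, Polynomial.coeff_X]
  interval_cases i <;> simp

theorem TT_vdir (h : IsSec p 4 f) (v w : Fin N → A) (l e : A) :
    TT (cf f v (fun j => l * w j + e * v j)) = l ^ 12 * (l ^ p) ^ 3 * TT (cf f v w) := by
  rw [TT_congr (cf_shc h v w l e), TT_smul, TT_shc]
  ring

theorem DD_vdir (h : IsSec p 4 f) (v w : Fin N → A) (l e : A) :
    DD (cf f v (fun j => l * w j + e * v j)) = l ^ 16 * ((l ^ p) ^ 4 * DD (cf f v w)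
      - 8 * e ^ p * (l ^ p) ^ 3 * cf f v w 0 * TT (cf f v w)) := by
  rw [DD_congr (cf_shc h v w l e), DD_smul, DD_shc]
  ring

/-- the move depends only on the plane -/
theorem vm_dir [CharP A p] (h : IsSec p 4 f) (v w : Fin N → A) (l e : A) (j : Fin N) :
    vm f p v (fun j => l * w j + e * v j) j = l ^ 16 * (l ^ p) ^ 4 * vm f p v w j := by
  have h0 : cf f v (fun j => l * w j + e * v j) 0 = l ^ 4 * cf f v w 0 := by
    rw [cf_shc h v w l e 0 (by norm_num)]
    rfl
  unfold vm
  rw [DD_vdir h, TT_vdir h, h0, add_pow_char, mul_pow, mul_pow]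
  ring

/-- the new point: if `c^p = DD` and `l^p = 8 cf0 TT` then `x_1 = c x + l w` -/
theorem al_vm (h : IsSec p 4 f) (x w : Fin N → A) (c l : A) (hc : c ^ p = DD (cf f x w))
    (hl : l ^ p = 8 * cf f x w 0 * TT (cf f x w)) :
    al f (fun j => c * x j + l * w j) w = al f x w * (c ^ 2 * SS (cf f x w)) ^ 2 := by
  rw [al_line h, hc, hl, ev_sum h]
  have h2 := quart_id (cf f x w)
  have h3 := cf_zero (f := f) x w
  rw [← h3, mul_pow, ← mul_assoc, mul_comm (cf f x w 0), mul_assoc (_ ^ 2 : A) (cf f x w 0), ← h2]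
  simp only [Finset.sum_range_succ, Finset.sum_range_zero]
  ring

theorem DD_vm (h : IsSec p 4 f) (x w : Fin N → A) (c l : A) (hc : c ^ p = DD (cf f x w))
    (hl : l ^ p = 8 * cf f x w 0 * TT (cf f x w)) :
    DD (cf f x (fun j => l * w j + c * x j)) = 0 := by
  rw [DD_vdir h, hc, hl]
  ring

omit [Infinite k] hp in
/-- at a root the move does nothing -/
theorem vm_root (x w : Fin N → A) (hw : al f x w = 0) (j : Fin N) :
    vm f p x w j = cf f x w 1 ^ 4 * x j ^ p := by
  have h0 : cf f x w 0 = 0 := by rw [cf_zero, hw]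
  unfold vm
  rw [DD_root _ h0, h0]
  ring

end vtool

/-! ### the form `al f x` in the second vector -/

section form
variable {N : ℕ} {k : Type u} [Field k] [Infinite k] {f : MvPolynomial (Idx N) k}
variable {A B : Type u} [CommRing A] [Algebra k A] [CommRing B] [Algebra k B] [Algebra A B]
  [IsScalarTower k A B]
variable {p m : ℕ} [hp : Fact p.Prime]

/-- `al f x` as a polynomial in the second vector -/
noncomputable def Qx (f : MvPolynomial (Idx N) k) (x : Fin N → A) : MvPolynomial (Fin N) A :=
  al f (A := MvPolynomial (Fin N) A) (fun j => C (x j)) X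

omit [Infinite k] in
theorem aeval_Qx (x : Fin N → A) (w : Fin N → B) :
    aeval w (Qx f x) = al f (fun j => algebraMap A B (x j)) w := by
  unfold Qx
  have h := al_map f ((aeval (R := A) w).restrictScalars k) (fun j => C (x j)) X
  simp only [AlgHom.coe_restrictScalars', aeval_X, aeval_C] at h
  exact h

theorem Qx_hom (h : IsSec p m f) (x : Fin N → A) : (Qx f x).IsHomogeneous m := by
  apply isHomogeneous_of
  have h1 := aeval_Qx (f := f) (B := Polynomial (MvPolynomial (Fin N) A)) x
    (fun j => Polynomial.X * Polynomial.C (X j))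
  have h2 := al_smul h (A := Polynomial (MvPolynomial (Fin N) A))
    (fun j => algebraMap A _ (x j)) (fun j => Polynomial.C (X j)) Polynomial.X
  rw [h1, h2]
  congr 1
  have h3 := al_map f (Polynomial.CAlgHom (R := k) (A := MvPolynomial (Fin N) A))
    (fun j => C (x j)) X
  exact h3.symm

omit [Infinite k] in
theorem Qc_Qx (x : Fin N → A) (w d : Fin N → B) (i : ℕ) :
    Qc (Qx f x) w d i = hc f (fun j => algebraMap A B (x j)) w d i := by
  unfold Qc hc
  have h1 := aeval_Qx (f := f) (B := Polynomial B) x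
    (fun j => Polynomial.C (w j) + Polynomial.X * Polynomial.C (d j))
  rw [h1]
  rfl

/-- the H-move in the fibre of `x` -/
noncomputable def hm (f : MvPolynomial (Idx N) k) (x w d : Fin N → A) : Fin N → A := fun j =>
  DD (hc f x w d) * w j + 8 * hc f x w d 0 * TT (hc f x w d) * d j

omit [Infinite k] in
theorem mv_Qx (x : Fin N → A) (w d : Fin N → B) (j : Fin N) :
    mv (Qx f x) w d j = hm f (fun j => algebraMap A B (x j)) w d j := by
  unfold mv hm
  have h1 : (Qc (Qx f x) w d) = hc f (fun j => algebraMap A B (x j)) w d := by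
    funext i
    exact Qc_Qx x w d i
  rw [h1]

omit [Infinite k] [Algebra A B] [IsScalarTower k A B] in
theorem hm_map (φ : A →ₐ[k] B) (x w d : Fin N → A) (j : Fin N) :
    φ (hm f x w d j) = hm f (fun j => φ (x j)) (fun j => φ (w j)) (fun j => φ (d j)) j := by
  unfold hm
  have h1 : φ (DD (hc f x w d)) = DD (fun i => φ (hc f x w d i)) := DD_map (φ : A →+* B) _
  have h2 : φ (TT (hc f x w d)) = TT (fun i => φ (hc f x w d i)) := TT_map (φ : A →+* B) _
  rw [map_add, map_mul, map_mul, map_mul, map_mul, h1, h2]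
  simp only [hc_map, map_ofNat]

/-- `al f x (hm f x w d) = al f x w * SS^2` -/
theorem al_hm (h : IsSec p 4 f) (x w d : Fin N → A) :
    al f x (hm f x w d) = al f x w * SS (hc f x w d) ^ 2 := by
  have h1 := Q_mv (Qx_hom h x) w d
  rw [aeval_Qx, aeval_Qx] at h1
  have h2 : mv (Qx f x) w d = hm f x w d := by
    funext j
    rw [mv_Qx]
    rfl
  have h3 : Qc (Qx f x) w d = hc f x w d := by
    funext i
    rw [Qc_Qx]
    rfl
  rw [h2, h3] at h1
  exact h1

end form

end MPcfca
end
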